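import Mathlib

/-!
# Points of a metric space which are well approximated by the elements of a thin set

`S` is a set with a height `H` and at most `C X ^ (s + ε)` elements of height at most `X`, for every
`ε > 0`, and `c` a map from `S` to a metric space. The set of the points `ξ` for which infinitely
many `t ∈ S` satisfy `dist ξ (c t) ≤ A H(t) ^ (-τ)` for some `A` has Hausdorff dimension at
most `s / τ`.
-/

set_option autoImplicit false

open Filter Topology MeasureTheory Set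

namespace Q273.Apx

open scoped ENNReal NNReal

/-- one constant `A` -/
theorem dim_one {T Y : Type*} [MetricSpace Y] (S : Set T) (H : T → ℝ) (c : T → Y)
    {s τ D : ℝ} (hτ : 0 < τ) (hD : s < D * τ) (hD0 : 0 < D) (C A : ℝ) (hC : 0 ≤ C) (hA : 0 < A)
    (hS : ∀ X : ℝ, 1 ≤ X → {t | t ∈ S ∧ H t ≤ X}.Finite ∧
      ({t | t ∈ S ∧ H t ≤ X}.ncard : ℝ) ≤ C * X ^ s) :
    dimH {ξ : Y | ∀ n : ℕ, ∃ t ∈ S, (2 : ℝ) ^ n ≤ H t ∧ dist ξ (c t) ≤ A * (H t) ^ (-τ)} ≤
      ENNReal.ofReal D := by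
  let _ : MeasurableSpace Y := borel Y
  have _ : BorelSpace Y := ⟨rfl⟩
  have hDn : ((Real.toNNReal D : ℝ≥0) : ℝ) = D := Real.coe_toNNReal D hD0.le
  have hgoal : ENNReal.ofReal D = ((Real.toNNReal D : ℝ≥0) : ℝ≥0∞) := rfl
  rw [hgoal]
  apply dimH_le_of_hausdorffMeasure_ne_top
  rw [hDn]
  have h2 : ∀ n : ℕ, (1 : ℝ) ≤ (2 : ℝ) ^ (n + 1) := fun n => one_le_pow₀ (by norm_num)
  set U : ℕ → Finset T := fun m => (hS ((2 : ℝ) ^ (m + 1)) (h2 m)).1.toFinset with hU
  have hcard : ∀ m : ℕ, ((U m).card : ℝ) ≤ C * ((2 : ℝ) ^ (m + 1)) ^ s := by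
    intro m
    have h3 := (hS ((2 : ℝ) ^ (m + 1)) (h2 m)).2
    rwa [Set.ncard_eq_toFinset_card _ (hS ((2 : ℝ) ^ (m + 1)) (h2 m)).1] at h3
  set ρ : ℝ := (2 : ℝ) ^ (-τ) with hρ
  have hρ0 : 0 < ρ := Real.rpow_pos_of_pos two_pos _
  have hρ1 : ρ < 1 := Real.rpow_lt_one_of_one_lt_of_neg one_lt_two (by linarith)
  set r0 : ℕ → ℝ := fun n => 2 * (A * ρ ^ n) with hr0
  have hr0p : ∀ n, 0 < r0 n := fun n => by rw [hr0]; positivity
  have hpowρ : ∀ n : ℕ, ((2 : ℝ) ^ n) ^ (-τ) = ρ ^ n := by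
    intro n
    rw [hρ, ← Real.rpow_natCast, ← Real.rpow_mul two_pos.le, mul_comm, Real.rpow_mul two_pos.le,
      Real.rpow_natCast]
  set q : ℝ := (2 : ℝ) ^ (s - D * τ) with hq
  have hq0 : 0 < q := Real.rpow_pos_of_pos two_pos _
  have hq1 : q < 1 := Real.rpow_lt_one_of_one_lt_of_neg one_lt_two (by linarith)
  set K : ℝ := C * 2 ^ s * (2 * A) ^ D with hK
  have hlev : ∀ m : ℕ, ((U m).card : ℝ) * (r0 m) ^ D ≤ K * q ^ m := by
    intro m
    have e1 : ((2 : ℝ) ^ (m + 1)) ^ s = 2 ^ s * ((2 : ℝ) ^ s) ^ m := by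
      rw [pow_succ, Real.mul_rpow (by positivity) two_pos.le, mul_comm]
      congr 1
      rw [← Real.rpow_natCast, ← Real.rpow_natCast, ← Real.rpow_mul two_pos.le,
        ← Real.rpow_mul two_pos.le, mul_comm]
    have e2 : (r0 m) ^ D = (2 * A) ^ D * ((2 : ℝ) ^ (-(D * τ))) ^ m := by
      rw [hr0]
      simp only
      rw [← mul_assoc, Real.mul_rpow (by positivity) (by positivity)]
      congr 1
      rw [hρ, ← Real.rpow_natCast, ← Real.rpow_natCast, ← Real.rpow_mul two_pos.le,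
        ← Real.rpow_mul two_pos.le, ← Real.rpow_mul two_pos.le]
      congr 1
      ring
    calc ((U m).card : ℝ) * (r0 m) ^ D ≤ (C * ((2 : ℝ) ^ (m + 1)) ^ s) * (r0 m) ^ D :=
          mul_le_mul_of_nonneg_right (hcard m) (Real.rpow_nonneg (hr0p m).le _)
      _ = K * q ^ m := by
          rw [e1, e2, hK, hq]
          have e3 : ((2 : ℝ) ^ (s - D * τ)) = 2 ^ s * 2 ^ (-(D * τ)) := by
            rw [sub_eq_add_neg, Real.rpow_add two_pos]
          rw [e3, mul_pow]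
          ring
  have hsum : Summable (fun m : ℕ => K * q ^ m) :=
    (summable_geometric_of_lt_one hq0.le hq1).mul_left _
  have hr0t : Tendsto r0 atTop (𝓝 0) := by
    have h1 := (tendsto_pow_atTop_nhds_zero_of_lt_one hρ0.le hρ1).const_mul A
    rw [mul_zero] at h1
    have h3 := h1.const_mul 2
    rw [mul_zero] at h3
    exact h3
  have hr : ∀ ε : ℝ≥0∞, 0 < ε → ∃ N : ℕ, ∀ n : ℕ, N ≤ n → ENNReal.ofReal (r0 n) ≤ ε := by
    intro ε hε
    have h1 := ENNReal.tendsto_ofReal hr0t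
    rw [ENNReal.ofReal_zero] at h1
    exact ((h1.eventually (ge_mem_nhds hε))).exists_forall_of_atTop
  set r : ℕ → ℝ≥0∞ := fun n => ⨆ i : ℕ, ENNReal.ofReal (r0 (n + i)) with hrdef
  have hrt : Tendsto r atTop (𝓝 0) := by
    rw [ENNReal.tendsto_atTop_zero]
    intro ε hε
    obtain ⟨N, hN⟩ := hr ε hε
    exact ⟨N, fun n hn => iSup_le fun i => hN _ (by omega)⟩
  have hd : ∀ (n : ℕ) (p : Σ i : ℕ, (U (n + i))),
      Metric.ediam (Metric.closedBall (c (p.2 : T)) (A * ρ ^ (n + p.1))) ≤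
        ENNReal.ofReal (r0 (n + p.1)) := by
    intro n p
    rw [← Metric.closedEBall_ofReal (by positivity)]
    refine Metric.ediam_closedEBall_le.trans (le_of_eq ?_)
    rw [hr0, ENNReal.ofReal_mul two_pos.le, ENNReal.ofReal_ofNat]
  have key := Measure.hausdorffMeasure_le_liminf_tsum (X := Y) (β := ℕ)
    (ι := fun n => Σ i : ℕ, (U (n + i))) D
    {ξ : Y | ∀ n : ℕ, ∃ t ∈ S, (2 : ℝ) ^ n ≤ H t ∧ dist ξ (c t) ≤ A * (H t) ^ (-τ)}
    (l := atTop) r hrt
    (fun n p => Metric.closedBall (c (p.2 : T)) (A * ρ ^ (n + p.1)))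
    (Eventually.of_forall fun n p =>
      (hd n p).trans (le_iSup (fun i : ℕ => ENNReal.ofReal (r0 (n + i))) p.1))
    (Eventually.of_forall fun n ξ hξ => by
      obtain ⟨t, ht, htn, hdist⟩ := hξ n
      obtain ⟨m, hm1, hm2⟩ := exists_nat_pow_near (one_le_pow₀ (n := n) one_le_two |>.trans htn)
        one_lt_two
      have hnm : n ≤ m := by
        by_contra hcon
        push Not at hcon
        have h3 : (2 : ℝ) ^ (m + 1) ≤ 2 ^ n := pow_le_pow_right₀ one_le_two hcon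
        linarith
      obtain ⟨i, rfl⟩ := Nat.exists_eq_add_of_le hnm
      have hmem : t ∈ U (n + i) := by
        rw [hU, Set.Finite.mem_toFinset]
        exact ⟨ht, hm2.le⟩
      rw [Set.mem_iUnion]
      refine ⟨⟨i, ⟨_, hmem⟩⟩, ?_⟩
      rw [Metric.mem_closedBall]
      refine hdist.trans (mul_le_mul_of_nonneg_left ?_ hA.le)
      rw [← hpowρ]
      exact Real.rpow_le_rpow_of_nonpos (by positivity) hm1 (by linarith))
  refine ne_top_of_le_ne_top ?_ key
  have hnn : ∀ m : ℕ, 0 ≤ K * q ^ m := fun m => by positivity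
  have htot : (∑' m : ℕ, ENNReal.ofReal (K * q ^ m)) ≠ ⊤ := by
    rw [← ENNReal.ofReal_tsum_of_nonneg hnn hsum]
    exact ENNReal.ofReal_ne_top
  have hbound : ∀ n : ℕ, (∑' p : Σ i : ℕ, (U (n + i)),
      Metric.ediam (Metric.closedBall (c (p.2 : T)) (A * ρ ^ (n + p.1))) ^ D) ≤
      ∑' m : ℕ, ENNReal.ofReal (K * q ^ m) := by
    intro n
    rw [ENNReal.tsum_sigma']
    calc (∑' i : ℕ, ∑' x : (U (n + i)),
        Metric.ediam (Metric.closedBall (c (x : T)) (A * ρ ^ (n + i))) ^ D)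
        ≤ ∑' i : ℕ, ENNReal.ofReal (K * q ^ (n + i)) := by
          apply ENNReal.tsum_le_tsum
          intro i
          have h1 : ∀ x : (U (n + i)),
              Metric.ediam (Metric.closedBall (c (x : T)) (A * ρ ^ (n + i))) ^ D ≤
                ENNReal.ofReal ((r0 (n + i)) ^ D) := by
            intro x
            rw [← ENNReal.ofReal_rpow_of_pos (hr0p _)]
            exact ENNReal.rpow_le_rpow (hd n ⟨i, x⟩) hD0.le
          refine (ENNReal.tsum_le_tsum h1).trans ?_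
          rw [tsum_fintype]
          simp only [Finset.sum_const, Finset.card_univ, Fintype.card_coe, nsmul_eq_mul]
          rw [← ENNReal.ofReal_natCast, ← ENNReal.ofReal_mul (by positivity)]
          apply ENNReal.ofReal_le_ofReal
          exact hlev (n + i)
      _ ≤ ∑' m : ℕ, ENNReal.ofReal (K * q ^ m) :=
          ENNReal.tsum_comp_le_tsum_of_injective (f := fun i : ℕ => n + i)
            (fun a b h => by simpa using h) (fun m : ℕ => ENNReal.ofReal (K * q ^ m))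
  refine ne_top_of_le_ne_top htot ?_
  apply Filter.liminf_le_of_le
  · isBoundedDefault
  · intro b hb
    obtain ⟨n, hn⟩ := hb.exists
    exact hn.trans (hbound n)

/-- **Points well approximated by the elements of a thin set.** -/
theorem approx {T Y : Type*} [MetricSpace Y] (S : Set T) (H : T → ℝ) (c : T → Y)
    {s τ : ℝ} (hs : 0 ≤ s) (hτ : 0 < τ)
    (hS : ∀ ε : ℝ, 0 < ε → ∃ C : ℝ, ∀ X : ℝ, 1 ≤ X →
      {t | t ∈ S ∧ H t ≤ X}.Finite ∧ ({t | t ∈ S ∧ H t ≤ X}.ncard : ℝ) ≤ C * X ^ (s + ε)) :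
    ∃ E : Set Y, dimH E ≤ ENNReal.ofReal (s / τ) ∧ ∀ ξ : Y, ξ ∉ E → ∀ A : ℝ,
      {t | t ∈ S ∧ dist ξ (c t) ≤ A * (H t) ^ (-τ)}.Finite := by
  set F : ℕ → Set Y := fun A => {ξ : Y | ∀ n : ℕ, ∃ t ∈ S, (2 : ℝ) ^ n ≤ H t ∧
    dist ξ (c t) ≤ ((A : ℝ) + 1) * (H t) ^ (-τ)} with hF
  refine ⟨⋃ A, F A, ?_, fun ξ hξ A => ?_⟩
  · rw [dimH_iUnion]
    apply iSup_le
    intro A
    apply ENNReal.le_of_forall_pos_le_add
    intro ε hε _
    have hε' : (0 : ℝ) < ε := by exact_mod_cast hε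
    obtain ⟨C, hC⟩ := hS (ε * τ / 2) (by positivity)
    have hC' : ∀ X : ℝ, 1 ≤ X → {t | t ∈ S ∧ H t ≤ X}.Finite ∧
        ({t | t ∈ S ∧ H t ≤ X}.ncard : ℝ) ≤ |C| * X ^ (s + ε * τ / 2) := by
      intro X hX
      exact ⟨(hC X hX).1, (hC X hX).2.trans
        (mul_le_mul_of_nonneg_right (le_abs_self C) (by positivity))⟩
    have h1 := dim_one S H c (s := s + ε * τ / 2) (D := s / τ + ε) hτ (by
        rw [add_mul, div_mul_cancel₀ _ hτ.ne']
        have : 0 < (ε : ℝ) * τ := by positivity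
        linarith) (by positivity) |C| ((A : ℝ) + 1) (abs_nonneg C) (by positivity) hC'
    rw [ENNReal.ofReal_add (by positivity) (by positivity), ENNReal.ofReal_coe_nnreal] at h1
    exact h1
  · -- choose an integer constant
    obtain ⟨N, hN⟩ := exists_nat_ge A
    have h1 : ξ ∉ F N := fun h => hξ (Set.mem_iUnion.2 ⟨_, h⟩)
    rw [hF, Set.mem_ofPred_eq] at h1
    push Not at h1
    obtain ⟨n, hn⟩ := h1
    obtain ⟨C, hC⟩ := hS 1 one_pos
    refine ((hC (2 ^ n) (one_le_pow₀ one_le_two)).1).subset ?_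
    rintro t ⟨ht, hd⟩
    refine ⟨ht, ?_⟩
    by_contra hcon
    push Not at hcon
    have h2 := hn t ht hcon.le
    have h3 : 0 < (H t) ^ (-τ) := Real.rpow_pos_of_pos (lt_of_lt_of_le (by positivity) hcon.le) _
    have h4 : A * (H t) ^ (-τ) ≤ ((N : ℝ) + 1) * (H t) ^ (-τ) :=
      mul_le_mul_of_nonneg_right (by linarith) h3.le
    linarith

end Q273.Apx
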