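import Mathlib
import Pool.Agent.Q273.Apx

/-!
# One exceptional set for countably many thin sets; countability of the data over a number field
-/

set_option autoImplicit false

open Filter Topology MeasureTheory Set NumberField IsDedekindDomain

namespace Q273.Apx

open scoped ENNReal NNReal

/-- the form for countably many thin sets -/
theorem approx_family {ι T Y : Type*} [Countable ι] [MetricSpace Y] (S : ι → Set T) (H : T → ℝ)
    (c : T → Y) {s τ : ℝ} (hs : 0 ≤ s) (hτ : 0 < τ)
    (hS : ∀ i, ∀ ε : ℝ, 0 < ε → ∃ C : ℝ, ∀ X : ℝ, 1 ≤ X →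
      {t | t ∈ S i ∧ H t ≤ X}.Finite ∧ ({t | t ∈ S i ∧ H t ≤ X}.ncard : ℝ) ≤ C * X ^ (s + ε)) :
    ∃ E : Set Y, dimH E ≤ ENNReal.ofReal (s / τ) ∧ ∀ ξ : Y, ξ ∉ E → ∀ (i : ι) (A : ℝ),
      {t | t ∈ S i ∧ dist ξ (c t) ≤ A * (H t) ^ (-τ)}.Finite := by
  have h := fun i => approx (S i) H c hs hτ (hS i)
  choose E hE1 hE2 using h
  refine ⟨⋃ i, E i, ?_, fun ξ hξ i A => hE2 i ξ (fun h => hξ (Set.mem_iUnion.2 ⟨i, h⟩)) A⟩
  rw [dimH_iUnion]
  exact iSup_le hE1

/-- from bounds for finite subsets to the number of elements -/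
theorem count_of_finset {T : Type*} (V : Set T) (M : ℝ)
    (h : ∀ F : Finset T, (F : Set T) ⊆ V → (F.card : ℝ) ≤ M) :
    V.Finite ∧ (V.ncard : ℝ) ≤ M := by
  have hfin : V.Finite := by
    by_contra hinf
    obtain ⟨F, hF, hF2⟩ := (show V.Infinite from hinf).exists_subset_card_eq (⌊M⌋₊ + 1)
    have h1 := h F hF
    rw [hF2] at h1
    push_cast at h1
    exact absurd h1 (not_le.2 (Nat.lt_floor_add_one _))
  refine ⟨hfin, ?_⟩
  rw [Set.ncard_eq_toFinset_card _ hfin]
  exact h _ (by simp)

theorem countable_numberField (K : Type) [Field K] [NumberField K] : Countable K :=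
  ((Module.finBasis ℚ K).equivFun.toEquiv.countable_iff).2 inferInstance

theorem countable_ideal (R : Type*) [CommRing R] [IsNoetherianRing R] [Countable R] :
    Countable (Ideal R) := by
  have h : Function.Surjective (fun F : Finset R => Ideal.span (F : Set R)) := by
    intro I
    obtain ⟨F, hF⟩ := (isNoetherianRing_iff_ideal_fg R).1 inferInstance I
    exact ⟨F, hF⟩
  exact h.countable

theorem countable_primes (K : Type) [Field K] [NumberField K] :
    Countable (HeightOneSpectrum (𝓞 K)) := by
  have : Countable K := countable_numberField K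
  have : Countable (𝓞 K) := (RingOfIntegers.coe_injective (K := K)).countable
  have : Countable (Ideal (𝓞 K)) := countable_ideal (𝓞 K)
  have h : Function.Injective (fun v : HeightOneSpectrum (𝓞 K) => v.asIdeal) := by
    intro v w hvw
    exact HeightOneSpectrum.ext hvw
  exact h.countable

theorem countable_finite_sets (K : Type) [Field K] [NumberField K] :
    Countable {T : Set (HeightOneSpectrum (𝓞 K)) // T.Finite} := by
  have := countable_primes K
  have h := Set.countable_ofPred_finite_subset
    (Set.countable_univ (α := HeightOneSpectrum (𝓞 K)))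
  have h2 : {T : Set (HeightOneSpectrum (𝓞 K)) | T.Finite ∧ T ⊆ Set.univ} =
      {T : Set (HeightOneSpectrum (𝓞 K)) | T.Finite} := by
    ext T
    simp
  rw [h2] at h
  exact h.to_subtype

end Q273.Apx
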