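import Mathlib
import Pool.Agent.Q273.ApxF
import Pool.Agent.Q273.ApxQ
import Pool.Agent.Results.MP_7aad9f_nt.ExceptionsEveryExponent

/-!
# The abc triples of the rational numbers

Every rational number `r = p / q ≠ 0, 1` gives the abc triple formed by `|p|`, `q` and `|p - q|`.
-/

set_option autoImplicit false

namespace Q273.AbcR

/-- the radical `R(m)`: the product of the distinct primes dividing `m` -/
def R (m : ℕ) : ℕ := ∏ p ∈ m.primeFactors, p

/-- the largest member `c` of the triple of `r = p / q`, formed by `|p|`, `q` and `|p - q|` -/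
def c (r : ℚ) : ℕ := max (max r.num.natAbs r.den) (r.num - r.den).natAbs

/-- the product `abc` of the three members of the triple of `r = p / q` -/
def abc (r : ℚ) : ℕ := r.num.natAbs * r.den * (r.num - r.den).natAbs

/-- the exponent, a continuous piecewise linear function -/
noncomputable def F (lam : ℝ) : ℝ :=
  if lam ≤ 2 / 3 then 4 * lam / 7
  else if lam ≤ 1 then (13 * lam + 2) / 28
  else if lam ≤ 3 / 2 then 5 * (10 * lam - 1) / 84
  else if lam ≤ 16 / 9 then (9 * lam - 1) / 15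
  else if lam ≤ 2 then 1
  else lam - 1

theorem F_nonneg {lam : ℝ} (h : 0 < lam) : 0 ≤ F lam := by
  unfold F
  split_ifs <;> linarith

theorem F_lt_one {lam : ℝ} (h : lam < 16 / 9) : F lam < 1 := by
  unfold F
  split_ifs <;> linarith

open Pool.Agent.Results.MP_7aad9f_nt.ExceptionsEveryExponent (Exceptions)

/-- the triple, in the order required by the count -/
def trip (r : ℚ) : ℕ × ℕ × ℕ :=
  if 0 < r.num then
    if r.num ≤ r.den then (r.num.natAbs, (r.num - r.den).natAbs, r.den)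
    else (r.den, (r.num - r.den).natAbs, r.num.natAbs)
  else (r.num.natAbs, r.den, (r.num - r.den).natAbs)

/-- the kind of the triple -/
def kind (r : ℚ) : ℕ := if 0 < r.num then (if r.num ≤ r.den then 0 else 1) else 2

theorem trip_inj {r r' : ℚ} (h1 : trip r = trip r') (h2 : kind r = kind r') : r = r' := by
  unfold trip at h1
  unfold kind at h2
  apply Rat.ext
  · split_ifs at h1 h2 <;> simp only [Prod.mk.injEq] at h1 <;> omega
  · split_ifs at h1 h2 <;> simp only [Prod.mk.injEq] at h1 <;> omega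

theorem trip_mem {r : ℚ} (h0 : r ≠ 0) (h1 : r ≠ 1) {B lam : ℝ} {X : ℕ}
    (hX : c r ≤ X) (hB : (R (abc r) : ℝ) ≤ B * (c r : ℝ) ^ lam) :
    trip r ∈ Exceptions B lam X := by
  have hnum : r.num ≠ 0 := Rat.num_ne_zero.2 h0
  have hden : 0 < r.den := r.den_pos
  have hne : r.num ≠ (r.den : ℤ) := by
    intro h
    apply h1
    have h3 := Rat.num_div_den r
    rw [h] at h3
    rw [← h3]
    have : (r.den : ℚ) ≠ 0 := by exact_mod_cast hden.ne'
    push_cast
    exact div_self this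
  have hcop : Nat.Coprime r.num.natAbs r.den := r.reduced
  have hcop2 : Nat.Coprime (r.num - r.den).natAbs r.den := by
    have h3 : IsCoprime r.num (r.den : ℤ) := by
      rw [Int.isCoprime_iff_gcd_eq_one]
      exact r.reduced
    have h4 : IsCoprime (r.num - r.den) (r.den : ℤ) := by
      obtain ⟨u, v, huv⟩ := h3
      exact ⟨u, u + v, by linear_combination huv⟩
    exact Int.isCoprime_iff_gcd_eq_one.1 h4
  have hcop3 : Nat.Coprime r.num.natAbs (r.num - r.den).natAbs := by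
    have h3 : IsCoprime r.num (r.den : ℤ) := by
      rw [Int.isCoprime_iff_gcd_eq_one]
      exact r.reduced
    have h4 : IsCoprime r.num (r.num - r.den) := by
      obtain ⟨u, v, huv⟩ := h3
      exact ⟨u + v, -v, by linear_combination huv⟩
    exact Int.isCoprime_iff_gcd_eq_one.1 h4
  unfold trip
  unfold c at hX hB
  unfold abc at hB
  split_ifs with h3 h4
  · have hc : max (max r.num.natAbs r.den) (r.num - r.den).natAbs = r.den := by omega
    rw [hc] at hX hB
    refine ⟨by simp only; omega, by simp only; omega, hcop3, by simp only; omega, hX, ?_⟩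
    simp only
    rw [show r.num.natAbs * (r.num - r.den).natAbs * r.den =
      r.num.natAbs * r.den * (r.num - r.den).natAbs by ring]
    exact hB
  · have hc : max (max r.num.natAbs r.den) (r.num - r.den).natAbs = r.num.natAbs := by omega
    rw [hc] at hX hB
    refine ⟨by simp only; omega, by simp only; omega, hcop2.symm, by simp only; omega, hX, ?_⟩
    simp only
    rw [show r.den * (r.num - r.den).natAbs * r.num.natAbs =
      r.num.natAbs * r.den * (r.num - r.den).natAbs by ring]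
    exact hB
  · have hc : max (max r.num.natAbs r.den) (r.num - r.den).natAbs = (r.num - r.den).natAbs := by
      omega
    rw [hc] at hX hB
    refine ⟨by simp only; omega, hden, hcop, by simp only; omega, hX, ?_⟩
    exact hB

theorem count {lam : ℝ} (hlam : 0 < lam) (B : ℝ) (δ : ℝ) (hδ : 0 < δ) :
    ∃ C : ℝ, ∀ X : ℝ, 1 ≤ X →
      {r : ℚ | r ∈ {r : ℚ | r ≠ 0 ∧ r ≠ 1 ∧ (R (abc r) : ℝ) ≤ B * (c r : ℝ) ^ lam} ∧
        (c r : ℝ) ≤ X}.Finite ∧
      ({r : ℚ | r ∈ {r : ℚ | r ≠ 0 ∧ r ≠ 1 ∧ (R (abc r) : ℝ) ≤ B * (c r : ℝ) ^ lam} ∧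
        (c r : ℝ) ≤ X}.ncard : ℝ) ≤ C * X ^ (F lam + δ) := by
  obtain ⟨C, hC⟩ := Pool.Agent.Results.MP_7aad9f_nt.ExceptionsEveryExponent.result lam B δ hlam hδ
  refine ⟨3 * |C|, fun X hX => ?_⟩
  set n : ℕ := ⌊X⌋₊ with hn
  have hn1 : 1 ≤ n := Nat.le_floor (by exact_mod_cast hX)
  obtain ⟨h1, h2⟩ := hC n hn1
  set V := {r : ℚ | r ∈ {r : ℚ | r ≠ 0 ∧ r ≠ 1 ∧ (R (abc r) : ℝ) ≤ B * (c r : ℝ) ^ lam} ∧
        (c r : ℝ) ≤ X} with hV
  have hmaps : ∀ r ∈ V, (trip r, kind r) ∈ (Exceptions B lam n) ×ˢ (({0, 1, 2} : Finset ℕ) : Set ℕ) := by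
    intro r hr
    obtain ⟨⟨h3, h4, h5⟩, h6⟩ := hr
    refine ⟨trip_mem h3 h4 (Nat.le_floor h6) h5, ?_⟩
    simp only [kind]
    split_ifs <;> simp
  have hinj : Set.InjOn (fun r => (trip r, kind r)) V := by
    intro r _ r' _ h
    simp only [Prod.mk.injEq] at h
    exact trip_inj h.1 h.2
  have hfin : ((Exceptions B lam n) ×ˢ (({0, 1, 2} : Finset ℕ) : Set ℕ)).Finite :=
    h1.prod (Finset.finite_toSet _)
  have hVfin : V.Finite := Set.Finite.of_injOn hmaps hinj hfin
  refine ⟨hVfin, ?_⟩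
  have h3 : V.ncard ≤ ((Exceptions B lam n) ×ˢ (({0, 1, 2} : Finset ℕ) : Set ℕ)).ncard :=
    Set.ncard_le_ncard_of_injOn _ hmaps hinj hfin
  have h4 : ((Exceptions B lam n) ×ˢ (({0, 1, 2} : Finset ℕ) : Set ℕ)).ncard =
      (Exceptions B lam n).ncard * 3 := by
    rw [Set.ncard_prod, Set.ncard_coe_finset]
    rfl
  rw [h4] at h3
  have h5 : (V.ncard : ℝ) ≤ ((Exceptions B lam n).ncard : ℝ) * 3 := by exact_mod_cast h3
  have h6 : (n : ℝ) ≤ X := Nat.floor_le (by linarith)
  have h7 : (n : ℝ) ^ (F lam + δ) ≤ X ^ (F lam + δ) :=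
    Real.rpow_le_rpow (Nat.cast_nonneg _) h6 (by linarith [F_nonneg hlam])
  have h8 : ((Exceptions B lam n).ncard : ℝ) ≤ C * (n : ℝ) ^ (F lam + δ) := h2
  have h9 : (0 : ℝ) ≤ (n : ℝ) ^ (F lam + δ) := by positivity
  have h10 : C * (n : ℝ) ^ (F lam + δ) ≤ |C| * X ^ (F lam + δ) :=
    mul_le_mul (le_abs_self C) h7 h9 (abs_nonneg C)
  linarith

theorem Hr_le (r : ℚ) : Q273.ApxQ.Hr r ≤ (c r : ℝ) := by
  unfold Q273.ApxQ.Hr c
  push_cast
  rw [Nat.cast_natAbs]
  push_cast
  exact le_max_left _ _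

theorem le_Hr (r : ℚ) : (c r : ℝ) ≤ 2 * Q273.ApxQ.Hr r := by
  unfold Q273.ApxQ.Hr c
  push_cast
  rw [Nat.cast_natAbs, Nat.cast_natAbs]
  push_cast
  have h1 : |(r.num : ℝ)| ≤ max (|(r.num : ℝ)|) (r.den : ℝ) := le_max_left _ _
  have h2 : (r.den : ℝ) ≤ max (|(r.num : ℝ)|) (r.den : ℝ) := le_max_right _ _
  have h3 : (0 : ℝ) ≤ r.den := Nat.cast_nonneg _
  apply max_le
  · linarith
  · calc |(r.num : ℝ) - r.den| ≤ |(r.num : ℝ)| + |(r.den : ℝ)| := abs_sub _ _
      _ = |(r.num : ℝ)| + r.den := by rw [abs_of_nonneg h3]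
      _ ≤ _ := by linarith

end Q273.AbcR
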