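import Mathlib
import Pool.Agent.Q273.ApxQ

/-!
# Many fractions with numerator or denominator divisible by 16 close to an irrational number
-/

set_option autoImplicit false

open Filter Topology Set

namespace Q273.ApxS

open Q273.ApxQ

theorem sum_odd (N : ℕ) : (N : ℝ) * N / 4 ≤
    ∑ n ∈ (Finset.Ioc 0 N).filter (fun n => n % 2 = 1), (n : ℝ) := by
  have h : ∀ N : ℕ, (∑ n ∈ (Finset.Ioc 0 N).filter (fun n => n % 2 = 1), n) = ((N + 1) / 2) ^ 2 := by
    intro N
    induction N with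
    | zero => simp
    | succ k ih =>
      rw [← Finset.insert_Ioc_right_eq_Ioc_add_one (by omega), Finset.filter_insert]
      split_ifs with h
      · rw [Finset.sum_insert (by simp), ih]
        obtain ⟨m, hm⟩ : ∃ m, k = 2 * m := ⟨k / 2, by omega⟩
        subst hm
        have h1 : (2 * m + 1) / 2 = m := by omega
        have h2 : (2 * m + 1 + 1) / 2 = m + 1 := by omega
        rw [h1, h2]
        ring
      · rw [ih]
        congr 1
        omega
  have h1 : (∑ n ∈ (Finset.Ioc 0 N).filter (fun n => n % 2 = 1), (n : ℝ)) =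
      ((((N + 1) / 2) ^ 2 : ℕ) : ℝ) := by
    rw [← h N]
    push_cast
    rfl
  rw [h1]
  push_cast
  have h2 : (N : ℝ) / 2 ≤ (((N + 1) / 2 : ℕ) : ℝ) := by
    have h3 : N ≤ 2 * ((N + 1) / 2) := by omega
    have h4 : (N : ℝ) ≤ 2 * (((N + 1) / 2 : ℕ) : ℝ) := by exact_mod_cast h3
    linarith
  have h3 : (0 : ℝ) ≤ (N : ℝ) / 2 := by positivity
  nlinarith

theorem sum_totient_div_odd (N : ℕ) : (N : ℝ) * N / 4 ≤
    ∑ d ∈ (Finset.Ioc 0 N).filter (fun n => n % 2 = 1), (Nat.totient d : ℝ) * (N / d) := by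
  refine (sum_odd N).trans ?_
  have h2 : ∑ n ∈ (Finset.Ioc 0 N).filter (fun n => n % 2 = 1), (n : ℝ) =
      ∑ n ∈ (Finset.Ioc 0 N).filter (fun n => n % 2 = 1),
        ∑ d ∈ (Finset.Ioc 0 N).filter (fun n => n % 2 = 1),
          if d ∣ n then (Nat.totient d : ℝ) else 0 := by
    apply Finset.sum_congr rfl
    intro n hn
    rw [Finset.mem_filter, Finset.mem_Ioc] at hn
    rw [← Finset.sum_filter]
    have h3 : ((Finset.Ioc 0 N).filter (fun n => n % 2 = 1)).filter (fun d => d ∣ n) =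
        n.divisors := by
      ext d
      simp only [Finset.mem_filter, Finset.mem_Ioc, Nat.mem_divisors]
      constructor
      · rintro ⟨_, h⟩
        exact ⟨h, by omega⟩
      · rintro ⟨h, _⟩
        refine ⟨⟨⟨Nat.pos_of_dvd_of_pos h (by omega),
          (Nat.le_of_dvd (by omega) h).trans hn.1.2⟩, ?_⟩, h⟩
        have h4 : Odd n := Nat.odd_iff.2 hn.2
        exact Nat.odd_iff.1 (h4.of_dvd_nat h)
    rw [h3]
    exact_mod_cast (Nat.sum_totient n).symm
  rw [h2, Finset.sum_comm]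
  apply Finset.sum_le_sum
  intro d hd
  rw [Finset.mem_filter, Finset.mem_Ioc] at hd
  rw [← Finset.sum_filter, Finset.sum_const, nsmul_eq_mul, mul_comm]
  apply mul_le_mul_of_nonneg_left _ (Nat.cast_nonneg _)
  have h4 : (((Finset.Ioc 0 N).filter (fun n => n % 2 = 1)).filter (fun n => d ∣ n)).card ≤
      ((Finset.Ioc 0 N).filter (fun n => d ∣ n)).card := by
    apply Finset.card_le_card
    apply Finset.filter_subset_filter
    exact Finset.filter_subset _ _
  rw [Nat.Ioc_filter_dvd_card_eq_div] at h4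
  calc ((((Finset.Ioc 0 N).filter (fun n => n % 2 = 1)).filter (fun n => d ∣ n)).card : ℝ) ≤
        ((N / d : ℕ) : ℝ) := by exact_mod_cast h4
    _ ≤ (N : ℝ) / d := Nat.cast_div_le

/-- one period -/
theorem period (j a : ℕ) (hj : j % 2 = 1) :
    ((Finset.range j).filter (fun k => j.Coprime (a + 16 * k))).card = Nat.totient j := by
  have hj0 : 0 < j := by omega
  have hcop : Nat.Coprime j 16 := by
    have h1 : Nat.Coprime j 2 := Nat.coprime_two_right.2 (Nat.odd_iff.2 hj)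
    exact Nat.Coprime.pow_right 4 h1
  set f : ℕ → ℕ := fun k => (a + 16 * k) % j with hf
  have hinj : Set.InjOn f (Finset.range j) := by
    intro k hk k' hk' h
    rw [Finset.coe_range, Set.mem_Iio] at hk hk'
    have h1 : a + 16 * k ≡ a + 16 * k' [MOD j] := h
    have h2 : 16 * k ≡ 16 * k' [MOD j] := Nat.ModEq.add_left_cancel' a h1
    have h3 : k ≡ k' [MOD j] := Nat.ModEq.cancel_left_of_coprime hcop h2
    exact Nat.ModEq.eq_of_lt_of_lt h3 hk hk'
  have himg : (Finset.range j).image f = Finset.range j := by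
    apply Finset.eq_of_subset_of_card_le
    · intro x hx
      obtain ⟨k, _, rfl⟩ := Finset.mem_image.1 hx
      exact Finset.mem_range.2 (Nat.mod_lt _ hj0)
    · rw [Finset.card_image_of_injOn hinj]
  have h1 : Nat.totient j = ((Finset.range j).filter (fun x => j.Coprime x)).card := rfl
  rw [h1]
  conv_rhs => rw [← himg]
  rw [Finset.filter_image, Finset.card_image_of_injOn (hinj.mono (by
    intro x hx
    simp only [Finset.coe_filter, Set.mem_ofPred_eq] at hx
    exact hx.1))]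
  congr 1
  apply Finset.filter_congr
  intro k _
  rw [hf]
  simp only
  unfold Nat.Coprime
  rw [Nat.gcd_comm j ((a + 16 * k) % j), ← Nat.gcd_rec]

/-- blocks -/
theorem block (j a n q : ℕ) (hj : j % 2 = 1) :
    ((Finset.Ico n (n + j * q)).filter (fun k => j.Coprime (a + 16 * k))).card =
      Nat.totient j * q := by
  have hper : Function.Periodic (fun k => j.Coprime (a + 16 * k)) j := by
    intro k
    simp only
    rw [show a + 16 * (k + j) = (a + 16 * k) + j * 16 by ring]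
    simp
  induction q with
  | zero => simp
  | succ q ih =>
    have h1 : Finset.Ico n (n + j * (q + 1)) =
        Finset.Ico n (n + j * q) ∪ Finset.Ico (n + j * q) (n + j * q + j) := by
      rw [Finset.Ico_union_Ico_eq_Ico (by omega) (by omega), Nat.mul_succ, Nat.add_assoc]
    rw [h1, Finset.filter_union, Finset.card_union_of_disjoint, ih,
      Nat.filter_Ico_card_eq_of_periodic _ _ _ hper, Nat.count_eq_card_filter_range,
      period j a hj]
    · ring
    · apply Finset.disjoint_filter_filter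
      exact Finset.Ico_disjoint_Ico_consecutive _ _ _

/-- the number of coprime pairs in a box, with `j` odd and `i` in a class mod 16 which depends
on `j` -/
theorem coprime_pairs (I J : ℕ) (hJ : 32 * J ≤ I) (i₀ : ℕ → ℕ) :
    (I : ℝ) * J / 1024 ≤ (((Finset.Ico I (2 * I)) ×ˢ (Finset.Ioc 0 J)).filter
      (fun p => p.2.Coprime p.1 ∧ p.2 % 2 = 1 ∧ p.1 % 16 = i₀ p.2 % 16)).card := by
  have h1 : (((Finset.Ico I (2 * I)) ×ˢ (Finset.Ioc 0 J)).filter
      (fun p => p.2.Coprime p.1 ∧ p.2 % 2 = 1 ∧ p.1 % 16 = i₀ p.2 % 16)).card =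
      ∑ j ∈ Finset.Ioc 0 J, ((Finset.Ico I (2 * I)).filter
        (fun x => j.Coprime x ∧ j % 2 = 1 ∧ x % 16 = i₀ j % 16)).card := by
    rw [Finset.card_filter, Finset.sum_product_right]
    apply Finset.sum_congr rfl
    intro j _
    rw [Finset.card_filter]
  have h1' : ∑ j ∈ (Finset.Ioc 0 J).filter (fun n => n % 2 = 1), ((Finset.Ico I (2 * I)).filter
        (fun x => j.Coprime x ∧ j % 2 = 1 ∧ x % 16 = i₀ j % 16)).card ≤
      ∑ j ∈ Finset.Ioc 0 J, ((Finset.Ico I (2 * I)).filter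
        (fun x => j.Coprime x ∧ j % 2 = 1 ∧ x % 16 = i₀ j % 16)).card :=
    Finset.sum_le_sum_of_subset (Finset.filter_subset _ _)
  rw [h1]
  refine le_trans ?_ (by exact_mod_cast h1' :
    ((∑ j ∈ (Finset.Ioc 0 J).filter (fun n => n % 2 = 1), ((Finset.Ico I (2 * I)).filter
        (fun x => j.Coprime x ∧ j % 2 = 1 ∧ x % 16 = i₀ j % 16)).card : ℕ) : ℝ) ≤ _)
  push_cast
  have h2 : ∀ j ∈ (Finset.Ioc 0 J).filter (fun n => n % 2 = 1),
      (Nat.totient j : ℝ) * (J / j) * (I / (64 * J)) ≤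
      (((Finset.Ico I (2 * I)).filter
        (fun x => j.Coprime x ∧ j % 2 = 1 ∧ x % 16 = i₀ j % 16)).card : ℝ) := by
    intro j hj
    rw [Finset.mem_filter, Finset.mem_Ioc] at hj
    obtain ⟨⟨hj1, hj2⟩, hj3⟩ := hj
    have hj0 : (0 : ℝ) < j := by exact_mod_cast hj1
    have hJ0 : (0 : ℝ) < J := by
      have : 0 < J := by omega
      exact_mod_cast this
    set q : ℕ := I / (32 * j) with hq
    set n : ℕ := (I / 16) + 1 with hn
    have h3 : Nat.totient j * q ≤
        ((Finset.Ico I (2 * I)).filter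
        (fun x => j.Coprime x ∧ j % 2 = 1 ∧ x % 16 = i₀ j % 16)).card := by
      rw [← block j (i₀ j % 16) n q hj3]
      apply Finset.card_le_card_of_injOn (fun k => i₀ j % 16 + 16 * k)
      · intro k hk
        simp only [Finset.coe_filter, Set.mem_ofPred_eq, Finset.mem_Ico] at hk ⊢
        obtain ⟨⟨hk1, hk2⟩, hk3⟩ := hk
        have h5 : 32 * (j * q) ≤ I := by
          have := Nat.mul_div_le I (32 * j)
          calc 32 * (j * q) = 32 * j * (I / (32 * j)) := by rw [hq]; ring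
            _ ≤ I := this
        refine ⟨⟨by omega, by omega⟩, hk3, hj3, by omega⟩
      · intro k _ k' _ h
        simp only at h
        omega
    have h4 : (I : ℝ) / (64 * j) ≤ (q : ℝ) := by
      have h5 : I < (q + 1) * (32 * j) := by
        have h6 := Nat.div_add_mod I (32 * j)
        have h7 := Nat.mod_lt I (by omega : 0 < 32 * j)
        calc I = 32 * j * (I / (32 * j)) + I % (32 * j) := h6.symm
          _ < 32 * j * (I / (32 * j)) + 32 * j := by omega
          _ = (q + 1) * (32 * j) := by rw [hq]; ring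
      have h6 : 1 ≤ q := (Nat.one_le_div_iff (by omega)).2 (le_trans (by omega) hJ)
      have h7 : (I : ℝ) < ((q : ℝ) + 1) * (32 * j) := by exact_mod_cast h5
      have h8 : (1 : ℝ) ≤ (q : ℝ) := by exact_mod_cast h6
      rw [div_le_iff₀ (by positivity)]
      nlinarith
    calc (Nat.totient j : ℝ) * (J / j) * (I / (64 * J)) =
          (Nat.totient j : ℝ) * ((I : ℝ) / (64 * j)) := by
          field_simp
      _ ≤ (Nat.totient j : ℝ) * (q : ℝ) := mul_le_mul_of_nonneg_left h4 (Nat.cast_nonneg _)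
      _ ≤ _ := by exact_mod_cast h3
  refine le_trans ?_ (Finset.sum_le_sum h2)
  rw [← Finset.sum_mul]
  rcases Nat.eq_zero_or_pos J with h0 | h0
  · subst h0
    simp
  · have hJ0 : (0 : ℝ) < J := by exact_mod_cast h0
    have h3 := sum_totient_div_odd J
    have h4 : (0 : ℝ) ≤ (I : ℝ) / (64 * J) := by positivity
    refine le_trans ?_ (mul_le_mul_of_nonneg_right h3 h4)
    have h5 : (J : ℝ) * J / 4 * ((I : ℝ) / (64 * J)) = (I : ℝ) * J / 256 := by
      field_simp
      ring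
    rw [h5]
    have : (0 : ℝ) ≤ (I : ℝ) * J := by positivity
    linarith

theorem large' {τ : ℝ} (h1 : 1 < τ) (h2 : τ < 2) (N : ℝ) :
    ∀ᶠ b : ℝ in atTop, 1 ≤ b ∧ N ≤ b ∧ 8 * b ≤ (b ^ 2 / 2) ^ (1 / τ) ∧
      8 * b ≤ (b / 1024) ^ (1 / (τ - 1)) ∧ b ^ 2 ≤ 2 * ((b / 1024) ^ (1 / (τ - 1))) ^ τ := by
  have hτ0 : 0 < τ := by linarith
  have hτ1 : 0 < τ - 1 := by linarith
  have e1 := ev (2 * 8 ^ τ) h2
  have e2 := ev (1024 * 8 ^ (τ - 1)) (show τ - 1 < 1 by linarith)
  have e3 := ev 1024 (show 2 * (τ - 1) / τ < 1 by rw [div_lt_one hτ0]; linarith)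
  filter_upwards [e1, e2, e3, eventually_ge_atTop 1, eventually_ge_atTop N] with b b1 b2 b3 hb1 hbN
  have hb0 : 0 < b := by linarith
  refine ⟨hb1, hbN, ?_, ?_, ?_⟩
  · have h3 : (8 * b) ^ τ ≤ b ^ 2 / 2 := by
      rw [Real.mul_rpow (by norm_num) hb0.le]
      rw [Real.rpow_two] at b1
      linarith
    calc 8 * b = ((8 * b) ^ τ) ^ (1 / τ) := by
          rw [← Real.rpow_mul (by positivity), mul_one_div_cancel hτ0.ne', Real.rpow_one]
      _ ≤ _ := Real.rpow_le_rpow (by positivity) h3 (by positivity)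
  · have h3 : (8 * b) ^ (τ - 1) ≤ b / 1024 := by
      rw [Real.mul_rpow (by norm_num) hb0.le]
      rw [Real.rpow_one] at b2
      linarith
    calc 8 * b = ((8 * b) ^ (τ - 1)) ^ (1 / (τ - 1)) := by
          rw [← Real.rpow_mul (by positivity), mul_one_div_cancel hτ1.ne', Real.rpow_one]
      _ ≤ _ := Real.rpow_le_rpow (by positivity) h3 (by positivity)
  · have h3 : b ^ (2 * (τ - 1) / τ) ≤ b / 1024 := by
      rw [Real.rpow_one] at b3
      linarith
    have h4 : b ^ 2 ≤ ((b / 1024) ^ (1 / (τ - 1))) ^ τ := by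
      calc b ^ 2 = (b ^ (2 * (τ - 1) / τ)) ^ (1 / (τ - 1) * τ) := by
            rw [← Real.rpow_mul hb0.le, ← Real.rpow_two]
            congr 1
            field_simp
        _ ≤ (b / 1024) ^ (1 / (τ - 1) * τ) :=
            Real.rpow_le_rpow (by positivity) h3 (by positivity)
        _ = _ := by rw [Real.rpow_mul (by positivity)]
    have h5 : (0 : ℝ) ≤ ((b / 1024) ^ (1 / (τ - 1))) ^ τ := by positivity
    linarith


/-- **Many fractions with numerator or denominator divisible by 16 in a small interval around an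
irrational number** -/
theorem manyS (ξ : ℝ) (hξ : Irrational ξ) {τ : ℝ} (h1 : 1 < τ) (h2 : τ < 2) (N : ℝ) :
    ∃ Q : ℝ, N ≤ Q ∧ 1 ≤ Q ∧ ∃ T : Finset ℚ, (∀ r ∈ T, (r.den : ℝ) ≤ Q ∧ |ξ - r| ≤ Q ^ (-τ) ∧
      ((16 : ℤ) ∣ r.num ∨ (16 : ℤ) ∣ (r.den : ℤ))) ∧
      Q ^ (2 - τ) / 2 ^ 24 ≤ T.card := by
  have hτ0 : 0 < τ := by linarith
  have hτ1 : 0 < τ - 1 := by linarith
  obtain ⟨B, hB⟩ := eventually_atTop.1 (large' h1 h2 N)
  -- a fraction with a large denominator
  obtain ⟨q, hq1, hq2⟩ : ∃ q : ℚ, |ξ - q| < 1 / (q.den : ℝ) ^ 2 ∧ B ≤ q.den := by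
    have hinf := Real.infinite_rat_abs_sub_lt_one_div_den_sq_of_irrational hξ
    obtain ⟨q, hq, hq'⟩ := (hinf.sdiff (finite_den ξ B)).nonempty
    refine ⟨q, hq, ?_⟩
    by_contra hcon
    push Not at hcon
    apply hq'
    refine ⟨hcon.le, ?_⟩
    have h3 : (1 : ℝ) ≤ q.den := by exact_mod_cast q.den_pos
    have h4 : |ξ - q| < 1 / (q.den : ℝ) ^ 2 := hq
    refine h4.le.trans ?_
    rw [div_le_one (by positivity)]
    nlinarith
  set b : ℝ := (q.den : ℝ) with hb
  obtain ⟨hb1, hbN, hb2, hb3, hb4⟩ := hB b hq2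
  have hb0 : 0 < b := by linarith
  set δ : ℝ := |ξ - q| with hδ
  have hδ0 : 0 < δ := abs_pos.2 (sub_ne_zero.2 (hξ.ne_rat q))
  set Q : ℝ := min ((1 / (2 * δ)) ^ (1 / τ)) ((b / 1024) ^ (1 / (τ - 1))) with hQ
  have hQb : 8 * b ≤ Q := by
    apply le_min _ hb3
    refine hb2.trans (Real.rpow_le_rpow (by positivity) ?_ (by positivity))
    rw [lt_div_iff₀ (by positivity)] at hq1
    rw [div_le_div_iff₀ two_pos (by positivity)]
    nlinarith
  have hQ0 : 0 < Q := by linarith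
  have hQτ : δ ≤ Q ^ (-τ) / 2 := by
    have h3 : Q ^ τ ≤ 1 / (2 * δ) := by
      calc Q ^ τ ≤ ((1 / (2 * δ)) ^ (1 / τ)) ^ τ :=
            Real.rpow_le_rpow hQ0.le (min_le_left _ _) hτ0.le
        _ = 1 / (2 * δ) := by
            rw [← Real.rpow_mul (by positivity), one_div_mul_cancel hτ0.ne', Real.rpow_one]
    rw [Real.rpow_neg hQ0.le]
    have h4 : 0 < Q ^ τ := by positivity
    rw [le_div_iff₀ (by positivity)] at h3
    rw [le_div_iff₀ two_pos, ← one_div, le_div_iff₀ h4]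
    linarith
  have hQ1 : 1024 * Q ^ (τ - 1) ≤ b := by
    have h3 : Q ^ (τ - 1) ≤ b / 1024 := by
      calc Q ^ (τ - 1) ≤ ((b / 1024) ^ (1 / (τ - 1))) ^ (τ - 1) :=
            Real.rpow_le_rpow hQ0.le (min_le_right _ _) hτ1.le
        _ = b / 1024 := by
            rw [← Real.rpow_mul (by positivity), one_div_mul_cancel hτ1.ne', Real.rpow_one]
    linarith
  have hQ2 : b ^ 2 ≤ 2 * Q ^ τ := by
    rcases min_choice ((1 / (2 * δ)) ^ (1 / τ)) ((b / 1024) ^ (1 / (τ - 1))) with h | h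
    · rw [hQ, h, ← Real.rpow_mul (by positivity), one_div_mul_cancel hτ0.ne', Real.rpow_one]
      rw [lt_div_iff₀ (by positivity)] at hq1
      have h3 : 2 * (1 / (2 * δ)) = 1 / δ := by field_simp
      rw [h3, le_div_iff₀ hδ0]
      linarith
    · rw [hQ, h]
      exact hb4
  -- the box
  set I : ℕ := ⌊Q / (4 * b)⌋₊ with hI
  set J : ℕ := ⌊b * Q ^ (1 - τ) / 1024⌋₊ with hJ
  have hQpow : Q ^ (τ - 1) * Q ^ (1 - τ) = 1 := by
    rw [← Real.rpow_add hQ0, show τ - 1 + (1 - τ) = 0 by ring, Real.rpow_zero]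
  have hQp0 : 0 < Q ^ (1 - τ) := by positivity
  have hQq0 : 0 < Q ^ (τ - 1) := by positivity
  have hI1 : (I : ℝ) ≤ Q / (4 * b) := Nat.floor_le (by positivity)
  have hI2 : Q / (8 * b) ≤ I := by
    have h3 : Q / (4 * b) < (I : ℝ) + 1 := Nat.lt_floor_add_one _
    have h4 : Q / (4 * b) = Q / (8 * b) + Q / (8 * b) := by field_simp; norm_num
    have h5 : 1 ≤ Q / (8 * b) := by
      rw [one_le_div (by positivity)]
      exact hQb
    linarith
  have hJ1 : (J : ℝ) ≤ b * Q ^ (1 - τ) / 1024 := Nat.floor_le (by positivity)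
  have hJ2 : b * Q ^ (1 - τ) / 2048 ≤ J := by
    have h3 : b * Q ^ (1 - τ) / 1024 < (J : ℝ) + 1 := Nat.lt_floor_add_one _
    have h4 : 1 ≤ b * Q ^ (1 - τ) / 1024 := by
      rw [le_div_iff₀ (by norm_num)]
      calc 1 * 1024 = 1024 * Q ^ (τ - 1) * Q ^ (1 - τ) := by rw [mul_assoc, hQpow]; ring
        _ ≤ b * Q ^ (1 - τ) := mul_le_mul_of_nonneg_right hQ1 hQp0.le
    by_cases h5 : 1 ≤ b * Q ^ (1 - τ) / 2048
    · linarith
    · push Not at h5
      have h6 : 1 ≤ J := Nat.le_floor (by exact_mod_cast h4)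
      have h7 : (1 : ℝ) ≤ J := by exact_mod_cast h6
      linarith
  have hJI : 32 * J ≤ I := by
    have h3 : Q ^ τ * Q ^ (1 - τ) = Q := by
      rw [← Real.rpow_add hQ0, show τ + (1 - τ) = 1 by ring, Real.rpow_one]
    have h4 : b ^ 2 * Q ^ (1 - τ) ≤ 2 * Q := by
      calc b ^ 2 * Q ^ (1 - τ) ≤ (2 * Q ^ τ) * Q ^ (1 - τ) :=
            mul_le_mul_of_nonneg_right hQ2 hQp0.le
        _ = 2 * Q := by rw [mul_assoc, h3]
    have h5 : 32 * (J : ℝ) ≤ I := by
      calc 32 * (J : ℝ) ≤ 32 * (b * Q ^ (1 - τ) / 1024) := by linarith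
        _ ≤ Q / (8 * b) := by
            rw [le_div_iff₀ (by positivity)]
            nlinarith
        _ ≤ I := hI2
    exact_mod_cast h5
  -- the neighbour
  obtain ⟨a', b', hdet, hb'0, hb'1⟩ : ∃ a' b' : ℤ, a' * q.den - q.num * b' = 1 ∧ 0 ≤ b' ∧
      b' < q.den := by
    have hcop : IsCoprime q.num (q.den : ℤ) := by
      rw [Int.isCoprime_iff_gcd_eq_one]
      exact q.reduced
    obtain ⟨u, v, huv⟩ := hcop
    have hden : (0 : ℤ) < q.den := by exact_mod_cast q.den_pos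
    refine ⟨v + q.num * (-((-u) / q.den)), (-u) % q.den, ?_, Int.emod_nonneg _ hden.ne',
      Int.emod_lt_of_pos _ hden⟩
    have h3 := Int.emod_add_mul_ediv (-u) q.den
    have h4 : (-u) % q.den = -u - q.den * ((-u) / q.den) := by linarith
    rw [h4]
    linear_combination huv
  have hden : (0 : ℤ) < q.den := by exact_mod_cast q.den_pos
  obtain ⟨i₀, hi₀⟩ : ∃ i₀ : ℕ → ℕ,
      (∀ i j : ℕ, i % 16 = i₀ j % 16 → (16 : ℤ) ∣ (i : ℤ) * q.num + (j : ℤ) * a') ∨
      (∀ i j : ℕ, i % 16 = i₀ j % 16 → (16 : ℤ) ∣ (i : ℤ) * q.den + (j : ℤ) * b') := by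
    have hinv : ∀ m e : ℤ, m % 2 = 1 → ∃ i₀ : ℕ → ℕ, ∀ i j : ℕ, i % 16 = i₀ j % 16 →
        (16 : ℤ) ∣ (i : ℤ) * m + (j : ℤ) * e := by
      intro m e hm
      have hcop : IsCoprime m 16 := by
        have h3 : IsCoprime m 2 := ⟨1, -(m / 2), by omega⟩
        have h4 : IsCoprime m (2 ^ 4) := h3.pow_right
        norm_num at h4
        exact h4
      obtain ⟨u, v, huv⟩ := hcop
      refine ⟨fun j => ((-(j : ℤ) * e * u) % 16).toNat, fun i j hij => ?_⟩
      have h3 : (0 : ℤ) ≤ (-(j : ℤ) * e * u) % 16 := Int.emod_nonneg _ (by norm_num)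
      have h4 : (i : ℤ) % 16 = (-(j : ℤ) * e * u) % 16 := by
        have h5 : ((i % 16 : ℕ) : ℤ) = (((-(j : ℤ) * e * u) % 16).toNat % 16 : ℕ) := by
          exact_mod_cast hij
        push_cast at h5
        rw [Int.toNat_of_nonneg h3, Int.emod_emod_of_dvd _ (dvd_refl _)] at h5
        exact h5
      have h5 : (16 : ℤ) ∣ (i : ℤ) - (-(j : ℤ) * e * u) :=
        Int.ModEq.dvd (show (-(j : ℤ) * e * u) ≡ i [ZMOD 16] from h4.symm)
      have h6 : (i : ℤ) * m + (j : ℤ) * e = m * ((i : ℤ) - (-(j : ℤ) * e * u)) +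
          16 * ((j : ℤ) * e * v) := by
        linear_combination (-(j : ℤ) * e) * huv
      rw [h6]
      exact dvd_add (h5.mul_left _) (dvd_mul_right _ _)
    rcases Int.emod_two_eq_zero_or_one q.num with h3 | h3
    · have h4 : (q.den : ℤ) % 2 = 1 := by
        rcases Int.emod_two_eq_zero_or_one (q.den : ℤ) with h4 | h4
        · exfalso
          have h5 : 2 ∣ q.num.natAbs := by omega
          have h6 : 2 ∣ q.den := by omega
          have h7 := Nat.dvd_gcd h5 h6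
          rw [Nat.Coprime.gcd_eq_one q.reduced] at h7
          omega
        · exact h4
      obtain ⟨i₀, hi⟩ := hinv (q.den : ℤ) b' h4
      exact ⟨i₀, Or.inr hi⟩
    · obtain ⟨i₀, hi⟩ := hinv q.num a' h3
      exact ⟨i₀, Or.inl hi⟩
  have hcard := coprime_pairs I J hJI i₀
  set W := (((Finset.Ico I (2 * I)) ×ˢ (Finset.Ioc 0 J)).filter
      (fun p => p.2.Coprime p.1 ∧ p.2 % 2 = 1 ∧ p.1 % 16 = i₀ p.2 % 16)) with hW
  set f : ℕ × ℕ → ℚ := fun p => ((((p.1 : ℤ) * q.num + (p.2 : ℤ) * a' : ℤ) : ℚ) /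
    (((p.1 : ℤ) * q.den + (p.2 : ℤ) * b' : ℤ) : ℚ)) with hf
  have hI0 : 0 < I := by
    have h5 : 0 < Q / (8 * b) := by positivity
    have h6 : (0 : ℝ) < I := by linarith
    exact_mod_cast h6
  have hWm : ∀ p ∈ W, (I ≤ p.1 ∧ p.1 < 2 * I ∧ 0 < p.2 ∧ p.2 ≤ J) ∧
      (f p).num = (p.1 : ℤ) * q.num + (p.2 : ℤ) * a' ∧
      ((f p).den : ℤ) = (p.1 : ℤ) * q.den + (p.2 : ℤ) * b' ∧
      0 < (p.1 : ℤ) * q.den + (p.2 : ℤ) * b' ∧ p.1 % 16 = i₀ p.2 % 16 := by
    intro p hp
    rw [hW, Finset.mem_filter, Finset.mem_product, Finset.mem_Ico, Finset.mem_Ioc] at hp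
    obtain ⟨⟨⟨h3, h4⟩, h5, h6⟩, h7, -, h16⟩ := hp
    have hpos : 0 < (p.1 : ℤ) * q.den + (p.2 : ℤ) * b' := by
      have h8 : (0 : ℤ) < p.1 := by
        have : 0 < p.1 := by omega
        exact_mod_cast this
      have h9 : (0 : ℤ) ≤ p.2 := Nat.cast_nonneg _
      have := mul_pos h8 hden
      have := mul_nonneg h9 hb'0
      linarith
    have hc : IsCoprime (p.1 : ℤ) (p.2 : ℤ) := Nat.isCoprime_iff_coprime.2 h7.symm
    have h10 := frac q.num a' q.den b' p.1 p.2 hdet hc hpos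
    exact ⟨⟨h3, h4, h5, h6⟩, h10.1, h10.2, hpos, h16⟩
  have hinj : Set.InjOn f W := by
    intro p hp p' hp' hpp
    obtain ⟨_, h3, h4, _⟩ := hWm p hp
    obtain ⟨_, h5, h6, _⟩ := hWm p' hp'
    rw [hpp] at h3 h4
    rw [h3] at h5
    rw [h4] at h6
    have e1 : (p.2 : ℤ) = p'.2 := by
      linear_combination (q.den : ℤ) * h5 - q.num * h6 - ((p.2 : ℤ) - p'.2) * hdet
    have e2 : (p.1 : ℤ) = p'.1 := by
      linear_combination -b' * h5 + a' * h6 - ((p.1 : ℤ) - p'.1) * hdet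
    exact Prod.ext (by exact_mod_cast e2) (by exact_mod_cast e1)
  refine ⟨Q, by linarith, by linarith, W.image f, ?_, ?_⟩
  · intro r hr
    obtain ⟨p, hp, rfl⟩ := Finset.mem_image.1 hr
    obtain ⟨⟨h3, h4, h5, h6⟩, h7, h8, h9, h16⟩ := hWm p hp
    have r3 : (I : ℝ) ≤ p.1 := by exact_mod_cast h3
    have r4 : (p.1 : ℝ) ≤ 2 * I := by exact_mod_cast h4.le
    have r5 : (0 : ℝ) < p.2 := by exact_mod_cast h5
    have r6 : (p.2 : ℝ) ≤ J := by exact_mod_cast h6
    have rb0 : (0 : ℝ) ≤ (b' : ℝ) := by exact_mod_cast hb'0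
    have rb1 : (b' : ℝ) ≤ b := by
      rw [hb]
      exact_mod_cast hb'1.le
    have h8r : ((f p).den : ℝ) = p.1 * b + p.2 * b' := by
      rw [hb]
      exact_mod_cast h8
    have hQmul : Q ^ τ * Q ^ (1 - τ) = Q := by
      rw [← Real.rpow_add hQ0, show τ + (1 - τ) = 1 by ring, Real.rpow_one]
    refine ⟨?_, ?_, ?_⟩
    · rw [h8r]
      have e1 : (p.1 : ℝ) * b ≤ Q / 2 := by
        calc (p.1 : ℝ) * b ≤ (2 * (Q / (4 * b))) * b :=
              mul_le_mul_of_nonneg_right (r4.trans (by linarith)) hb0.le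
          _ = Q / 2 := by field_simp; norm_num
      have e2 : (p.2 : ℝ) * b' ≤ Q / 8 := by
        calc (p.2 : ℝ) * b' ≤ (b * Q ^ (1 - τ) / 1024) * b :=
              mul_le_mul (r6.trans hJ1) rb1 rb0 (by positivity)
          _ = b ^ 2 * Q ^ (1 - τ) / 1024 := by ring
          _ ≤ (2 * Q ^ τ) * Q ^ (1 - τ) / 1024 :=
              div_le_div_of_nonneg_right (mul_le_mul_of_nonneg_right hQ2 hQp0.le) (by norm_num)
          _ = Q / 512 := by rw [mul_assoc, hQmul]; ring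
          _ ≤ Q / 8 := by linarith
      linarith
    · have hfp : ((f p : ℚ) : ℝ) = (p.1 * (q.num : ℝ) + p.2 * a') / (p.1 * b + p.2 * b') := by
        rw [hf, hb]
        push_cast
        rfl
      have hdetr : (a' : ℝ) * b - q.num * b' = 1 := by
        rw [hb]
        exact_mod_cast hdet
      have hqr : (q : ℝ) = (q.num : ℝ) / b := by
        rw [hb]
        exact_mod_cast (Rat.num_div_den q).symm
      have hI0' : (0 : ℝ) < I := by exact_mod_cast hI0
      have hp10 : (0 : ℝ) < p.1 := lt_of_lt_of_le hI0' r3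
      have hden0 : 0 < (p.1 : ℝ) * b + p.2 * b' := by positivity
      have hdiff : ((f p : ℚ) : ℝ) - q = p.2 / (b * (p.1 * b + p.2 * b')) := by
        rw [hfp, hqr, div_sub_div _ _ hden0.ne' hb0.ne', div_eq_div_iff (by positivity)
          (by positivity)]
        linear_combination (p.2 : ℝ) * (((p.1 : ℝ) * b + p.2 * b') * b) * hdetr
      have hle : |(q : ℝ) - f p| ≤ Q ^ (-τ) / 2 := by
        rw [abs_sub_comm, hdiff, abs_of_pos (by positivity)]
        calc (p.2 : ℝ) / (b * (p.1 * b + p.2 * b')) ≤ (b * Q ^ (1 - τ) / 1024) / (b * (Q / 8)) := by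
              apply div_le_div₀ (by positivity) (r6.trans hJ1) (by positivity)
              apply mul_le_mul_of_nonneg_left _ hb0.le
              have e1 : Q / 8 ≤ p.1 * b := by
                calc Q / 8 = (Q / (8 * b)) * b := by field_simp
                  _ ≤ p.1 * b := mul_le_mul_of_nonneg_right (hI2.trans r3) hb0.le
              have e2 : (0 : ℝ) ≤ p.2 * b' := by positivity
              linarith
          _ = Q ^ (1 - τ) / Q / 128 := by field_simp; norm_num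
          _ = Q ^ (-τ) / 128 := by
              rw [← Real.rpow_sub_one hQ0.ne']
              congr 2
              ring
          _ ≤ Q ^ (-τ) / 2 := by
              have : (0 : ℝ) ≤ Q ^ (-τ) := by positivity
              linarith
      calc |ξ - f p| = |(ξ - q) + (q - f p)| := by congr 1; ring
        _ ≤ |ξ - q| + |(q : ℝ) - f p| := abs_add_le _ _
        _ ≤ Q ^ (-τ) := by
            have : |ξ - q| ≤ Q ^ (-τ) / 2 := hQτ
            linarith
    · rw [h7, h8]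
      rcases hi₀ with h | h
      · exact Or.inl (h _ _ h16)
      · exact Or.inr (h _ _ h16)
  · rw [Finset.card_image_of_injOn hinj]
    refine le_trans ?_ hcard
    have e1 : Q / (8 * b) * (b * Q ^ (1 - τ) / 2048) ≤ (I : ℝ) * J :=
      mul_le_mul hI2 hJ2 (by positivity) (Nat.cast_nonneg _)
    have e2 : Q / (8 * b) * (b * Q ^ (1 - τ) / 2048) = Q * Q ^ (1 - τ) / 2 ^ 14 := by
      field_simp
      norm_num
    have e3 : Q * Q ^ (1 - τ) = Q ^ (2 - τ) := by
      rw [mul_comm, ← Real.rpow_add_one hQ0.ne']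
      congr 1
      ring
    rw [e2, e3] at e1
    have e4 : Q ^ (2 - τ) / 2 ^ 24 = (Q ^ (2 - τ) / 2 ^ 14) / 1024 := by ring
    rw [e4]
    exact div_le_div_of_nonneg_right e1 (by norm_num)

/-- **Infinitely many fractions outside a thin set, with numerator or denominator divisible by 16,
approximate a given irrational number** -/
theorem infinitelyS (ξ : ℝ) (hξ : Irrational ξ) {s τ : ℝ} (hs : 0 ≤ s) (hs1 : s < 1) (hτ0 : 0 < τ)
    (hτ : s + τ < 2) (H : ℚ → ℝ) (K : ℝ) (hK : ∀ r, H r ≤ K * Hr r) (hH : ∀ r, Hr r ≤ H r)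
    (Bad : Set ℚ) (hBad : ∀ ε : ℝ, 0 < ε → ∃ C : ℝ, ∀ X : ℝ, 1 ≤ X →
      {r | r ∈ Bad ∧ H r ≤ X}.Finite ∧ ({r | r ∈ Bad ∧ H r ≤ X}.ncard : ℝ) ≤ C * X ^ (s + ε)) :
    {r : ℚ | ((16 : ℤ) ∣ r.num ∨ (16 : ℤ) ∣ (r.den : ℤ)) ∧ r ∉ Bad ∧ |ξ - r| ≤ (H r) ^ (-τ)}.Infinite := by
  intro hfin
  have hHr1 : ∀ r : ℚ, 1 ≤ Hr r := fun r => by
    have : (1 : ℝ) ≤ r.den := by exact_mod_cast r.den_pos
    exact this.trans (le_max_right _ _)
  have hK1 : 1 ≤ K := by
    have h1 := hK 1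
    have h2 := hH 1
    have h3 : Hr 1 = 1 := by simp [Hr]
    rw [h3] at h1 h2
    linarith
  set τ' : ℝ := (max τ 1 + (2 - s)) / 2 with hτ'
  have hm1 : max τ 1 < 2 - s := max_lt (by linarith) (by linarith)
  have t1 : 1 < τ' := by
    have := le_max_right τ 1
    rw [hτ']; linarith
  have t2 : τ < τ' := by
    have := le_max_left τ 1
    rw [hτ']; linarith
  have t3 : τ' < 2 - s := by rw [hτ']; linarith
  set ε : ℝ := (2 - τ' - s) / 2 with hε
  have hε0 : 0 < ε := by rw [hε]; linarith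
  have hlt : s + ε < 2 - τ' := by rw [hε]; linarith
  obtain ⟨C, hC⟩ := hBad ε hε0
  set K₁ : ℝ := K * (|ξ| + 1) with hK₁
  have hK₁1 : 1 ≤ K₁ := by
    have : (0 : ℝ) ≤ |ξ| := abs_nonneg ξ
    rw [hK₁]
    nlinarith
  set M : ℝ := (hfin.toFinset.card : ℝ) with hM
  have e1 := ev (K₁ ^ τ) (sub_pos.2 t2)
  have e2 := ev (4 * 2 ^ 24 * (|C| * K₁ ^ (s + ε))) hlt
  have e3 := ev (4 * 2 ^ 24 * M) (show (0 : ℝ) < 2 - τ' by linarith)
  obtain ⟨N, hN⟩ := eventually_atTop.1 (e1.and (e2.and e3))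
  obtain ⟨Q, hQN, hQ1, T, hT, hcard⟩ := manyS ξ hξ t1 (by linarith) N
  obtain ⟨h1, h2, h3⟩ := hN Q hQN
  have hQ0 : 0 < Q := by linarith
  rw [Real.rpow_zero, mul_one] at h1 h3
  have hsub : (T : Set ℚ) ⊆ (hfin.toFinset : Set ℚ) ∪ {r | r ∈ Bad ∧ H r ≤ K₁ * Q} := by
    intro r hr
    obtain ⟨h4, h5, h16⟩ := hT r hr
    have h6 : H r ≤ K₁ * Q := by
      refine (hK r).trans ?_
      rw [hK₁, mul_assoc]
      apply mul_le_mul_of_nonneg_left _ (by linarith)
      apply max_le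
      · have h7 : (r.num : ℝ) = r * r.den := by
          exact_mod_cast (Rat.mul_den_eq_num r).symm
        have h8 : |(r : ℝ)| ≤ |ξ| + 1 := by
          have h9 : |ξ - r| ≤ 1 :=
            h5.trans (Real.rpow_le_one_of_one_le_of_nonpos hQ1 (by linarith))
          calc |(r : ℝ)| = |ξ - (ξ - r)| := by congr 1; ring
            _ ≤ |ξ| + |ξ - r| := abs_sub _ _
            _ ≤ |ξ| + 1 := by linarith
        rw [h7, abs_mul, abs_of_nonneg (Nat.cast_nonneg r.den : (0 : ℝ) ≤ r.den)]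
        exact mul_le_mul h8 h4 (Nat.cast_nonneg _) (by positivity)
      · have : (0 : ℝ) ≤ |ξ| := abs_nonneg ξ
        nlinarith
    by_cases hb : r ∈ Bad
    · exact Or.inr ⟨hb, h6⟩
    · left
      simp only [Set.Finite.coe_toFinset, Set.mem_ofPred_eq]
      refine ⟨h16, hb, h5.trans ?_⟩
      have hHr0 : 0 < H r := lt_of_lt_of_le (by linarith [hHr1 r]) (hH r)
      have h7 : (K₁ * Q) ^ (-τ) ≤ (H r) ^ (-τ) :=
        Real.rpow_le_rpow_of_nonpos hHr0 h6 (by linarith)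
      refine le_trans ?_ h7
      rw [Real.mul_rpow (by linarith) hQ0.le, Real.rpow_neg (by linarith), Real.rpow_neg hQ0.le,
        Real.rpow_neg (by linarith), ← mul_inv]
      apply inv_anti₀ (by positivity)
      calc K₁ ^ τ * Q ^ τ ≤ Q ^ (τ' - τ) * Q ^ τ :=
            mul_le_mul_of_nonneg_right h1 (by positivity)
        _ = Q ^ τ' := by rw [← Real.rpow_add hQ0]; congr 1; ring
  obtain ⟨hf, hc⟩ := hC (K₁ * Q) (by nlinarith)
  have h4 : (T.card : ℝ) ≤ M + C * (K₁ * Q) ^ (s + ε) := by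
    have h5 : (T : Set ℚ).ncard ≤ ((hfin.toFinset : Set ℚ) ∪ {r | r ∈ Bad ∧ H r ≤ K₁ * Q}).ncard :=
      Set.ncard_le_ncard hsub ((Finset.finite_toSet _).union hf)
    have h6 := Set.ncard_union_le (hfin.toFinset : Set ℚ) {r | r ∈ Bad ∧ H r ≤ K₁ * Q}
    rw [Set.ncard_coe_finset] at h5 h6
    have h7 : (T.card : ℝ) ≤ (hfin.toFinset.card : ℝ) + ({r | r ∈ Bad ∧ H r ≤ K₁ * Q}.ncard : ℝ) := by
      exact_mod_cast h5.trans h6
    rw [hM]
    linarith
  have h5 : C * (K₁ * Q) ^ (s + ε) ≤ |C| * K₁ ^ (s + ε) * Q ^ (s + ε) := by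
    rw [Real.mul_rpow (by linarith) hQ0.le, mul_assoc]
    exact mul_le_mul_of_nonneg_right (le_abs_self C) (by positivity)
  have h6 : 0 < Q ^ (2 - τ') := by positivity
  nlinarith

end Q273.ApxS
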