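import Mathlib
import Pool.Agent.H58R.Loc

set_option autoImplicit false

/-!
# Primes which are multiplicatively independent of finitely many algebraic numbers
-/

namespace Q273.RL

open Pool.Agent.H58P (Qb ht)

/-- the value of the character with exponent `a` at the point `x` -/
noncomputable def chr {n : ℕ} (a : Fin n → ℤ) (x : Fin n → Qbˣ) : Qbˣ := ∏ i, x i ^ a i

lemma chr_mul {n : ℕ} (a : Fin n → ℤ) (x y : Fin n → Qbˣ) : chr a (x * y) = chr a x * chr a y := by
  unfold chr
  rw [← Finset.prod_mul_distrib]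
  exact Finset.prod_congr rfl fun i _ => by rw [Pi.mul_apply, mul_zpow]

lemma chr_zpow {n : ℕ} (a : Fin n → ℤ) (x : Fin n → Qbˣ) (m : ℤ) :
    chr a (x ^ m) = chr a x ^ m := by
  unfold chr
  rw [← Finset.prod_zpow]
  exact Finset.prod_congr rfl fun i _ => by
    rw [Pi.pow_apply, ← zpow_mul, ← zpow_mul, mul_comm]

lemma chr_pow {n : ℕ} (a : Fin n → ℤ) (x : Fin n → Qbˣ) (m : ℕ) :
    chr a (x ^ m) = chr a x ^ m := by
  rw [← zpow_natCast x, chr_zpow, zpow_natCast]

lemma chr_smul {n : ℕ} (a : Fin n → ℤ) (x : Fin n → Qbˣ) (m : ℤ) :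
    chr (fun i => m * a i) x = chr a x ^ m := by
  unfold chr
  rw [← Finset.prod_zpow]
  exact Finset.prod_congr rfl fun i _ => by rw [← zpow_mul, mul_comm]

/-- There are primes `ℓ_j` which are multiplicatively independent modulo the division group of the
group generated by a given finite set. -/
theorem exists_primes (n : ℕ) (S : Finset Qbˣ) :
    ∃ ℓ : Fin n → ℕ, (∀ j, (ℓ j).Prime) ∧ ∀ (u : Fin n → Qbˣ),
      (∀ j, (u j : Qb) = (ℓ j : Qb)) → ∀ m : Fin n → ℤ, ∀ N : ℕ, 0 < N →
        (∏ j, u j ^ m j) ^ N ∈ Subgroup.closure (S : Set Qbˣ) → m = 0 := by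
  classical
  set T : Set Qb := (fun u : Qbˣ => (u : Qb)) '' (S : Set Qbˣ) with hT
  have hTf : T.Finite := S.finite_toSet.image _
  set E := IntermediateField.adjoin ℚ T with hE
  have hfd : FiniteDimensional ℚ E :=
    IntermediateField.finiteDimensional_adjoin fun x _ => Pool.Agent.H58P.qb_isIntegral x
  -- norms
  have hmem : ∀ s ∈ S, (s : Qb) ∈ E := fun s hs =>
    IntermediateField.subset_adjoin ℚ T ⟨s, hs, rfl⟩
  set q : S → ℚ := fun s => Algebra.norm ℚ (⟨(s : Qbˣ), hmem s s.2⟩ : E) with hq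
  set B : ℕ := ∑ s, ((q s).num.natAbs + (q s).den) with hB
  have hinf : {p : ℕ | p.Prime ∧ B < p}.Infinite := by
    intro hfin
    obtain ⟨C, hC⟩ := hfin.bddAbove
    obtain ⟨p, hp, hp2⟩ := Nat.exists_infinite_primes (max B C + 1)
    have h1 := hC ⟨hp2, lt_of_le_of_lt (le_max_left B C) (by omega)⟩
    have h2 := le_max_right B C
    omega
  set emb := hinf.natEmbedding with hemb
  set ℓ : Fin n → ℕ := fun j => (emb (j : ℕ) : ℕ) with hℓ
  have hℓp : ∀ j, (ℓ j).Prime := fun j => (emb (j : ℕ)).2.1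
  have hℓB : ∀ j, B < ℓ j := fun j => (emb (j : ℕ)).2.2
  have hℓi : Function.Injective ℓ := by
    intro i j hij
    have := emb.injective (Subtype.ext hij)
    exact Fin.ext this
  refine ⟨ℓ, hℓp, ?_⟩
  intro u hu m N hN hmemcl
  -- the subgroup of units of `E` with norm prime to the `ℓ j`
  let H : Subgroup Qbˣ :=
    { carrier := {g | ∃ e : E, (e : Qb) = g ∧ ∀ j, padicValRat (ℓ j) (Algebra.norm ℚ e) = 0}
      mul_mem' := by
        rintro g g' ⟨e, he, h⟩ ⟨e', he', h'⟩
        refine ⟨e * e', ?_, fun j => ?_⟩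
        · rw [IntermediateField.coe_mul, he, he', Units.val_mul]
        · have : Fact (ℓ j).Prime := ⟨hℓp j⟩
          have h1 : e ≠ 0 := by
            rintro rfl
            exact g.ne_zero (by rw [← he]; rfl)
          have h2 : e' ≠ 0 := by
            rintro rfl
            exact g'.ne_zero (by rw [← he']; rfl)
          rw [map_mul, padicValRat.mul (Algebra.norm_ne_zero_iff.mpr h1)
            (Algebra.norm_ne_zero_iff.mpr h2), h j, h' j, add_zero]
      one_mem' := ⟨1, by simp, fun j => by simp⟩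
      inv_mem' := by
        rintro g ⟨e, he, h⟩
        refine ⟨e⁻¹, ?_, fun j => ?_⟩
        · rw [IntermediateField.coe_inv, he, Units.val_inv_eq_inv_val]
        · have : Fact (ℓ j).Prime := ⟨hℓp j⟩
          have e1 : Algebra.norm ℚ e⁻¹ = (Algebra.norm ℚ e)⁻¹ := by
            by_cases h0 : e = 0
            · simp [h0]
            · have h1 : Algebra.norm ℚ e⁻¹ * Algebra.norm ℚ e = 1 := by
                rw [← map_mul, inv_mul_cancel₀ h0, map_one]
              exact eq_inv_of_mul_eq_one_left h1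
          rw [e1, padicValRat.inv, h j, neg_zero] }
  have hSH : Subgroup.closure (S : Set Qbˣ) ≤ H := by
    rw [Subgroup.closure_le]
    intro s hs
    refine ⟨⟨(s : Qb), hmem s hs⟩, rfl, fun j => ?_⟩
    have hle : (q ⟨s, hs⟩).num.natAbs + (q ⟨s, hs⟩).den ≤ B :=
      Finset.single_le_sum (f := fun s => (q s).num.natAbs + (q s).den)
        (fun _ _ => Nat.zero_le _) (Finset.mem_univ _)
    have hlt := hℓB j
    have hq0 : q ⟨s, hs⟩ ≠ 0 := by
      rw [hq]
      apply Algebra.norm_ne_zero_iff.mpr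
      intro h
      exact s.ne_zero (congrArg Subtype.val h)
    show padicValRat (ℓ j) (q ⟨s, hs⟩) = 0
    have h1 : ¬ (ℓ j ∣ (q ⟨s, hs⟩).num.natAbs) := by
      intro hd
      have := Nat.le_of_dvd (Int.natAbs_pos.mpr (Rat.num_ne_zero.mpr hq0)) hd
      omega
    have h2 : ¬ (ℓ j ∣ (q ⟨s, hs⟩).den) := by
      intro hd
      have := Nat.le_of_dvd (Rat.den_pos _) hd
      omega
    rw [padicValRat, padicValInt, padicValNat.eq_zero_of_not_dvd h1,
      padicValNat.eq_zero_of_not_dvd h2]
    simp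
  obtain ⟨e, he, hval⟩ := hSH hmemcl
  have he2 : e = algebraMap ℚ E ((∏ j, (ℓ j : ℚ) ^ m j) ^ N) := by
    apply Subtype.ext
    rw [he]
    push_cast
    simp only [hu, map_pow, map_prod, map_zpow₀, map_natCast, IntermediateField.coe_pow,
      IntermediateField.coe_prod]
    rfl
  have hd : 0 < Module.finrank ℚ E := Module.finrank_pos
  funext j
  have : Fact (ℓ j).Prime := ⟨hℓp j⟩
  have h1 := hval j
  have hp0 : ∀ i, (ℓ i : ℚ) ≠ 0 := fun i => by exact_mod_cast (hℓp i).ne_zero
  rw [he2, Algebra.norm_algebraMap, padicValRat.pow, padicValRat.pow] at h1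
  have h2 : padicValRat (ℓ j) (∏ i, (ℓ i : ℚ) ^ m i) = m j := by
    have gen : ∀ s : Finset (Fin n), padicValRat (ℓ j) (∏ i ∈ s, (ℓ i : ℚ) ^ m i) =
        ∑ i ∈ s, if i = j then m i else 0 := by
      intro s
      induction s using Finset.induction_on with
      | empty => simp
      | insert i s hi ih =>
        rw [Finset.prod_insert hi, Finset.sum_insert hi,
          padicValRat.mul (zpow_ne_zero _ (hp0 i))
            (Finset.prod_ne_zero_iff.mpr fun i _ => zpow_ne_zero _ (hp0 i)), ih,
          padicValRat.zpow]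
        congr 1
        by_cases hij : i = j
        · rw [if_pos hij, hij, padicValRat.self (hℓp j).one_lt, mul_one]
        · rw [if_neg hij]
          have : padicValRat (ℓ j) (ℓ i : ℚ) = 0 := by
            rw [padicValRat.of_nat]
            have : Fact (ℓ i).Prime := ⟨hℓp i⟩
            have := padicValNat_primes (p := ℓ j) (q := ℓ i) (fun h => hij (hℓi h).symm)
            exact_mod_cast this
          rw [this, mul_zero]
    rw [gen]
    simp
  rw [h2] at h1
  have h3 : (N : ℤ) ≠ 0 := by exact_mod_cast hN.ne'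
  have h4 : (Module.finrank ℚ E : ℤ) ≠ 0 := by exact_mod_cast hd.ne'
  rcases mul_eq_zero.mp h1 with h5 | h5
  · exact absurd h5 h4
  · rcases mul_eq_zero.mp h5 with h6 | h6
    · exact absurd h6 h3
    · exact h6

end Q273.RL
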