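import Mathlib
import Pool.Agent.Q273.RLa

set_option autoImplicit false

/-!
# Points of small height on translates of the kernel of a character
-/

namespace Q273.RL

open Pool.Agent.H58P (Qb ht)
open Pool.Agent.H58R (ht_nonneg ht_zpow ht_prod_le ht_mul_le)

/-- the sum of the heights of the coordinates -/
noncomputable def hG {n : ℕ} (x : Fin n → Qbˣ) : ℝ := ∑ i, NumberField.absLogHeight₁ (x i : Qb)

lemma hG_eq {n : ℕ} (x : Fin n → Qbˣ) : hG x = ∑ i, ht (x i : Qb) :=
  Finset.sum_congr rfl fun _ _ => Pool.Agent.H58P.absLogHeight₁_eq _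

/-- no proper torsion translate contains the point -/
def Trans {n : ℕ} (Γ : Subgroup (Fin n → Qbˣ)) (x : Fin n → Qbˣ) : Prop :=
  ∀ b : Fin n → ℤ, b ≠ 0 → ∀ g ∈ Γ, chr b x ≠ chr b g

lemma exists_root (u : Qbˣ) (m : ℤ) (hm : m ≠ 0) : ∃ v : Qbˣ, v ^ m = u := by
  have key : ∀ (w : Qbˣ) (k : ℕ), 0 < k → ∃ v : Qbˣ, v ^ k = w := by
    intro w k hk
    obtain ⟨z, hz⟩ := IsAlgClosed.exists_pow_nat_eq (w : Qb) hk
    have hz0 : z ≠ 0 := by
      rintro rfl
      rw [zero_pow hk.ne'] at hz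
      exact w.ne_zero hz.symm
    exact ⟨Units.mk0 z hz0, Units.ext (by push_cast; exact hz)⟩
  obtain ⟨k, rfl | rfl⟩ := m.eq_nat_or_neg
  · obtain ⟨v, hv⟩ := key u k (by omega)
    exact ⟨v, by rw [zpow_natCast, hv]⟩
  · obtain ⟨v, hv⟩ := key u⁻¹ k (by omega)
    exact ⟨v, by rw [zpow_neg, zpow_natCast, hv, inv_inv]⟩

section

variable {n : ℕ} (Γ : Subgroup (Fin n → Qbˣ))

/-- torsion is in a saturated group -/
lemma torsion_mem (hsat : ∀ x, (∃ N : ℕ, 0 < N ∧ x ^ N ∈ Γ) → x ∈ Γ) (x : Fin n → Qbˣ) (N : ℕ)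
    (hN : 0 < N) (h : x ^ N = 1) : x ∈ Γ := hsat x ⟨N, hN, by rw [h]; exact one_mem _⟩

/-- if a positive power of `u` is a value of the character `a` on a saturated group, then so
is `u` -/
lemma sat_value (hsat : ∀ x, (∃ N : ℕ, 0 < N ∧ x ^ N ∈ Γ) → x ∈ Γ) (a : Fin n → ℤ) (ha : a ≠ 0)
    (u : Qbˣ) (N : ℕ) (hN : 0 < N) (g : Fin n → Qbˣ) (hg : g ∈ Γ) (h : u ^ N = chr a g) :
    ∃ g' ∈ Γ, chr a g' = u := by
  classical
  obtain ⟨i₁, hi₁⟩ : ∃ i, a i ≠ 0 := by
    by_contra hcon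
    push Not at hcon
    exact ha (funext hcon)
  -- a root of `g`
  choose r hr using fun i => exists_root (g i) (N : ℤ) (by exact_mod_cast hN.ne')
  have hrg : r ^ N = g := by
    funext i
    rw [Pi.pow_apply, ← zpow_natCast, hr]
  have hrΓ : r ∈ Γ := hsat r ⟨N, hN, by rw [hrg]; exact hg⟩
  have h1 : (u / chr a r) ^ N = 1 := by
    rw [div_pow, h, ← chr_pow, hrg, div_self']
  obtain ⟨z, hz⟩ := exists_root (u / chr a r) (a i₁) hi₁
  set t : Fin n → Qbˣ := fun i => if i = i₁ then z else 1 with ht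
  have ht1 : chr a t = u / chr a r := by
    unfold chr
    rw [Finset.prod_eq_single i₁ (fun i _ hi => by rw [ht]; simp [hi]) (by simp)]
    rw [ht]
    simp only [if_true]
    exact hz
  have htΓ : t ∈ Γ := by
    apply torsion_mem Γ hsat t (N * (a i₁).natAbs) (Nat.mul_pos hN (Int.natAbs_pos.mpr hi₁))
    funext i
    rw [Pi.pow_apply, Pi.one_apply, ht]
    by_cases hi : i = i₁
    · simp only [hi, if_true]
      have h2 : z ^ (a i₁).natAbs = (u / chr a r) ∨ z ^ (a i₁).natAbs = (u / chr a r)⁻¹ := by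
        rcases Int.natAbs_eq (a i₁) with h3 | h3
        · left
          rw [← hz]
          conv_rhs => rw [h3]
          rw [zpow_natCast]
        · right
          rw [← hz]
          conv_rhs => rw [h3]
          rw [zpow_neg, zpow_natCast, inv_inv]
      rw [mul_comm, pow_mul]
      rcases h2 with h2 | h2
      · rw [h2, h1]
      · rw [h2, inv_pow, h1, inv_one]
    · simp [hi]
  refine ⟨t * r, mul_mem htΓ hrΓ, ?_⟩
  rw [chr_mul, ht1, div_mul_cancel]

/-- **Construction.** Let `Γ` be a saturated subgroup of finite rank, `a` a nonzero exponent and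
`lam` a number in the group of all coordinates of points of `Γ` which is not a value of
the character `a` on `Γ`. Then there are a constant `A`
and, for every `M > 0`, a point `x` outside all proper torsion translates such that
`chr a x` is an `M`-th root of `lam` which is a coordinate of a point of `Γ`, and the height of `x`
is at most `A / M`. -/
theorem construct (hsat : ∀ x, (∃ N : ℕ, 0 < N ∧ x ^ N ∈ Γ) → x ∈ Γ)
    (hfin : ∃ F : Finset (Fin n → Qbˣ), ∀ x ∈ Γ, ∃ N : ℕ, 0 < N ∧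
      x ^ N ∈ Subgroup.closure (F : Set (Fin n → Qbˣ)))
    (a : Fin n → ℤ) (ha : a ≠ 0) (g₀ : Fin n → Qbˣ) (hg₀ : g₀ ∈ Γ) (i₀ : Fin n)
    (hlam : ∀ g ∈ Γ, chr a g ≠ g₀ i₀) :
    ∃ A : ℝ, 0 ≤ A ∧ ∀ M : ℕ, 0 < M → ∃ (g : Fin n → Qbˣ) (x : Fin n → Qbˣ), g ∈ Γ ∧
      Trans Γ x ∧ chr a x = g i₀ ∧ hG x ≤ A / M := by
  classical
  obtain ⟨i₁, hi₁⟩ : ∃ i, a i ≠ 0 := by
    by_contra hcon
    push Not at hcon
    exact ha (funext hcon)
  obtain ⟨F, hF⟩ := hfin
  set S : Finset Qbˣ := F.biUnion fun f => Finset.univ.image fun i => f i with hS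
  have hcoord : ∀ x ∈ Subgroup.closure (F : Set (Fin n → Qbˣ)), ∀ i,
      x i ∈ Subgroup.closure (S : Set Qbˣ) := by
    intro x hx i
    have h1 : Subgroup.closure (F : Set (Fin n → Qbˣ)) ≤
        (Subgroup.closure (S : Set Qbˣ)).comap (Pi.evalMonoidHom (fun _ : Fin n => Qbˣ) i) := by
      rw [Subgroup.closure_le]
      intro f hf
      apply Subgroup.subset_closure
      rw [hS]
      simp only [Finset.coe_biUnion, Set.mem_iUnion]
      refine ⟨f, hf, ?_⟩
      simp only [Finset.coe_image, Finset.coe_univ, Set.image_univ]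
      exact ⟨i, rfl⟩
    exact h1 hx
  -- the division group of `S`
  have hcoord2 : ∀ x ∈ Γ, ∀ i, ∃ N : ℕ, 0 < N ∧ x i ^ N ∈ Subgroup.closure (S : Set Qbˣ) := by
    intro x hx i
    obtain ⟨N, hN, h⟩ := hF x hx
    exact ⟨N, hN, hcoord _ h i⟩
  have hchr : ∀ x ∈ Γ, ∀ b : Fin n → ℤ, ∃ N : ℕ, 0 < N ∧
      chr b x ^ N ∈ Subgroup.closure (S : Set Qbˣ) := by
    intro x hx b
    obtain ⟨N, hN, h⟩ := hF x hx
    refine ⟨N, hN, ?_⟩
    rw [← chr_pow]
    exact prod_mem fun i _ => zpow_mem (hcoord _ h i) _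
  obtain ⟨ℓ, hℓp, hℓ⟩ := exists_primes n S
  have hu0 : ∀ j, (ℓ j : Qb) ≠ 0 := fun j => by exact_mod_cast (hℓp j).ne_zero
  set u : Fin n → Qbˣ := fun j => Units.mk0 (ℓ j : Qb) (hu0 j) with hu
  have hℓ' := hℓ u fun j => rfl
  set A : ℝ := ht (g₀ i₀ : Qb) + ∑ j, (|(a i₁ : ℝ)| + |(a j : ℝ)|) * ht (u j : Qb) with hA
  have hA0 : 0 ≤ A := by
    have h1 := ht_nonneg (g₀ i₀ : Qb)
    have h2 : 0 ≤ ∑ j, (|(a i₁ : ℝ)| + |(a j : ℝ)|) * ht (u j : Qb) :=
      Finset.sum_nonneg fun j _ => mul_nonneg (by positivity) (ht_nonneg _)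
    rw [hA]
    linarith
  refine ⟨A, hA0, fun M hM => ?_⟩
  have hM' : (M : ℤ) ≠ 0 := by exact_mod_cast hM.ne'
  -- roots
  choose g hg using fun i => exists_root (g₀ i) (M : ℤ) hM'
  have hgM : g ^ M = g₀ := by
    funext i
    rw [Pi.pow_apply, ← zpow_natCast, hg]
  have hgΓ : g ∈ Γ := hsat g ⟨M, hM, by rw [hgM]; exact hg₀⟩
  choose v hv using fun j => exists_root (u j) (M : ℤ) hM'
  obtain ⟨μ, hμ⟩ := exists_root (g i₀) (a i₁) hi₁
  -- the point
  set x : Fin n → Qbˣ := fun i =>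
    if i = i₁ then μ * ∏ j ∈ Finset.univ.erase i₁, v j ^ (-a j) else v i ^ a i₁ with hx
  have hxi₁ : x i₁ = μ * ∏ j ∈ Finset.univ.erase i₁, v j ^ (-a j) := by
    rw [hx]
    simp
  have hxi : ∀ i, i ≠ i₁ → x i = v i ^ a i₁ := by
    intro i hi
    rw [hx]
    simp [hi]
  -- characters of the point
  have hxchr : ∀ b : Fin n → ℤ, chr b x =
      μ ^ b i₁ * ∏ j ∈ Finset.univ.erase i₁, v j ^ (a i₁ * b j - a j * b i₁) := by
    intro b
    unfold chr
    rw [← Finset.mul_prod_erase Finset.univ _ (Finset.mem_univ i₁), hxi₁, mul_zpow,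
      ← Finset.prod_zpow, mul_assoc, ← Finset.prod_mul_distrib]
    congr 1
    refine Finset.prod_congr rfl fun j hj => ?_
    rw [hxi j (Finset.ne_of_mem_erase hj), ← zpow_mul, ← zpow_mul, ← zpow_add]
    congr 1
    ring
  have hxa : chr a x = g i₀ := by
    rw [hxchr, hμ, Finset.prod_eq_one, mul_one]
    intro j _
    rw [mul_comm (a i₁) (a j), sub_self, zpow_zero]
  refine ⟨g, x, hgΓ, ?_, hxa, ?_⟩
  · -- transversality
    intro b hb γ hγ hEq
    -- the exponents
    obtain ⟨N₁, hN₁, h1⟩ := hcoord2 g hgΓ i₀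
    obtain ⟨N₂, hN₂, h2⟩ := hchr γ hγ b
    set e : Fin n → ℤ := fun j => if j = i₁ then 0 else a i₁ * b j - a j * b i₁ with he
    have h3 : chr b x = μ ^ b i₁ * ∏ j, v j ^ e j := by
      rw [hxchr, ← Finset.mul_prod_erase Finset.univ (fun j => v j ^ e j) (Finset.mem_univ i₁)]
      have : e i₁ = 0 := by rw [he]; simp
      rw [this, zpow_zero, one_mul]
      congr 1
      refine Finset.prod_congr rfl fun j hj => ?_
      rw [he]
      simp [Finset.ne_of_mem_erase hj]
    have h4 : (∏ j, v j ^ e j) ^ M = ∏ j, u j ^ e j := by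
      rw [← Finset.prod_pow]
      refine Finset.prod_congr rfl fun j _ => ?_
      rw [← zpow_natCast, ← zpow_mul, mul_comm, zpow_mul, hv]
    -- the power `a i₁` kills `μ`
    have h5 : (∏ j, u j ^ (a i₁ * e j)) = (chr b γ ^ a i₁ * (g i₀ ^ b i₁)⁻¹) ^ M := by
      have h6 : (∏ j, v j ^ e j) = chr b γ * (μ ^ b i₁)⁻¹ := by
        rw [← hEq, h3, mul_comm (μ ^ b i₁), mul_assoc, mul_inv_cancel, mul_one]
      have h7 : (∏ j, u j ^ (a i₁ * e j)) = ((∏ j, v j ^ e j) ^ a i₁) ^ M := by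
        rw [← zpow_natCast, ← zpow_mul, mul_comm (a i₁) (M : ℤ), zpow_mul, zpow_natCast, h4,
          ← Finset.prod_zpow]
        refine Finset.prod_congr rfl fun j _ => ?_
        rw [← zpow_mul, mul_comm]
      rw [h7, h6, mul_zpow, inv_zpow, ← zpow_mul, mul_comm (b i₁), zpow_mul, hμ]
    have h8 : (∏ j, u j ^ (a i₁ * e j)) ^ (N₁ * N₂) ∈ Subgroup.closure (S : Set Qbˣ) := by
      rw [h5, ← pow_mul, mul_comm M, pow_mul]
      apply pow_mem
      rw [mul_pow]
      apply mul_mem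
      · have : (chr b γ ^ a i₁) ^ (N₁ * N₂) = ((chr b γ ^ N₂) ^ a i₁) ^ N₁ := by
          simp only [← zpow_natCast, ← zpow_mul]
          congr 1
          push_cast
          ring
        rw [this]
        exact pow_mem (zpow_mem h2 _) _
      · have : ((g i₀ ^ b i₁)⁻¹) ^ (N₁ * N₂) = (((g i₀ ^ N₁) ^ b i₁) ^ N₂)⁻¹ := by
          simp only [← zpow_natCast, ← zpow_mul, ← zpow_neg]
          congr 1
          push_cast
          ring
        rw [this]
        exact inv_mem (pow_mem (zpow_mem h1 _) _)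
    have h9 := hℓ' (fun j => a i₁ * e j) (N₁ * N₂) (Nat.mul_pos hN₁ hN₂) h8
    have h10 : ∀ j, a i₁ * b j = b i₁ * a j := by
      intro j
      by_cases hj : j = i₁
      · rw [hj, mul_comm]
      · have h11 := congrFun h9 j
        simp only [Pi.zero_apply] at h11
        rcases mul_eq_zero.mp h11 with h12 | h12
        · exact absurd h12 hi₁
        · rw [he] at h12
          simp only [hj, if_false] at h12
          linarith
    have hb1 : b i₁ ≠ 0 := by
      intro h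
      apply hb
      funext j
      have := h10 j
      rw [h, zero_mul] at this
      rcases mul_eq_zero.mp this with h12 | h12
      · exact absurd h12 hi₁
      · exact h12
    -- powers
    have h13 : g i₀ ^ b i₁ = chr a γ ^ b i₁ := by
      have e1 : chr (fun i => a i₁ * b i) x = chr (fun i => b i₁ * a i) x := by
        congr 1
        funext i
        exact h10 i
      have e2 : chr (fun i => a i₁ * b i) γ = chr (fun i => b i₁ * a i) γ := by
        congr 1
        funext i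
        exact h10 i
      rw [chr_smul, chr_smul] at e1 e2
      rw [← hxa, ← e1, hEq, e2]
    have h14 : (g i₀ / chr a γ) ^ (b i₁).natAbs = 1 := by
      have h15 : (g i₀ / chr a γ) ^ (b i₁) = 1 := by
        rw [div_zpow, h13, div_self']
      rcases Int.natAbs_eq (b i₁) with h16 | h16
      · rw [h16, zpow_natCast] at h15
        exact h15
      · rw [h16, zpow_neg, zpow_natCast, inv_eq_one] at h15
        exact h15
    have h17 : g i₀ ^ (b i₁).natAbs = chr a (γ ^ (b i₁).natAbs) := by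
      rw [chr_pow]
      rw [div_pow] at h14
      exact div_eq_one.mp h14
    obtain ⟨γ', hγ', h18⟩ := sat_value Γ hsat a ha (g i₀) _ (Int.natAbs_pos.mpr hb1) _
      (pow_mem hγ _) h17
    apply hlam (γ' ^ M) (pow_mem hγ' _)
    rw [chr_pow, h18]
    have := congrFun hgM i₀
    rwa [Pi.pow_apply] at this
  · -- the height
    have hMr : (0 : ℝ) < M := by exact_mod_cast hM
    have hroot : ∀ (y z : Qbˣ), y ^ (M : ℤ) = z → ht (y : Qb) = ht (z : Qb) / M := by
      intro y z h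
      have h1 := ht_zpow (y : Qb) y.ne_zero (M : ℤ)
      have h2 : (y : Qb) ^ (M : ℤ) = (z : Qb) := by rw [← h]; push_cast; rfl
      rw [h2] at h1
      rw [h1]
      simp only [Int.cast_natCast, abs_of_pos hMr]
      field_simp
    have hz : ∀ (y : Qbˣ) (m : ℤ), ht ((y ^ m : Qbˣ) : Qb) = |(m : ℝ)| * ht (y : Qb) := by
      intro y m
      rw [← ht_zpow _ y.ne_zero]
      push_cast
      rfl
    have h1 : ht (μ : Qb) ≤ ht (g₀ i₀ : Qb) / M := by
      have h2 := hz μ (a i₁)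
      rw [hμ, hroot _ _ (hg i₀)] at h2
      rw [h2]
      have h3 : (1 : ℝ) ≤ |(a i₁ : ℝ)| := by
        have := Int.one_le_abs hi₁
        exact_mod_cast this
      nlinarith [ht_nonneg (μ : Qb)]
    rw [hG_eq, ← Finset.add_sum_erase Finset.univ _ (Finset.mem_univ i₁), hxi₁]
    have h2 : ht ((μ * ∏ j ∈ Finset.univ.erase i₁, v j ^ (-a j) : Qbˣ) : Qb) ≤
        ht (g₀ i₀ : Qb) / M + ∑ j ∈ Finset.univ.erase i₁, |(a j : ℝ)| * (ht (u j : Qb) / M) := by
      rw [Units.val_mul, Units.coe_prod]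
      refine (ht_mul_le _ _).trans (add_le_add h1 ((ht_prod_le _ _).trans ?_))
      refine Finset.sum_le_sum fun j _ => ?_
      rw [hz, hroot _ _ (hv j)]
      push_cast
      rw [abs_neg]
    have h3 : ∑ j ∈ Finset.univ.erase i₁, ht (x j : Qb) ≤
        ∑ j ∈ Finset.univ.erase i₁, |(a i₁ : ℝ)| * (ht (u j : Qb) / M) := by
      refine Finset.sum_le_sum fun j hj => ?_
      rw [hxi j (Finset.ne_of_mem_erase hj), hz, hroot _ _ (hv j)]
    have h4 : ∑ j ∈ Finset.univ.erase i₁, |(a j : ℝ)| * (ht (u j : Qb) / M) +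
        ∑ j ∈ Finset.univ.erase i₁, |(a i₁ : ℝ)| * (ht (u j : Qb) / M) ≤
        (∑ j, (|(a i₁ : ℝ)| + |(a j : ℝ)|) * ht (u j : Qb)) / M := by
      rw [← Finset.sum_add_distrib, Finset.sum_div]
      refine (Finset.sum_le_sum fun j _ => le_of_eq ?_).trans
        (Finset.sum_le_univ_sum_of_nonneg (f := fun j =>
          (|(a i₁ : ℝ)| + |(a j : ℝ)|) * ht (u j : Qb) / M) (fun j =>
          div_nonneg (mul_nonneg (by positivity) (ht_nonneg _)) hMr.le))
      ring
    have h5 : A / M = ht (g₀ i₀ : Qb) / M +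
        (∑ j, (|(a i₁ : ℝ)| + |(a j : ℝ)|) * ht (u j : Qb)) / M := by
      rw [hA, add_div]
    rw [h5]
    linarith

end

end Q273.RL
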