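import Mathlib
import Pool.Agent.Q273.RLb

set_option autoImplicit false

/-!
# Lehmer groups in tori: the reduction to groups `C^n`, and groups of rank one
-/

namespace Q273.RL

open Pool.Agent.H58P (Qb ht)
open Pool.Agent.H58R (ht_nonneg)
open MvPolynomial

lemma hG_nonneg {n : ℕ} (x : Fin n → Qbˣ) : 0 ≤ hG x := by
  rw [hG_eq]
  exact Finset.sum_nonneg fun i _ => ht_nonneg _

/-- the Lehmer inequality for points, relative to the field `L` -/
def Leh {n : ℕ} (L : IntermediateField ℚ Qb) (Γ : Subgroup (Fin n → Qbˣ)) : Prop :=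
  ∃ c : ℝ, 0 < c ∧ ∀ x : Fin n → Qbˣ, Trans Γ x → ∀ P : MvPolynomial (Fin n) L, P ≠ 0 →
    aeval (fun i => (x i : Qb)) P = 0 → c ≤ (∑ i, (P.degreeOf i : ℝ)) * hG x

lemma degreeOf_mon {n : ℕ} {R : Type*} [CommRing R] (i : Fin n) (s : Fin n →₀ ℕ) (r : R) :
    (monomial s r).degreeOf i ≤ s i := by
  by_cases hr : r = 0
  · rw [hr, map_zero, degreeOf_zero]
    exact Nat.zero_le _
  · rw [degreeOf_monomial_eq s i hr]

lemma exists_poly {n : ℕ} (L : IntermediateField ℚ Qb) (a : Fin n → ℤ) (ha : a ≠ 0)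
    (lam : Qbˣ) (hlam : (lam : Qb) ∈ L) (x : Fin n → Qbˣ) (hx : chr a x = lam) :
    ∃ P : MvPolynomial (Fin n) L, P ≠ 0 ∧ aeval (fun i => (x i : Qb)) P = 0 ∧
      ∀ i, P.degreeOf i ≤ (a i).natAbs := by
  classical
  set s : Fin n →₀ ℕ := Finsupp.equivFunOnFinite.symm fun i => (a i).toNat with hs
  set t : Fin n →₀ ℕ := Finsupp.equivFunOnFinite.symm fun i => (-a i).toNat with ht
  have hst : s ≠ t := by
    intro h
    apply ha
    funext i
    have h1 := DFunLike.congr_fun h i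
    simp only [hs, ht, Finsupp.equivFunOnFinite_symm_apply_apply] at h1
    simp only [Pi.zero_apply]
    omega
  refine ⟨monomial s 1 - monomial t ⟨(lam : Qb), hlam⟩, ?_, ?_, ?_⟩
  · intro h
    have h1 := congrArg (coeff s) h
    rw [coeff_sub, coeff_monomial, coeff_monomial, if_pos rfl, if_neg hst.symm, sub_zero,
      coeff_zero] at h1
    exact one_ne_zero h1
  · rw [map_sub, aeval_monomial, aeval_monomial, map_one, one_mul,
      Finsupp.prod_fintype _ _ (fun i => pow_zero _), Finsupp.prod_fintype _ _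
      (fun i => pow_zero _)]
    have h2 : (algebraMap L Qb) ⟨(lam : Qb), hlam⟩ = (lam : Qb) := rfl
    rw [h2, ← hx, sub_eq_zero]
    have h3 : (∏ i, x i ^ (s i)) = chr a x * ∏ i, x i ^ (t i) := by
      unfold chr
      rw [← Finset.prod_mul_distrib]
      refine Finset.prod_congr rfl fun i _ => ?_
      rw [← zpow_natCast, ← zpow_natCast, ← zpow_add]
      congr 1
      simp only [hs, ht, Finsupp.equivFunOnFinite_symm_apply_apply]
      omega
    have h4 := congrArg (fun w : Qbˣ => (w : Qb)) h3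
    push_cast at h4
    exact h4
  · intro i
    refine (degreeOf_sub_le i _ _).trans (max_le ?_ ?_)
    · refine (degreeOf_mon i s 1).trans ?_
      simp only [hs, Finsupp.equivFunOnFinite_symm_apply_apply]
      omega
    · refine (degreeOf_mon i t _).trans ?_
      simp only [ht, Finsupp.equivFunOnFinite_symm_apply_apply]
      omega

/-- **First direction.** -/
theorem values_of_leh {n : ℕ} (L : IntermediateField ℚ Qb) (Γ : Subgroup (Fin n → Qbˣ))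
    (hL : ∀ g ∈ Γ, ∀ i, (g i : Qb) ∈ L)
    (hsat : ∀ x, (∃ N : ℕ, 0 < N ∧ x ^ N ∈ Γ) → x ∈ Γ)
    (hfin : ∃ F : Finset (Fin n → Qbˣ), ∀ x ∈ Γ, ∃ N : ℕ, 0 < N ∧
      x ^ N ∈ Subgroup.closure (F : Set (Fin n → Qbˣ)))
    (hleh : Leh L Γ) (a : Fin n → ℤ) (ha : a ≠ 0) (g₀ : Fin n → Qbˣ) (hg₀ : g₀ ∈ Γ) (i₀ : Fin n) :
    ∃ g ∈ Γ, chr a g = g₀ i₀ := by
  by_contra hcon
  push Not at hcon
  obtain ⟨A, hA, hcons⟩ := construct Γ hsat hfin a ha g₀ hg₀ i₀ hcon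
  obtain ⟨c, hc, hleh⟩ := hleh
  set D : ℝ := ∑ i, ((a i).natAbs : ℝ) with hD
  have hD0 : 0 ≤ D := Finset.sum_nonneg fun i _ => Nat.cast_nonneg _
  obtain ⟨M, hM⟩ := exists_nat_gt (D * A / c)
  have hM0 : (0 : ℝ) < M := lt_of_le_of_lt (by positivity) hM
  obtain ⟨g, x, hgΓ, hxT, hxa, hxh⟩ := hcons M (by exact_mod_cast hM0)
  obtain ⟨P, hP0, hPx, hPd⟩ := exists_poly L a ha (g i₀) (hL g hgΓ i₀) x hxa
  have h1 := hleh x hxT P hP0 hPx
  have h2 : (∑ i, (P.degreeOf i : ℝ)) ≤ D :=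
    Finset.sum_le_sum fun i _ => by exact_mod_cast hPd i
  have h3 : (∑ i, (P.degreeOf i : ℝ)) * hG x ≤ D * (A / M) :=
    mul_le_mul h2 hxh (hG_nonneg x) hD0
  have h4 : D * (A / M) < c := by
    rw [← mul_div_assoc, div_lt_iff₀ hM0, mul_comm c]
    rw [div_lt_iff₀ hc] at hM
    exact hM
  linarith

/-- the group generated by the coordinates of the points of `Γ` -/
noncomputable def coordGroup {n : ℕ} (Γ : Subgroup (Fin n → Qbˣ)) : Subgroup Qbˣ :=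
  Subgroup.closure {u | ∃ g ∈ Γ, ∃ i, u = g i}

lemma mem_coordGroup {n : ℕ} (Γ : Subgroup (Fin n → Qbˣ)) (g : Fin n → Qbˣ) (hg : g ∈ Γ)
    (i : Fin n) : g i ∈ coordGroup Γ := Subgroup.subset_closure ⟨g, hg, i, rfl⟩

/-- the coordinate group is made of values of characters if the coordinates are -/
lemma values_coordGroup {n : ℕ} (Γ : Subgroup (Fin n → Qbˣ)) (a : Fin n → ℤ)
    (h : ∀ g₀ ∈ Γ, ∀ i, ∃ g ∈ Γ, chr a g = g₀ i) (u : Qbˣ) (hu : u ∈ coordGroup Γ) :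
    ∃ g ∈ Γ, chr a g = u := by
  let H : Subgroup Qbˣ :=
    { carrier := {u | ∃ g ∈ Γ, chr a g = u}
      mul_mem' := by
        rintro _ _ ⟨g, hg, rfl⟩ ⟨g', hg', rfl⟩
        exact ⟨g * g', mul_mem hg hg', chr_mul a g g'⟩
      one_mem' := ⟨1, one_mem _, by unfold chr; simp⟩
      inv_mem' := by
        rintro _ ⟨g, hg, rfl⟩
        refine ⟨g⁻¹, inv_mem hg, ?_⟩
        rw [← zpow_neg_one g, chr_zpow, zpow_neg_one] }
  have : coordGroup Γ ≤ H := by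
    unfold coordGroup
    rw [Subgroup.closure_le]
    rintro _ ⟨g, hg, i, rfl⟩
    exact h g hg i
  exact this hu

/-- the power of the coordinate group -/
noncomputable def coordPow {n : ℕ} (Γ : Subgroup (Fin n → Qbˣ)) : Subgroup (Fin n → Qbˣ) :=
  Subgroup.pi Set.univ fun _ => coordGroup Γ

lemma le_coordPow {n : ℕ} (Γ : Subgroup (Fin n → Qbˣ)) : Γ ≤ coordPow Γ :=
  fun g hg i _ => mem_coordGroup Γ g hg i

lemma trans_iff {n : ℕ} (Γ : Subgroup (Fin n → Qbˣ))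
    (h : ∀ a : Fin n → ℤ, a ≠ 0 → ∀ u ∈ coordGroup Γ, ∃ g ∈ Γ, chr a g = u) (x : Fin n → Qbˣ) :
    Trans Γ x ↔ Trans (coordPow Γ) x := by
  constructor
  · intro hx b hb g hg hEq
    have h1 : chr b g ∈ coordGroup Γ := prod_mem fun i _ => zpow_mem (hg i (Set.mem_univ i)) _
    obtain ⟨g', hg', h2⟩ := h b hb _ h1
    exact hx b hb g' hg' (by rw [hEq, h2])
  · intro hx b hb g hg hEq
    exact hx b hb g (le_coordPow Γ hg) hEq

/-- **The reduction.** -/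
theorem leh_iff {n : ℕ} (L : IntermediateField ℚ Qb) (Γ : Subgroup (Fin n → Qbˣ))
    (hL : ∀ g ∈ Γ, ∀ i, (g i : Qb) ∈ L)
    (hsat : ∀ x, (∃ N : ℕ, 0 < N ∧ x ^ N ∈ Γ) → x ∈ Γ)
    (hfin : ∃ F : Finset (Fin n → Qbˣ), ∀ x ∈ Γ, ∃ N : ℕ, 0 < N ∧
      x ^ N ∈ Subgroup.closure (F : Set (Fin n → Qbˣ))) :
    Leh L Γ ↔ (∀ a : Fin n → ℤ, a ≠ 0 → ∀ u ∈ coordGroup Γ, ∃ g ∈ Γ, chr a g = u) ∧
      Leh L (coordPow Γ) := by
  have key : (∀ a : Fin n → ℤ, a ≠ 0 → ∀ u ∈ coordGroup Γ, ∃ g ∈ Γ, chr a g = u) →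
      (Leh L Γ ↔ Leh L (coordPow Γ)) := by
    intro h
    unfold Leh
    simp only [trans_iff Γ h]
  constructor
  · intro hleh
    have h : ∀ a : Fin n → ℤ, a ≠ 0 → ∀ u ∈ coordGroup Γ, ∃ g ∈ Γ, chr a g = u :=
      fun a ha u hu => values_coordGroup Γ a
        (fun g₀ hg₀ i => values_of_leh L Γ hL hsat hfin hleh a ha g₀ hg₀ i) u hu
    exact ⟨h, (key h).mp hleh⟩
  · rintro ⟨h, hleh⟩
    exact (key h).mpr hleh

/-- **Rank one.** -/
theorem not_leh_rank_one {n : ℕ} (hn : 2 ≤ n) (L : IntermediateField ℚ Qb)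
    (Γ : Subgroup (Fin n → Qbˣ)) (hL : ∀ g ∈ Γ, ∀ i, (g i : Qb) ∈ L)
    (hsat : ∀ x, (∃ N : ℕ, 0 < N ∧ x ^ N ∈ Γ) → x ∈ Γ)
    (g : Fin n → Qbˣ) (hg : g ∈ Γ) (hg1 : ∀ N : ℕ, 0 < N → g ^ N ≠ 1)
    (hgen : ∀ x ∈ Γ, ∃ N : ℕ, 0 < N ∧ ∃ k : ℤ, x ^ N = g ^ k) : ¬ Leh L Γ := by
  classical
  intro hleh
  have hfin : ∃ F : Finset (Fin n → Qbˣ), ∀ x ∈ Γ, ∃ N : ℕ, 0 < N ∧
      x ^ N ∈ Subgroup.closure (F : Set (Fin n → Qbˣ)) := by
    refine ⟨{g}, fun x hx => ?_⟩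
    obtain ⟨N, hN, k, h⟩ := hgen x hx
    refine ⟨N, hN, ?_⟩
    rw [h]
    exact zpow_mem (Subgroup.subset_closure (by simp)) _
  have hval := values_of_leh L Γ hL hsat hfin hleh
  -- a coordinate of infinite order
  obtain ⟨i, hi⟩ : ∃ i, ∀ N : ℕ, 0 < N → g i ^ N ≠ 1 := by
    by_contra hcon
    push Not at hcon
    choose N hN h using hcon
    apply hg1 (∏ i, N i) (Finset.prod_pos fun i _ => hN i)
    funext i
    rw [Pi.pow_apply, Pi.one_apply, ← Finset.mul_prod_erase Finset.univ N (Finset.mem_univ i),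
      pow_mul, h, one_pow]
  obtain ⟨j, hj⟩ : ∃ j : Fin n, j ≠ i := by
    by_contra hcon
    push Not at hcon
    have h0 := hcon ⟨0, by omega⟩
    have h1 := hcon ⟨1, by omega⟩
    rw [← h1] at h0
    exact absurd (congrArg Fin.val h0) (by norm_num)
  have hchr1 : ∀ (k : Fin n) (m : ℤ) (x : Fin n → Qbˣ), chr (Pi.single k m) x = x k ^ m := by
    intro k m x
    unfold chr
    rw [Finset.prod_eq_single k (fun l _ hl => by rw [Pi.single_eq_of_ne hl, zpow_zero])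
      (by simp), Pi.single_eq_same]
  obtain ⟨γ, hγ, h1⟩ := hval (Pi.single j 1) (by
    intro h
    have := congrFun h j
    rw [Pi.single_eq_same] at this
    exact one_ne_zero this) g hg i
  rw [hchr1, zpow_one] at h1
  obtain ⟨N, hN, k, h2⟩ := hgen γ hγ
  have h3 : g i ^ N = g j ^ k := by
    have := congrFun h2 j
    rwa [Pi.pow_apply, Pi.pow_apply, h1] at this
  set b : Fin n → ℤ := Pi.single i (N : ℤ) + Pi.single j (-k) with hb
  have hb0 : b ≠ 0 := by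
    intro h
    have := congrFun h i
    rw [hb, Pi.add_apply, Pi.single_eq_same, Pi.single_eq_of_ne hj.symm, add_zero,
      Pi.zero_apply] at this
    have : N = 0 := by exact_mod_cast this
    omega
  have hbx : ∀ x : Fin n → Qbˣ, chr b x = x i ^ N * (x j ^ k)⁻¹ := by
    intro x
    have : chr b x = chr (Pi.single i (N : ℤ)) x * chr (Pi.single j (-k)) x := by
      unfold chr
      rw [← Finset.prod_mul_distrib]
      refine Finset.prod_congr rfl fun l _ => ?_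
      rw [hb, Pi.add_apply, zpow_add]
    rw [this, hchr1, hchr1, zpow_natCast, zpow_neg]
  obtain ⟨γ', hγ', h4⟩ := hval b hb0 g hg i
  obtain ⟨N', hN', k', h5⟩ := hgen γ' hγ'
  apply hi N' hN'
  rw [← h4, ← chr_pow, h5, chr_zpow, hbx, h3, mul_inv_cancel, one_zpow]

/-- saturated groups of rank one exist -/
theorem exists_rank_one {n : ℕ} (hn : 0 < n) : ∃ Γ : Subgroup (Fin n → Qbˣ),
    (∀ x, (∃ N : ℕ, 0 < N ∧ x ^ N ∈ Γ) → x ∈ Γ) ∧
    ∃ g ∈ Γ, (∀ N : ℕ, 0 < N → g ^ N ≠ 1) ∧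
      ∀ x ∈ Γ, ∃ N : ℕ, 0 < N ∧ ∃ k : ℤ, x ^ N = g ^ k := by
  have h2 : (2 : Qb) ≠ 0 := two_ne_zero
  set g : Fin n → Qbˣ := fun _ => Units.mk0 2 h2 with hg
  let Γ : Subgroup (Fin n → Qbˣ) :=
    { carrier := {x | ∃ N : ℕ, 0 < N ∧ ∃ k : ℤ, x ^ N = g ^ k}
      mul_mem' := by
        rintro x y ⟨N, hN, k, h⟩ ⟨N', hN', k', h'⟩
        refine ⟨N * N', Nat.mul_pos hN hN', k * N' + k' * N, ?_⟩
        rw [mul_pow, pow_mul, h, mul_comm N, pow_mul y, h', zpow_add, zpow_mul, zpow_mul,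
          zpow_natCast, zpow_natCast]
      one_mem' := ⟨1, one_pos, 0, by simp⟩
      inv_mem' := by
        rintro x ⟨N, hN, k, h⟩
        exact ⟨N, hN, -k, by rw [inv_pow, h, zpow_neg]⟩ }
  refine ⟨Γ, ?_, g, ⟨1, one_pos, 1, by simp⟩, ?_, fun x hx => hx⟩
  · rintro x ⟨N, hN, N', hN', k, h⟩
    exact ⟨N * N', Nat.mul_pos hN hN', k, by rw [pow_mul, h]⟩
  · intro N hN h
    have h1 := congrArg (fun u : Qbˣ => (u : Qb)) (congrFun h ⟨0, hn⟩)
    simp only [Pi.pow_apply, Pi.one_apply, hg, Units.val_pow_eq_pow_val, Units.val_mk0,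
      Units.val_one] at h1
    have h3 : ((2 ^ N : ℕ) : Qb) = ((1 : ℕ) : Qb) := by push_cast; exact h1
    have h4 : 2 ^ N = 1 := by exact_mod_cast h3
    have h5 : 1 < 2 ^ N := Nat.one_lt_two_pow hN.ne'
    omega

end Q273.RL
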