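import Mathlib
import Pool.Agent.Q273.AbcR

/-!
# The semistable model of the curve with full 2-torsion and invariant `λ = p / q`, `16 ∣ p q`
-/

set_option autoImplicit false

namespace Q273.SzS

open Q273.AbcR (R c abc)

/-- the minimal model of `y² = x (x - A) (x + B)`, `A = 4 m - 1`, `B = 16 n` -/
def frey (m n : ℤ) : WeierstrassCurve ℤ := ⟨1, 4 * n - m, 0, -((4 * m - 1) * n), 0⟩

theorem frey_roots (m n : ℤ) (x : ℚ) : 4 * x ^ 3 + (frey m n).b₂ * x ^ 2 +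
    2 * (frey m n).b₄ * x + (frey m n).b₆ =
    4 * (x - 0) * (x - (4 * m - 1) / 4) * (x - (-(16 * n) / 4)) := by
  simp only [frey, WeierstrassCurve.b₂, WeierstrassCurve.b₄, WeierstrassCurve.b₆]
  push_cast
  ring

theorem frey_c₄ (m n : ℤ) : (frey m n).c₄ =
    (4 * m - 1) ^ 2 + (4 * m - 1) * (16 * n) + (16 * n) ^ 2 := by
  simp only [frey, WeierstrassCurve.c₄, WeierstrassCurve.b₂, WeierstrassCurve.b₄]
  ring

theorem frey_c₆ (m n : ℤ) : (frey m n).c₆ =
    -(16 * n - (4 * m - 1)) * ((16 * n - (4 * m - 1)) ^ 2 + 72 * ((4 * m - 1) * n)) := by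
  simp only [frey, WeierstrassCurve.c₆, WeierstrassCurve.b₂, WeierstrassCurve.b₄,
    WeierstrassCurve.b₆]
  ring

theorem frey_Δ (m n : ℤ) : (frey m n).Δ = ((4 * m - 1) * n * (4 * m - 1 + 16 * n)) ^ 2 := by
  simp only [frey, WeierstrassCurve.Δ, WeierstrassCurve.b₂, WeierstrassCurve.b₄,
    WeierstrassCurve.b₆, WeierstrassCurve.b₈]
  ring

theorem frey_coprime (m n : ℤ) (h : IsCoprime (4 * m - 1) (16 * n)) :
    IsCoprime (frey m n).c₄ (frey m n).Δ := by
  rw [frey_c₄, frey_Δ]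
  set A : ℤ := 4 * m - 1
  have h1 : IsCoprime (A ^ 2 + A * (16 * n) + (16 * n) ^ 2) A := by
    have h2 : IsCoprime ((16 * n) ^ 2 + A * (A + 16 * n)) A :=
      IsCoprime.add_mul_left_left h.symm.pow_left _
    have e : A ^ 2 + A * (16 * n) + (16 * n) ^ 2 = (16 * n) ^ 2 + A * (A + 16 * n) := by ring
    rwa [e]
  have h2 : IsCoprime (A ^ 2 + A * (16 * n) + (16 * n) ^ 2) (16 * n) := by
    have h2 : IsCoprime (A ^ 2 + (16 * n) * (A + 16 * n)) (16 * n) :=
      IsCoprime.add_mul_left_left h.pow_left _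
    have e : A ^ 2 + A * (16 * n) + (16 * n) ^ 2 = A ^ 2 + (16 * n) * (A + 16 * n) := by ring
    rwa [e]
  have h3 : IsCoprime (A ^ 2 + A * (16 * n) + (16 * n) ^ 2) (A + 16 * n) := by
    have h4 : IsCoprime (A + 16 * n) A := by
      have h5 : IsCoprime (16 * n + A * 1) A := IsCoprime.add_mul_left_left h.symm _
      have e : A + 16 * n = 16 * n + A * 1 := by ring
      rwa [e]
    have h6 : IsCoprime (A + 16 * n) (16 * n) := by
      have h5 : IsCoprime (A + (16 * n) * 1) (16 * n) := IsCoprime.add_mul_left_left h _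
      have e : A + 16 * n = A + (16 * n) * 1 := by ring
      rwa [e]
    have h7 : IsCoprime (A + 16 * n) (-(A * (16 * n))) := (h4.mul_right h6).neg_right
    have h8 : IsCoprime (-(A * (16 * n)) + (A + 16 * n) * (A + 16 * n)) (A + 16 * n) :=
      IsCoprime.add_mul_left_left h7.symm _
    have e : A ^ 2 + A * (16 * n) + (16 * n) ^ 2 =
        -(A * (16 * n)) + (A + 16 * n) * (A + 16 * n) := by ring
    rwa [e]
  have h4 : IsCoprime (A ^ 2 + A * (16 * n) + (16 * n) ^ 2) n := h2.of_mul_right_right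
  exact ((h1.mul_right h4).mul_right h3).pow_right

/-- the semistable curve of a rational number -/
theorem exists_frey {r : ℚ} (h0 : r ≠ 0) (h1 : r ≠ 1)
    (h16 : (16 : ℤ) ∣ r.num ∨ (16 : ℤ) ∣ (r.den : ℤ)) : ∃ W : WeierstrassCurve ℤ,
    W.Δ ≠ 0 ∧ IsCoprime W.c₄ W.Δ ∧ (∃ r₁ r₂ r₃ : ℚ, (∀ x : ℚ,
      4 * x ^ 3 + W.b₂ * x ^ 2 + 2 * W.b₄ * x + W.b₆ = 4 * (x - r₁) * (x - r₂) * (x - r₃)) ∧
        r = (r₃ - r₁) / (r₂ - r₁)) ∧ |W.c₄| ≤ 3 * (c r : ℤ) ^ 2 ∧ |W.c₆| ≤ 17 * (c r : ℤ) ^ 3 ∧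
    256 * W.Δ = (abc r : ℤ) ^ 2 := by
  have hnum : r.num ≠ 0 := Rat.num_ne_zero.2 h0
  have hden : (r.den : ℤ) ≠ 0 := by exact_mod_cast r.den_pos.ne'
  have hne : r.num - (r.den : ℤ) ≠ 0 := by
    intro h
    apply h1
    have h3 := Rat.num_div_den r
    have h4 : r.num = r.den := by linarith
    rw [h4] at h3
    rw [← h3]
    have : (r.den : ℚ) ≠ 0 := by exact_mod_cast r.den_pos.ne'
    push_cast
    exact div_self this
  have hcop : IsCoprime r.num (r.den : ℤ) := by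
    rw [Int.isCoprime_iff_gcd_eq_one]
    exact r.reduced
  have hpar : ¬ (r.num % 2 = 0 ∧ (r.den : ℤ) % 2 = 0) := by
    rintro ⟨h3, h4⟩
    have h5 : 2 ∣ r.num.natAbs := by omega
    have h6 : 2 ∣ r.den := by omega
    have h7 := Nat.dvd_gcd h5 h6
    rw [Nat.Coprime.gcd_eq_one r.reduced] at h7
    omega
  have habc : (abc r : ℤ) ^ 2 = (r.num * r.den * (r.num - r.den)) ^ 2 := by
    unfold abc
    push_cast
    rw [mul_pow, mul_pow, mul_pow, mul_pow, sq_abs, sq_abs]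
  have hc1 : -(c r : ℤ) ≤ r.num ∧ r.num ≤ c r := by unfold c; omega
  have hc2 : -(c r : ℤ) ≤ (r.den : ℤ) ∧ (r.den : ℤ) ≤ c r := by unfold c; omega
  have hc0 : (0 : ℤ) ≤ c r := Nat.cast_nonneg _
  -- the general bounds
  have key : ∀ m n : ℤ, IsCoprime (4 * m - 1) (16 * n) →
      ((4 * m - 1) * (16 * n) * (4 * m - 1 + 16 * n)) ^ 2 =
        (r.num * r.den * (r.num - r.den)) ^ 2 →
      (-(c r : ℤ) ≤ 4 * m - 1 ∧ 4 * m - 1 ≤ c r) → (-(c r : ℤ) ≤ 16 * n ∧ 16 * n ≤ c r) →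
      (frey m n).Δ ≠ 0 ∧ IsCoprime (frey m n).c₄ (frey m n).Δ ∧
        |(frey m n).c₄| ≤ 3 * (c r : ℤ) ^ 2 ∧ |(frey m n).c₆| ≤ 17 * (c r : ℤ) ^ 3 ∧
        256 * (frey m n).Δ = (abc r : ℤ) ^ 2 := by
    intro m n hmn hprod hA hB
    have hΔ : 256 * (frey m n).Δ = (abc r : ℤ) ^ 2 := by
      rw [habc, ← hprod, frey_Δ]
      ring
    have hne0 : (abc r : ℤ) ^ 2 ≠ 0 := by
      rw [habc]
      exact pow_ne_zero 2 (mul_ne_zero (mul_ne_zero hnum hden) hne)
    set A : ℤ := 4 * m - 1 with hAdef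
    set B : ℤ := 16 * n with hBdef
    have qA : A ^ 2 ≤ (c r : ℤ) ^ 2 := sq_le_sq' hA.1 hA.2
    have qB : B ^ 2 ≤ (c r : ℤ) ^ 2 := sq_le_sq' hB.1 hB.2
    have qAB : |A * B| ≤ (c r : ℤ) ^ 2 := by
      rw [abs_mul, sq]
      exact mul_le_mul (abs_le.2 hA) (abs_le.2 hB) (abs_nonneg _) hc0
    rw [abs_le] at qAB
    refine ⟨?_, frey_coprime m n hmn, ?_, ?_, hΔ⟩
    · intro h
      rw [h] at hΔ
      exact hne0 (by rw [← hΔ]; ring)
    · rw [frey_c₄, abs_le]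
      constructor
      · nlinarith [sq_nonneg A, sq_nonneg B]
      · linarith [qAB.2]
    · have e : (frey m n).c₆ * 2 = -(B - A) * (2 * (B - A) ^ 2 + 9 * (A * B)) := by
        rw [frey_c₆, hBdef]
        ring
      have k1 : |B - A| ≤ 2 * c r := by
        rw [abs_le]
        constructor <;> linarith [hA.1, hA.2, hB.1, hB.2]
      have k2 : |2 * (B - A) ^ 2 + 9 * (A * B)| ≤ 17 * (c r : ℤ) ^ 2 := by
        have k3 : (B - A) ^ 2 ≤ (2 * (c r : ℤ)) ^ 2 := sq_le_sq' (abs_le.1 k1).1 (abs_le.1 k1).2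
        rw [abs_le]
        constructor
        · nlinarith [sq_nonneg (B - A)]
        · nlinarith
      have k4 : |(frey m n).c₆ * 2| ≤ (2 * c r) * (17 * (c r : ℤ) ^ 2) := by
        rw [e, abs_mul, abs_neg]
        exact mul_le_mul k1 k2 (abs_nonneg _) (by positivity)
      rw [abs_mul] at k4
      have : |(2 : ℤ)| = 2 := rfl
      rw [this] at k4
      nlinarith
  have fin : ∀ m n : ℤ, (∃ r₁ r₂ r₃ : ℚ, (∀ x : ℚ,
      4 * x ^ 3 + (frey m n).b₂ * x ^ 2 + 2 * (frey m n).b₄ * x + (frey m n).b₆ =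
        4 * (x - r₁) * (x - r₂) * (x - r₃)) ∧ r = (r₃ - r₁) / (r₂ - r₁)) →
      IsCoprime (4 * m - 1) (16 * n) →
      ((4 * m - 1) * (16 * n) * (4 * m - 1 + 16 * n)) ^ 2 =
        (r.num * r.den * (r.num - r.den)) ^ 2 →
      (-(c r : ℤ) ≤ 4 * m - 1 ∧ 4 * m - 1 ≤ c r) → (-(c r : ℤ) ≤ 16 * n ∧ 16 * n ≤ c r) →
      ∃ W : WeierstrassCurve ℤ, W.Δ ≠ 0 ∧ IsCoprime W.c₄ W.Δ ∧ (∃ r₁ r₂ r₃ : ℚ, (∀ x : ℚ,
      4 * x ^ 3 + W.b₂ * x ^ 2 + 2 * W.b₄ * x + W.b₆ = 4 * (x - r₁) * (x - r₂) * (x - r₃)) ∧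
        r = (r₃ - r₁) / (r₂ - r₁)) ∧ |W.c₄| ≤ 3 * (c r : ℤ) ^ 2 ∧ |W.c₆| ≤ 17 * (c r : ℤ) ^ 3 ∧
    256 * W.Δ = (abc r : ℤ) ^ 2 := by
    intro m n h2 h3 h4 h5 h6
    obtain ⟨k1, k2, k3, k4, k5⟩ := key m n h3 h4 h5 h6
    exact ⟨frey m n, k1, k2, h2, k3, k4, k5⟩
  have hrq : r = (r.num : ℚ) / r.den := (Rat.num_div_den r).symm
  have hdq : (r.den : ℚ) ≠ 0 := by exact_mod_cast r.den_pos.ne'
  have hnq : (r.num : ℚ) ≠ 0 := by exact_mod_cast hnum
  rcases h16 with ⟨n, hn⟩ | ⟨n, hn⟩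
  · -- `16 ∣ p`
    have hodd : (r.den : ℤ) % 2 = 1 := by omega
    rcases (by omega : (r.den : ℤ) % 4 = 3 ∨ (r.den : ℤ) % 4 = 1) with h3 | h3
    · obtain ⟨m, hm⟩ : ∃ m : ℤ, (r.den : ℤ) = 4 * m - 1 := ⟨((r.den : ℤ) + 1) / 4, by omega⟩
      refine fin m (-n) ⟨0, (4 * m - 1) / 4, -(16 * (-n : ℤ)) / 4, frey_roots m (-n), ?_⟩ ?_ ?_ ?_ ?_
      · have e1 : (4 * (m : ℚ) - 1) = r.den := by exact_mod_cast hm.symm
        have e2 : (16 * (n : ℚ)) = r.num := by exact_mod_cast hn.symm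
        push_cast
        rw [e1]
        have e3 : -(16 * -(n : ℚ)) = r.num := by rw [← e2]; ring
        rw [e3]
        conv_lhs => rw [hrq]
        field_simp
        ring
      · rw [← hm]
        have e : 16 * -n = -r.num := by rw [hn]; ring
        rw [e]
        exact hcop.symm.neg_right
      · rw [← hm]
        have e : 16 * -n = -r.num := by rw [hn]; ring
        rw [e]
        ring
      · rw [← hm]; exact hc2
      · have e : 16 * -n = -r.num := by rw [hn]; ring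
        rw [e]
        constructor <;> linarith [hc1.1, hc1.2]
    · obtain ⟨m, hm⟩ : ∃ m : ℤ, -(r.den : ℤ) = 4 * m - 1 := ⟨(-(r.den : ℤ) + 1) / 4, by omega⟩
      refine fin m n ⟨0, (4 * m - 1) / 4, -(16 * (n : ℤ)) / 4, frey_roots m n, ?_⟩ ?_ ?_ ?_ ?_
      · have e1 : (4 * (m : ℚ) - 1) = -r.den := by exact_mod_cast hm.symm
        have e2 : (16 * (n : ℚ)) = r.num := by exact_mod_cast hn.symm
        rw [e1]
        push_cast
        rw [e2]
        conv_lhs => rw [hrq]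
        field_simp
        ring
      · rw [← hm, ← hn]
        exact hcop.symm.neg_left
      · rw [← hm, ← hn]
        ring
      · rw [← hm]
        constructor <;> linarith [hc2.1, hc2.2]
      · rw [← hn]; exact hc1
  · -- `16 ∣ q`
    have hodd : r.num % 2 = 1 := by omega
    rcases (by omega : r.num % 4 = 3 ∨ r.num % 4 = 1) with h3 | h3
    · obtain ⟨m, hm⟩ : ∃ m : ℤ, r.num = 4 * m - 1 := ⟨(r.num + 1) / 4, by omega⟩
      refine fin m (-n) ⟨0, -(16 * (-n : ℤ)) / 4, (4 * m - 1) / 4, ?_, ?_⟩ ?_ ?_ ?_ ?_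
      · intro x
        rw [frey_roots m (-n) x]
        ring
      · have e1 : (4 * (m : ℚ) - 1) = r.num := by exact_mod_cast hm.symm
        have e2 : (16 * (n : ℚ)) = r.den := by exact_mod_cast hn.symm
        push_cast
        rw [e1]
        have e3 : -(16 * -(n : ℚ)) = r.den := by rw [← e2]; ring
        rw [e3]
        conv_lhs => rw [hrq]
        field_simp
        ring
      · rw [← hm]
        have e : 16 * -n = -(r.den : ℤ) := by rw [hn]; ring
        rw [e]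
        exact hcop.neg_right
      · rw [← hm]
        have e : 16 * -n = -(r.den : ℤ) := by rw [hn]; ring
        rw [e]
        ring
      · rw [← hm]; exact hc1
      · have e : 16 * -n = -(r.den : ℤ) := by rw [hn]; ring
        rw [e]
        constructor <;> linarith [hc2.1, hc2.2]
    · obtain ⟨m, hm⟩ : ∃ m : ℤ, -r.num = 4 * m - 1 := ⟨(-r.num + 1) / 4, by omega⟩
      refine fin m n ⟨0, -(16 * (n : ℤ)) / 4, (4 * m - 1) / 4, ?_, ?_⟩ ?_ ?_ ?_ ?_
      · intro x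
        rw [frey_roots m n x]
        ring
      · have e1 : (4 * (m : ℚ) - 1) = -r.num := by exact_mod_cast hm.symm
        have e2 : (16 * (n : ℚ)) = r.den := by exact_mod_cast hn.symm
        rw [e1]
        push_cast
        rw [e2]
        conv_lhs => rw [hrq]
        field_simp
        ring
      · rw [← hm, ← hn]
        exact hcop.neg_left
      · rw [← hm, ← hn]
        ring
      · rw [← hm]
        constructor <;> linarith [hc1.1, hc1.2]
      · rw [← hn]; exact hc2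

/-- the part of the radical prime to two -/
theorem two_mul_le (r : ℚ) (S : Finset ℕ)
    (hS : ∀ p : ℕ, p ∈ (abc r).primeFactors → p ≠ 2 → p ∈ S)
    (hpos : ∀ p ∈ S, 1 ≤ p) : R (abc r) ≤ 2 * ∏ p ∈ S, p := by
  have h1 : R (abc r) ≤ (∏ p ∈ (abc r).primeFactors.filter (fun p => ¬ p ≠ 2), p) *
      ∏ p ∈ (abc r).primeFactors.filter (fun p => p ≠ 2), p := by
    unfold R
    rw [mul_comm, Finset.prod_filter_mul_prod_filter_not]
  have h2 : (∏ p ∈ (abc r).primeFactors.filter (fun p => ¬ p ≠ 2), p) ≤ 2 := by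
    have hsub : (abc r).primeFactors.filter (fun p => ¬ p ≠ 2) ⊆ ({2} : Finset ℕ) := by
      intro p hp
      rw [Finset.mem_filter, not_not] at hp
      simp [hp.2]
    calc (∏ p ∈ (abc r).primeFactors.filter (fun p => ¬ p ≠ 2), p) ≤ ∏ p ∈ ({2} : Finset ℕ), p :=
          Finset.prod_le_prod_of_subset_of_one_le' hsub (by
            intro p hp _
            simp only [Finset.mem_singleton] at hp
            omega)
      _ = 2 := by decide
  have h3 : (∏ p ∈ (abc r).primeFactors.filter (fun p => p ≠ 2), p) ≤ ∏ p ∈ S, p :=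
    Finset.prod_le_prod_of_subset_of_one_le' (by
      intro p hp
      rw [Finset.mem_filter] at hp
      exact hS p hp.1 hp.2) (fun p hp _ => hpos p hp)
  exact h1.trans (Nat.mul_le_mul h2 h3)

end Q273.SzS
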