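import Mathlib
import Pool.Agent.H383.Reg

set_option autoImplicit false

/-!
A quantitative central limit theorem for the block structure of the limit laws of almost periodic sums with
frequencies `√m`: the mean of `exp (i t ∑ a m cos (2π (X + n) √m - φ))` is compared with the characteristic
function of a normal law.
-/

namespace Pool.Agent.Q273.TA

open MeasureTheory Filter Topology
open Pool.Agent.H383.AP Pool.Agent.H383.Gauss Pool.Agent.H383.Gen

/-- products of numbers in the unit disc -/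
lemma prod_sub_prod {ι : Type*} (s : Finset ι) (f g : ι → ℂ)
    (hf : ∀ i ∈ s, ‖f i‖ ≤ 1) (hg : ∀ i ∈ s, ‖g i‖ ≤ 1) :
    ‖∏ i ∈ s, f i - ∏ i ∈ s, g i‖ ≤ ∑ i ∈ s, ‖f i - g i‖ := by
  classical
  induction s using Finset.induction_on with
  | empty => simp
  | insert a s ha ih =>
    rw [Finset.prod_insert ha, Finset.prod_insert ha, Finset.sum_insert ha]
    have h1 := ih (fun i hi => hf i (Finset.mem_insert_of_mem hi)) (fun i hi => hg i (Finset.mem_insert_of_mem hi))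
    have h2 : ‖∏ i ∈ s, f i‖ ≤ 1 := by
      rw [norm_prod]
      exact Finset.prod_le_one (fun _ _ => norm_nonneg _) (fun i hi => hf i (Finset.mem_insert_of_mem hi))
    have h3 : ‖g a‖ ≤ 1 := hg a (Finset.mem_insert_self _ _)
    have e : f a * ∏ i ∈ s, f i - g a * ∏ i ∈ s, g i =
        (f a - g a) * ∏ i ∈ s, f i + g a * (∏ i ∈ s, f i - ∏ i ∈ s, g i) := by ring
    rw [e]
    refine (norm_add_le _ _).trans ?_
    rw [norm_mul, norm_mul]
    have h4 : ‖f a - g a‖ * ‖∏ i ∈ s, f i‖ ≤ ‖f a - g a‖ := mul_le_of_le_one_right (norm_nonneg _) h2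
    have h5 : ‖g a‖ * ‖∏ i ∈ s, f i - ∏ i ∈ s, g i‖ ≤ ‖∏ i ∈ s, f i - ∏ i ∈ s, g i‖ :=
      mul_le_of_le_one_left (norm_nonneg _) h3
    linarith

/-- Taylor expansion of order two, for all real arguments -/
lemma exp_taylor (x : ℝ) : ‖Complex.exp ((x:ℂ) * Complex.I) - (1 + (x:ℂ) * Complex.I - ((x ^ 2 / 2 : ℝ) : ℂ))‖ ≤
    4 * |x| ^ 3 := by
  by_cases hx : |x| ≤ 1
  · have hn : ‖(x:ℂ) * Complex.I‖ = |x| := by
      rw [norm_mul, Complex.norm_I, mul_one, Complex.norm_real, Real.norm_eq_abs]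
    have h1 := Complex.exp_bound (x := (x:ℂ) * Complex.I) (by rw [hn]; exact hx) (n := 3) (by norm_num)
    rw [hn] at h1
    have e : ∑ m ∈ Finset.range 3, ((x:ℂ) * Complex.I) ^ m / (m.factorial : ℂ) =
        1 + (x:ℂ) * Complex.I - ((x ^ 2 / 2 : ℝ) : ℂ) := by
      rw [Finset.sum_range_succ, Finset.sum_range_succ, Finset.sum_range_one]
      simp only [pow_zero, pow_one, Nat.factorial, Nat.cast_one, div_one]
      push_cast
      have hI : Complex.I ^ 2 = -1 := Complex.I_sq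
      linear_combination ((x:ℂ)^2 / 2) * hI
    rw [e] at h1
    refine h1.trans ?_
    have h4 : (((3:ℕ).succ : ℝ) * (((3:ℕ).factorial : ℝ) * ((3:ℕ):ℝ))⁻¹) = 2/9 := by
      simp only [Nat.factorial]; norm_num
    rw [h4]
    have : 0 ≤ |x| ^ 3 := by positivity
    linarith
  · push Not at hx
    have h1 : ‖Complex.exp ((x:ℂ) * Complex.I)‖ = 1 := Complex.norm_exp_ofReal_mul_I x
    have h2 : ‖(1 + (x:ℂ) * Complex.I - ((x ^ 2 / 2 : ℝ) : ℂ))‖ ≤ 1 + |x| + x ^ 2 / 2 := by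
      refine (norm_sub_le _ _).trans ?_
      have h3 : ‖(1:ℂ) + (x:ℂ) * Complex.I‖ ≤ 1 + |x| := by
        refine (norm_add_le _ _).trans ?_
        rw [norm_one, norm_mul, Complex.norm_I, mul_one, Complex.norm_real, Real.norm_eq_abs]
      have h4 : ‖((x ^ 2 / 2 : ℝ) : ℂ)‖ = x ^ 2 / 2 := by
        rw [Complex.norm_real, Real.norm_eq_abs, abs_of_nonneg (by positivity)]
      linarith
    refine (norm_sub_le _ _).trans ?_
    rw [h1]
    have h5 : x ^ 2 = |x| ^ 2 := (sq_abs x).symm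
    have h6 : |x| ^ 2 ≤ |x| ^ 3 := pow_le_pow_right₀ hx.le (by norm_num)
    have h7 : |x| ≤ |x| ^ 3 := by
      have := pow_le_pow_right₀ hx.le (show 1 ≤ 3 by norm_num)
      rwa [pow_one] at this
    have h8 : 1 ≤ |x| ^ 3 := one_le_pow₀ hx.le
    rw [h5] at h2 ⊢
    linarith

lemma exp_lin {y : ℝ} (hy : 0 ≤ y) : |(1 - y) - Real.exp (-y)| ≤ y ^ 2 := by
  have h1 : 1 - y ≤ Real.exp (-y) := by have := Real.add_one_le_exp (-y); linarith
  rw [abs_sub_comm, abs_of_nonneg (by linarith)]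
  by_cases hy1 : y ≤ 1
  · have := Real.abs_exp_sub_one_sub_id_le (x := -y) (by rw [abs_neg, abs_of_nonneg hy]; exact hy1)
    have h2 := (abs_le.mp this).2
    have : (-y) ^ 2 = y ^ 2 := by ring
    linarith
  · push Not at hy1
    have : Real.exp (-y) ≤ 1 := Real.exp_le_one_iff.mpr (by linarith)
    nlinarith

variable {a : ℕ → ℝ} {φ α X : ℝ} {S0 T : Finset ℕ} {s : ℕ}

/-- one block is nearly normal -/
theorem blk_gauss (hS : GoodS α S0) (hs : Squarefree s) (hs0 : s ∉ S0) (hT : ∀ m ∈ T, 1 ≤ m ∧ InC s m) (t : ℝ) :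
    ‖mn (ex a φ α X ((t:ℂ) * Complex.I) T) - ((Real.exp (-(t ^ 2 * vT a T / 2)) : ℝ) : ℂ)‖ ≤
      4 * |t| ^ 3 * (bT a T * vT a T) + t ^ 4 * (vT a T) ^ 2 := by
  set V := vT a T with hV
  have hV0 : 0 ≤ V := vT_nonneg
  set g : ℕ → ℂ := fun n => 1 + ((t:ℂ) * Complex.I) * ((ST a φ α X T n : ℝ) : ℂ) +
    (-((t^2/2 : ℝ) : ℂ)) * (((ST a φ α X T n)^2 : ℝ) : ℂ) with hg
  have hgm : HasMean g ((1 - t^2 / 2 * V : ℝ) : ℂ) := by
    have h1 := ((hasMean_const (1:ℂ)).add ((ST_mean (a := a) (φ := φ) (X := X) hS hs hs0 hT).smul ((t:ℂ) * Complex.I))).add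
      ((ST_sq_mean (a := a) (φ := φ) (X := X) hS hs hs0 hT).smul (-((t^2/2 : ℝ) : ℂ)))
    have e : (1:ℂ) + (t:ℂ) * Complex.I * 0 + -((t^2/2 : ℝ) : ℂ) * ((vT a T : ℝ) : ℂ) = ((1 - t^2 / 2 * V : ℝ) : ℂ) := by
      push_cast; ring
    rw [e] at h1
    exact h1
  have hpt : ∀ n, ‖ex a φ α X ((t:ℂ) * Complex.I) T n - g n‖ ≤ (4 * |t| ^ 3 * bT a T) * (ST a φ α X T n)^2 := by
    intro n
    set y := ST a φ α X T n with hy
    have hy1 : |y| ≤ bT a T := abs_ST_le n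
    have h1 := exp_taylor (t * y)
    have e : ex a φ α X ((t:ℂ) * Complex.I) T n - g n = Complex.exp (((t * y : ℝ) : ℂ) * Complex.I) -
        (1 + ((t * y : ℝ) : ℂ) * Complex.I - (((t * y) ^ 2 / 2 : ℝ) : ℂ)) := by
      unfold ex
      rw [hg]
      simp only [← hy]
      have e2 : (t:ℂ) * Complex.I * ((y : ℝ) : ℂ) = ((t * y : ℝ) : ℂ) * Complex.I := by push_cast; ring
      rw [e2]
      push_cast
      ring
    rw [e]
    refine h1.trans ?_
    rw [abs_mul, mul_pow]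
    have h2 : |y| ^ 3 ≤ bT a T * y ^ 2 := by
      have : |y| ^ 3 = |y| * y ^ 2 := by rw [pow_succ, sq_abs]; ring
      rw [this]
      exact mul_le_mul_of_nonneg_right hy1 (sq_nonneg _)
    have h3 : 0 ≤ 4 * |t| ^ 3 := by positivity
    nlinarith [mul_le_mul_of_nonneg_left h2 h3]
  have hb0 : 0 ≤ 4 * |t| ^ 3 * bT a T := by
    have : 0 ≤ bT a T := bT_nonneg
    positivity
  have hclose : ∀ ε : ℝ, 0 < ε → ‖mn (ex a φ α X ((t:ℂ) * Complex.I) T) - ((1 - t^2 / 2 * V : ℝ) : ℂ)‖ ≤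
      (4 * |t| ^ 3 * bT a T) * V + ε := by
    intro ε hε
    apply mean_close (UC_hasMean (ex_UC_top _)) hgm
    have h1 := (rm_ST_sq (a := a) (φ := φ) (X := X) hS hs hs0 hT).const_mul (4 * |t| ^ 3 * bT a T)
    have h2 := h1.eventually (gt_mem_nhds (show (4 * |t| ^ 3 * bT a T) * V < (4 * |t| ^ 3 * bT a T) * V + ε by linarith))
    rw [eventually_atTop] at h2
    obtain ⟨N0, hN0⟩ := h2
    refine ⟨N0, fun N hN => ?_⟩
    refine (norm_cm_sub_le _ _ N).trans ?_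
    refine (rm_mono hpt N).trans ?_
    have e : rm (fun n : ℕ => (4 * |t| ^ 3 * bT a T) * (ST a φ α X T n)^2) N =
        (4 * |t| ^ 3 * bT a T) * rm (fun n : ℕ => (ST a φ α X T n)^2) N := rm_mul _ _ _
    rw [e]
    exact (hN0 N hN).le
  have hclose' : ‖mn (ex a φ α X ((t:ℂ) * Complex.I) T) - ((1 - t^2 / 2 * V : ℝ) : ℂ)‖ ≤ (4 * |t| ^ 3 * bT a T) * V :=
    le_of_forall_pos_le_add hclose
  have h5 : ‖((1 - t^2 / 2 * V : ℝ) : ℂ) - ((Real.exp (-(t ^ 2 * V / 2)) : ℝ) : ℂ)‖ ≤ t ^ 4 * V ^ 2 := by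
    rw [← Complex.ofReal_sub, Complex.norm_real, Real.norm_eq_abs]
    have h6 := exp_lin (y := t ^ 2 * V / 2) (by positivity)
    have e : 1 - t ^ 2 / 2 * V = 1 - t ^ 2 * V / 2 := by ring
    rw [e]
    refine h6.trans ?_
    have : (t ^ 2 * V / 2) ^ 2 = t ^ 4 * V ^ 2 / 4 := by ring
    rw [this]
    have : 0 ≤ t ^ 4 * V ^ 2 := by positivity
    linarith
  have e : mn (ex a φ α X ((t:ℂ) * Complex.I) T) - ((Real.exp (-(t ^ 2 * V / 2)) : ℝ) : ℂ) =
      (mn (ex a φ α X ((t:ℂ) * Complex.I) T) - ((1 - t^2 / 2 * V : ℝ) : ℂ)) +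
      (((1 - t^2 / 2 * V : ℝ) : ℂ) - ((Real.exp (-(t ^ 2 * V / 2)) : ℝ) : ℂ)) := by ring
  rw [e]
  refine (norm_add_le _ _).trans ?_
  have : (4 * |t| ^ 3 * bT a T) * V = 4 * |t| ^ 3 * (bT a T * V) := by ring
  rw [← this]
  exact add_le_add hclose' h5

/-- a block has a mean of modulus at most one -/
lemma mn_ex_le (t : ℝ) (T : Finset ℕ) : ‖mn (ex a φ α X ((t:ℂ) * Complex.I) T)‖ ≤ 1 := by
  apply mn_norm_le (ex_UC_top _) zero_le_one
  intro n
  unfold ex
  have e0 : ∀ y : ℝ, (t:ℂ) * Complex.I * (y : ℂ) = ((t * y : ℝ) : ℂ) * Complex.I := by intro y; push_cast; ring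
  rw [e0, Complex.norm_exp_ofReal_mul_I]

open Classical in
/-- the squares in `T` -/
noncomputable def sqs (T : Finset ℕ) : Finset ℕ := T.filter (fun m => IsSquare m)

open Classical in
/-- the nonsquares in `T` -/
noncomputable def nsq (T : Finset ℕ) : Finset ℕ := T.filter (fun m => ¬ IsSquare m)

open Classical in
/-- squarefree numbers `2 ≤ s ≤ K` -/
noncomputable def QQ (K : ℕ) : Finset ℕ := (Finset.Icc 2 K).filter (fun s => Squarefree s)

lemma one_inC {m : ℕ} : InC 1 m ↔ IsSquare m := by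
  unfold InC
  constructor
  · rintro ⟨t, ht⟩; exact ⟨t, by rw [ht]; ring⟩
  · rintro ⟨t, ht⟩; exact ⟨t, by rw [ht]; ring⟩

open Classical in
lemma rest_eq (K : ℕ) : (Finset.Icc 1 K).filter (fun m => ∀ s ∈ QQ K, ¬ InC s m) = sqs (Finset.Icc 1 K) := by
  unfold sqs
  ext m
  rw [Finset.mem_filter, Finset.mem_filter]
  constructor
  · rintro ⟨h1, h2⟩
    refine ⟨h1, ?_⟩
    rw [Finset.mem_Icc] at h1
    obtain ⟨s, t, hst, hs⟩ := Nat.sq_mul_squarefree m
    by_cases hs1 : s = 1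
    · rw [hs1] at hst; exact ⟨t, by rw [← hst]; ring⟩
    · exfalso
      have hs0 : s ≠ 0 := hs.ne_zero
      have ht0 : t ≠ 0 := by rintro rfl; simp at hst; omega
      have hsm : s ≤ m := by
        rw [← hst]
        exact Nat.le_mul_of_pos_left _ (by positivity)
      apply h2 s
      · unfold QQ
        rw [Finset.mem_filter, Finset.mem_Icc]
        exact ⟨⟨by omega, by omega⟩, hs⟩
      · exact ⟨t, by rw [← hst]; ring⟩
  · rintro ⟨h1, h2⟩
    refine ⟨h1, ?_⟩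
    intro s hs hc
    unfold QQ at hs
    rw [Finset.mem_filter, Finset.mem_Icc] at hs
    rw [Finset.mem_Icc] at h1
    have := inC_unique hs.2 squarefree_one h1.1 hc (one_inC.mpr h2)
    omega

open Classical in
/-- the variances of the blocks add up -/
lemma vT_sum (a : ℕ → ℝ) (K : ℕ) : ∑ s ∈ QQ K, vT a ((Finset.Icc 1 K).filter (InC s)) = vT a (nsq (Finset.Icc 1 K)) := by
  unfold vT
  rw [← Finset.mul_sum]
  congr 1
  have hd : ∀ s ∈ QQ K, ∀ s' ∈ QQ K, s ≠ s' → Disjoint ((Finset.Icc 1 K).filter (InC s)) ((Finset.Icc 1 K).filter (InC s')) := by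
    intro s hs s' hs' hne
    rw [Finset.disjoint_left]
    intro m hm hm'
    rw [Finset.mem_filter, Finset.mem_Icc] at hm hm'
    unfold QQ at hs hs'
    rw [Finset.mem_filter] at hs hs'
    exact hne (inC_unique hs.2 hs'.2 hm.1.1 hm.2 hm'.2)
  rw [← Finset.sum_biUnion hd]
  congr 1
  unfold nsq
  ext m
  rw [Finset.mem_biUnion, Finset.mem_filter]
  constructor
  · rintro ⟨s, hs, hm⟩
    rw [Finset.mem_filter] at hm
    refine ⟨hm.1, ?_⟩
    intro hsq
    unfold QQ at hs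
    rw [Finset.mem_filter, Finset.mem_Icc] at hs
    have := inC_unique hs.2 squarefree_one (Finset.mem_Icc.mp hm.1).1 hm.2 (one_inC.mpr hsq)
    omega
  · rintro ⟨h1, h2⟩
    by_contra hc
    push Not at hc
    have : m ∈ sqs (Finset.Icc 1 K) := by
      rw [← rest_eq, Finset.mem_filter]
      refine ⟨h1, fun s hs h3 => hc s hs ?_⟩
      rw [Finset.mem_filter]; exact ⟨h1, h3⟩
    unfold sqs at this
    rw [Finset.mem_filter] at this
    exact h2 this.2

/-- the squares form a constant -/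
lemma ST_sq_const (T : Finset ℕ) (n : ℕ) : ST a φ 1 X (sqs T) n = ST a φ 1 X (sqs T) 0 := by
  classical
  unfold Pool.Agent.H383.Gen.ST
  apply Finset.sum_congr rfl
  intro m hm
  unfold sqs at hm
  rw [Finset.mem_filter] at hm
  obtain ⟨k, hk⟩ := hm.2
  have e : √(m:ℝ) = k := by
    rw [hk]; push_cast; exact Real.sqrt_mul_self (Nat.cast_nonneg k)
  rw [e]
  congr 1
  have e2 : 2 * Real.pi * ((X + n * 1) * (k:ℝ)) - φ =
      (2 * Real.pi * ((X + (0:ℕ) * 1) * (k:ℝ)) - φ) + ((n * k : ℕ) : ℝ) * (2 * Real.pi) := by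
    push_cast; ring
  rw [e2, Real.cos_add_nat_mul_two_pi]

lemma mn_const (z : ℂ) : mn (fun _ => z) = z := (hasMean_const z).mn_eq

/-- square roots of squarefree numbers different from one are independent modulo the rationals -/
lemma good_one : GoodS 1 {1} := by
  intro s hs hs1 c y hy hk
  obtain ⟨k, hk⟩ := hk
  have hs1' : s ≠ 1 := by simpa using hs1
  by_contra hne
  have hyS := Gr_span one_pos hs hy
  have h1 := sf_indep.notMem_span_image (s := {⟨s, hs⟩}ᶜ) (x := ⟨s, hs⟩) (by simp)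
  apply h1
  have hc : ((c : ℚ)) ≠ 0 := by exact_mod_cast hne
  have hc' : (c : ℝ) ≠ 0 := by exact_mod_cast hne
  have e : √((((⟨s, hs⟩ : {s : ℕ // Squarefree s}) : ℕ)):ℝ) =
      ((c : ℚ)⁻¹) • ((k : ℚ) • bs ⟨1, squarefree_one⟩ - y / 1) := by
    rw [Rat.smul_def, Rat.smul_def]
    unfold bs
    push_cast
    rw [Real.sqrt_one, div_one, mul_one]
    rw [one_mul] at hk
    rw [← hk]
    field_simp
    ring
  rw [e]
  refine Submodule.smul_mem _ _ (Submodule.sub_mem _ (Submodule.smul_mem _ _ (Submodule.subset_span ?_)) hyS)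
  exact ⟨⟨1, squarefree_one⟩, by simp [Set.mem_compl_iff, hs1'.symm], rfl⟩

open Classical in
/-- **comparison with the normal law** for the truncated sums -/
theorem mn_gauss (a : ℕ → ℝ) (φ X t : ℝ) (K : ℕ) :
    ‖mn (ex a φ 1 X ((t:ℂ) * Complex.I) (Finset.Icc 1 K)) -
      Complex.exp (((t * ST a φ 1 X (sqs (Finset.Icc 1 K)) 0 : ℝ) : ℂ) * Complex.I) *
        ((Real.exp (-(t ^ 2 * vT a (nsq (Finset.Icc 1 K)) / 2)) : ℝ) : ℂ)‖ ≤
    ∑ s ∈ QQ K, (4 * |t| ^ 3 * (bT a ((Finset.Icc 1 K).filter (InC s)) * vT a ((Finset.Icc 1 K).filter (InC s))) +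
      t ^ 4 * (vT a ((Finset.Icc 1 K).filter (InC s))) ^ 2) := by
  have hQ : ∀ s ∈ QQ K, Squarefree s ∧ s ∉ ({1} : Finset ℕ) := by
    intro s hs
    unfold QQ at hs
    rw [Finset.mem_filter, Finset.mem_Icc] at hs
    exact ⟨hs.2, by simp; omega⟩
  rw [prod_formula (a := a) (φ := φ) (X := X) good_one ((t:ℂ) * Complex.I) (T := Finset.Icc 1 K)
    (fun m hm => (Finset.mem_Icc.mp hm).1) (QQ K) hQ, rest_eq]
  have hc : mn (ex a φ 1 X ((t:ℂ) * Complex.I) (sqs (Finset.Icc 1 K))) =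
      Complex.exp (((t * ST a φ 1 X (sqs (Finset.Icc 1 K)) 0 : ℝ) : ℂ) * Complex.I) := by
    have : ex a φ 1 X ((t:ℂ) * Complex.I) (sqs (Finset.Icc 1 K)) =
        fun _ => Complex.exp (((t * ST a φ 1 X (sqs (Finset.Icc 1 K)) 0 : ℝ) : ℂ) * Complex.I) := by
      funext n
      unfold ex
      rw [ST_sq_const]
      congr 1
      push_cast; ring
    rw [this, mn_const]
  rw [hc]
  set w : ℂ := Complex.exp (((t * ST a φ 1 X (sqs (Finset.Icc 1 K)) 0 : ℝ) : ℂ) * Complex.I) with hw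
  have hw1 : ‖w‖ = 1 := Complex.norm_exp_ofReal_mul_I _
  have hexp : ((Real.exp (-(t ^ 2 * vT a (nsq (Finset.Icc 1 K)) / 2)) : ℝ) : ℂ) =
      ∏ s ∈ QQ K, ((Real.exp (-(t ^ 2 * vT a ((Finset.Icc 1 K).filter (InC s)) / 2)) : ℝ) : ℂ) := by
    rw [← Complex.ofReal_prod, ← Real.exp_sum, ← vT_sum]
    congr 2
    rw [Finset.mul_sum, Finset.sum_div, ← Finset.sum_neg_distrib]
  rw [hexp, mul_comm w, ← sub_mul, norm_mul, hw1, mul_one]
  refine (prod_sub_prod _ _ _ (fun s _ => mn_ex_le t _) (fun s _ => ?_)).trans ?_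
  · rw [Complex.norm_real, Real.norm_eq_abs, abs_of_pos (Real.exp_pos _), Real.exp_le_one_iff]
    have : 0 ≤ vT a ((Finset.Icc 1 K).filter (InC s)) := vT_nonneg
    have : 0 ≤ t ^ 2 * vT a ((Finset.Icc 1 K).filter (InC s)) := by positivity
    linarith
  · apply Finset.sum_le_sum
    intro s hs
    apply blk_gauss good_one (hQ s hs).1 (hQ s hs).2
    intro m hm
    rw [Finset.mem_filter, Finset.mem_Icc] at hm
    exact ⟨hm.1.1, hm.2⟩

end Pool.Agent.Q273.TA
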