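import Mathlib
import Pool.Agent.Q273.TA1

set_option autoImplicit false

/-!
Comparison of the limit law with the normal law, from power bounds of the coefficients.
-/

namespace Pool.Agent.Q273.TA

open MeasureTheory Filter Topology
open Pool.Agent.H383.AP Pool.Agent.H383.Gauss Pool.Agent.H383.Gen

variable {a : ℕ → ℝ} {φ α X : ℝ} {T : Finset ℕ} {s : ℕ} {e : ℕ → ℝ} {μ : ProbabilityMeasure ℝ}

/-- the characteristic function of the limit law is approximated by the means of the approximants -/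
lemma char_approx (hA : Ap a φ e α X) (h : Law e μ) (t : ℝ) {ε : ℝ} (hε : 0 < ε) :
    ∃ M0 : ℕ, ∀ M : ℕ, M0 ≤ M →
      ‖charFun (μ : Measure ℝ) t - mn (ex a φ α X ((t:ℂ) * Complex.I) (Finset.Icc 1 (M^2)))‖ ≤ ε := by
  obtain ⟨M0, hM0⟩ := hA ((ε / (|t| + 1))^2) (by positivity)
  refine ⟨M0, fun M hM => ?_⟩
  obtain ⟨N0, hN0⟩ := hM0 M hM
  exact mean_close (η := ε) (h.char t) (UC_hasMean (ex_UC_top (a := a) (φ := φ) (α := α) (X := X)
    (T := Finset.Icc 1 (M^2)) ((t:ℂ) * Complex.I))) ⟨N0, fun N hN => by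
      refine (norm_cm_sub_le _ _ N).trans ?_
      have hpt : ∀ n, ‖Complex.exp (((t * e n : ℝ) : ℂ) * Complex.I) -
          ex a φ α X ((t:ℂ) * Complex.I) (Finset.Icc 1 (M^2)) n‖ ≤ |t| * |e n - U a φ (X + n * α) M| := by
        intro n
        unfold ex
        rw [ST_U]
        set y := U a φ (X + n * α) M with hy
        have e0 : (t:ℂ) * Complex.I * ((y : ℝ) : ℂ) = ((t * y : ℝ) : ℂ) * Complex.I := by push_cast; ring
        rw [e0]
        have e1 : Complex.exp (((t * e n : ℝ) : ℂ) * Complex.I) - Complex.exp (((t * y : ℝ) : ℂ) * Complex.I) =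
            Complex.exp (((t * y : ℝ) : ℂ) * Complex.I) * (Complex.exp (Complex.I * ((t * (e n - y) : ℝ) : ℂ)) - 1) := by
          rw [mul_sub, ← Complex.exp_add, mul_one]
          congr 2
          push_cast; ring
        rw [e1, norm_mul, Complex.norm_exp_ofReal_mul_I, one_mul, ← abs_mul]
        exact Real.norm_exp_I_mul_ofReal_sub_one_le
      refine (rm_mono hpt N).trans ?_
      rw [rm_mul]
      have h2 := rm_abs_le (x := fun n => e n - U a φ (X + n * α) M) (c := ε / (|t| + 1)) (by positivity) (hN0 N hN)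
      calc |t| * rm (fun n => |e n - U a φ (X + n * α) M|) N ≤ |t| * (ε / (|t| + 1)) := by gcongr
        _ ≤ ε := by
            rw [mul_div_assoc', div_le_iff₀ (by positivity)]
            nlinarith [abs_nonneg t]⟩

/-- the zeta sum -/
noncomputable def zt (x : ℝ) : ℝ := ∑' t : ℕ, (t:ℝ) ^ (-x)

lemma zt_nonneg (x : ℝ) : 0 ≤ zt x := tsum_nonneg (fun t => by positivity)

lemma zt_sum {x : ℝ} (hx : 1 < x) (S : Finset ℕ) : ∑ t ∈ S, (t:ℝ) ^ (-x) ≤ zt x := by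
  have hsum : Summable (fun t : ℕ => (t:ℝ) ^ (-x)) := by
    rw [Real.summable_nat_rpow]; linarith
  exact hsum.sum_le_tsum _ (fun t _ => by positivity)

lemma vT_le_pow {κ : ℝ} (hκ : 1/4 < κ) {C : ℝ} (hC : 0 < C) (ha : ∀ m : ℕ, 1 ≤ m → |a m| ≤ C * (m:ℝ) ^ (-κ))
    (hs : 1 ≤ s) (hT : ∀ m ∈ T, 1 ≤ m ∧ InC s m) :
    vT a T ≤ C ^ 2 * zt (4 * κ) * (s:ℝ) ^ (-(2 * κ)) := by
  have h1 := bT_le (a := fun m => (a m) ^ 2) (κ := 2 * κ) (by linarith) (C := C ^ 2) (by positivity) (fun m hm => by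
    have hm0 : (0:ℝ) < m := by exact_mod_cast hm
    rw [abs_of_nonneg (sq_nonneg _), ← sq_abs]
    have h2 := pow_le_pow_left₀ (abs_nonneg _) (ha m hm) 2
    refine h2.trans (le_of_eq ?_)
    rw [mul_pow, ← Real.rpow_natCast ((m:ℝ) ^ (-κ)), ← Real.rpow_mul hm0.le]
    congr 2
    push_cast; ring) hs hT
  have h3 : vT a T ≤ bT (fun m => (a m) ^ 2) T := by
    unfold vT bT
    have : ∑ m ∈ T, |(a m) ^ 2| = ∑ m ∈ T, (a m) ^ 2 :=
      Finset.sum_congr rfl (fun m _ => abs_of_nonneg (sq_nonneg _))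
    rw [this]
    have : 0 ≤ ∑ m ∈ T, (a m) ^ 2 := Finset.sum_nonneg (fun m _ => sq_nonneg _)
    linarith
  refine h3.trans (h1.trans (le_of_eq ?_))
  unfold zt
  congr 3
  funext t
  congr 1
  ring

open Classical in
/-- **comparison of the limit law with the normal law** -/
theorem char_gauss {D V C1 C2 κ1 κ2 : ℝ} (hA : Ap a φ e 1 X) (h : Law e μ) (hκ1 : 1/2 < κ1) (hκ2 : 1/4 < κ2)
    (h12 : 1 < κ1 + 2 * κ2) (hC1 : 0 < C1) (hC2 : 0 < C2)
    (h1 : ∀ m : ℕ, 1 ≤ m → |a m| ≤ C1 * (m:ℝ) ^ (-κ1)) (h2 : ∀ m : ℕ, 1 ≤ m → |a m| ≤ C2 * (m:ℝ) ^ (-κ2))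
    (hD : Tendsto (fun M : ℕ => ST a φ 1 X (sqs (Finset.Icc 1 (M^2))) 0) atTop (𝓝 D))
    (hV : Tendsto (fun M : ℕ => vT a (nsq (Finset.Icc 1 (M^2)))) atTop (𝓝 V)) (t : ℝ) :
    ‖charFun (μ : Measure ℝ) t - Complex.exp (((t * D : ℝ) : ℂ) * Complex.I) *
        ((Real.exp (-(t ^ 2 * V / 2)) : ℝ) : ℂ)‖ ≤
      4 * |t| ^ 3 * (C1 * C2 ^ 2 * (zt (2 * κ1) * zt (4 * κ2) * zt (κ1 + 2 * κ2))) +
        t ^ 4 * (C2 ^ 4 * (zt (4 * κ2)) ^ 3) := by
  set B := 4 * |t| ^ 3 * (C1 * C2 ^ 2 * (zt (2 * κ1) * zt (4 * κ2) * zt (κ1 + 2 * κ2))) +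
        t ^ 4 * (C2 ^ 4 * (zt (4 * κ2)) ^ 3) with hB
  have hz1 := zt_nonneg (2 * κ1)
  have hz2 := zt_nonneg (4 * κ2)
  have hz3 := zt_nonneg (κ1 + 2 * κ2)
  -- bound of the block sums
  have hblk : ∀ K : ℕ, ∑ s ∈ QQ K, (4 * |t| ^ 3 * (bT a ((Finset.Icc 1 K).filter (InC s)) * vT a ((Finset.Icc 1 K).filter (InC s))) +
      t ^ 4 * (vT a ((Finset.Icc 1 K).filter (InC s))) ^ 2) ≤ B := by
    intro K
    have hterm : ∀ s ∈ QQ K, 4 * |t| ^ 3 * (bT a ((Finset.Icc 1 K).filter (InC s)) * vT a ((Finset.Icc 1 K).filter (InC s))) +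
        t ^ 4 * (vT a ((Finset.Icc 1 K).filter (InC s))) ^ 2 ≤
        4 * |t| ^ 3 * (C1 * C2 ^ 2 * (zt (2 * κ1) * zt (4 * κ2))) * (s:ℝ) ^ (-(κ1 + 2 * κ2)) +
          t ^ 4 * (C2 ^ 4 * (zt (4 * κ2)) ^ 2) * (s:ℝ) ^ (-(4 * κ2)) := by
      intro s hs
      unfold QQ at hs
      rw [Finset.mem_filter, Finset.mem_Icc] at hs
      have hs1 : 1 ≤ s := by omega
      have hs0 : (0:ℝ) < s := by exact_mod_cast hs1
      have hT : ∀ m ∈ (Finset.Icc 1 K).filter (InC s), 1 ≤ m ∧ InC s m := by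
        intro m hm
        rw [Finset.mem_filter, Finset.mem_Icc] at hm
        exact ⟨hm.1.1, hm.2⟩
      have hb := bT_le hκ1 hC1 h1 hs1 hT
      have hv := vT_le_pow hκ2 hC2 h2 hs1 hT
      have hb0 : 0 ≤ bT a ((Finset.Icc 1 K).filter (InC s)) := bT_nonneg
      have hv0 : 0 ≤ vT a ((Finset.Icc 1 K).filter (InC s)) := vT_nonneg
      have hb' : bT a ((Finset.Icc 1 K).filter (InC s)) ≤ C1 * zt (2 * κ1) * (s:ℝ) ^ (-κ1) := hb
      have e1 : (s:ℝ) ^ (-(κ1 + 2 * κ2)) = (s:ℝ) ^ (-κ1) * (s:ℝ) ^ (-(2 * κ2)) := by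
        rw [← Real.rpow_add hs0]; congr 1; ring
      have e2 : (s:ℝ) ^ (-(4 * κ2)) = ((s:ℝ) ^ (-(2 * κ2))) ^ 2 := by
        rw [← Real.rpow_natCast, ← Real.rpow_mul hs0.le]; congr 1; push_cast; ring
      rw [e1, e2]
      have i1 : bT a ((Finset.Icc 1 K).filter (InC s)) * vT a ((Finset.Icc 1 K).filter (InC s)) ≤
          (C1 * zt (2 * κ1) * (s:ℝ) ^ (-κ1)) * (C2 ^ 2 * zt (4 * κ2) * (s:ℝ) ^ (-(2 * κ2))) :=
        mul_le_mul hb' hv hv0 (by positivity)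
      have i2 : (vT a ((Finset.Icc 1 K).filter (InC s))) ^ 2 ≤ (C2 ^ 2 * zt (4 * κ2) * (s:ℝ) ^ (-(2 * κ2))) ^ 2 :=
        pow_le_pow_left₀ hv0 hv 2
      have i3 := mul_le_mul_of_nonneg_left i1 (show 0 ≤ 4 * |t| ^ 3 by positivity)
      have i4 := mul_le_mul_of_nonneg_left i2 (show 0 ≤ t ^ 4 by positivity)
      refine (add_le_add i3 i4).trans (le_of_eq ?_)
      ring
    refine (Finset.sum_le_sum hterm).trans ?_
    rw [Finset.sum_add_distrib, ← Finset.mul_sum, ← Finset.mul_sum]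
    have j1 := zt_sum h12 (QQ K)
    have j2 := zt_sum (x := 4 * κ2) (by linarith) (QQ K)
    have j3 := mul_le_mul_of_nonneg_left j1
      (show 0 ≤ 4 * |t| ^ 3 * (C1 * C2 ^ 2 * (zt (2 * κ1) * zt (4 * κ2))) by positivity)
    have j4 := mul_le_mul_of_nonneg_left j2 (show 0 ≤ t ^ 4 * (C2 ^ 4 * (zt (4 * κ2)) ^ 2) by positivity)
    refine (add_le_add j3 j4).trans (le_of_eq ?_)
    rw [hB]; ring
  -- the limit of the approximants
  have hlim : Tendsto (fun M : ℕ => Complex.exp (((t * ST a φ 1 X (sqs (Finset.Icc 1 (M^2))) 0 : ℝ) : ℂ) * Complex.I) *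
        ((Real.exp (-(t ^ 2 * vT a (nsq (Finset.Icc 1 (M^2))) / 2)) : ℝ) : ℂ)) atTop
      (𝓝 (Complex.exp (((t * D : ℝ) : ℂ) * Complex.I) * ((Real.exp (-(t ^ 2 * V / 2)) : ℝ) : ℂ))) := by
    have c1 : Continuous (fun x : ℝ => Complex.exp (((t * x : ℝ) : ℂ) * Complex.I)) := by fun_prop
    have c2 : Continuous (fun x : ℝ => ((Real.exp (-(t ^ 2 * x / 2)) : ℝ) : ℂ)) := by fun_prop
    exact ((c1.tendsto D).comp hD).mul ((c2.tendsto V).comp hV)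
  apply le_of_forall_pos_le_add
  intro ε hε
  obtain ⟨M0, hM0⟩ := char_approx hA h t (ε := ε / 2) (by positivity)
  rw [Metric.tendsto_atTop] at hlim
  obtain ⟨M1, hM1⟩ := hlim (ε / 2) (by positivity)
  set M := max M0 M1 with hM
  have k1 := hM0 M (le_max_left _ _)
  have k2 := hM1 M (le_max_right _ _)
  have k3 := (mn_gauss a φ X t (M^2)).trans (hblk (M^2))
  rw [dist_eq_norm] at k2
  set A1 := charFun (μ : Measure ℝ) t
  set A2 := mn (ex a φ 1 X ((t:ℂ) * Complex.I) (Finset.Icc 1 (M^2)))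
  set A3 := Complex.exp (((t * ST a φ 1 X (sqs (Finset.Icc 1 (M^2))) 0 : ℝ) : ℂ) * Complex.I) *
        ((Real.exp (-(t ^ 2 * vT a (nsq (Finset.Icc 1 (M^2))) / 2)) : ℝ) : ℂ)
  set A4 := Complex.exp (((t * D : ℝ) : ℂ) * Complex.I) * ((Real.exp (-(t ^ 2 * V / 2)) : ℝ) : ℂ)
  have e1 : A1 - A4 = (A1 - A2) + (A2 - A3) + (A3 - A4) := by ring
  rw [e1]
  refine (norm_add_le _ _).trans ?_
  have := norm_add_le (A1 - A2) (A2 - A3)
  linarith

end Pool.Agent.Q273.TA
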