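import Mathlib
import Pool.Agent.Q273.TA2
import Pool.Agent.H425R3.JL.F3
import Pool.Agent.H383.SBound

set_option autoImplicit false

/-!
The number of lattice points in thin annuli: difference of the error term of the circle problem at two radii.
-/

namespace Pool.Agent.Q273.TA

open MeasureTheory Filter Topology
open Pool.Agent.H383.AP Pool.Agent.H383.Gauss Pool.Agent.H383.Gen Pool.Agent.H383.Circ
open Pool.Agent.H425R3.JL (Ec circ_data)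

/-- the phase -/
noncomputable def ph : ℝ := 3 * Real.pi / 4 + Real.pi / 2

/-- the coefficients of the difference -/
noncomputable def bb (ρ : ℝ) (m : ℕ) : ℝ := -(2 * ag m * Real.sin (Real.pi * (ρ * √(m:ℝ))))

lemma U_sub (ρ R : ℝ) (M : ℕ) : U ag (3 * Real.pi / 4) (R + ρ) M - U ag (3 * Real.pi / 4) R M =
    U (bb ρ) ph (R + ρ / 2) M := by
  unfold U
  rw [← Finset.sum_sub_distrib]
  apply Finset.sum_congr rfl
  intro m _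
  rw [← mul_sub, Real.cos_sub_cos]
  unfold bb ph
  have e1 : 2 * Real.pi * ((R + ρ / 2) * √(m:ℝ)) - (3 * Real.pi / 4 + Real.pi / 2) =
    ((2 * Real.pi * ((R + ρ) * √(m:ℝ)) - 3 * Real.pi / 4 +
      (2 * Real.pi * (R * √(m:ℝ)) - 3 * Real.pi / 4)) / 2) - Real.pi / 2 := by ring
  have e2 : (2 * Real.pi * ((R + ρ) * √(m:ℝ)) - 3 * Real.pi / 4 -
      (2 * Real.pi * (R * √(m:ℝ)) - 3 * Real.pi / 4)) / 2 = Real.pi * (ρ * √(m:ℝ)) := by ring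
  rw [e1, Real.cos_sub_pi_div_two, e2]
  ring

lemma abs_sin_le_pow {y θ : ℝ} (hy : 0 < y) (h0 : 0 ≤ θ) (h1 : θ ≤ 1) : |Real.sin y| ≤ y ^ θ := by
  by_cases hy1 : y ≤ 1
  · have h2 : |Real.sin y| ≤ y := by
      have := Real.abs_sin_le_abs (x := y)
      rwa [abs_of_pos hy] at this
    have h3 : y ^ (1:ℝ) ≤ y ^ θ := Real.rpow_le_rpow_of_exponent_ge hy hy1 h1
    rw [Real.rpow_one] at h3
    linarith
  · push Not at hy1
    exact (Real.abs_sin_le_one y).trans (Real.one_le_rpow hy1.le h0)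

lemma bb_le : ∃ C : ℝ, 0 < C ∧ ∀ ρ : ℝ, 0 < ρ → ∀ θ : ℝ, 0 ≤ θ → θ ≤ 1 → ∀ m : ℕ, 1 ≤ m →
    |bb ρ m| ≤ C * ρ ^ θ * (m:ℝ) ^ (-(37/50 - θ/2)) := by
  obtain ⟨C, hC, h⟩ := ag_Bd
  have hpi := Real.pi_pos
  refine ⟨2 * C * Real.pi, by positivity, ?_⟩
  intro ρ hρ θ h0 h1 m hm
  have hm0 : (0:ℝ) < m := by exact_mod_cast hm
  have hs : 0 < √(m:ℝ) := Real.sqrt_pos.mpr hm0
  have h2 := h m hm
  have h3 : |Real.sin (Real.pi * (ρ * √(m:ℝ)))| ≤ (Real.pi * (ρ * √(m:ℝ))) ^ θ := abs_sin_le_pow (by positivity) h0 h1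
  have h4 : (Real.pi * (ρ * √(m:ℝ))) ^ θ = Real.pi ^ θ * (ρ ^ θ * (√(m:ℝ)) ^ θ) := by
    rw [Real.mul_rpow hpi.le (by positivity), Real.mul_rpow hρ.le hs.le]
  have h5 : Real.pi ^ θ ≤ Real.pi := by
    have := Real.rpow_le_rpow_of_exponent_le (show (1:ℝ) ≤ Real.pi by linarith [Real.pi_gt_three]) h1
    rwa [Real.rpow_one] at this
  have h6 : (√(m:ℝ)) ^ (-(37/25):ℝ) * (√(m:ℝ)) ^ θ = (m:ℝ) ^ (-(37/50 - θ/2)) := by
    rw [← Real.rpow_add hs, Real.sqrt_eq_rpow, ← Real.rpow_mul hm0.le]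
    congr 1; ring
  unfold bb
  rw [abs_neg, abs_mul, abs_mul, abs_of_pos (by norm_num : (0:ℝ) < 2)]
  calc 2 * |ag m| * |Real.sin (Real.pi * (ρ * √(m:ℝ)))|
      ≤ 2 * (C * (√(m:ℝ)) ^ (-(37/25):ℝ)) * (Real.pi * (ρ ^ θ * (√(m:ℝ)) ^ θ)) := by
        rw [h4] at h3
        have h7 : |Real.sin (Real.pi * (ρ * √(m:ℝ)))| ≤ Real.pi * (ρ ^ θ * (√(m:ℝ)) ^ θ) :=
          h3.trans (mul_le_mul_of_nonneg_right h5 (by positivity))
        gcongr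
    _ = 2 * C * Real.pi * ρ ^ θ * ((√(m:ℝ)) ^ (-(37/25):ℝ) * (√(m:ℝ)) ^ θ) := by ring
    _ = _ := by rw [h6]

/-- the annulus sequence -/
noncomputable def ea (R ρ : ℝ) (n : ℕ) : ℝ := Ec (((n:ℝ) + (R + ρ)) ^ 2) - Ec (((n:ℝ) + R) ^ 2)

lemma ap_one {R : ℝ} (hR : 0 < R) : Ap ag (3 * Real.pi / 4) (fun n : ℕ => Ec (((n:ℝ) + R) ^ 2)) 1 R := by
  have h1 := circ_data.ap 1 (2 * R) (R ^ 2) one_pos (fun n => by
    have : (0:ℝ) ≤ n := Nat.cast_nonneg n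
    have : ((1:ℕ):ℝ) * (n:ℝ) ^ 2 + 2 * R * n + R ^ 2 = ((n:ℝ) + R) ^ 2 := by push_cast; ring
    rw [this]; positivity)
  have e1 : (fun n : ℕ => Ec (((1:ℕ):ℝ) * (n:ℝ) ^ 2 + 2 * R * n + R ^ 2)) = fun n : ℕ => Ec (((n:ℝ) + R) ^ 2) := by
    funext n
    congr 1
    push_cast; ring
  have e2 : √((1:ℕ):ℝ) = 1 := by simp
  simp only [e1, e2] at h1
  rw [show (2 * R / (2 * 1) : ℝ) = R by ring] at h1
  exact h1

lemma ap_diff {R ρ : ℝ} (hR : 0 < R) (hρ : 0 < ρ) : Ap (bb ρ) ph (ea R ρ) 1 (R + ρ / 2) := by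
  intro η hη
  obtain ⟨M1, h1⟩ := ap_one (R := R + ρ) (by positivity) (η / 4) (by positivity)
  obtain ⟨M2, h2⟩ := ap_one hR (η / 4) (by positivity)
  refine ⟨max M1 M2, fun M hM => ?_⟩
  obtain ⟨N1, k1⟩ := h1 M (le_trans (le_max_left _ _) hM)
  obtain ⟨N2, k2⟩ := h2 M (le_trans (le_max_right _ _) hM)
  refine ⟨max N1 N2, fun N hN => ?_⟩
  have l1 := k1 N (le_trans (le_max_left _ _) hN)
  have l2 := k2 N (le_trans (le_max_right _ _) hN)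
  have hpt : ∀ n : ℕ, (ea R ρ n - U (bb ρ) ph (R + ρ / 2 + n * 1) M) ^ 2 ≤
      2 * (Ec (((n:ℝ) + (R + ρ)) ^ 2) - U ag (3 * Real.pi / 4) (R + ρ + n * 1) M) ^ 2 +
      2 * (Ec (((n:ℝ) + R) ^ 2) - U ag (3 * Real.pi / 4) (R + n * 1) M) ^ 2 := by
    intro n
    have e1 := U_sub ρ (R + n * 1) M
    have e2 : R + (n:ℝ) * 1 + ρ = R + ρ + n * 1 := by ring
    have e3 : R + (n:ℝ) * 1 + ρ / 2 = R + ρ / 2 + n * 1 := by ring
    rw [e2, e3] at e1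
    rw [← e1]
    unfold ea
    nlinarith [sq_nonneg ((Ec (((n:ℝ) + (R + ρ)) ^ 2) - U ag (3 * Real.pi / 4) (R + ρ + n * 1) M) +
      (Ec (((n:ℝ) + R) ^ 2) - U ag (3 * Real.pi / 4) (R + n * 1) M))]
  refine (rm_mono hpt N).trans ?_
  rw [rm_add, rm_mul, rm_mul]
  linarith

/-- the mean -/
noncomputable def Dm (ρ : ℝ) : ℝ := √2 / (2 * Real.pi) * ∑' k : ℕ, rA (k^2) / (k:ℝ) ^ (3/2:ℝ) *
  (1 - Real.cos (2 * Real.pi * (ρ * k)) + Real.sin (2 * Real.pi * (ρ * k)))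

open Classical in
/-- the terms of the variance -/
noncomputable def vt (ρ : ℝ) (m : ℕ) : ℝ := if IsSquare m then 0 else
  rA m ^ 2 / (m:ℝ) ^ (3/2:ℝ) * Real.sin (Real.pi * (ρ * √(m:ℝ))) ^ 2

/-- the variance -/
noncomputable def Vm (ρ : ℝ) : ℝ := 2 / Real.pi ^ 2 * ∑' m : ℕ, vt ρ m

lemma sqs_eq (M : ℕ) : sqs (Finset.Icc 1 (M^2)) = (Finset.Icc 1 M).image (fun k => k ^ 2) := by
  classical
  unfold sqs
  ext m
  rw [Finset.mem_filter, Finset.mem_image, Finset.mem_Icc]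
  constructor
  · rintro ⟨⟨h1, h2⟩, k, hk⟩
    refine ⟨k, ?_, by rw [hk]; ring⟩
    rw [Finset.mem_Icc]
    constructor
    · rcases Nat.eq_zero_or_pos k with h | h
      · rw [h] at hk; omega
      · exact h
    · by_contra hc
      push Not at hc
      nlinarith
  · rintro ⟨k, hk, rfl⟩
    rw [Finset.mem_Icc] at hk
    exact ⟨⟨Nat.one_le_pow _ _ hk.1, Nat.pow_le_pow_left hk.2 2⟩, ⟨k, by ring⟩⟩

lemma Dterm_summable (ρ : ℝ) : Summable (fun k : ℕ => rA (k^2) / (k:ℝ) ^ (3/2:ℝ) *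
  (1 - Real.cos (2 * Real.pi * (ρ * k)) + Real.sin (2 * Real.pi * (ρ * k)))) := by
  apply Summable.of_norm_bounded (S_summable.mul_left 3)
  intro k
  have h0 : 0 ≤ rA (k^2) := rA_nonneg _
  have hk : (0:ℝ) ≤ k := Nat.cast_nonneg k
  have e : rA (k^2) / (k:ℝ) ^ (3/2:ℝ) = rA (k^2) * (k:ℝ) ^ (-(3/2):ℝ) := by
    rw [Real.rpow_neg hk, div_eq_mul_inv]
  rw [e, Real.norm_eq_abs, abs_mul, abs_of_nonneg (by positivity)]
  have h1 := Real.abs_cos_le_one (2 * Real.pi * (ρ * k))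
  have h2 := Real.abs_sin_le_one (2 * Real.pi * (ρ * k))
  have h3 : |1 - Real.cos (2 * Real.pi * (ρ * k)) + Real.sin (2 * Real.pi * (ρ * k))| ≤ 3 := by
    rw [abs_le] at *
    constructor <;> linarith
  calc rA (k^2) * (k:ℝ) ^ (-(3/2):ℝ) * |1 - Real.cos (2 * Real.pi * (ρ * k)) + Real.sin (2 * Real.pi * (ρ * k))|
      ≤ rA (k^2) * (k:ℝ) ^ (-(3/2):ℝ) * 3 := by gcongr
    _ = _ := by ring

lemma rpow32 {m : ℕ} : (√(m:ℝ)) ^ (-(3/2):ℝ) = (m:ℝ) ^ (-(3/4):ℝ) := by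
  rw [Real.sqrt_eq_rpow, ← Real.rpow_mul (Nat.cast_nonneg m)]; norm_num

lemma D_term (ρ : ℝ) {k : ℕ} (hk : 1 ≤ k) : bb ρ (k^2) *
    Real.cos (2 * Real.pi * ((1 + ρ / 2 + ((0:ℕ):ℝ) * 1) * √((k^2 : ℕ):ℝ)) - ph) =
    √2 / (2 * Real.pi) * (rA (k^2) / (k:ℝ) ^ (3/2:ℝ) *
      (1 - Real.cos (2 * Real.pi * (ρ * k)) + Real.sin (2 * Real.pi * (ρ * k)))) := by
  have hk0 : (0:ℝ) < k := by exact_mod_cast hk
  have e1 : √((k^2 : ℕ):ℝ) = k := by push_cast; exact Real.sqrt_sq hk0.le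
  unfold bb ph ag
  rw [e1]
  set x := Real.pi * (ρ * (k:ℝ)) with hx
  have e2 : 2 * Real.pi * ((1 + ρ / 2 + ((0:ℕ):ℝ) * 1) * (k:ℝ)) - (3 * Real.pi / 4 + Real.pi / 2) =
      ((x - 3 * Real.pi / 4) + (k:ℝ) * (2 * Real.pi)) - Real.pi / 2 := by rw [hx]; push_cast; ring
  rw [e2, Real.cos_sub_pi_div_two, Real.sin_add_nat_mul_two_pi]
  have e3 : 3 * Real.pi / 4 = Real.pi - Real.pi / 4 := by ring
  have e4 : Real.sin (x - 3 * Real.pi / 4) = -(√2 / 2) * (Real.sin x + Real.cos x) := by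
    rw [e3, Real.sin_sub, Real.cos_pi_sub, Real.sin_pi_sub, Real.cos_pi_div_four, Real.sin_pi_div_four]
    ring
  have e5 : 2 * Real.pi * (ρ * (k:ℝ)) = 2 * x := by rw [hx]; ring
  rw [e4, e5, Real.cos_two_mul, Real.sin_two_mul]
  have e6 : (k:ℝ) ^ (-(3/2):ℝ) = ((k:ℝ) ^ (3/2:ℝ))⁻¹ := Real.rpow_neg hk0.le _
  rw [e6]
  have hsc := Real.sin_sq_add_cos_sq x
  have hp : (k:ℝ) ^ (3/2:ℝ) ≠ 0 := by positivity
  have hpi := Real.pi_pos.ne'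
  field_simp
  have e7 : Real.cos x ^ 2 = 1 - Real.sin x ^ 2 := by linarith
  rw [e7]
  ring

lemma D_lim (ρ : ℝ) : Tendsto (fun M : ℕ => ST (bb ρ) ph 1 (1 + ρ / 2) (sqs (Finset.Icc 1 (M^2))) 0) atTop (𝓝 (Dm ρ)) := by
  set f : ℕ → ℝ := fun k : ℕ => √2 / (2 * Real.pi) * (rA (k^2) / (k:ℝ) ^ (3/2:ℝ) *
      (1 - Real.cos (2 * Real.pi * (ρ * k)) + Real.sin (2 * Real.pi * (ρ * k)))) with hf
  have hsum : Summable f := (Dterm_summable ρ).mul_left _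
  have h1 := hsum.hasSum.tendsto_sum_nat
  have h2 : ∑' k, f k = Dm ρ := by
    rw [hf, tsum_mul_left]; rfl
  rw [h2] at h1
  have h3 := h1.comp (tendsto_add_atTop_nat 1)
  refine h3.congr (fun M => ?_)
  simp only [Function.comp_apply]
  have hST : ST (bb ρ) ph 1 (1 + ρ / 2) (sqs (Finset.Icc 1 (M^2))) 0 = ∑ k ∈ Finset.Icc 1 M, f k := by
    classical
    unfold Pool.Agent.H383.Gen.ST
    rw [sqs_eq, Finset.sum_image (by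
      intro x _ y _ h
      exact Nat.pow_left_injective (n := 2) (by norm_num) h)]
    apply Finset.sum_congr rfl
    intro k hk
    rw [Finset.mem_Icc] at hk
    exact D_term ρ hk.1
  rw [hST]
  have h0 : f 0 = 0 := by
    rw [hf]; simp
  rw [Finset.range_eq_Ico, Finset.sum_eq_sum_Ico_succ_bot (Nat.succ_pos M), h0, zero_add]
  rfl

lemma vt_eq (ρ : ℝ) {m : ℕ} (hm : 1 ≤ m) (h : ¬ IsSquare m) : 1 / 2 * (bb ρ m) ^ 2 = 2 / Real.pi ^ 2 * vt ρ m := by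
  have hm0 : (0:ℝ) < m := by exact_mod_cast hm
  unfold vt bb ag
  rw [if_neg h, rpow32]
  have e : ((m:ℝ) ^ (-(3/4):ℝ)) ^ 2 = ((m:ℝ) ^ (3/2:ℝ))⁻¹ := by
    rw [← Real.rpow_natCast, ← Real.rpow_mul hm0.le, ← Real.rpow_neg hm0.le]
    congr 1; norm_num
  have e2 : (-(2 * (rA m / Real.pi * (m:ℝ) ^ (-(3/4):ℝ)) * Real.sin (Real.pi * (ρ * √(m:ℝ))))) ^ 2 =
      4 * (rA m / Real.pi) ^ 2 * ((m:ℝ) ^ (-(3/4):ℝ)) ^ 2 * (Real.sin (Real.pi * (ρ * √(m:ℝ)))) ^ 2 := by ring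
  rw [e2, e]
  have hpi := Real.pi_pos.ne'
  have hp : (m:ℝ) ^ (3/2:ℝ) ≠ 0 := by positivity
  field_simp
  norm_num

lemma vt_zero (ρ : ℝ) : vt ρ 0 = 0 := by
  unfold vt; rw [if_pos ⟨0, rfl⟩]

lemma vt_nonneg (ρ : ℝ) (m : ℕ) : 0 ≤ vt ρ m := by
  unfold vt
  split_ifs
  · exact le_rfl
  · have := rA_nonneg m
    positivity

lemma vt_summable {ρ : ℝ} (hρ : 0 < ρ) : Summable (vt ρ) := by
  obtain ⟨C, hC, h⟩ := bb_le
  have hs : Summable (fun m : ℕ => Real.pi ^ 2 / 4 * (C ^ 2 * (m:ℝ) ^ (-(37/25):ℝ))) := by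
    apply Summable.mul_left
    apply Summable.mul_left
    rw [Real.summable_nat_rpow]; norm_num
  apply Summable.of_nonneg_of_le (vt_nonneg ρ) _ hs
  intro m
  rcases Nat.eq_zero_or_pos m with h0 | h0
  · rw [h0, vt_zero]; positivity
  by_cases hsq : IsSquare m
  · unfold vt; rw [if_pos hsq]; positivity
  have h1 := vt_eq ρ h0 hsq
  have h2 := h ρ hρ 0 le_rfl zero_le_one m h0
  have hm0 : (0:ℝ) < m := by exact_mod_cast h0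
  rw [Real.rpow_zero, mul_one] at h2
  have h3 := pow_le_pow_left₀ (abs_nonneg _) h2 2
  rw [sq_abs, mul_pow, ← Real.rpow_natCast ((m:ℝ) ^ _), ← Real.rpow_mul hm0.le] at h3
  have e : (-(37/50 - (0:ℝ)/2)) * ((2:ℕ):ℝ) = -(37/25) := by norm_num
  rw [e] at h3
  have hpi := Real.pi_pos
  have h4 : vt ρ m = Real.pi ^ 2 / 4 * (bb ρ m) ^ 2 := by
    have : vt ρ m = Real.pi ^ 2 / 2 * (2 / Real.pi ^ 2 * vt ρ m) := by field_simp
    rw [this, ← h1]; ring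
  rw [h4]
  gcongr

lemma V_lim {ρ : ℝ} (hρ : 0 < ρ) : Tendsto (fun M : ℕ => vT (bb ρ) (nsq (Finset.Icc 1 (M^2)))) atTop (𝓝 (Vm ρ)) := by
  classical
  set f : ℕ → ℝ := fun m => 2 / Real.pi ^ 2 * vt ρ m with hf
  have hsum : Summable f := (vt_summable hρ).mul_left _
  have h1 := hsum.hasSum.tendsto_sum_nat
  have h2 : ∑' k, f k = Vm ρ := by
    rw [hf, tsum_mul_left]; rfl
  rw [h2] at h1
  have h3 : Tendsto (fun M : ℕ => M ^ 2 + 1) atTop atTop :=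
    (tendsto_add_atTop_nat 1).comp (tendsto_pow_atTop (by norm_num))
  have h4 := h1.comp h3
  refine h4.congr (fun M => ?_)
  simp only [Function.comp_apply]
  have h0 : f 0 = 0 := by
    rw [hf]; simp only; rw [vt_zero, mul_zero]
  rw [Finset.range_eq_Ico, Finset.sum_eq_sum_Ico_succ_bot (Nat.succ_pos (M^2)), h0, zero_add]
  unfold vT nsq
  rw [Finset.mul_sum, Finset.sum_filter]
  apply Finset.sum_congr rfl
  intro m hm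
  have hm1 : 1 ≤ m := (Finset.mem_Ico.mp hm).1
  by_cases hsq : IsSquare m
  · rw [if_neg (not_not.mpr hsq), hf]
    simp only
    unfold vt
    rw [if_pos hsq, mul_zero]
  · rw [if_pos hsq, vt_eq ρ hm1 hsq]

/-- **the limit law of the annulus sequence is nearly normal** -/
theorem char_annulus : ∃ K : ℝ, 0 < K ∧ ∀ ρ : ℝ, 0 < ρ → ∀ μ : ProbabilityMeasure ℝ, Law (ea 1 ρ) μ → ∀ t : ℝ,
    ‖charFun (μ : Measure ℝ) t - Complex.exp (((t * Dm ρ : ℝ) : ℂ) * Complex.I) *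
        ((Real.exp (-(t ^ 2 * Vm ρ / 2)) : ℝ) : ℂ)‖ ≤ K * (|t| ^ 3 * ρ ^ (11/5:ℝ) + t ^ 4 * ρ ^ (18/5:ℝ)) := by
  obtain ⟨C, hC, h⟩ := bb_le
  set Z1 := zt (2 * (27/50)) * zt (4 * (29/100)) * zt (27/50 + 2 * (29/100)) with hZ1
  set Z2 := (zt (4 * (29/100))) ^ 3 with hZ2
  have hz1 : 0 ≤ Z1 := mul_nonneg (mul_nonneg (zt_nonneg _) (zt_nonneg _)) (zt_nonneg _)
  have hz2 : 0 ≤ Z2 := pow_nonneg (zt_nonneg _) 3
  refine ⟨4 * C ^ 3 * Z1 + C ^ 4 * Z2 + 1, by positivity, ?_⟩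
  intro ρ hρ μ hμ t
  have key := char_gauss (a := bb ρ) (φ := ph) (X := 1 + ρ / 2) (e := ea 1 ρ) (μ := μ) (D := Dm ρ) (V := Vm ρ)
    (C1 := C * ρ ^ (2/5:ℝ)) (C2 := C * ρ ^ (9/10:ℝ)) (κ1 := 27/50) (κ2 := 29/100)
    (ap_diff one_pos hρ) hμ (by norm_num) (by norm_num) (by norm_num) (by positivity) (by positivity)
    (fun m hm => by
      have := h ρ hρ (2/5) (by norm_num) (by norm_num) m hm
      have e : -(37/50 - (2/5:ℝ)/2) = -(27/50) := by norm_num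
      rwa [e] at this)
    (fun m hm => by
      have := h ρ hρ (9/10) (by norm_num) (by norm_num) m hm
      have e : -(37/50 - (9/10:ℝ)/2) = -(29/100) := by norm_num
      rwa [e] at this) (D_lim ρ) (V_lim hρ) t
  refine key.trans ?_
  have e1 : C * ρ ^ (2/5:ℝ) * (C * ρ ^ (9/10:ℝ)) ^ 2 = C ^ 3 * ρ ^ (11/5:ℝ) := by
    have : ρ ^ (11/5:ℝ) = ρ ^ (2/5:ℝ) * (ρ ^ (9/10:ℝ)) ^ 2 := by
      rw [← Real.rpow_natCast (ρ ^ (9/10:ℝ)), ← Real.rpow_mul hρ.le, ← Real.rpow_add hρ]; norm_num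
    rw [this]; ring
  have e2 : (C * ρ ^ (9/10:ℝ)) ^ 4 = C ^ 4 * ρ ^ (18/5:ℝ) := by
    have : ρ ^ (18/5:ℝ) = (ρ ^ (9/10:ℝ)) ^ 4 := by
      rw [← Real.rpow_natCast (ρ ^ (9/10:ℝ)), ← Real.rpow_mul hρ.le]; norm_num
    rw [this]; ring
  rw [e1, e2]
  have p1 : 0 ≤ ρ ^ (11/5:ℝ) := by positivity
  have p2 : 0 ≤ ρ ^ (18/5:ℝ) := by positivity
  have p3 : 0 ≤ |t| ^ 3 := by positivity
  have p4 : 0 ≤ t ^ 4 := by positivity
  have q1 : 0 ≤ |t| ^ 3 * ρ ^ (11/5:ℝ) := by positivity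
  have q2 : 0 ≤ t ^ 4 * ρ ^ (18/5:ℝ) := by positivity
  have q3 : 0 ≤ 4 * C ^ 3 * Z1 := by positivity
  have q4 : 0 ≤ C ^ 4 * Z2 := by positivity
  rw [← hZ1, ← hZ2]
  have e5 : (4 * C ^ 3 * Z1 + C ^ 4 * Z2 + 1) * (|t| ^ 3 * ρ ^ (11/5:ℝ) + t ^ 4 * ρ ^ (18/5:ℝ)) -
      (4 * |t| ^ 3 * (C ^ 3 * ρ ^ (11/5:ℝ) * Z1) + t ^ 4 * (C ^ 4 * ρ ^ (18/5:ℝ) * Z2)) =
      (4 * C ^ 3 * Z1) * (t ^ 4 * ρ ^ (18/5:ℝ)) + (C ^ 4 * Z2) * (|t| ^ 3 * ρ ^ (11/5:ℝ)) +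
        (|t| ^ 3 * ρ ^ (11/5:ℝ) + t ^ 4 * ρ ^ (18/5:ℝ)) := by ring
  have := mul_nonneg q3 q2
  have := mul_nonneg q4 q1
  linarith

end Pool.Agent.Q273.TA
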