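import Mathlib
import Pool.Agent.Q273.TA3
import Pool.Agent.H383.Rich

set_option autoImplicit false

/-!
Lower bound for the variance of the number of lattice points in thin annuli, and the limit of the characteristic
functions of the normalised laws.
-/

namespace Pool.Agent.Q273.TA

open MeasureTheory Filter Topology
open Pool.Agent.H383.AP Pool.Agent.H383.Gauss Pool.Agent.H383.Gen Pool.Agent.H383.Circ Pool.Agent.H383.Rich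

lemma Vm_nonneg (ρ : ℝ) : 0 ≤ Vm ρ := by
  unfold Vm
  have h : 0 ≤ ∑' m, vt ρ m := tsum_nonneg (vt_nonneg ρ)
  positivity

lemma prime_not_sq {q : ℕ} (hq : q.Prime) : ¬ IsSquare q := by
  rintro ⟨k, hk⟩
  have h1 := hq.one_lt
  have h2 : k ∣ q := ⟨k, hk⟩
  rcases (Nat.dvd_prime hq).mp h2 with h | h
  · rw [h] at hk; omega
  · rw [h] at hk
    nlinarith

/-- a lower bound of the variance -/
theorem Vm_lower : ∃ c ρ0 : ℝ, 0 < c ∧ 0 < ρ0 ∧ ρ0 ≤ 1 ∧ ∀ ρ : ℝ, 0 < ρ → ρ ≤ ρ0 → c * ρ ^ (6/5:ℝ) ≤ Vm ρ := by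
  obtain ⟨y0, hy0, hcard⟩ := PB_card ∅
  have hpi := Real.pi_pos
  -- constants
  set c : ℝ := 1 / Real.pi ^ 2 * (1 / 20 * 2 ^ (-(3/2):ℝ) * (1 / 10)) * (4 * 16 ^ (1/10:ℝ)) with hc
  refine ⟨c, min 1 (1 / (4 * √y0)), by positivity, by positivity, min_le_left _ _, ?_⟩
  intro ρ hρ hρ0
  have hρ1 : ρ ≤ 1 := hρ0.trans (min_le_left _ _)
  have hρ2 : ρ ≤ 1 / (4 * √y0) := hρ0.trans (min_le_right _ _)
  set y := 1 / (16 * ρ ^ 2) with hy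
  have hyp : 0 < y := by positivity
  have hyy : y0 ≤ y := by
    rw [hy, le_div_iff₀ (by positivity)]
    have hs : 0 < √y0 := Real.sqrt_pos.mpr (by linarith)
    rw [le_div_iff₀ (by positivity)] at hρ2
    have h1 : (ρ * (4 * √y0)) ^ 2 ≤ 1 := by
      have : 0 ≤ ρ * (4 * √y0) := by positivity
      nlinarith
    have h2 : √y0 ^ 2 = y0 := Real.sq_sqrt (by linarith)
    nlinarith
  have h1 := hcard y hyy
  -- every prime of the block contributes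
  have hterm : ∀ q ∈ PB ∅ y, (2 * y) ^ (-(3/2):ℝ) * (1 / 2) ≤ vt ρ q := by
    intro q hq
    have h2 := PB_mem hyp.le hq
    have hq0 : (0:ℝ) < q := by linarith [h2.2.2.2.1]
    unfold vt
    rw [if_neg (prime_not_sq h2.1)]
    have h3 : 1 ≤ rA q := rA_prime_ge h2.1 h2.2.1
    have h4 : (2 * y) ^ (-(3/2):ℝ) ≤ (q:ℝ) ^ (-(3/2):ℝ) :=
      Real.rpow_le_rpow_of_nonpos hq0 h2.2.2.2.2 (by norm_num)
    -- the sine
    have hs1 : 1 / (4 * ρ) ≤ √(q:ℝ) := by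
      apply Real.le_sqrt_of_sq_le
      have : (1 / (4 * ρ)) ^ 2 = y := by rw [hy]; field_simp; norm_num
      rw [this]; exact h2.2.2.2.1.le
    have hs2 : √(q:ℝ) ≤ 1 / (2 * ρ) := by
      apply Real.sqrt_le_iff.mpr
      refine ⟨by positivity, ?_⟩
      have : (1 / (2 * ρ)) ^ 2 = 4 * y := by rw [hy]; field_simp; norm_num
      rw [this]; linarith [h2.2.2.2.2]
    have hx1 : Real.pi / 4 ≤ Real.pi * (ρ * √(q:ℝ)) := by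
      have : 1 / 4 ≤ ρ * √(q:ℝ) := by
        calc (1:ℝ) / 4 = ρ * (1 / (4 * ρ)) := by field_simp
          _ ≤ ρ * √(q:ℝ) := by gcongr
      nlinarith
    have hx2 : Real.pi * (ρ * √(q:ℝ)) ≤ Real.pi / 2 := by
      have : ρ * √(q:ℝ) ≤ 1 / 2 := by
        calc ρ * √(q:ℝ) ≤ ρ * (1 / (2 * ρ)) := by gcongr
          _ = 1 / 2 := by field_simp
      nlinarith
    have hsin : √2 / 2 ≤ Real.sin (Real.pi * (ρ * √(q:ℝ))) := by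
      rw [← Real.sin_pi_div_four]
      exact Real.sin_le_sin_of_le_of_le_pi_div_two (by linarith) hx2 hx1
    have hsq : 1 / 2 ≤ Real.sin (Real.pi * (ρ * √(q:ℝ))) ^ 2 := by
      have h5 : (√2 / 2) ^ 2 = 1 / 2 := by
        rw [div_pow, Real.sq_sqrt (by norm_num)]; norm_num
      rw [← h5]
      exact pow_le_pow_left₀ (by positivity) hsin 2
    have e : rA q ^ 2 / (q:ℝ) ^ (3/2:ℝ) = rA q ^ 2 * (q:ℝ) ^ (-(3/2):ℝ) := by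
      rw [Real.rpow_neg hq0.le, div_eq_mul_inv]
    rw [e]
    have h6 : (2 * y) ^ (-(3/2):ℝ) ≤ rA q ^ 2 * (q:ℝ) ^ (-(3/2):ℝ) := by
      have h7 : 1 ≤ rA q ^ 2 := by nlinarith
      calc (2 * y) ^ (-(3/2):ℝ) ≤ 1 * (q:ℝ) ^ (-(3/2):ℝ) := by rw [one_mul]; exact h4
        _ ≤ _ := by gcongr
    exact mul_le_mul h6 hsq (by norm_num) (by positivity)
  have h2 : ((PB ∅ y).card : ℝ) * ((2 * y) ^ (-(3/2):ℝ) * (1 / 2)) ≤ ∑ q ∈ PB ∅ y, vt ρ q := by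
    rw [← nsmul_eq_mul]
    exact Finset.card_nsmul_le_sum _ _ _ hterm
  have h3 : ∑ q ∈ PB ∅ y, vt ρ q ≤ ∑' m, vt ρ m := (vt_summable hρ).sum_le_tsum _ (fun m _ => vt_nonneg ρ m)
  have hlogy : 0 < Real.log y := Real.log_pos (by linarith)
  have hlog : Real.log y ≤ y ^ (1/10:ℝ) / (1/10) := Real.log_le_rpow_div hyp.le (by norm_num)
  have h4 : (1/20) * y / (y ^ (1/10:ℝ) / (1/10)) ≤ ((PB ∅ y).card : ℝ) :=
    (div_le_div_of_nonneg_left (by positivity) hlogy hlog).trans h1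
  have h5 : (1/20) * y / (y ^ (1/10:ℝ) / (1/10)) * ((2 * y) ^ (-(3/2):ℝ) * (1 / 2)) ≤ ∑' m, vt ρ m :=
    (mul_le_mul_of_nonneg_right h4 (by positivity)).trans (h2.trans h3)
  have e1 : (1/20) * y / (y ^ (1/10:ℝ) / (1/10)) * ((2 * y) ^ (-(3/2):ℝ) * (1 / 2)) =
      (1 / 20 * 2 ^ (-(3/2):ℝ) * (1 / 10)) * (1 / 2) * y ^ (-(3/5):ℝ) := by
    rw [Real.mul_rpow (by norm_num) hyp.le]
    have e2 : y ^ (-(3/5):ℝ) = y * y ^ (-(3/2):ℝ) / y ^ (1/10:ℝ) := by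
      rw [eq_div_iff (by positivity), ← Real.rpow_add hyp]
      conv_rhs => rw [← Real.rpow_one y, ← Real.rpow_mul hyp.le, one_mul, ← Real.rpow_add hyp]
      congr 1; norm_num
    rw [e2]
    field_simp
  have e3 : y ^ (-(3/5):ℝ) = 16 ^ (3/5:ℝ) * ρ ^ (6/5:ℝ) := by
    have : y = (16 * ρ ^ 2)⁻¹ := by rw [hy, one_div]
    rw [this, Real.inv_rpow (by positivity), Real.rpow_neg (by positivity), inv_inv,
      Real.mul_rpow (by norm_num) (by positivity), ← Real.rpow_natCast ρ, ← Real.rpow_mul hρ.le]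
    norm_num
  have e4 : (16:ℝ) ^ (3/5:ℝ) = 4 * 16 ^ (1/10:ℝ) := by
    have : (16:ℝ) ^ (3/5:ℝ) = 16 ^ (1/2:ℝ) * 16 ^ (1/10:ℝ) := by
      rw [← Real.rpow_add (by norm_num)]; norm_num
    rw [this]
    congr 1
    rw [← Real.sqrt_eq_rpow]
    rw [show (16:ℝ) = 4 ^ 2 by norm_num]
    exact Real.sqrt_sq (by norm_num)
  rw [e1, e3, e4] at h5
  unfold Vm
  calc c * ρ ^ (6/5:ℝ) = 2 / Real.pi ^ 2 * (1 / 20 * 2 ^ (-(3/2):ℝ) * (1 / 10) * (1 / 2) * (4 * 16 ^ (1/10:ℝ) * ρ ^ (6/5:ℝ))) := by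
        rw [hc]; ring
    _ ≤ 2 / Real.pi ^ 2 * ∑' m, vt ρ m := by gcongr

/-- the error of the normal approximation tends to zero -/
theorem char_norm : ∃ K ρ0 : ℝ, 0 < K ∧ 0 < ρ0 ∧ ρ0 ≤ 1 ∧ ∀ ρ : ℝ, 0 < ρ → ρ ≤ ρ0 → 0 < Vm ρ ∧
    ∀ μ : ProbabilityMeasure ℝ, Law (ea 1 ρ) μ → ∀ t : ℝ,
    ‖charFun ((μ : Measure ℝ).map (fun x => (x - Dm ρ) / √(Vm ρ))) t - ((Real.exp (-(t ^ 2 / 2)) : ℝ) : ℂ)‖ ≤
      K * (|t| ^ 3 + t ^ 4) * ρ ^ (2/5:ℝ) := by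
  obtain ⟨K, hK, h⟩ := char_annulus
  obtain ⟨c, ρ0, hc, hρ0, hρ1, hV⟩ := Vm_lower
  refine ⟨K * (c ^ (-(3/2):ℝ) + c ^ (-(2:ℝ))), ρ0, by positivity, hρ0, hρ1, ?_⟩
  intro ρ hρ hρρ
  have hv := hV ρ hρ hρρ
  have hcρ : 0 < c * ρ ^ (6/5:ℝ) := by positivity
  have hVp : 0 < Vm ρ := lt_of_lt_of_le hcρ hv
  refine ⟨hVp, ?_⟩
  intro μ hμ t
  set σ := √(Vm ρ) with hσ
  have hσ0 : 0 < σ := Real.sqrt_pos.mpr hVp
  have hσ2 : σ ^ 2 = Vm ρ := Real.sq_sqrt hVp.le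
  have key := h ρ hρ μ hμ (t / σ)
  have e1 : charFun ((μ : Measure ℝ).map (fun x => (x - Dm ρ) / σ)) t =
      Complex.exp ((-((t / σ) * Dm ρ) : ℝ) * Complex.I) * charFun (μ : Measure ℝ) (t / σ) := by
    rw [charFun_apply_real, charFun_apply_real, integral_map (by fun_prop) (by fun_prop), ← integral_const_mul]
    congr 1
    funext x
    rw [← Complex.exp_add]
    congr 1
    push_cast
    have : (σ:ℂ) ≠ 0 := by exact_mod_cast hσ0.ne'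
    field_simp
    ring
  have e2 : ((Real.exp (-(t ^ 2 / 2)) : ℝ) : ℂ) = Complex.exp ((-((t / σ) * Dm ρ) : ℝ) * Complex.I) *
      (Complex.exp ((((t / σ) * Dm ρ : ℝ) : ℂ) * Complex.I) * ((Real.exp (-((t / σ) ^ 2 * Vm ρ / 2)) : ℝ) : ℂ)) := by
    rw [← mul_assoc, ← Complex.exp_add]
    have : ((-((t / σ) * Dm ρ) : ℝ) : ℂ) * Complex.I + (((t / σ) * Dm ρ : ℝ) : ℂ) * Complex.I = 0 := by push_cast; ring
    rw [this, Complex.exp_zero, one_mul]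
    congr 3
    rw [div_pow, hσ2]
    field_simp
  rw [e1, e2, ← mul_sub, norm_mul, Complex.norm_exp_ofReal_mul_I, one_mul]
  refine key.trans ?_
  -- powers of sigma
  have s3 : (1 / σ) ^ 3 * ρ ^ (11/5:ℝ) ≤ c ^ (-(3/2):ℝ) * ρ ^ (2/5:ℝ) := by
    have a1 : (1 / σ) ^ 3 = (Vm ρ) ^ (-(3/2):ℝ) := by
      rw [hσ, Real.sqrt_eq_rpow, one_div, ← Real.rpow_neg hVp.le, ← Real.rpow_natCast, ← Real.rpow_mul hVp.le]
      norm_num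
    have a2 : (Vm ρ) ^ (-(3/2):ℝ) ≤ (c * ρ ^ (6/5:ℝ)) ^ (-(3/2):ℝ) :=
      Real.rpow_le_rpow_of_nonpos hcρ hv (by norm_num)
    have a3 : (c * ρ ^ (6/5:ℝ)) ^ (-(3/2):ℝ) = c ^ (-(3/2):ℝ) * ρ ^ (-(9/5):ℝ) := by
      rw [Real.mul_rpow hc.le (by positivity), ← Real.rpow_mul hρ.le]; norm_num
    rw [a1]
    calc (Vm ρ) ^ (-(3/2):ℝ) * ρ ^ (11/5:ℝ) ≤ (c ^ (-(3/2):ℝ) * ρ ^ (-(9/5):ℝ)) * ρ ^ (11/5:ℝ) := by
          rw [a3] at a2; gcongr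
      _ = c ^ (-(3/2):ℝ) * ρ ^ (2/5:ℝ) := by
          rw [mul_assoc, ← Real.rpow_add hρ]; norm_num
  have s4 : (1 / σ) ^ 4 * ρ ^ (18/5:ℝ) ≤ c ^ (-(2:ℝ)) * ρ ^ (2/5:ℝ) := by
    have a1 : (1 / σ) ^ 4 = (Vm ρ) ^ (-(2:ℝ)) := by
      rw [hσ, Real.sqrt_eq_rpow, one_div, ← Real.rpow_neg hVp.le, ← Real.rpow_natCast, ← Real.rpow_mul hVp.le]
      norm_num
    have a2 : (Vm ρ) ^ (-(2:ℝ)) ≤ (c * ρ ^ (6/5:ℝ)) ^ (-(2:ℝ)) :=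
      Real.rpow_le_rpow_of_nonpos hcρ hv (by norm_num)
    have a3 : (c * ρ ^ (6/5:ℝ)) ^ (-(2:ℝ)) = c ^ (-(2:ℝ)) * ρ ^ (-(12/5):ℝ) := by
      rw [Real.mul_rpow hc.le (by positivity), ← Real.rpow_mul hρ.le]; norm_num
    have a4 : ρ ^ (6/5:ℝ) ≤ ρ ^ (2/5:ℝ) := Real.rpow_le_rpow_of_exponent_ge hρ (by linarith) (by norm_num)
    rw [a1]
    calc (Vm ρ) ^ (-(2:ℝ)) * ρ ^ (18/5:ℝ) ≤ (c ^ (-(2:ℝ)) * ρ ^ (-(12/5):ℝ)) * ρ ^ (18/5:ℝ) := by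
          rw [a3] at a2; gcongr
      _ = c ^ (-(2:ℝ)) * ρ ^ (6/5:ℝ) := by
          rw [mul_assoc, ← Real.rpow_add hρ]; norm_num
      _ ≤ _ := by gcongr
  have e3 : |t / σ| ^ 3 * ρ ^ (11/5:ℝ) = |t| ^ 3 * ((1 / σ) ^ 3 * ρ ^ (11/5:ℝ)) := by
    rw [abs_div, abs_of_pos hσ0]; field_simp
  have e4 : (t / σ) ^ 4 * ρ ^ (18/5:ℝ) = t ^ 4 * ((1 / σ) ^ 4 * ρ ^ (18/5:ℝ)) := by
    field_simp
  rw [e3, e4]
  have p1 : 0 ≤ |t| ^ 3 := by positivity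
  have p2 : 0 ≤ t ^ 4 := by positivity
  have p3 : 0 ≤ c ^ (-(3/2):ℝ) * ρ ^ (2/5:ℝ) := by positivity
  have p4 : 0 ≤ c ^ (-(2:ℝ)) * ρ ^ (2/5:ℝ) := by positivity
  have q1 := mul_le_mul_of_nonneg_left s3 p1
  have q2 := mul_le_mul_of_nonneg_left s4 p2
  calc K * (|t| ^ 3 * ((1 / σ) ^ 3 * ρ ^ (11/5:ℝ)) + t ^ 4 * ((1 / σ) ^ 4 * ρ ^ (18/5:ℝ)))
      ≤ K * (|t| ^ 3 * (c ^ (-(3/2):ℝ) * ρ ^ (2/5:ℝ)) + t ^ 4 * (c ^ (-(2:ℝ)) * ρ ^ (2/5:ℝ))) := by gcongr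
    _ ≤ K * (c ^ (-(3/2):ℝ) + c ^ (-(2:ℝ))) * (|t| ^ 3 + t ^ 4) * ρ ^ (2/5:ℝ) := by
        have r1 := mul_nonneg p1 p4
        have r2 := mul_nonneg p2 p3
        nlinarith [mul_nonneg hK.le r1, mul_nonneg hK.le r2]

end Pool.Agent.Q273.TA
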