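import Pool.Agent.Q273.WL3

set_option autoImplicit false

/-!
Uniformity in the truncation, and the truncated moments of all orders.
-/

namespace Pool.Agent.Q273.WL

open MeasureTheory ProbabilityTheory Filter Topology Set

noncomputable section

/-- the standard normal distribution function -/
def Phi (y : ℝ) : ℝ := (gaussianReal 0 1).real (Iic y)

lemma Phi_mono : Monotone Phi := fun _ _ h => measureReal_mono (Iic_subset_Iic.mpr h)

lemma Phi_nonneg (y : ℝ) : 0 ≤ Phi y := measureReal_nonneg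

lemma Phi_le_one (y : ℝ) : Phi y ≤ 1 := measureReal_le_one

lemma Phi_sub {a b : ℝ} (h : a ≤ b) : Phi b - Phi a = (gaussianReal 0 1).real (Ioc a b) := by
  unfold Phi
  have e : Iic b = Iic a ∪ Ioc a b := (Iic_union_Ioc_eq_Iic h).symm
  rw [e, measureReal_union (by
    rw [Set.disjoint_left]
    intro x hx hx'
    exact absurd hx'.1 (not_lt.mpr hx)) measurableSet_Ioc]
  ring

lemma Phi_lip {a b : ℝ} (h : a ≤ b) : Phi b ≤ Phi a + (b - a) := by
  have h1 : (gaussianReal 0 1) (Ioc a b) ≤ ENNReal.ofReal (b - a) := by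
    rw [gaussianReal_apply _ one_ne_zero]
    calc ∫⁻ x in Ioc a b, gaussianPDF 0 1 x ≤ ∫⁻ _ in Ioc a b, 1 := by
          refine lintegral_mono fun x => ?_
          unfold gaussianPDF gaussianPDFReal
          rw [ENNReal.ofReal_le_one]
          have h2 : 1 ≤ √(2 * Real.pi * (1:NNReal)) := by
            rw [Real.one_le_sqrt]
            have := Real.pi_gt_three
            push_cast
            linarith
          have h3 : (√(2 * Real.pi * (1:NNReal)))⁻¹ ≤ 1 := inv_le_one_of_one_le₀ h2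
          have h4 : Real.exp (-(x - 0) ^ 2 / (2 * (1:NNReal))) ≤ 1 := by
            rw [Real.exp_le_one_iff]
            push_cast
            nlinarith [sq_nonneg (x - 0)]
          exact mul_le_one₀ h3 (Real.exp_pos _).le h4
      _ = ENNReal.ofReal (b - a) := by rw [setLIntegral_one, Real.volume_Ioc]
  have h2 := Phi_sub h
  have h3 : (gaussianReal 0 1).real (Ioc a b) ≤ b - a := by
    unfold Measure.real
    exact ENNReal.toReal_le_of_le_ofReal (by linarith) h1
  linarith

lemma Phi_lt {a b : ℝ} (h : a < b) : Phi a < Phi b := by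
  have h2 := Phi_sub h.le
  have h3 : 0 < (gaussianReal 0 1).real (Ioc a b) := by
    unfold Measure.real
    refine ENNReal.toReal_pos ?_ (measure_ne_top _ _)
    intro h0
    have := gaussianReal_absolutelyContinuous' 0 (v := 1) one_ne_zero h0
    rw [Real.volume_Ioc, ENNReal.ofReal_eq_zero] at this
    linarith
  linarith

lemma Phi_tails {ε : ℝ} (hε : 0 < ε) : ∃ R : ℝ, 0 < R ∧ Phi (-R) ≤ ε ∧ 1 - ε ≤ Phi R := by
  have hc : ∀ y, Phi y = cdf (gaussianReal 0 1) y := fun y => (cdf_eq_real _ _).symm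
  have h1 := (tendsto_cdf_atBot (gaussianReal 0 1)).comp tendsto_neg_atTop_atBot
  have h2 := tendsto_cdf_atTop (gaussianReal 0 1)
  obtain ⟨R, a, b, c⟩ := ((h1.eventually (ge_mem_nhds hε)).and
    ((h2.eventually (le_mem_nhds (show 1 - ε < 1 by linarith))).and (eventually_gt_atTop (0:ℝ)))).exists
  exact ⟨R, c, by rw [hc]; exact a, by rw [hc]; exact b⟩

lemma tr_mono {f : ℝ → ℝ} (hf : Continuous f) (hf0 : ∀ u, 0 ≤ f u) {b : ℝ} (hb : 0 ≤ b) {c c' : ℝ} (h : c ≤ c') :
    tr f b c ≤ tr f b c' := by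
  unfold tr
  refine setIntegral_mono_set ((intOn hf hb).mono_set fun u hu => hu.1)
    (ae_of_all _ fun u => Real.rpow_nonneg (hf0 u) _) (LE.le.eventuallyLE fun u hu => ?_)
  exact ⟨hu.1, hu.2.trans h⟩

lemma tr_nonneg {f : ℝ → ℝ} (hf0 : ∀ u, 0 ≤ f u) (b c : ℝ) : 0 ≤ tr f b c :=
  integral_nonneg fun u => Real.rpow_nonneg (hf0 u) _

lemma tr_le {f : ℝ → ℝ} (hf : Continuous f) (hf0 : ∀ u, 0 ≤ f u) {b : ℝ} (hb : 0 ≤ b) (c : ℝ) :
    tr f b c ≤ ∫ u in (0:ℝ)..1, f u ^ b := by
  unfold tr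
  rw [intervalIntegral.integral_of_le zero_le_one]
  exact setIntegral_mono_set (intOn hf hb)
    (ae_of_all _ fun u => Real.rpow_nonneg (hf0 u) _) (LE.le.eventuallyLE fun u hu => hu.1)

/-- uniformity in the truncation -/
theorem unif_y {F : ℝ → ℝ → ℝ → ℝ} (hF : ∀ x T, Continuous (F x T)) (hF0 : ∀ x T u, 0 ≤ F x T u) {b₀ : ℝ}
    (hs : ∀ ε : ℝ, 0 < ε → ∃ δ : ℝ, 0 < δ ∧ ∀ x : ℝ, ∀ᶠ T : ℝ in atTop, ∀ β : ℝ, 0 < β → |β - b₀| ≤ δ →
      |(∫ u in (0:ℝ)..1, F x T u ^ β) / Real.exp (β ^ 2 / 4 * Real.log (Real.log T)) - 1| ≤ ε)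
    {ε : ℝ} (hε : 0 < ε) :
    ∃ δ : ℝ, 0 < δ ∧ ∀ x : ℝ, ∀ᶠ T : ℝ in atTop, ∀ β : ℝ, 0 < β → |β - b₀| ≤ δ → ∀ y : ℝ,
      |tr (F x T) β (Real.exp (β / 2 * Real.log (Real.log T) + y * √(Real.log (Real.log T) / 2))) /
        Real.exp (β ^ 2 / 4 * Real.log (Real.log T)) - Phi y| ≤ ε := by
  set e := ε / 3 with he
  have he0 : 0 < e := by positivity
  obtain ⟨R, hR0, hR1, hR2⟩ := Phi_tails he0
  obtain ⟨N, hN⟩ := exists_nat_gt (2 * R / e)
  have hN' : 2 * R < N * e := by rwa [div_lt_iff₀ he0] at hN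
  obtain ⟨δ₀, hδ₀, h0⟩ := hs e he0
  have hall : ∀ n : ℕ, ∃ δ : ℝ, 0 < δ ∧ ∀ x : ℝ, ∀ᶠ T : ℝ in atTop, ∀ β : ℝ, 0 < β → |β - b₀| ≤ δ → ∀ j ≤ n,
      |tr (F x T) β (Real.exp (β / 2 * Real.log (Real.log T) + (-R + j * e) * √(Real.log (Real.log T) / 2))) /
        Real.exp (β ^ 2 / 4 * Real.log (Real.log T)) - Phi (-R + j * e)| ≤ e := by
    intro n
    induction n with
    | zero =>
      obtain ⟨δ, hδ, h⟩ := unif_law hF hF0 hs (-R + (0:ℕ) * e) he0
      refine ⟨δ, hδ, fun x => ?_⟩
      filter_upwards [h x] with T hT β hβ hβ' j hj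
      rw [Nat.le_zero.mp hj]
      exact hT β hβ hβ'
    | succ n ih =>
      obtain ⟨δ, hδ, h⟩ := unif_law hF hF0 hs (-R + (n + 1 : ℕ) * e) he0
      obtain ⟨δ', hδ', h'⟩ := ih
      refine ⟨min δ δ', lt_min hδ hδ', fun x => ?_⟩
      filter_upwards [h x, h' x] with T hT hT' β hβ hβ' j hj
      rcases Nat.le_succ_iff.mp hj with hj | hj
      · exact hT' β hβ (hβ'.trans (min_le_right _ _)) j hj
      · rw [hj]; exact hT β hβ (hβ'.trans (min_le_left _ _))
  obtain ⟨δ₁, hδ₁, h1⟩ := hall N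
  have hlog : Tendsto (fun T : ℝ => Real.log (Real.log T)) atTop atTop :=
    Real.tendsto_log_atTop.comp Real.tendsto_log_atTop
  refine ⟨min δ₀ δ₁, lt_min hδ₀ hδ₁, fun x => ?_⟩
  filter_upwards [h0 x, h1 x] with T g0 g1 β hβ hββ y
  have k0 := g0 β hβ (hββ.trans (min_le_left _ _))
  have k1 := g1 β hβ (hββ.trans (min_le_right _ _))
  set E := Real.exp (β ^ 2 / 4 * Real.log (Real.log T)) with hE
  have hE0 : 0 < E := Real.exp_pos _
  set q := √(Real.log (Real.log T) / 2) with hq
  have hq0 : 0 ≤ q := Real.sqrt_nonneg _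
  set G : ℝ → ℝ := fun y => tr (F x T) β (Real.exp (β / 2 * Real.log (Real.log T) + y * q)) / E with hG
  have hGm : Monotone G := fun a b hab => div_le_div_of_nonneg_right
    (tr_mono (hF x T) (hF0 x T) hβ.le (Real.exp_le_exp.mpr (by nlinarith))) hE0.le
  have hG0 : ∀ y, 0 ≤ G y := fun y => div_nonneg (tr_nonneg (hF0 x T) _ _) hE0.le
  have hG1 : ∀ y, G y ≤ 1 + e := fun y => by
    have := (abs_le.mp k0).2
    have h2 : G y ≤ (∫ u in (0:ℝ)..1, F x T u ^ β) / E :=
      div_le_div_of_nonneg_right (tr_le (hF x T) (hF0 x T) hβ.le _) hE0.le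
    linarith
  have hgrid : ∀ j ≤ N, |G (-R + j * e) - Phi (-R + j * e)| ≤ e := k1
  show |G y - Phi y| ≤ ε
  have hε3 : ε = 3 * e := by rw [he]; ring
  rcases lt_or_ge y (-R) with hy | hy
  · have a1 := (abs_le.mp (hgrid 0 (Nat.zero_le _))).2
    simp only [Nat.cast_zero, zero_mul, add_zero] at a1
    have a2 := hGm hy.le
    have a3 := Phi_mono hy.le
    have a4 := hG0 y
    have a5 := Phi_nonneg y
    rw [abs_le]; constructor <;> linarith
  · rcases lt_or_ge y (-R + N * e) with hy2 | hy2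
    · -- the cell of `y`
      set j := ⌊(y + R) / e⌋₊ with hj
      have hpos : 0 ≤ (y + R) / e := div_nonneg (by linarith) he0.le
      have j1 : (j:ℝ) * e ≤ y + R := by
        have := Nat.floor_le hpos
        rwa [le_div_iff₀ he0] at this
      have j2 : y + R < (j + 1) * e := by
        have := Nat.lt_floor_add_one ((y + R) / e)
        rwa [div_lt_iff₀ he0] at this
      have jN : j < N := by
        have : (j:ℝ) * e < N * e := by linarith
        exact_mod_cast lt_of_mul_lt_mul_right this he0.le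
      have a1 := (abs_le.mp (hgrid j jN.le)).1
      have a2 := (abs_le.mp (hgrid (j + 1) jN)).2
      push_cast at a2
      have a3 : G (-R + j * e) ≤ G y := hGm (by linarith)
      have a4 : G y ≤ G (-R + (j + 1) * e) := hGm (by linarith)
      have a5 := Phi_lip (show -R + j * e ≤ y by linarith)
      have a6 := Phi_lip (show y ≤ -R + (j + 1) * e by linarith)
      rw [abs_le]; constructor <;> linarith
    · have a1 := (abs_le.mp (hgrid N le_rfl)).1
      have a2 := hGm hy2
      have a3 := Phi_mono hy2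
      have a4 : Phi R ≤ Phi (-R + N * e) := Phi_mono (by linarith)
      have a5 := hG1 y
      have a6 := Phi_le_one y
      rw [abs_le]; constructor <;> linarith

/-- the truncated moments of order `k > 2` -/
theorem high_ev {f : ℝ → ℝ → ℝ} (hf : ∀ T, Continuous (f T)) (hf0 : ∀ T u, 0 ≤ f T u)
    (hl : ∀ y : ℝ, Tendsto (fun T => tr (f T) 2 (Real.exp (Real.log (Real.log T) +
      y * √(Real.log (Real.log T) / 2))) / Real.exp (Real.log (Real.log T))) atTop (𝓝 (Phi y)))
    {k : ℝ} (hk : 2 < k) (y : ℝ) : ∀ ε > 0, ∀ᶠ T in atTop,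
    0 < tr (f T) k (Real.exp (Real.log (Real.log T) + y * √(Real.log (Real.log T) / 2))) ∧
    dist ((Real.log (tr (f T) k (Real.exp (Real.log (Real.log T) +
      y * √(Real.log (Real.log T) / 2)))) - (k - 1) * Real.log (Real.log T)) / √(Real.log (Real.log T) / 2))
      ((k - 2) * y) < ε := by
  have hlog : Tendsto (fun T : ℝ => Real.log (Real.log T)) atTop atTop :=
    Real.tendsto_log_atTop.comp Real.tendsto_log_atTop
  have hqT : Tendsto (fun T : ℝ => √(Real.log (Real.log T) / 2)) atTop atTop :=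
    Real.tendsto_sqrt_atTop.comp (hlog.atTop_div_const (by norm_num))
  intro ε hε
  obtain ⟨η, hη, hη1⟩ : ∃ η : ℝ, 0 < η ∧ (k - 2) * η ≤ ε / 3 :=
    ⟨ε / 3 / (k - 2), div_pos (by positivity) (by linarith), by
      rw [mul_div_cancel₀]; linarith⟩
  have hc : 0 < Phi y - Phi (y - η) := by have := Phi_lt (show y - η < y by linarith); linarith
  set c := (Phi y - Phi (y - η)) / 2 with hcdef
  have hc0 : 0 < c := by positivity
  have hd := (hl y).sub (hl (y - η))
  have hlc : Tendsto (fun T : ℝ => Real.log c / √(Real.log (Real.log T) / 2)) atTop (𝓝 0) :=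
    tendsto_const_nhds.div_atTop hqT
  have hl2 : Tendsto (fun T : ℝ => Real.log 2 / √(Real.log (Real.log T) / 2)) atTop (𝓝 0) :=
    tendsto_const_nhds.div_atTop hqT
  filter_upwards [hd.eventually (lt_mem_nhds (show c < Phi y - Phi (y - η) by rw [hcdef]; linarith)),
    (hl y).eventually (gt_mem_nhds (show Phi y < 2 by linarith [Phi_le_one y])), hqT.eventually_gt_atTop 0,
    hlc.eventually (lt_mem_nhds (show -(ε / 3) < 0 by linarith)),
    hl2.eventually (gt_mem_nhds (show (0:ℝ) < ε / 3 by positivity))] with T g1 g2 g3 g4 g5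
  set L := Real.log (Real.log T) with hL
  set q := √(L / 2) with hq
  set V := L + y * q with hV
  set V' := L + (y - η) * q with hV'
  have hE : 0 < Real.exp L := Real.exp_pos _
  rw [← sub_div, lt_div_iff₀ hE] at g1
  rw [div_lt_iff₀ hE] at g2
  have hk0 : 0 ≤ k := by linarith
  -- upper bound
  have hup : tr (f T) k (Real.exp V) ≤ Real.exp ((k - 2) * V) * tr (f T) 2 (Real.exp V) := by
    unfold tr
    rw [← integral_const_mul]
    refine setIntegral_mono_on ((intOn (hf T) hk0).mono_set fun u hu => hu.1)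
      (((intOn (hf T) (by norm_num : (0:ℝ) ≤ 2)).mono_set fun u hu => hu.1).const_mul _)
      (measurableSet_Ioc.inter (measurableSet_le (hf T).measurable measurable_const)) fun u hu => ?_
    rcases (hf0 T u).eq_or_lt with h | h
    · rw [← h, Real.zero_rpow (by linarith), Real.zero_rpow (by norm_num), mul_zero]
    · have e1 : f T u ^ k = f T u ^ (k - 2) * f T u ^ (2:ℝ) := by rw [← Real.rpow_add h]; congr 1; ring
      rw [e1]
      refine mul_le_mul_of_nonneg_right ?_ (Real.rpow_nonneg h.le _)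
      calc f T u ^ (k - 2) ≤ Real.exp V ^ (k - 2) := Real.rpow_le_rpow h.le hu.2 (by linarith)
        _ = Real.exp ((k - 2) * V) := by rw [← Real.exp_mul, mul_comm]
  -- lower bound
  have hlo : Real.exp ((k - 2) * V') * (tr (f T) 2 (Real.exp V) - tr (f T) 2 (Real.exp V')) ≤
      tr (f T) k (Real.exp V) := by
    have hVV : Real.exp V' ≤ Real.exp V := Real.exp_le_exp.mpr (by rw [hV, hV']; nlinarith)
    set S := {u : ℝ | u ∈ Ioc (0:ℝ) 1 ∧ f T u ≤ Real.exp V} with hS
    set S' := {u : ℝ | u ∈ Ioc (0:ℝ) 1 ∧ f T u ≤ Real.exp V'} with hS'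
    have mS : MeasurableSet S := measurableSet_Ioc.inter (measurableSet_le (hf T).measurable measurable_const)
    have mS' : MeasurableSet S' := measurableSet_Ioc.inter (measurableSet_le (hf T).measurable measurable_const)
    have hSS : S' ⊆ S := fun u hu => ⟨hu.1, hu.2.trans hVV⟩
    have e2 : tr (f T) 2 (Real.exp V) - tr (f T) 2 (Real.exp V') = ∫ u in S \ S', f T u ^ (2:ℝ) := by
      unfold tr
      rw [← hS, ← hS', ← setIntegral_sdiff mS'
        ((intOn (hf T) (by norm_num : (0:ℝ) ≤ 2)).mono_set fun u hu => hu.1) hSS]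
    have e3 : ∫ u in S \ S', f T u ^ k ≤ tr (f T) k (Real.exp V) := by
      unfold tr
      exact setIntegral_mono_set ((intOn (hf T) hk0).mono_set fun u hu => hu.1)
        (ae_of_all _ fun u => Real.rpow_nonneg (hf0 T u) _) (LE.le.eventuallyLE sdiff_subset)
    refine le_trans ?_ e3
    rw [e2, ← integral_const_mul]
    refine setIntegral_mono_on (((intOn (hf T) (by norm_num : (0:ℝ) ≤ 2)).mono_set fun u hu => hu.1.1).const_mul _)
      ((intOn (hf T) hk0).mono_set fun u hu => hu.1.1) (mS.diff mS') fun u hu => ?_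
    have h : Real.exp V' < f T u := by
      by_contra hcon
      exact hu.2 ⟨hu.1.1, not_lt.mp hcon⟩
    have h0 : 0 < f T u := (Real.exp_pos _).trans h
    have e1 : f T u ^ k = f T u ^ (k - 2) * f T u ^ (2:ℝ) := by rw [← Real.rpow_add h0]; congr 1; ring
    rw [e1]
    refine mul_le_mul_of_nonneg_right ?_ (Real.rpow_nonneg h0.le _)
    calc Real.exp ((k - 2) * V') = Real.exp V' ^ (k - 2) := by rw [← Real.exp_mul, mul_comm]
      _ ≤ f T u ^ (k - 2) := Real.rpow_le_rpow (Real.exp_pos _).le h.le (by linarith)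
  have hlo2 : Real.exp ((k - 2) * V') * (c * Real.exp L) ≤ tr (f T) k (Real.exp V) :=
    (mul_le_mul_of_nonneg_left g1.le (Real.exp_pos _).le).trans hlo
  have hpos : 0 < tr (f T) k (Real.exp V) := lt_of_lt_of_le (by positivity) hlo2
  have hup2 : tr (f T) k (Real.exp V) ≤ Real.exp ((k - 2) * V) * (2 * Real.exp L) :=
    hup.trans (mul_le_mul_of_nonneg_left g2.le (Real.exp_pos _).le)
  have l1 : (k - 2) * V' + (Real.log c + L) ≤ Real.log (tr (f T) k (Real.exp V)) := by
    have := Real.log_le_log (by positivity) hlo2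
    rwa [Real.log_mul (by positivity) (by positivity), Real.log_mul (by positivity) (by positivity), Real.log_exp,
      Real.log_exp] at this
  have l2 : Real.log (tr (f T) k (Real.exp V)) ≤ (k - 2) * V + (Real.log 2 + L) := by
    have := Real.log_le_log hpos hup2
    rwa [Real.log_mul (by positivity) (by positivity), Real.log_mul (by positivity) (by positivity), Real.log_exp,
      Real.log_exp] at this
  refine ⟨hpos, ?_⟩
  rw [Real.dist_eq, abs_lt]
  have hgq : -(ε / 3) * q < Real.log c := by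
    rwa [lt_div_iff₀ g3] at g4
  have hgq2 : Real.log 2 < ε / 3 * q := by
    rwa [div_lt_iff₀ g3] at g5
  constructor
  · rw [lt_sub_iff_add_lt, lt_div_iff₀ g3]
    have : (k - 2) * η * q ≤ ε / 3 * q := mul_le_mul_of_nonneg_right hη1 g3.le
    have e : (k - 2) * V' = (k - 2) * L + (k - 2) * y * q - (k - 2) * η * q := by rw [hV']; ring
    nlinarith
  · rw [sub_lt_iff_lt_add, div_lt_iff₀ g3]
    have e : (k - 2) * V = (k - 2) * L + (k - 2) * y * q := by rw [hV]; ring
    nlinarith

/-- the moment restricted to the large values -/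
def tl (f : ℝ → ℝ) (b c : ℝ) : ℝ := ∫ u in {u : ℝ | u ∈ Ioc (0:ℝ) 1 ∧ c ≤ f u}, f u ^ b

/-- the moments of order `k < 2` restricted to the large values -/
theorem low_ev {f : ℝ → ℝ → ℝ} (hf : ∀ T, Continuous (f T)) (hf0 : ∀ T u, 0 ≤ f T u)
    (hl : ∀ y : ℝ, Tendsto (fun T => tr (f T) 2 (Real.exp (Real.log (Real.log T) +
      y * √(Real.log (Real.log T) / 2))) / Real.exp (Real.log (Real.log T))) atTop (𝓝 (Phi y)))
    (hA : Tendsto (fun T => (∫ u in (0:ℝ)..1, f T u ^ (2:ℝ)) / Real.exp (Real.log (Real.log T))) atTop (𝓝 1))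
    {k : ℝ} (hk : k < 2) (y : ℝ) : ∀ ε > 0, ∀ᶠ T in atTop,
    0 < tl (f T) k (Real.exp (Real.log (Real.log T) + y * √(Real.log (Real.log T) / 2))) ∧
    dist ((Real.log (tl (f T) k (Real.exp (Real.log (Real.log T) +
      y * √(Real.log (Real.log T) / 2)))) - (k - 1) * Real.log (Real.log T)) / √(Real.log (Real.log T) / 2))
      ((k - 2) * y) < ε := by
  have hlog : Tendsto (fun T : ℝ => Real.log (Real.log T)) atTop atTop :=
    Real.tendsto_log_atTop.comp Real.tendsto_log_atTop
  have hqT : Tendsto (fun T : ℝ => √(Real.log (Real.log T) / 2)) atTop atTop :=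
    Real.tendsto_sqrt_atTop.comp (hlog.atTop_div_const (by norm_num))
  intro ε hε
  obtain ⟨η, hη, hη1⟩ : ∃ η : ℝ, 0 < η ∧ (2 - k) * η ≤ ε / 3 :=
    ⟨ε / 3 / (2 - k), div_pos (by positivity) (by linarith), by
      rw [mul_div_cancel₀]; linarith⟩
  have hc : 0 < Phi (y + η) - Phi y := by have := Phi_lt (show y < y + η by linarith); linarith
  set c := (Phi (y + η) - Phi y) / 2 with hcdef
  have hc0 : 0 < c := by positivity
  have hd := (hl (y + η)).sub (hl y)
  have hlc : Tendsto (fun T : ℝ => Real.log c / √(Real.log (Real.log T) / 2)) atTop (𝓝 0) :=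
    tendsto_const_nhds.div_atTop hqT
  have hl2 : Tendsto (fun T : ℝ => Real.log 2 / √(Real.log (Real.log T) / 2)) atTop (𝓝 0) :=
    tendsto_const_nhds.div_atTop hqT
  filter_upwards [hd.eventually (lt_mem_nhds (show c < Phi (y + η) - Phi y by rw [hcdef]; linarith)),
    hA.eventually (gt_mem_nhds (show (1:ℝ) < 2 by norm_num)), hqT.eventually_gt_atTop 0,
    hlc.eventually (lt_mem_nhds (show -(ε / 3) < 0 by linarith)),
    hl2.eventually (gt_mem_nhds (show (0:ℝ) < ε / 3 by positivity))] with T g1 g2 g3 g4 g5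
  set L := Real.log (Real.log T) with hL
  set q := √(L / 2) with hq
  set V := L + y * q with hV
  set V' := L + (y + η) * q with hV'
  have hE : 0 < Real.exp L := Real.exp_pos _
  rw [← sub_div, lt_div_iff₀ hE] at g1
  rw [div_lt_iff₀ hE] at g2
  set W := {u : ℝ | u ∈ Ioc (0:ℝ) 1 ∧ Real.exp V ≤ f T u} with hW
  have mW : MeasurableSet W := measurableSet_Ioc.inter (measurableSet_le measurable_const (hf T).measurable)
  have hi2 := intOn (hf T) (by norm_num : (0:ℝ) ≤ 2)
  -- pointwise bound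
  have hpt : ∀ u ∈ W, f T u ^ k ≤ Real.exp ((k - 2) * V) * f T u ^ (2:ℝ) := by
    intro u hu
    have h : 0 < f T u := (Real.exp_pos _).trans_le hu.2
    have e1 : f T u ^ k = f T u ^ (k - 2) * f T u ^ (2:ℝ) := by rw [← Real.rpow_add h]; congr 1; ring
    rw [e1]
    refine mul_le_mul_of_nonneg_right ?_ (Real.rpow_nonneg h.le _)
    calc f T u ^ (k - 2) ≤ Real.exp V ^ (k - 2) :=
          Real.rpow_le_rpow_of_nonpos (Real.exp_pos _) hu.2 (by linarith)
      _ = Real.exp ((k - 2) * V) := by rw [← Real.exp_mul, mul_comm]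
  have hik : IntegrableOn (fun u => f T u ^ k) W := by
    refine Integrable.mono' ((hi2.mono_set fun u hu => hu.1).const_mul (Real.exp ((k - 2) * V)))
      ((hf T).measurable.pow_const k).aestronglyMeasurable ?_
    rw [ae_restrict_iff' mW]
    refine ae_of_all _ fun u hu => ?_
    rw [Real.norm_of_nonneg (Real.rpow_nonneg (hf0 T u) _)]
    exact hpt u hu
  -- upper bound
  have hup : tl (f T) k (Real.exp V) ≤ Real.exp ((k - 2) * V) * ∫ u in (0:ℝ)..1, f T u ^ (2:ℝ) := by
    calc tl (f T) k (Real.exp V) ≤ ∫ u in W, Real.exp ((k - 2) * V) * f T u ^ (2:ℝ) :=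
          setIntegral_mono_on hik ((hi2.mono_set fun u hu => hu.1).const_mul _) mW hpt
      _ = Real.exp ((k - 2) * V) * ∫ u in W, f T u ^ (2:ℝ) := integral_const_mul _ _
      _ ≤ _ := by
          refine mul_le_mul_of_nonneg_left ?_ (Real.exp_pos _).le
          rw [intervalIntegral.integral_of_le zero_le_one]
          exact setIntegral_mono_set hi2
            (ae_of_all _ fun u => Real.rpow_nonneg (hf0 T u) _) (LE.le.eventuallyLE fun u hu => hu.1)
  -- lower bound
  have hlo : Real.exp ((k - 2) * V') * (tr (f T) 2 (Real.exp V') - tr (f T) 2 (Real.exp V)) ≤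
      tl (f T) k (Real.exp V) := by
    have hVV : Real.exp V ≤ Real.exp V' := Real.exp_le_exp.mpr (by rw [hV, hV']; nlinarith)
    set S := {u : ℝ | u ∈ Ioc (0:ℝ) 1 ∧ f T u ≤ Real.exp V'} with hS
    set S' := {u : ℝ | u ∈ Ioc (0:ℝ) 1 ∧ f T u ≤ Real.exp V} with hS'
    have mS : MeasurableSet S := measurableSet_Ioc.inter (measurableSet_le (hf T).measurable measurable_const)
    have mS' : MeasurableSet S' := measurableSet_Ioc.inter (measurableSet_le (hf T).measurable measurable_const)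
    have hSS : S' ⊆ S := fun u hu => ⟨hu.1, hu.2.trans hVV⟩
    have hSW : S \ S' ⊆ W := fun u hu => ⟨hu.1.1, by
      by_contra hcon
      exact hu.2 ⟨hu.1.1, (not_le.mp hcon).le⟩⟩
    have e2 : tr (f T) 2 (Real.exp V') - tr (f T) 2 (Real.exp V) = ∫ u in S \ S', f T u ^ (2:ℝ) := by
      unfold tr
      rw [← hS, ← hS', ← setIntegral_sdiff mS' (hi2.mono_set fun u hu => hu.1) hSS]
    have e3 : ∫ u in S \ S', f T u ^ k ≤ tl (f T) k (Real.exp V) := by
      unfold tl
      exact setIntegral_mono_set hik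
        (ae_of_all _ fun u => Real.rpow_nonneg (hf0 T u) _) (LE.le.eventuallyLE hSW)
    refine le_trans ?_ e3
    rw [e2, ← integral_const_mul]
    refine setIntegral_mono_on ((hi2.mono_set fun u hu => hu.1.1).const_mul _)
      (hik.mono_set hSW) (mS.diff mS') fun u hu => ?_
    have h0 : 0 < f T u := (Real.exp_pos _).trans_le (hSW hu).2
    have e1 : f T u ^ k = f T u ^ (k - 2) * f T u ^ (2:ℝ) := by rw [← Real.rpow_add h0]; congr 1; ring
    rw [e1]
    refine mul_le_mul_of_nonneg_right ?_ (Real.rpow_nonneg h0.le _)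
    calc Real.exp ((k - 2) * V') = Real.exp V' ^ (k - 2) := by rw [← Real.exp_mul, mul_comm]
      _ ≤ f T u ^ (k - 2) := Real.rpow_le_rpow_of_nonpos h0 hu.1.2 (by linarith)
  have hlo2 : Real.exp ((k - 2) * V') * (c * Real.exp L) ≤ tl (f T) k (Real.exp V) :=
    (mul_le_mul_of_nonneg_left g1.le (Real.exp_pos _).le).trans hlo
  have hpos : 0 < tl (f T) k (Real.exp V) := lt_of_lt_of_le (by positivity) hlo2
  have hup2 : tl (f T) k (Real.exp V) ≤ Real.exp ((k - 2) * V) * (2 * Real.exp L) :=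
    hup.trans (mul_le_mul_of_nonneg_left g2.le (Real.exp_pos _).le)
  have l1 : (k - 2) * V' + (Real.log c + L) ≤ Real.log (tl (f T) k (Real.exp V)) := by
    have := Real.log_le_log (by positivity) hlo2
    rwa [Real.log_mul (by positivity) (by positivity), Real.log_mul (by positivity) (by positivity), Real.log_exp,
      Real.log_exp] at this
  have l2 : Real.log (tl (f T) k (Real.exp V)) ≤ (k - 2) * V + (Real.log 2 + L) := by
    have := Real.log_le_log hpos hup2
    rwa [Real.log_mul (by positivity) (by positivity), Real.log_mul (by positivity) (by positivity), Real.log_exp,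
      Real.log_exp] at this
  refine ⟨hpos, ?_⟩
  rw [Real.dist_eq, abs_lt]
  have hgq : -(ε / 3) * q < Real.log c := by
    rwa [lt_div_iff₀ g3] at g4
  have hgq2 : Real.log 2 < ε / 3 * q := by
    rwa [div_lt_iff₀ g3] at g5
  constructor
  · rw [lt_sub_iff_add_lt, lt_div_iff₀ g3]
    have : (2 - k) * η * q ≤ ε / 3 * q := mul_le_mul_of_nonneg_right hη1 g3.le
    have e : (k - 2) * V' = (k - 2) * L + (k - 2) * y * q - (2 - k) * η * q := by rw [hV']; ring
    nlinarith
  · rw [sub_lt_iff_lt_add, div_lt_iff₀ g3]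
    have e : (k - 2) * V = (k - 2) * L + (k - 2) * y * q := by rw [hV]; ring
    nlinarith

section
variable {f : ℝ → ℝ → ℝ} (hf : ∀ T, Continuous (f T)) (hf0 : ∀ T u, 0 ≤ f T u)
    (hl : ∀ y : ℝ, Tendsto (fun T => tr (f T) 2 (Real.exp (Real.log (Real.log T) +
      y * √(Real.log (Real.log T) / 2))) / Real.exp (Real.log (Real.log T))) atTop (𝓝 (Phi y)))
include hf hf0 hl

theorem high {k : ℝ} (hk : 2 < k) (y : ℝ) :
    Tendsto (fun T => (Real.log (tr (f T) k (Real.exp (Real.log (Real.log T) +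
      y * √(Real.log (Real.log T) / 2)))) - (k - 1) * Real.log (Real.log T)) / √(Real.log (Real.log T) / 2))
      atTop (𝓝 ((k - 2) * y)) := by
  rw [Metric.tendsto_nhds]
  intro ε hε
  filter_upwards [high_ev hf hf0 hl hk y ε hε] with T h using h.2

theorem high_pos {k : ℝ} (hk : 2 < k) (y : ℝ) : ∀ᶠ T in atTop,
    0 < tr (f T) k (Real.exp (Real.log (Real.log T) + y * √(Real.log (Real.log T) / 2))) := by
  filter_upwards [high_ev hf hf0 hl hk y 1 one_pos] with T h using h.1

theorem low (hA : Tendsto (fun T => (∫ u in (0:ℝ)..1, f T u ^ (2:ℝ)) / Real.exp (Real.log (Real.log T))) atTop (𝓝 1))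
    {k : ℝ} (hk : k < 2) (y : ℝ) :
    Tendsto (fun T => (Real.log (tl (f T) k (Real.exp (Real.log (Real.log T) +
      y * √(Real.log (Real.log T) / 2)))) - (k - 1) * Real.log (Real.log T)) / √(Real.log (Real.log T) / 2))
      atTop (𝓝 ((k - 2) * y)) := by
  rw [Metric.tendsto_nhds]
  intro ε hε
  filter_upwards [low_ev hf hf0 hl hA hk y ε hε] with T h using h.2

theorem low_pos (hA : Tendsto (fun T => (∫ u in (0:ℝ)..1, f T u ^ (2:ℝ)) / Real.exp (Real.log (Real.log T))) atTop (𝓝 1))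
    {k : ℝ} (hk : k < 2) (y : ℝ) : ∀ᶠ T in atTop,
    0 < tl (f T) k (Real.exp (Real.log (Real.log T) + y * √(Real.log (Real.log T) / 2))) := by
  filter_upwards [low_ev hf hf0 hl hA hk y 1 one_pos] with T h using h.1

end

end

end Pool.Agent.Q273.WL
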