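import Mathlib
import Pool.Agent.Q273.TA4
import Pool.Agent.Q273.WL4

set_option autoImplicit false

/-!
From the characteristic functions to distribution functions.
-/

namespace Pool.Agent.Q273.TA

open MeasureTheory ProbabilityTheory Filter Topology
open Pool.Agent.H383.AP Pool.Agent.H383.Gauss Pool.Agent.H383.Gen Pool.Agent.H383.Circ
open Pool.Agent.H425R3.JL (Ec fav)
open Pool.Agent.Q273.WL (Phi Phi_mono Phi_lip Phi_le_one Phi_nonneg Phi_tails stdN)

/-- the ramp function, one up to `x` and zero from `x + δ` on -/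
noncomputable def ramp (x δ u : ℝ) : ℝ := max 0 (min 1 ((x + δ - u) / δ))

lemma ramp_cont (x δ : ℝ) : Continuous (ramp x δ) := by unfold ramp; fun_prop

lemma ramp_nonneg (x δ u : ℝ) : 0 ≤ ramp x δ u := le_max_left _ _

lemma ramp_le_one (x δ u : ℝ) : ramp x δ u ≤ 1 := max_le zero_le_one (min_le_left _ _)

lemma ramp_abs (x δ u : ℝ) : |ramp x δ u| ≤ 1 := by
  rw [abs_of_nonneg (ramp_nonneg _ _ _)]; exact ramp_le_one _ _ _

lemma ramp_one {x δ u : ℝ} (hδ : 0 < δ) (h : u ≤ x) : ramp x δ u = 1 := by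
  unfold ramp
  have : 1 ≤ (x + δ - u) / δ := by rw [le_div_iff₀ hδ]; linarith
  rw [min_eq_left this, max_eq_right zero_le_one]

lemma ramp_zero {x δ u : ℝ} (hδ : 0 < δ) (h : x + δ ≤ u) : ramp x δ u = 0 := by
  unfold ramp
  have h1 : (x + δ - u) / δ ≤ 0 := div_nonpos_of_nonpos_of_nonneg (by linarith) hδ.le
  rw [min_eq_right (by linarith), max_eq_left h1]

lemma ramp_lip {x δ : ℝ} (hδ : 0 < δ) (u v : ℝ) : |ramp x δ u - ramp x δ v| ≤ |u - v| / δ := by
  unfold ramp
  have h1 : |max 0 (min 1 ((x + δ - u) / δ)) - max 0 (min 1 ((x + δ - v) / δ))| ≤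
      |min 1 ((x + δ - u) / δ) - min 1 ((x + δ - v) / δ)| := by
    have := abs_max_sub_max_le_abs (min 1 ((x + δ - u) / δ)) (min 1 ((x + δ - v) / δ)) (0:ℝ)
    rw [max_comm 0, max_comm 0]; exact this
  have h2 : |min 1 ((x + δ - u) / δ) - min 1 ((x + δ - v) / δ)| ≤ |(x + δ - u) / δ - (x + δ - v) / δ| := by
    have := abs_min_sub_min_le_max (1:ℝ) ((x + δ - u) / δ) 1 ((x + δ - v) / δ)
    rw [sub_self, abs_zero] at this
    exact this.trans (le_of_eq (max_eq_right (abs_nonneg _)))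
  refine h1.trans (h2.trans (le_of_eq ?_))
  rw [← sub_div, abs_div, abs_of_pos hδ]
  congr 1
  rw [abs_sub_comm]
  congr 1; ring

lemma ramp_int_upper {x δ : ℝ} (hδ : 0 < δ) : ∫ u, ramp x δ u ∂(gaussianReal 0 1) ≤ Phi (x + δ) := by
  have h1 : ∀ u, ramp x δ u ≤ (Set.Iic (x + δ)).indicator (fun _ => (1:ℝ)) u := by
    intro u
    by_cases hu : u ≤ x + δ
    · rw [Set.indicator_of_mem (Set.mem_Iic.mpr hu)]; exact ramp_le_one _ _ _
    · push Not at hu
      rw [ramp_zero hδ hu.le]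
      exact Set.indicator_nonneg (fun _ _ => zero_le_one) _
  refine (integral_mono ?_ ?_ h1).trans (le_of_eq ?_)
  · exact Integrable.of_bound (ramp_cont x δ).aestronglyMeasurable 1 (Eventually.of_forall fun u => by
      rw [Real.norm_eq_abs]; exact ramp_abs _ _ _)
  · exact (integrable_const _).indicator measurableSet_Iic
  · rw [integral_indicator measurableSet_Iic, setIntegral_const, smul_eq_mul, mul_one]; rfl

lemma ramp_int_lower {x δ : ℝ} (hδ : 0 < δ) : Phi x ≤ ∫ u, ramp x δ u ∂(gaussianReal 0 1) := by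
  have h1 : ∀ u, (Set.Iic x).indicator (fun _ => (1:ℝ)) u ≤ ramp x δ u := by
    intro u
    by_cases hu : u ≤ x
    · rw [Set.indicator_of_mem (Set.mem_Iic.mpr hu), ramp_one hδ hu]
    · rw [Set.indicator_of_notMem (fun h => hu (Set.mem_Iic.mp h))]; exact ramp_nonneg _ _ _
  refine le_trans (le_of_eq ?_) (integral_mono ?_ ?_ h1)
  · rw [integral_indicator measurableSet_Iic, setIntegral_const, smul_eq_mul, mul_one]; rfl
  · exact (integrable_const _).indicator measurableSet_Iic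
  · exact Integrable.of_bound (ramp_cont x δ).aestronglyMeasurable 1 (Eventually.of_forall fun u => by
      rw [Real.norm_eq_abs]; exact ramp_abs _ _ _)

/-- the normalised laws converge to the normal law, uniformly in the law -/
theorem unif_test {g : ℝ → ℝ} (hg : Continuous g) (hb : ∀ u, |g u| ≤ 1) {ε : ℝ} (hε : 0 < ε) :
    ∃ ρ0 : ℝ, 0 < ρ0 ∧ ρ0 ≤ 1 ∧ ∀ ρ : ℝ, 0 < ρ → ρ ≤ ρ0 → 0 < Vm ρ ∧ ∀ μ : ProbabilityMeasure ℝ, Law (ea 1 ρ) μ →
      |∫ x, g ((x - Dm ρ) / √(Vm ρ)) ∂(μ : Measure ℝ) - ∫ x, g x ∂(gaussianReal 0 1)| ≤ ε := by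
  obtain ⟨K, ρ1, hK, hρ1, hρ11, h⟩ := char_norm
  by_contra hc
  push Not at hc
  have hsel : ∀ j : ℕ, ∃ ρ : ℝ, 0 < ρ ∧ ρ ≤ min ρ1 (1 / (j + 1)) ∧ ∃ μ : ProbabilityMeasure ℝ, Law (ea 1 ρ) μ ∧
      ε < |∫ x, g ((x - Dm ρ) / √(Vm ρ)) ∂(μ : Measure ℝ) - ∫ x, g x ∂(gaussianReal 0 1)| := by
    intro j
    have hm : 0 < min ρ1 (1 / ((j:ℝ) + 1)) := lt_min hρ1 (by positivity)
    obtain ⟨ρ, h1, h2, h3⟩ := hc (min ρ1 (1 / (j + 1))) hm ((min_le_left _ _).trans hρ11)
    have hV := (h ρ h1 (h2.trans (min_le_left _ _))).1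
    obtain ⟨μ, h4, h5⟩ := h3 hV
    exact ⟨ρ, h1, h2, μ, h4, h5⟩
  choose r hr0 hr1 μ hμ hbad using hsel
  have hmeas : ∀ j, Measurable (fun x : ℝ => (x - Dm (r j)) / √(Vm (r j))) := fun j => by fun_prop
  set P : ℕ → ProbabilityMeasure ℝ := fun j =>
    ⟨(μ j : Measure ℝ).map (fun x => (x - Dm (r j)) / √(Vm (r j))), Measure.isProbabilityMeasure_map (hmeas j).aemeasurable⟩ with hP
  have hr : Tendsto r atTop (𝓝 0) := by
    apply squeeze_zero (fun j => (hr0 j).le) (fun j => (hr1 j).trans (min_le_right _ _))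
    exact tendsto_one_div_add_atTop_nhds_zero_nat
  have hchar : ∀ t : ℝ, Tendsto (fun j => charFun (P j : Measure ℝ) t) atTop (𝓝 (charFun (stdN : Measure ℝ) t)) := by
    intro t
    have e1 : charFun (stdN : Measure ℝ) t = ((Real.exp (-(t ^ 2 / 2)) : ℝ) : ℂ) := by
      show charFun (gaussianReal 0 1) t = _
      rw [charFun_gaussianReal]
      push_cast
      congr 1
      ring
    rw [e1, tendsto_iff_norm_sub_tendsto_zero]
    have hb2 : ∀ j, ‖charFun (P j : Measure ℝ) t - ((Real.exp (-(t ^ 2 / 2)) : ℝ) : ℂ)‖ ≤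
        K * (|t| ^ 3 + t ^ 4) * (r j) ^ (2/5:ℝ) := fun j =>
      (h (r j) (hr0 j) ((hr1 j).trans (min_le_left _ _))).2 (μ j) (hμ j) t
    refine squeeze_zero (fun j => norm_nonneg _) hb2 ?_
    have h2 : Tendsto (fun j => (r j) ^ (2/5:ℝ)) atTop (𝓝 0) := by
      have := hr.rpow_const (p := (2/5:ℝ)) (Or.inr (by norm_num))
      rwa [Real.zero_rpow (by norm_num)] at this
    have h3 := h2.const_mul (K * (|t| ^ 3 + t ^ 4))
    rwa [mul_zero] at h3
  have hlim := ProbabilityMeasure.tendsto_of_tendsto_charFun hchar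
  rw [ProbabilityMeasure.tendsto_iff_forall_integral_tendsto] at hlim
  set G : BoundedContinuousFunction ℝ ℝ := BoundedContinuousFunction.ofNormedAddCommGroup g hg 1 (fun u => by
    rw [Real.norm_eq_abs]; exact hb u) with hG
  have h5 := hlim G
  rw [Metric.tendsto_atTop] at h5
  obtain ⟨N, hN⟩ := h5 ε hε
  have h6 := hN N le_rfl
  have h7 := hbad N
  have e2 : ∫ x, G x ∂(P N : Measure ℝ) = ∫ x, g ((x - Dm (r N)) / √(Vm (r N))) ∂(μ N : Measure ℝ) := by
    show ∫ x, g x ∂((μ N : Measure ℝ).map (fun x => (x - Dm (r N)) / √(Vm (r N)))) = _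
    rw [integral_map (hmeas N).aemeasurable hg.aestronglyMeasurable]
  have e3 : ∫ x, G x ∂(stdN : Measure ℝ) = ∫ x, g x ∂(gaussianReal 0 1) := rfl
  rw [e2, e3, Real.dist_eq] at h6
  linarith

/-- uniform closeness to the normal distribution function from a grid -/
lemma grid_unif {G : ℝ → ℝ} (hGm : Monotone G) (hG0 : ∀ y, 0 ≤ G y) (hG1 : ∀ y, G y ≤ 1) {e R : ℝ} (he0 : 0 < e)
    (hR1 : Phi (-R) ≤ e) (hR2 : 1 - e ≤ Phi R) {N : ℕ} (hN : 2 * R < N * e)
    (hgrid : ∀ j ≤ N, |G (-R + j * e) - Phi (-R + j * e)| ≤ e) (y : ℝ) : |G y - Phi y| ≤ 3 * e := by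
  rcases lt_or_ge y (-R) with hy | hy
  · have a1 := (abs_le.mp (hgrid 0 (Nat.zero_le _))).2
    simp only [Nat.cast_zero, zero_mul, add_zero] at a1
    have a2 := hGm hy.le
    have a3 := Phi_mono hy.le
    have a4 := hG0 y
    have a5 := Phi_nonneg y
    rw [abs_le]; constructor <;> linarith
  · rcases lt_or_ge y (-R + N * e) with hy2 | hy2
    · set j := ⌊(y + R) / e⌋₊ with hj
      have hpos : 0 ≤ (y + R) / e := div_nonneg (by linarith) he0.le
      have j1 : (j:ℝ) * e ≤ y + R := by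
        have := Nat.floor_le hpos
        rwa [le_div_iff₀ he0] at this
      have j2 : y + R < (j + 1) * e := by
        have := Nat.lt_floor_add_one ((y + R) / e)
        rwa [div_lt_iff₀ he0] at this
      have jN : j < N := by
        have : (j:ℝ) * e < N * e := by linarith
        exact_mod_cast lt_of_mul_lt_mul_right this he0.le
      have a1 := (abs_le.mp (hgrid j jN.le)).1
      have a2 := (abs_le.mp (hgrid (j + 1) jN)).2
      push_cast at a2
      have a3 : G (-R + j * e) ≤ G y := hGm (by linarith)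
      have a4 : G y ≤ G (-R + (j + 1) * e) := hGm (by linarith)
      have a5 := Phi_lip (show -R + j * e ≤ y by linarith)
      have a6 := Phi_lip (show y ≤ -R + (j + 1) * e by linarith)
      rw [abs_le]; constructor <;> linarith
    · have a1 := (abs_le.mp (hgrid N le_rfl)).1
      have a2 := hGm hy2
      have a3 := Phi_mono hy2
      have a4 : Phi R ≤ Phi (-R + N * e) := Phi_mono (by linarith)
      have a5 := hG1 y
      have a6 := Phi_le_one y
      rw [abs_le]; constructor <;> linarith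

/-- averages with small weights -/
lemma avg_small {S : ℕ → Finset ℕ} (hS : Tendsto (fun N => ((S N).card : ℝ)) atTop atTop) {w g : ℕ → ℝ}
    (hw0 : ∀ n, 0 ≤ w n) (hg0 : ∀ n, 0 ≤ g n) (hw : Tendsto w atTop (𝓝 0)) {B : ℝ}
    (hB : ∀ᶠ N in atTop, fav (S N) g ≤ B) : Tendsto (fun N => fav (S N) (fun n => w n * g n)) atTop (𝓝 0) := by
  rw [Metric.tendsto_atTop]
  intro ε hε
  have hw' := hw.eventually (gt_mem_nhds (show (0:ℝ) < ε / (2 * (|B| + 1)) by positivity))
  obtain ⟨K, hK⟩ := eventually_atTop.mp hw'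
  set W := ∑ n ∈ Finset.range K, w n * g n with hW
  have hW0 : 0 ≤ W := Finset.sum_nonneg (fun n _ => mul_nonneg (hw0 n) (hg0 n))
  obtain ⟨N1, hN1⟩ := eventually_atTop.mp (hS.eventually_gt_atTop (2 * W / ε))
  obtain ⟨N2, hN2⟩ := eventually_atTop.mp (hS.eventually_gt_atTop 0)
  obtain ⟨N3, hN3⟩ := eventually_atTop.mp hB
  refine ⟨max (max N1 N2) N3, fun N hN => ?_⟩
  have k1 := hN1 N (le_trans (le_max_left _ _) (le_trans (le_max_left _ _) hN))
  have k2 := hN2 N (le_trans (le_max_right _ _) (le_trans (le_max_left _ _) hN))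
  have k3 := hN3 N (le_trans (le_max_right _ _) hN)
  have hnn : 0 ≤ fav (S N) (fun n => w n * g n) := by
    unfold fav
    exact div_nonneg (Finset.sum_nonneg (fun n _ => mul_nonneg (hw0 n) (hg0 n))) k2.le
  rw [Real.dist_eq, sub_zero, abs_of_nonneg hnn]
  unfold fav at k3 ⊢
  rw [div_lt_iff₀ k2]
  rw [div_le_iff₀ k2] at k3
  have h1 : ∑ n ∈ S N, w n * g n ≤ W + ε / (2 * (|B| + 1)) * ∑ n ∈ S N, g n := by
    have hsplit : ∑ n ∈ S N, w n * g n = ∑ n ∈ (S N).filter (fun n => n < K), w n * g n +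
        ∑ n ∈ (S N).filter (fun n => ¬ n < K), w n * g n := (Finset.sum_filter_add_sum_filter_not _ _ _).symm
    rw [hsplit]
    have i1 : ∑ n ∈ (S N).filter (fun n => n < K), w n * g n ≤ W := by
      apply Finset.sum_le_sum_of_subset_of_nonneg
      · intro n hn
        rw [Finset.mem_filter] at hn
        exact Finset.mem_range.mpr hn.2
      · intro n _ _; exact mul_nonneg (hw0 n) (hg0 n)
    have i2 : ∑ n ∈ (S N).filter (fun n => ¬ n < K), w n * g n ≤ ε / (2 * (|B| + 1)) * ∑ n ∈ S N, g n := by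
      rw [Finset.mul_sum]
      calc ∑ n ∈ (S N).filter (fun n => ¬ n < K), w n * g n ≤
            ∑ n ∈ (S N).filter (fun n => ¬ n < K), ε / (2 * (|B| + 1)) * g n := by
            apply Finset.sum_le_sum
            intro n hn
            rw [Finset.mem_filter] at hn
            exact mul_le_mul_of_nonneg_right (hK n (by omega)).le (hg0 n)
        _ ≤ _ := Finset.sum_le_sum_of_subset_of_nonneg (Finset.filter_subset _ _) (fun n _ _ => by
            have := hg0 n; positivity)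
    linarith
  have h2 : ε / (2 * (|B| + 1)) * ∑ n ∈ S N, g n ≤ ε / 2 * ((S N).card : ℝ) := by
    have hBle : B ≤ |B| + 1 := by have := le_abs_self B; linarith
    calc ε / (2 * (|B| + 1)) * ∑ n ∈ S N, g n ≤ ε / (2 * (|B| + 1)) * (B * ((S N).card : ℝ)) := by gcongr
      _ ≤ ε / (2 * (|B| + 1)) * ((|B| + 1) * ((S N).card : ℝ)) := by gcongr
      _ = ε / 2 * ((S N).card : ℝ) := by field_simp
  have h3 : W < ε / 2 * ((S N).card : ℝ) := by
    rw [div_lt_iff₀ hε] at k1
    linarith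
  linarith

end Pool.Agent.Q273.TA
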