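import Mathlib
import Pool.Agent.Q273.TA5

set_option autoImplicit false

/-!
The number of lattice points in thin annuli with integer and with prime radii.
-/

namespace Pool.Agent.Q273.TA

open MeasureTheory ProbabilityTheory Filter Topology
open Pool.Agent.H383.AP Pool.Agent.H383.Gauss Pool.Agent.H383.Gen Pool.Agent.H383.Circ
open Pool.Agent.H425R3.JL (Ec fav Ec_eq circ_data final_gen sum_Icc_range)
open Pool.Agent.Q273.WL (Phi Phi_mono Phi_lip Phi_le_one Phi_nonneg Phi_tails stdN)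

/-- the number of lattice points in the annulus `n < |p| ≤ n + ρ` -/
noncomputable def An (ρ : ℝ) (n : ℕ) : ℝ :=
  (Nat.card {p : ℤ × ℤ // (n:ℝ) ^ 2 < (p.1:ℝ) ^ 2 + (p.2:ℝ) ^ 2 ∧ (p.1:ℝ) ^ 2 + (p.2:ℝ) ^ 2 ≤ ((n:ℝ) + ρ) ^ 2} : ℝ)

lemma An_eq {ρ : ℝ} (hρ : 0 ≤ ρ) (n : ℕ) : An ρ n = F ((n:ℝ) + ρ) - F n := by
  have hn : (0:ℝ) ≤ n := Nat.cast_nonneg n
  rw [F_eq_card (by positivity), F_eq_card hn]
  have hsub : ballS (n:ℝ) ⊆ ballS ((n:ℝ) + ρ) := by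
    intro p hp
    rw [mem_ballS hn] at hp
    rw [mem_ballS (by positivity)]
    exact hp.trans (pow_le_pow_left₀ hn (by linarith) 2)
  have h1 : An ρ n = ((ballS ((n:ℝ) + ρ) \ ballS (n:ℝ)).card : ℝ) := by
    unfold An
    congr 1
    apply Nat.subtype_card
    intro p
    rw [Finset.mem_sdiff, mem_ballS hn, mem_ballS (by positivity), not_le]
    tauto
  rw [h1, Finset.card_sdiff_of_subset hsub, Nat.cast_sub (Finset.card_le_card hsub)]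

/-- the normalised number -/
noncomputable def sn (ρ : ℝ) (n : ℕ) : ℝ := (An ρ n - Real.pi * (2 * ρ * n + ρ ^ 2)) / √(n:ℝ)

lemma F_En {R : ℝ} (hR : 0 < R) : F R = √R * En R + Real.pi * R ^ 2 := by
  unfold En
  have : √R ≠ 0 := (Real.sqrt_pos.mpr hR).ne'
  field_simp
  ring

lemma Ec_sq {R : ℝ} (hR : 0 ≤ R) : Ec (R ^ 2) = En R := by
  rw [← Ec_eq (sq_nonneg R), Real.sqrt_sq hR]

lemma sn_close {ρ : ℝ} (hρ : 0 < ρ) {n : ℕ} (hn : 1 ≤ n) :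
    |sn ρ n - (Ec (((n:ℝ) + ρ) ^ 2) - Ec ((n:ℝ) ^ 2))| ≤ ρ / n * (1 + Ec (((n:ℝ) + ρ) ^ 2) ^ 2) := by
  have hn0 : (0:ℝ) < n := by exact_mod_cast hn
  have hs : 0 < √(n:ℝ) := Real.sqrt_pos.mpr hn0
  have hnρ : (0:ℝ) < n + ρ := by positivity
  rw [Ec_sq hnρ.le, Ec_sq hn0.le]
  have e1 : sn ρ n = √((n:ℝ) + ρ) / √(n:ℝ) * En ((n:ℝ) + ρ) - En n := by
    unfold sn
    rw [An_eq hρ.le, F_En hnρ, F_En hn0]
    field_simp
    ring
  have e2 : sn ρ n - (En ((n:ℝ) + ρ) - En n) = (√((n:ℝ) + ρ) / √(n:ℝ) - 1) * En ((n:ℝ) + ρ) := by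
    rw [e1]; ring
  have h1 : 0 ≤ √((n:ℝ) + ρ) / √(n:ℝ) - 1 := by
    rw [sub_nonneg, one_le_div hs]
    exact Real.sqrt_le_sqrt (by linarith)
  have h2 : √((n:ℝ) + ρ) / √(n:ℝ) - 1 ≤ ρ / n := by
    rw [sub_le_iff_le_add, div_le_iff₀ hs]
    apply Real.sqrt_le_iff.mpr
    refine ⟨by positivity, ?_⟩
    rw [mul_pow, Real.sq_sqrt hn0.le]
    have : (ρ / n + 1) ^ 2 * (n:ℝ) = (n + ρ) + (ρ + ρ ^ 2 / n) := by field_simp; ring
    rw [this]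
    have : 0 ≤ ρ + ρ ^ 2 / n := by positivity
    linarith
  have h3 : |En ((n:ℝ) + ρ)| ≤ 1 + En ((n:ℝ) + ρ) ^ 2 := by
    rw [← sq_abs]; nlinarith [sq_nonneg (|En ((n:ℝ) + ρ)| - 1), abs_nonneg (En ((n:ℝ) + ρ))]
  rw [e2, abs_mul, abs_of_nonneg h1]
  exact mul_le_mul h2 h3 (abs_nonneg _) (by positivity)

/-- what is needed about a system of averages -/
def Sys (S : ℕ → Finset ℕ) : Prop := Tendsto (fun N => ((S N).card : ℝ)) atTop atTop ∧ (∀ N, ∀ n ∈ S N, 1 ≤ n) ∧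
  ∀ ρ : ℝ, 0 < ρ → ∃ ν : ProbabilityMeasure ℝ, Law (ea 1 ρ) ν ∧
    (∀ f : ℝ → ℝ, Continuous f → (∃ B, ∀ x, |f x| ≤ B) →
      Tendsto (fun N => fav (S N) (fun n => f (Ec (((n:ℝ) + ρ) ^ 2) - Ec ((n:ℝ) ^ 2)))) atTop (𝓝 (∫ x, f x ∂(ν : Measure ℝ)))) ∧
    ∃ B : ℝ, ∀ᶠ N in atTop, fav (S N) (fun n => 1 + Ec (((n:ℝ) + ρ) ^ 2) ^ 2) ≤ B

lemma fav_congr {S : Finset ℕ} {g h : ℕ → ℝ} (H : ∀ n ∈ S, g n = h n) : fav S g = fav S h := by
  unfold fav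
  rw [Finset.sum_congr rfl H]

lemma fav_le {S : Finset ℕ} {g h : ℕ → ℝ} (H : ∀ n ∈ S, g n ≤ h n) : fav S g ≤ fav S h := by
  unfold fav
  exact div_le_div_of_nonneg_right (Finset.sum_le_sum H) (Nat.cast_nonneg _)

/-- averages of Lipschitz functions of the normalised numbers -/
lemma sn_test {S : ℕ → Finset ℕ} (hS : Sys S) {ρ : ℝ} (hρ : 0 < ρ) {ν : ProbabilityMeasure ℝ}
    (h1 : ∀ f : ℝ → ℝ, Continuous f → (∃ B, ∀ x, |f x| ≤ B) →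
      Tendsto (fun N => fav (S N) (fun n => f (Ec (((n:ℝ) + ρ) ^ 2) - Ec ((n:ℝ) ^ 2)))) atTop (𝓝 (∫ x, f x ∂(ν : Measure ℝ))))
    (h2 : ∃ B : ℝ, ∀ᶠ N in atTop, fav (S N) (fun n => 1 + Ec (((n:ℝ) + ρ) ^ 2) ^ 2) ≤ B)
    {f : ℝ → ℝ} (hf : Continuous f) (hb : ∃ B, ∀ x, |f x| ≤ B) {L : ℝ} (hL : 0 ≤ L) (hlip : ∀ u v, |f u - f v| ≤ L * |u - v|) :
    Tendsto (fun N => fav (S N) (fun n => f (sn ρ n))) atTop (𝓝 (∫ x, f x ∂(ν : Measure ℝ))) := by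
  obtain ⟨hS1, hS2, -⟩ := hS
  obtain ⟨B, hB⟩ := h2
  have hw : Tendsto (fun n : ℕ => ρ / (n:ℝ)) atTop (𝓝 0) := tendsto_const_div_atTop_nhds_zero_nat ρ
  have h3 := avg_small hS1 (w := fun n : ℕ => ρ / (n:ℝ)) (g := fun n : ℕ => 1 + Ec (((n:ℝ) + ρ) ^ 2) ^ 2)
    (fun n => by positivity) (fun n => by positivity) hw hB
  have h4 := (h3.const_mul L)
  rw [mul_zero] at h4
  have h5 := h1 f hf hb
  have h6 : Tendsto (fun N => fav (S N) (fun n => f (sn ρ n)) -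
      fav (S N) (fun n => f (Ec (((n:ℝ) + ρ) ^ 2) - Ec ((n:ℝ) ^ 2)))) atTop (𝓝 0) := by
    apply squeeze_zero_norm (fun N => ?_) h4
    rw [← Pool.Agent.H425R3.JL.fav_sub, Real.norm_eq_abs]
    refine (Pool.Agent.H425R3.JL.abs_fav_le _ _).trans ?_
    rw [← Pool.Agent.H425R3.JL.fav_mul]
    apply fav_le
    intro n hn
    refine (hlip _ _).trans ?_
    exact mul_le_mul_of_nonneg_left (sn_close hρ (hS2 N n hn)) hL
  have h7 := h6.add h5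
  rw [zero_add] at h7
  exact h7.congr (fun N => by ring)

lemma exists_min (r : ℕ → ℝ) (hr : ∀ j, 0 < r j) (K : ℕ) : ∃ m : ℝ, 0 < m ∧ ∀ j ≤ K, m ≤ r j := by
  induction K with
  | zero => exact ⟨r 0, hr 0, fun j hj => by rw [Nat.le_zero.mp hj]⟩
  | succ K ih =>
    obtain ⟨m, hm, h⟩ := ih
    refine ⟨min m (r (K+1)), lt_min hm (hr _), fun j hj => ?_⟩
    rcases Nat.le_succ_iff.mp hj with h1 | h1
    · exact (min_le_left _ _).trans (h j h1)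
    · rw [h1]; exact min_le_right _ _

open Classical in
/-- the event -/
noncomputable def ev (S : Finset ℕ) (ρ x : ℝ) : Finset ℕ := S.filter (fun n : ℕ =>
  An ρ n ≤ Real.pi * (2 * ρ * n + ρ ^ 2) + √(n:ℝ) * (Dm ρ + x * √(Vm ρ)))

lemma ev_iff {ρ x : ℝ} {n : ℕ} (hn : 1 ≤ n) (hV : 0 < Vm ρ) :
    An ρ n ≤ Real.pi * (2 * ρ * n + ρ ^ 2) + √(n:ℝ) * (Dm ρ + x * √(Vm ρ)) ↔ (sn ρ n - Dm ρ) / √(Vm ρ) ≤ x := by
  have hn0 : (0:ℝ) < n := by exact_mod_cast hn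
  have hs : 0 < √(n:ℝ) := Real.sqrt_pos.mpr hn0
  have hv : 0 < √(Vm ρ) := Real.sqrt_pos.mpr hV
  unfold sn
  rw [div_le_iff₀ hv, sub_le_iff_le_add, div_le_iff₀ hs]
  constructor <;> intro h <;> nlinarith

lemma ev_fav {S : Finset ℕ} (hS : ∀ n ∈ S, 1 ≤ n) {ρ x δ : ℝ} (hδ : 0 < δ) (hV : 0 < Vm ρ) :
    ((ev S ρ x).card : ℝ) / S.card ≤ fav S (fun n => ramp x δ ((sn ρ n - Dm ρ) / √(Vm ρ))) ∧
    fav S (fun n => ramp (x - δ) δ ((sn ρ n - Dm ρ) / √(Vm ρ))) ≤ ((ev S ρ x).card : ℝ) / S.card := by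
  classical
  have e : ((ev S ρ x).card : ℝ) = ∑ n ∈ S, if An ρ n ≤ Real.pi * (2 * ρ * n + ρ ^ 2) + √(n:ℝ) * (Dm ρ + x * √(Vm ρ)) then (1:ℝ) else 0 := by
    unfold ev
    rw [Finset.card_filter]
    push_cast
    rfl
  rw [e]
  unfold fav
  constructor
  · apply div_le_div_of_nonneg_right _ (Nat.cast_nonneg _)
    apply Finset.sum_le_sum
    intro n hn
    split_ifs with h
    · rw [ev_iff (hS n hn) hV] at h
      rw [ramp_one hδ h]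
    · exact ramp_nonneg _ _ _
  · apply div_le_div_of_nonneg_right _ (Nat.cast_nonneg _)
    apply Finset.sum_le_sum
    intro n hn
    split_ifs with h
    · exact ramp_le_one _ _ _
    · rw [ev_iff (hS n hn) hV] at h
      push Not at h
      rw [ramp_zero hδ (by linarith)]

lemma ev_mono (S : Finset ℕ) {ρ x y : ℝ} (h : x ≤ y) : ev S ρ x ⊆ ev S ρ y := by
  unfold ev
  intro n hn
  rw [Finset.mem_filter] at hn ⊢
  refine ⟨hn.1, hn.2.trans ?_⟩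
  have h1 : 0 ≤ √(Vm ρ) := Real.sqrt_nonneg _
  have h2 : 0 ≤ √(n:ℝ) := Real.sqrt_nonneg _
  have h3 : x * √(Vm ρ) ≤ y * √(Vm ρ) := mul_le_mul_of_nonneg_right h h1
  have h4 : √(n:ℝ) * (Dm ρ + x * √(Vm ρ)) ≤ √(n:ℝ) * (Dm ρ + y * √(Vm ρ)) := mul_le_mul_of_nonneg_left (by linarith) h2
  linarith

/-- **the distribution functions**, for a system of averages -/
theorem cdf_lim {S : ℕ → Finset ℕ} (hS : Sys S) {ε : ℝ} (hε : 0 < ε) :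
    ∃ ρ0 : ℝ, 0 < ρ0 ∧ ∀ ρ : ℝ, 0 < ρ → ρ ≤ ρ0 → ∃ N0 : ℕ, ∀ N : ℕ, N0 ≤ N → ∀ x : ℝ,
      |((ev (S N) ρ x).card : ℝ) / (S N).card - Phi x| ≤ ε := by
  set e := ε / 3 with he
  have he0 : 0 < e := by positivity
  obtain ⟨R, hR0, hR1, hR2⟩ := Phi_tails he0
  obtain ⟨K, hK⟩ := exists_nat_gt (2 * R / e)
  have hK' : 2 * R < K * e := by rwa [div_lt_iff₀ he0] at hK
  set δ := e / 2 with hδ
  have hδ0 : 0 < δ := by positivity
  set xj : ℕ → ℝ := fun j => -R + j * e with hxj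
  -- uniform closeness of the test functions
  have h1 : ∀ j : ℕ, ∃ ρ0 : ℝ, 0 < ρ0 ∧ ρ0 ≤ 1 ∧ ∀ ρ : ℝ, 0 < ρ → ρ ≤ ρ0 → 0 < Vm ρ ∧ ∀ μ : ProbabilityMeasure ℝ, Law (ea 1 ρ) μ →
      |∫ x, ramp (xj j) δ ((x - Dm ρ) / √(Vm ρ)) ∂(μ : Measure ℝ) - ∫ x, ramp (xj j) δ x ∂(gaussianReal 0 1)| ≤ e / 4 :=
    fun j => unif_test (ramp_cont _ _) (ramp_abs _ _) (by positivity)
  have h2 : ∀ j : ℕ, ∃ ρ0 : ℝ, 0 < ρ0 ∧ ρ0 ≤ 1 ∧ ∀ ρ : ℝ, 0 < ρ → ρ ≤ ρ0 → 0 < Vm ρ ∧ ∀ μ : ProbabilityMeasure ℝ, Law (ea 1 ρ) μ →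
      |∫ x, ramp (xj j - δ) δ ((x - Dm ρ) / √(Vm ρ)) ∂(μ : Measure ℝ) - ∫ x, ramp (xj j - δ) δ x ∂(gaussianReal 0 1)| ≤ e / 4 :=
    fun j => unif_test (ramp_cont _ _) (ramp_abs _ _) (by positivity)
  choose r1 r1p r1o hr1 using h1
  choose r2 r2p r2o hr2 using h2
  obtain ⟨m1, hm1, hm1'⟩ := exists_min r1 r1p K
  obtain ⟨m2, hm2, hm2'⟩ := exists_min r2 r2p K
  refine ⟨min m1 m2, lt_min hm1 hm2, ?_⟩
  intro ρ hρ hρ0
  have hρ1 : ρ ≤ m1 := hρ0.trans (min_le_left _ _)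
  have hρ2 : ρ ≤ m2 := hρ0.trans (min_le_right _ _)
  have hV : 0 < Vm ρ := (hr1 0 ρ hρ (hρ1.trans (hm1' 0 (Nat.zero_le _)))).1
  have hv : 0 < √(Vm ρ) := Real.sqrt_pos.mpr hV
  obtain ⟨hS1, hS2, hS3⟩ := id hS
  obtain ⟨ν, hν1, hν2, hν3⟩ := hS3 ρ hρ
  -- the averages converge
  have hconv : ∀ y : ℝ, Tendsto (fun N => fav (S N) (fun n => ramp y δ ((sn ρ n - Dm ρ) / √(Vm ρ)))) atTop
      (𝓝 (∫ x, ramp y δ ((x - Dm ρ) / √(Vm ρ)) ∂(ν : Measure ℝ))) := by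
    intro y
    have hc : Continuous (fun x : ℝ => ramp y δ ((x - Dm ρ) / √(Vm ρ))) :=
      (ramp_cont y δ).comp (by fun_prop)
    refine sn_test hS hρ hν2 hν3 (f := fun x => ramp y δ ((x - Dm ρ) / √(Vm ρ))) hc ⟨1, fun x => ramp_abs _ _ _⟩
      (L := 1 / (√(Vm ρ) * δ)) (by positivity) ?_
    intro u v
    refine (ramp_lip hδ0 _ _).trans (le_of_eq ?_)
    rw [← sub_div, abs_div, abs_of_pos hv]
    have : (u - Dm ρ) - (v - Dm ρ) = u - v := by ring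
    rw [this]
    field_simp
  have hev : ∀ y : ℝ, ∃ N0 : ℕ, ∀ N : ℕ, N0 ≤ N → |fav (S N) (fun n => ramp y δ ((sn ρ n - Dm ρ) / √(Vm ρ))) -
      ∫ x, ramp y δ ((x - Dm ρ) / √(Vm ρ)) ∂(ν : Measure ℝ)| ≤ e / 4 := by
    intro y
    have := hconv y
    rw [Metric.tendsto_atTop] at this
    obtain ⟨N0, hN0⟩ := this (e / 4) (by positivity)
    exact ⟨N0, fun N hN => (hN0 N hN).le⟩
  choose nn hnn using hev
  set N1 := (Finset.range (K+1)).sup (fun j => nn (xj j)) with hN1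
  set N2 := (Finset.range (K+1)).sup (fun j => nn (xj j - δ)) with hN2
  obtain ⟨N3, hN3⟩ := eventually_atTop.mp (hS1.eventually_gt_atTop 0)
  refine ⟨max (max N1 N2) N3, fun N hN x => ?_⟩
  have hNN1 : N1 ≤ N := le_trans (le_max_left _ _) (le_trans (le_max_left _ _) hN)
  have hNN2 : N2 ≤ N := le_trans (le_max_right _ _) (le_trans (le_max_left _ _) hN)
  have hcard : 0 < ((S N).card : ℝ) := hN3 N (le_trans (le_max_right _ _) hN)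
  set G : ℝ → ℝ := fun y => ((ev (S N) ρ y).card : ℝ) / (S N).card with hG
  have hGm : Monotone G := by
    intro a b hab
    apply div_le_div_of_nonneg_right _ hcard.le
    exact_mod_cast Finset.card_le_card (ev_mono _ hab)
  have hG0 : ∀ y, 0 ≤ G y := fun y => by positivity
  have hG1 : ∀ y, G y ≤ 1 := by
    intro y
    rw [hG]
    simp only
    rw [div_le_one hcard]
    exact_mod_cast Finset.card_le_card (Finset.filter_subset _ _)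
  have hgrid : ∀ j ≤ K, |G (-R + j * e) - Phi (-R + j * e)| ≤ e := by
    intro j hj
    have hjr : j ∈ Finset.range (K+1) := Finset.mem_range.mpr (by omega)
    have n1 : nn (xj j) ≤ N := (Finset.le_sup (f := fun j => nn (xj j)) hjr).trans hNN1
    have n2 : nn (xj j - δ) ≤ N := (Finset.le_sup (f := fun j => nn (xj j - δ)) hjr).trans hNN2
    have a1 := hnn (xj j) N n1
    have a2 := hnn (xj j - δ) N n2
    have b1 := (hr1 j ρ hρ (hρ1.trans (hm1' j hj))).2 ν hν1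
    have b2 := (hr2 j ρ hρ (hρ2.trans (hm2' j hj))).2 ν hν1
    have c1 := (ev_fav (hS2 N) (x := xj j) hδ0 hV).1
    have c2 := (ev_fav (hS2 N) (x := xj j) hδ0 hV).2
    have d1 := ramp_int_upper (x := xj j) hδ0
    have d2 := ramp_int_lower (x := xj j - δ) hδ0
    have l1 := Phi_lip (show xj j ≤ xj j + δ by linarith)
    have l2 := Phi_lip (show xj j - δ ≤ xj j by linarith)
    rw [abs_le] at a1 a2 b1 b2
    show |((ev (S N) ρ (xj j)).card : ℝ) / (S N).card - Phi (xj j)| ≤ e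
    rw [abs_le]
    constructor <;> linarith [a1.1, a1.2, a2.1, a2.2, b1.1, b1.2, b2.1, b2.2]
  have := grid_unif hGm hG0 hG1 he0 hR1 hR2 hK' hgrid x
  have e3 : ε = 3 * e := by rw [he]; ring
  rw [e3]
  exact this

end Pool.Agent.Q273.TA
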