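import Mathlib
import Pool.Agent.Q273.TA6

set_option autoImplicit false

/-!
The systems of averages over the integers and over the primes; annuli of width tending to zero.
-/

namespace Pool.Agent.Q273.TA

open MeasureTheory ProbabilityTheory Filter Topology
open Pool.Agent.H383.AP Pool.Agent.H383.Gauss Pool.Agent.H383.Gen Pool.Agent.H383.Circ
open Pool.Agent.H425R3.JL (Ec fav Ec_eq circ_data final_gen sum_Icc_range)
open Pool.Agent.Q273.WL (Phi Phi_mono Phi_lip Phi_le_one Phi_nonneg Phi_tails stdN)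

/-- the integers up to `N` -/
def SI (N : ℕ) : Finset ℕ := Finset.Icc 1 N

/-- the primes up to `N` -/
def SP (N : ℕ) : Finset ℕ := (Finset.Icc 1 N).filter Nat.Prime

lemma SI_card (N : ℕ) : (SI N).card = N := by unfold SI; simp

lemma SI_tend : Tendsto (fun N => ((SI N).card : ℝ)) atTop atTop := by
  simp only [SI_card]; exact tendsto_natCast_atTop_atTop

lemma SP_tend : Tendsto (fun N => ((SP N).card : ℝ)) atTop atTop := by
  have h : ∀ N, (SP N).card = Nat.primeCounting N := fun N => Pool.Agent.H425R3.JL.PR_card N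
  simp only [h]
  exact tendsto_natCast_atTop_atTop.comp Nat.tendsto_primeCounting

lemma base {ρ : ℝ} (hρ : 0 < ρ) : ∃ ν : ProbabilityMeasure ℝ, Law (ea 1 ρ) ν ∧
    (∀ f : ℝ → ℝ, Continuous f → (∃ B, ∀ x, |f x| ≤ B) →
      Tendsto (fun N => fav (SI N) (fun n => f (Ec (((n:ℝ) + ρ) ^ 2) - Ec ((n:ℝ) ^ 2)))) atTop (𝓝 (∫ x, f x ∂(ν : Measure ℝ))) ∧
      Tendsto (fun N => fav (SP N) (fun n => f (Ec (((n:ℝ) + ρ) ^ 2) - Ec ((n:ℝ) ^ 2)))) atTop (𝓝 (∫ x, f x ∂(ν : Measure ℝ)))) ∧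
    (∃ B : ℝ, ∀ᶠ N in atTop, fav (SI N) (fun n => 1 + Ec (((n:ℝ) + ρ) ^ 2) ^ 2) ≤ B) ∧
    (∃ B : ℝ, ∀ᶠ N in atTop, fav (SP N) (fun n => 1 + Ec (((n:ℝ) + ρ) ^ 2) ^ 2) ≤ B) := by
  obtain ⟨μ, -, -, hμ, -⟩ := final_gen circ_data (k := 2) ![1, 1] ![0, 2 * ρ] ![0, ρ ^ 2]
    (fun i => by fin_cases i <;> simp)
    (fun i n hn => by
      have hn0 : (0:ℝ) < n := by exact_mod_cast hn
      fin_cases i
      · simp; positivity
      · simp; positivity)
  have e0 : ∀ n : ℕ, Ec (((![1, 1] : Fin 2 → ℕ) 0 : ℝ) * (n:ℝ) ^ 2 + (![0, 2 * ρ] : Fin 2 → ℝ) 0 * n +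
      (![0, ρ ^ 2] : Fin 2 → ℝ) 0) = Ec ((n:ℝ) ^ 2) := by
    intro n; congr 1; simp
  have e1 : ∀ n : ℕ, Ec (((![1, 1] : Fin 2 → ℕ) 1 : ℝ) * (n:ℝ) ^ 2 + (![0, 2 * ρ] : Fin 2 → ℝ) 1 * n +
      (![0, ρ ^ 2] : Fin 2 → ℝ) 1) = Ec (((n:ℝ) + ρ) ^ 2) := by
    intro n; congr 1; simp; ring
  have hq : Measurable (fun x : Fin 2 → ℝ => x 1 - x 0) := by fun_prop
  have hqc : Continuous (fun x : Fin 2 → ℝ => x 1 - x 0) := by fun_prop
  -- integer and prime averages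
  have hI : ∀ g : ℕ → ℝ, (fun N : ℕ => (∑ n ∈ Finset.Icc 1 N, g n) / (N:ℝ)) = fun N => fav (SI N) g := by
    intro g; funext N; unfold fav; rw [SI_card]; rfl
  refine ⟨⟨(μ : Measure (Fin 2 → ℝ)).map (fun x => x 1 - x 0), Measure.isProbabilityMeasure_map hq.aemeasurable⟩, ?_, ?_, ?_, ?_⟩
  · intro f hf hb
    obtain ⟨B, hB⟩ := hb
    have hB0 : 0 ≤ B := (abs_nonneg _).trans (hB 0)
    have h1 := (hμ (fun x => f (x 1 - x 0)) (hf.comp hqc) ⟨B, fun x => (hB _).trans (by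
      have : 0 ≤ ∑ i, x i ^ 2 := Finset.sum_nonneg (fun i _ => sq_nonneg _)
      nlinarith)⟩).1
    simp only [e0, e1] at h1
    have e2 : ∫ x, f x ∂((μ : Measure (Fin 2 → ℝ)).map (fun x => x 1 - x 0)) = ∫ x, f (x 1 - x 0) ∂(μ : Measure (Fin 2 → ℝ)) :=
      integral_map hq.aemeasurable hf.aestronglyMeasurable
    show Tendsto (rm (fun n => f (ea 1 ρ n))) atTop (𝓝 (∫ x, f x ∂((μ : Measure (Fin 2 → ℝ)).map (fun x => x 1 - x 0))))
    rw [e2]
    refine h1.congr (fun N => ?_)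
    rw [sum_Icc_range]
    unfold rm
    congr 1
    apply Finset.sum_congr rfl
    intro n _
    unfold ea
    have a1 : ((n + 1 : ℕ) : ℝ) + ρ = (n:ℝ) + (1 + ρ) := by push_cast; ring
    have a2 : ((n + 1 : ℕ) : ℝ) = (n:ℝ) + 1 := by push_cast; ring
    rw [a1, a2]
  · intro f hf hb
    obtain ⟨B, hB⟩ := hb
    have hB0 : 0 ≤ B := (abs_nonneg _).trans (hB 0)
    have h1 := hμ (fun x => f (x 1 - x 0)) (hf.comp hqc) ⟨B, fun x => (hB _).trans (by
      have : 0 ≤ ∑ i, x i ^ 2 := Finset.sum_nonneg (fun i _ => sq_nonneg _)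
      nlinarith)⟩
    simp only [e0, e1] at h1
    have e2 : ∫ x, f x ∂((μ : Measure (Fin 2 → ℝ)).map (fun x => x 1 - x 0)) = ∫ x, f (x 1 - x 0) ∂(μ : Measure (Fin 2 → ℝ)) :=
      integral_map hq.aemeasurable hf.aestronglyMeasurable
    have h2 := h1.1
    rw [hI] at h2
    constructor
    · show Tendsto _ _ (𝓝 (∫ x, f x ∂((μ : Measure (Fin 2 → ℝ)).map (fun x => x 1 - x 0))))
      rw [e2]; exact h2
    · show Tendsto _ _ (𝓝 (∫ x, f x ∂((μ : Measure (Fin 2 → ℝ)).map (fun x => x 1 - x 0))))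
      rw [e2]; exact h1.2
  · have h1 := (hμ (fun x => 1 + x 1 ^ 2) (by fun_prop) ⟨1, fun x => by
      rw [abs_of_nonneg (by positivity), one_mul, Fin.sum_univ_two]
      nlinarith [sq_nonneg (x 0)]⟩).1
    simp only [e1] at h1
    rw [hI] at h1
    exact ⟨_, (h1.eventually (gt_mem_nhds (lt_add_one _))).mono (fun N hN => hN.le)⟩
  · have h1 := (hμ (fun x => 1 + x 1 ^ 2) (by fun_prop) ⟨1, fun x => by
      rw [abs_of_nonneg (by positivity), one_mul, Fin.sum_univ_two]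
      nlinarith [sq_nonneg (x 0)]⟩).2
    simp only [e1] at h1
    exact ⟨_, (h1.eventually (gt_mem_nhds (lt_add_one _))).mono (fun N hN => hN.le)⟩

theorem sys_I : Sys SI := by
  refine ⟨SI_tend, fun N n hn => (Finset.mem_Icc.mp hn).1, fun ρ hρ => ?_⟩
  obtain ⟨ν, h1, h2, h3, -⟩ := base hρ
  exact ⟨ν, h1, fun f hf hb => (h2 f hf hb).1, h3⟩

theorem sys_P : Sys SP := by
  refine ⟨SP_tend, fun N n hn => (Finset.mem_Icc.mp (Finset.mem_filter.mp hn).1).1, fun ρ hρ => ?_⟩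
  obtain ⟨ν, h1, h2, -, h4⟩ := base hρ
  exact ⟨ν, h1, fun f hf hb => (h2 f hf hb).2, h4⟩

/-- **annuli whose width tends to zero** -/
theorem shrink {S : ℕ → Finset ℕ} (hS : Sys S) : ∃ h : ℕ → ℕ, Tendsto h atTop atTop ∧
    ∀ k : ℕ → ℕ, Tendsto k atTop atTop → (∀ N, k N ≤ h N) → ∀ x : ℝ,
      Tendsto (fun N => ((ev (S N) (1 / (k N : ℝ)) x).card : ℝ) / (S N).card) atTop (𝓝 (Phi x)) := by
  have h0 : ∀ j : ℕ, ∃ ρ0 : ℝ, 0 < ρ0 ∧ ∀ ρ : ℝ, 0 < ρ → ρ ≤ ρ0 → ∃ N0 : ℕ, ∀ N : ℕ, N0 ≤ N → ∀ x : ℝ,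
      |((ev (S N) ρ x).card : ℝ) / (S N).card - Phi x| ≤ 1 / ((j:ℝ) + 1) := fun j => cdf_lim hS (by positivity)
  choose r hr hN using h0
  have h1 : ∀ j k : ℕ, ∃ N0 : ℕ, (0 < k → 1 / (k:ℝ) ≤ r j → ∀ N : ℕ, N0 ≤ N → ∀ x : ℝ,
      |((ev (S N) (1 / (k:ℝ)) x).card : ℝ) / (S N).card - Phi x| ≤ 1 / ((j:ℝ) + 1)) := by
    intro j k
    by_cases hk : 0 < k ∧ 1 / (k:ℝ) ≤ r j
    · have hk0 : (0:ℝ) < k := by exact_mod_cast hk.1
      obtain ⟨N0, h⟩ := hN j (1 / k) (by positivity) hk.2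
      exact ⟨N0, fun _ _ => h⟩
    · exact ⟨0, fun a b => absurd ⟨a, b⟩ hk⟩
  choose n0 hn0 using h1
  classical
  set P : ℕ → ℕ → Prop := fun N K => ∀ j ≤ K, ∀ k ≤ K, k ≠ 0 → n0 j k ≤ N with hP
  refine ⟨fun N => Nat.findGreatest (P N) N, ?_, ?_⟩
  · rw [tendsto_atTop]
    intro K
    set M := (Finset.range (K+1)).sup (fun j => (Finset.range (K+1)).sup (fun k => n0 j k)) with hM
    filter_upwards [eventually_ge_atTop (max K M)] with N hNN
    apply Nat.le_findGreatest ((le_max_left _ _).trans hNN)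
    intro j hj k hk _
    have a1 : n0 j k ≤ (Finset.range (K+1)).sup (fun k => n0 j k) :=
      Finset.le_sup (f := fun k => n0 j k) (Finset.mem_range.mpr (by omega))
    have a2 : (Finset.range (K+1)).sup (fun k => n0 j k) ≤ M :=
      Finset.le_sup (f := fun j => (Finset.range (K+1)).sup (fun k => n0 j k)) (Finset.mem_range.mpr (by omega))
    exact a1.trans (a2.trans ((le_max_right _ _).trans hNN))
  · intro k hk hkh x
    have hP0 : ∀ N, P N 0 := by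
      intro N j _ i hi hi0
      omega
    have hspec : ∀ N, P N (Nat.findGreatest (P N) N) := fun N =>
      Nat.findGreatest_spec (P := P N) (Nat.zero_le N) (hP0 N)
    rw [Metric.tendsto_atTop]
    intro ε hε
    obtain ⟨j, hj⟩ := exists_nat_gt (1 / ε)
    have hjε : 1 / ((j:ℝ) + 1) < ε := by
      rw [div_lt_iff₀ (by positivity)]
      rw [div_lt_iff₀ hε] at hj
      nlinarith
    obtain ⟨K, hK⟩ := exists_nat_gt (1 / r j)
    obtain ⟨N1, hN1⟩ := eventually_atTop.mp (hk.eventually_ge_atTop (max (max j K) 1))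
    refine ⟨N1, fun N hNN => ?_⟩
    have h2 := hN1 N hNN
    have hj2 : j ≤ k N := (le_max_left j K).trans ((le_max_left _ _).trans h2)
    have hK2 : K ≤ k N := (le_max_right j K).trans ((le_max_left _ _).trans h2)
    have h12 : 1 ≤ k N := (le_max_right _ _).trans h2
    have hk0 : (0:ℝ) < k N := by exact_mod_cast h12
    have h3 : 1 / ((k N : ℕ):ℝ) ≤ r j := by
      rw [div_le_iff₀ hk0]
      rw [div_lt_iff₀ (hr j)] at hK
      have : (K:ℝ) ≤ k N := by exact_mod_cast hK2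
      have := hr j
      nlinarith
    have h4 : n0 j (k N) ≤ N := hspec N j (hj2.trans (hkh N)) (k N) (hkh N) (by omega)
    rw [Real.dist_eq]
    exact lt_of_le_of_lt (hn0 j (k N) (by omega) h3 N h4 x) hjε

end Pool.Agent.Q273.TA
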