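import Mathlib

set_option autoImplicit false

/-!
A Fourier expansion.
-/

namespace Pool.Agent.Q273.TB

open MeasureTheory Filter Topology Set

/-- the function with the Fourier expansion -/
noncomputable def gg (s v : ℝ) : ℝ := Real.exp (-(s * v)) + v * (1 - Real.exp (-s))

lemma gg_cont (s : ℝ) : Continuous (gg s) := by unfold gg; fun_prop

lemma gg_zero (s : ℝ) : gg s 0 = 1 := by simp [gg]

lemma gg_one (s : ℝ) : gg s 1 = 1 := by simp [gg]

lemma exp_int (n : ℤ) : Complex.exp (-(2 * Real.pi * Complex.I * n)) = 1 := by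
  rw [Complex.exp_neg, show (2 * Real.pi * Complex.I * n : ℂ) = n * (2 * Real.pi * Complex.I) by ring,
    Complex.exp_int_mul_two_pi_mul_I, inv_one]

lemma gg_coeff {s : ℝ} (hs : 0 < s) {n : ℤ} (hn : n ≠ 0) :
    ∫ x in (0:ℝ)..1, Complex.exp (-(2 * Real.pi * Complex.I * n) * x) * (gg s x : ℂ) =
      -(((1 - Real.exp (-s) : ℝ) : ℂ) * s / ((2 * Real.pi * Complex.I * n) * (s + 2 * Real.pi * Complex.I * n))) := by
  set a : ℂ := 2 * Real.pi * Complex.I * n with ha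
  have ha0 : a ≠ 0 := by
    rw [ha]
    have h1 : (Real.pi : ℂ) ≠ 0 := by exact_mod_cast Real.pi_ne_zero
    have h2 : (n : ℂ) ≠ 0 := by exact_mod_cast hn
    simp [h1, h2, Complex.I_ne_zero]
  have hre : (s + a).re = s := by
    rw [ha]; simp
  have hsa : (s:ℂ) + a ≠ 0 := by
    intro h
    rw [h] at hre
    simp at hre
    linarith
  have hea : Complex.exp (-a) = 1 := by rw [ha]; exact exp_int n
  set A : ℝ → ℂ := fun x => -(Complex.exp (-(s + a) * x) / (s + a)) +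
    ((1 - Real.exp (-s) : ℝ) : ℂ) * (-(x * Complex.exp (-a * x) / a) - Complex.exp (-a * x) / a ^ 2) with hA
  have hd : ∀ x : ℝ, HasDerivAt A (Complex.exp (-a * x) * (gg s x : ℂ)) x := by
    intro x
    have hx : HasDerivAt (fun y : ℝ => (y : ℂ)) 1 x := Complex.ofRealCLM.hasDerivAt
    have h1 : HasDerivAt (fun y : ℝ => Complex.exp (-(s + a) * y)) (Complex.exp (-(s + a) * x) * (-(s + a) * 1)) x :=
      (hx.const_mul (-(s + a))).cexp
    have h2 : HasDerivAt (fun y : ℝ => Complex.exp (-a * y)) (Complex.exp (-a * x) * (-a * 1)) x :=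
      (hx.const_mul (-a)).cexp
    have h3 : HasDerivAt (fun y : ℝ => (y : ℂ) * Complex.exp (-a * y)) (1 * Complex.exp (-a * x) + x * (Complex.exp (-a * x) * (-a * 1))) x :=
      hx.mul h2
    have h4 := ((h1.div_const (s + a)).neg).add (((h3.div_const a).neg.sub (h2.div_const (a ^ 2))).const_mul ((1 - Real.exp (-s) : ℝ) : ℂ))
    refine h4.congr_deriv ?_
    have e1 : (gg s x : ℂ) = Complex.exp (-(s * x)) + x * ((1 - Real.exp (-s) : ℝ) : ℂ) := by
      unfold gg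
      push_cast
      rfl
    have e2 : Complex.exp (-(s + a) * x) = Complex.exp (-a * x) * Complex.exp (-(s * x)) := by
      rw [← Complex.exp_add]; congr 1; ring
    rw [e1, e2]
    field_simp
    ring
  rw [intervalIntegral.integral_eq_sub_of_hasDerivAt (fun x _ => hd x)
    (Continuous.intervalIntegrable (by
      have := gg_cont s
      fun_prop) _ _)]
  have e3 : Complex.exp (-(s + a)) = ((Real.exp (-s) : ℝ) : ℂ) := by
    rw [neg_add, Complex.exp_add, hea, mul_one]; push_cast; rfl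
  simp only [hA]
  simp only [Complex.ofReal_one, Complex.ofReal_zero, mul_one, mul_zero, Complex.exp_zero, hea, e3, zero_div, neg_zero]
  push_cast
  field_simp
  ring

/-- the circle version -/
noncomputable def GG (s : ℝ) : C(UnitAddCircle, ℂ) :=
  ContinuousMap.mk ((fun x : ℝ => (x : ℂ)) ∘ (AddCircle.liftIco 1 0 (gg s)))
    (Complex.continuous_ofReal.comp (AddCircle.liftIco_zero_continuous
      (by rw [gg_zero, gg_one]) (gg_cont s).continuousOn))

lemma GG_apply (s : ℝ) {v : ℝ} (h0 : 0 ≤ v) (h1 : v < 1) : GG s (v : UnitAddCircle) = (gg s v : ℂ) := by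
  unfold GG
  rw [ContinuousMap.coe_mk, Function.comp_apply, AddCircle.liftIco_coe_apply (by rw [zero_add]; exact ⟨h0, h1⟩)]

lemma GG_coeff {s : ℝ} (hs : 0 < s) {n : ℤ} (hn : n ≠ 0) : fourierCoeff (GG s) n =
      -(((1 - Real.exp (-s) : ℝ) : ℂ) * s / ((2 * Real.pi * Complex.I * n) * (s + 2 * Real.pi * Complex.I * n))) := by
  have h1 : (GG s : UnitAddCircle → ℂ) = AddCircle.liftIco 1 0 ((fun x : ℝ => (x : ℂ)) ∘ gg s) := by
    ext1 x; rfl
  rw [h1, fourierCoeff_liftIco_eq, fourierCoeffOn_eq_integral]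
  rw [← gg_coeff hs hn]
  simp only [zero_add, sub_zero, div_one, one_smul, Function.comp_apply, smul_eq_mul]
  apply intervalIntegral.integral_congr
  intro x _
  simp only
  have e : (fourier (-n)) ((x : ℝ) : AddCircle (0 + 1 - 0 : ℝ)) = Complex.exp (-(2 * Real.pi * Complex.I * n) * x) := by
    rw [fourier_coe_apply]
    congr 1
    push_cast
    ring
  rw [← e]

lemma norm_coeff {s : ℝ} (hs : 0 < s) {n : ℤ} (hn : n ≠ 0) : ‖fourierCoeff (GG s) n‖ ≤ s * (1 / (n:ℝ) ^ 2) := by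
  rw [GG_coeff hs hn, norm_neg, norm_div, norm_mul, norm_mul]
  have hn0 : (0:ℝ) < |(n:ℝ)| := abs_pos.mpr (by exact_mod_cast hn)
  have h1 : ‖((1 - Real.exp (-s) : ℝ) : ℂ)‖ ≤ 1 := by
    rw [Complex.norm_real, Real.norm_eq_abs, abs_of_nonneg]
    · linarith [Real.exp_pos (-s)]
    · have : Real.exp (-s) ≤ 1 := Real.exp_le_one_iff.mpr (by linarith)
      linarith
  have h2 : ‖(s:ℂ)‖ = s := by rw [Complex.norm_real, Real.norm_eq_abs, abs_of_pos hs]
  have hpi : 1 ≤ 2 * Real.pi := by linarith [Real.pi_gt_three]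
  have h3 : ‖(2 * Real.pi * Complex.I * n : ℂ)‖ = 2 * Real.pi * |(n:ℝ)| := by
    rw [norm_mul, norm_mul, norm_mul, Complex.norm_I, Complex.norm_real, Real.norm_eq_abs, abs_of_pos Real.pi_pos,
      Complex.norm_intCast]
    simp
  have h4 : |(n:ℝ)| ≤ ‖(2 * Real.pi * Complex.I * n : ℂ)‖ := by
    rw [h3]; nlinarith
  have h5 : |(n:ℝ)| ≤ ‖(s + 2 * Real.pi * Complex.I * n : ℂ)‖ := by
    refine le_trans ?_ (Complex.abs_im_le_norm _)
    have : (s + 2 * Real.pi * Complex.I * n : ℂ).im = 2 * Real.pi * n := by simp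
    rw [this, abs_mul, abs_of_pos (by positivity : 0 < 2 * Real.pi)]
    nlinarith
  have h6 : (n:ℝ) ^ 2 = |(n:ℝ)| * |(n:ℝ)| := by rw [← sq, sq_abs]
  rw [h6, h2]
  calc ‖((1 - Real.exp (-s) : ℝ) : ℂ)‖ * s / (‖(2 * Real.pi * Complex.I * n : ℂ)‖ * ‖(s + 2 * Real.pi * Complex.I * n : ℂ)‖)
      ≤ 1 * s / (|(n:ℝ)| * |(n:ℝ)|) := by
        gcongr
    _ = _ := by ring

lemma GG_summable {s : ℝ} (hs : 0 < s) : Summable (fourierCoeff (GG s)) := by
  apply Summable.of_norm_bounded_eventually (g := fun n : ℤ => s * (1 / (n:ℝ) ^ 2))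
  · apply Summable.mul_left
    exact Real.summable_one_div_int_pow.mpr (by norm_num)
  · rw [Filter.eventually_cofinite]
    apply (Set.finite_singleton (0:ℤ)).subset
    intro n hn
    by_contra h
    exact hn (norm_coeff hs h)

/-- the terms of the Fourier series -/
noncomputable def tm (s v : ℝ) (k : ℕ) : ℝ := 2 * s / (s ^ 2 + (2 * Real.pi * k) ^ 2) *
  ((1 - Real.cos (2 * Real.pi * k * v)) + s / (2 * Real.pi * k) * Real.sin (2 * Real.pi * k * v))

/-- its sum -/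
noncomputable def Bs (s v : ℝ) : ℝ := (1 - v * (1 - Real.exp (-s)) - Real.exp (-(s * v))) / (1 - Real.exp (-s))

lemma one_sub_exp_pos {s : ℝ} (hs : 0 < s) : 0 < 1 - Real.exp (-s) := by
  have : Real.exp (-s) < 1 := Real.exp_lt_one_iff.mpr (by linarith)
  linarith

lemma term_eq {s : ℝ} (hs : 0 < s) (v : ℝ) {k : ℕ} (hk : k ≠ 0) :
    fourierCoeff (GG s) (k:ℤ) * (fourier (k:ℤ) (v : UnitAddCircle) - 1) +
      fourierCoeff (GG s) (-(k:ℤ)) * (fourier (-(k:ℤ)) (v : UnitAddCircle) - 1) =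
    ((-(1 - Real.exp (-s)) * tm s v k : ℝ) : ℂ) := by
  have hk1 : (k:ℤ) ≠ 0 := by exact_mod_cast hk
  rw [GG_coeff hs hk1, GG_coeff hs (neg_ne_zero.mpr hk1), fourier_coe_apply, fourier_coe_apply]
  set c := Real.cos (2 * Real.pi * k * v) with hc
  set d := Real.sin (2 * Real.pi * k * v) with hd
  set b : ℝ := 2 * Real.pi * k with hb
  have hk0 : (0:ℝ) < k := by exact_mod_cast Nat.pos_of_ne_zero hk
  have hb0 : 0 < b := by rw [hb]; have := Real.pi_pos; positivity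
  have e1 : Complex.exp (2 * Real.pi * Complex.I * ((k:ℤ):ℂ) * (v:ℂ) / ((1:ℝ):ℂ)) = (c:ℂ) + d * Complex.I := by
    rw [show (2 * Real.pi * Complex.I * ((k:ℤ):ℂ) * (v:ℂ) / ((1:ℝ):ℂ)) = ((2 * Real.pi * k * v : ℝ) : ℂ) * Complex.I by
      push_cast; ring, Complex.exp_mul_I, ← Complex.ofReal_cos, ← Complex.ofReal_sin]
  have e2 : Complex.exp (2 * Real.pi * Complex.I * ((-(k:ℤ) : ℤ):ℂ) * (v:ℂ) / ((1:ℝ):ℂ)) = (c:ℂ) - d * Complex.I := by
    rw [show (2 * Real.pi * Complex.I * ((-(k:ℤ) : ℤ):ℂ) * (v:ℂ) / ((1:ℝ):ℂ)) = ((-(2 * Real.pi * k * v) : ℝ) : ℂ) * Complex.I by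
      push_cast; ring, Complex.exp_mul_I, ← Complex.ofReal_cos, ← Complex.ofReal_sin, Real.cos_neg, Real.sin_neg, Complex.ofReal_neg, hc, hd]
    ring
  rw [e1, e2]
  have e3 : (2 * Real.pi * Complex.I * ((k:ℤ):ℂ)) = (b:ℂ) * Complex.I := by rw [hb]; push_cast; ring
  have e4 : (2 * Real.pi * Complex.I * ((-(k:ℤ) : ℤ):ℂ)) = -((b:ℂ) * Complex.I) := by rw [hb]; push_cast; ring
  rw [e3, e4]
  unfold tm
  rw [← hb, ← hc, ← hd]
  have hbc : (b:ℂ) ≠ 0 := by exact_mod_cast hb0.ne'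
  have h1 : ((s:ℂ) + b * Complex.I) ≠ 0 := by
    intro h
    have := congrArg Complex.re h
    simp at this
    linarith
  have h2 : ((s:ℂ) + -(b * Complex.I)) ≠ 0 := by
    intro h
    have := congrArg Complex.re h
    simp at this
    linarith
  have h3 : ((s:ℂ) ^ 2 + (b:ℂ) ^ 2) ≠ 0 := by
    have : (0:ℝ) < s ^ 2 + b ^ 2 := by positivity
    exact_mod_cast this.ne'
  have hI := Complex.I_ne_zero
  have e5 : ((1 - Real.exp (-s) : ℝ) : ℂ) = 1 - ((Real.exp (-s) : ℝ) : ℂ) := by push_cast; ring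
  set E : ℝ := Real.exp (-s) with hE
  have hI2 := Complex.I_sq
  have i1 : 1 / ((b:ℂ) * Complex.I * (s + b * Complex.I)) = -((b:ℂ) + s * Complex.I) / (b * (s ^ 2 + b ^ 2)) := by
    rw [div_eq_div_iff (by simp [hbc, hI, h1]) (by simp [hbc, h3])]
    linear_combination ((b:ℂ) * s ^ 2 + (b:ℂ) ^ 3 + (b:ℂ) ^ 2 * s * Complex.I) * hI2
  have i2 : 1 / (-((b:ℂ) * Complex.I) * (s + -(b * Complex.I))) = -((b:ℂ) - s * Complex.I) / (b * (s ^ 2 + b ^ 2)) := by
    rw [div_eq_div_iff (by simp [hbc, hI, h2]) (by simp [hbc, h3])]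
    linear_combination ((b:ℂ) * s ^ 2 + (b:ℂ) ^ 3 - (b:ℂ) ^ 2 * s * Complex.I) * hI2
  have j1 : ((1 - E : ℝ) : ℂ) * s / ((b:ℂ) * Complex.I * (s + b * Complex.I)) =
      ((1 - E : ℝ) : ℂ) * s * (-((b:ℂ) + s * Complex.I) / (b * (s ^ 2 + b ^ 2))) := by
    rw [← i1]; ring
  have j2 : ((1 - E : ℝ) : ℂ) * s / (-((b:ℂ) * Complex.I) * (s + -(b * Complex.I))) =
      ((1 - E : ℝ) : ℂ) * s * (-((b:ℂ) - s * Complex.I) / (b * (s ^ 2 + b ^ 2))) := by
    rw [← i2]; ring
  rw [j1, j2]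
  push_cast
  field_simp
  linear_combination (2 * (s:ℂ) ^ 2 * d * (1 - E)) * hI2

/-- **the expansion** -/
theorem hasSum_tm {s : ℝ} (hs : 0 < s) {v : ℝ} (h0 : 0 ≤ v) (h1 : v < 1) : HasSum (tm s v) (Bs s v) := by
  have hE := one_sub_exp_pos hs
  have a1 := has_pointwise_sum_fourier_series_of_summable (GG_summable hs) (v : UnitAddCircle)
  have a2 := has_pointwise_sum_fourier_series_of_summable (GG_summable hs) ((0:ℝ) : UnitAddCircle)
  rw [GG_apply s h0 h1] at a1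
  rw [GG_apply s le_rfl zero_lt_one, gg_zero] at a2
  have a3 := (a1.sub a2).nat_add_neg
  have a4 : HasSum (fun k : ℕ => ((-(1 - Real.exp (-s)) * tm s v k : ℝ) : ℂ)) (((gg s v - 1 : ℝ)) : ℂ) := by
    convert! a3 using 1
    · ext1 k
      have e0 : ∀ n : ℤ, fourier n (((0:ℝ)) : UnitAddCircle) = 1 := by
        intro n
        rw [QuotientAddGroup.mk_zero, fourier_eval_zero]
      rw [e0, e0]
      simp only [smul_eq_mul]
      rcases eq_or_ne k 0 with rfl | hk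
      · simp [tm]
      · rw [← term_eq hs v hk]
        ring
    · have e0 : ∀ n : ℤ, fourier n (((0:ℝ)) : UnitAddCircle) = 1 := by
        intro n
        rw [QuotientAddGroup.mk_zero, fourier_eval_zero]
      rw [e0]
      simp
  have a5 : HasSum (fun k : ℕ => -(1 - Real.exp (-s)) * tm s v k) (gg s v - 1) := by
    exact_mod_cast a4
  have a6 := a5.mul_left (-(1 / (1 - Real.exp (-s))))
  convert! a6 using 1
  · ext1 k
    field_simp
  · unfold Bs gg
    field_simp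
    ring

/-- the sum is nonnegative -/
lemma Bs_nonneg {s : ℝ} (hs : 0 < s) {v : ℝ} (h0 : 0 ≤ v) (h1 : v ≤ 1) : 0 ≤ Bs s v := by
  have hE := one_sub_exp_pos hs
  apply div_nonneg _ hE.le
  have := convexOn_exp.2 (Set.mem_univ (0:ℝ)) (Set.mem_univ (-s)) (by linarith : 0 ≤ 1 - v) h0 (by ring)
  simp only [smul_eq_mul, mul_zero, zero_add, Real.exp_zero, mul_one] at this
  have e : v * -s = -(s * v) := by ring
  rw [e] at this
  linarith

/-- a lower bound -/
lemma Bs_lower {s : ℝ} (hs : 0 < s) {v : ℝ} (h0 : 0 ≤ v) (h1 : v ≤ 1) : (1 - v) - Real.exp (-(s * v)) ≤ Bs s v := by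
  have hE := one_sub_exp_pos hs
  have hp := Real.exp_pos (-s)
  rcases le_or_gt ((1 - v) - Real.exp (-(s * v))) 0 with h | h
  · exact h.trans (Bs_nonneg hs h0 h1)
  · unfold Bs
    rw [le_div_iff₀ hE]
    have : 0 ≤ v * Real.exp (-s) := by positivity
    nlinarith

end Pool.Agent.Q273.TB
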