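import Mathlib
import Pool.Agent.Q273.TB1

set_option autoImplicit false

/-!
The function `F(v) = ∑ k^(-3/2) (1 - cos 2πkv + sin 2πkv)` is nonnegative.
-/

namespace Pool.Agent.Q273.TB

open MeasureTheory Filter Topology Set

lemma int_base1 : Integrable (fun x : ℝ => 1 / (x ^ 4 + 1)) := by
  apply Integrable.mono' (integrable_inv_one_add_sq.const_mul 2)
  · apply Continuous.aestronglyMeasurable
    exact continuous_const.div (by fun_prop) (fun x => by positivity)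
  · refine Eventually.of_forall (fun x => ?_)
    rw [Real.norm_eq_abs, abs_of_nonneg (by positivity), ← div_eq_mul_inv, div_le_div_iff₀ (by positivity) (by positivity)]
    nlinarith [sq_nonneg (x ^ 2 - 1), sq_nonneg x]

lemma int_base2 : Integrable (fun x : ℝ => x ^ 2 / (x ^ 4 + 1)) := by
  apply Integrable.mono' (integrable_inv_one_add_sq.const_mul 2)
  · apply Continuous.aestronglyMeasurable
    exact (by fun_prop : Continuous fun x : ℝ => x ^ 2).div (by fun_prop) (fun x => by positivity)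
  · refine Eventually.of_forall (fun x => ?_)
    rw [Real.norm_eq_abs, abs_of_nonneg (by positivity), ← div_eq_mul_inv, div_le_div_iff₀ (by positivity) (by positivity)]
    nlinarith [sq_nonneg (x ^ 2 - 1), sq_nonneg x]

/-- the constant -/
noncomputable def KK : ℝ := ∫ x in Ioi (0:ℝ), 1 / (x ^ 4 + 1)

lemma KK_eq : ∫ x in Ioi (0:ℝ), x ^ 2 / (x ^ 4 + 1) = KK := by
  have h := integral_comp_rpow_Ioi (fun y : ℝ => y ^ 2 / (y ^ 4 + 1)) (p := -1) (by norm_num)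
  rw [← h]
  unfold KK
  apply setIntegral_congr_fun measurableSet_Ioi
  intro x hx
  have hx0 : (0:ℝ) < x := hx
  simp only [smul_eq_mul]
  rw [Real.rpow_neg_one, show (-1 - 1 : ℝ) = ((-2 : ℤ) : ℝ) by norm_num, Real.rpow_intCast]
  simp only [abs_neg, abs_one, one_mul]
  rw [zpow_neg]
  have e : (x ^ (2:ℤ)) = x ^ 2 := by norm_cast
  rw [e]
  field_simp
  ring

lemma KK_pos : 0 < KK := by
  unfold KK
  rw [setIntegral_pos_iff_support_of_nonneg_ae]
  · have : Function.support (fun x : ℝ => 1 / (x ^ 4 + 1)) = Set.univ := by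
      ext x
      simp only [Function.mem_support, mem_univ, iff_true]
      positivity
    rw [this, univ_inter]
    simp
  · exact Eventually.of_forall (fun x => by simp only [Pi.zero_apply]; positivity)
  · exact int_base1.integrableOn

lemma scale1 {a : ℝ} (ha : 0 < a) : IntegrableOn (fun t : ℝ => 1 / (t ^ 4 + a ^ 2)) (Ioi 0) ∧
    ∫ t in Ioi (0:ℝ), 1 / (t ^ 4 + a ^ 2) = √a / a ^ 2 * KK := by
  have hs : 0 < √a := Real.sqrt_pos.mpr ha
  have hsq : √a ^ 2 = a := Real.sq_sqrt ha.le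
  have h4 : √a ^ 4 = a ^ 2 := by rw [show (4:ℕ) = 2 * 2 by norm_num, pow_mul, hsq]
  have e1 : ∀ x : ℝ, 1 / ((√a * x) ^ 4 + a ^ 2) = 1 / a ^ 2 * (1 / (x ^ 4 + 1)) := by
    intro x
    rw [mul_pow, h4]
    have : a ^ 2 * x ^ 4 + a ^ 2 = a ^ 2 * (x ^ 4 + 1) := by ring
    rw [this]
    field_simp
  constructor
  · have h := (integrableOn_Ioi_comp_mul_left_iff (fun t : ℝ => 1 / (t ^ 4 + a ^ 2)) 0 hs)
    rw [mul_zero] at h
    rw [← h]
    simp only [e1]
    exact (int_base1.const_mul _).integrableOn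
  · have h := integral_comp_mul_left_Ioi (fun t : ℝ => 1 / (t ^ 4 + a ^ 2)) 0 hs
    rw [mul_zero] at h
    simp only [e1] at h
    rw [integral_const_mul, smul_eq_mul] at h
    have h2 : ∫ t in Ioi (0:ℝ), 1 / (t ^ 4 + a ^ 2) = √a * (1 / a ^ 2 * ∫ x in Ioi (0:ℝ), 1 / (x ^ 4 + 1)) := by
      rw [h]; field_simp
    rw [h2]
    unfold KK
    ring

lemma scale2 {a : ℝ} (ha : 0 < a) : IntegrableOn (fun t : ℝ => t ^ 2 / (t ^ 4 + a ^ 2)) (Ioi 0) ∧
    ∫ t in Ioi (0:ℝ), t ^ 2 / (t ^ 4 + a ^ 2) = √a / a * KK := by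
  have hs : 0 < √a := Real.sqrt_pos.mpr ha
  have hsq : √a ^ 2 = a := Real.sq_sqrt ha.le
  have h4 : √a ^ 4 = a ^ 2 := by rw [show (4:ℕ) = 2 * 2 by norm_num, pow_mul, hsq]
  have e1 : ∀ x : ℝ, (√a * x) ^ 2 / ((√a * x) ^ 4 + a ^ 2) = 1 / a * (x ^ 2 / (x ^ 4 + 1)) := by
    intro x
    rw [mul_pow, mul_pow, h4, hsq]
    have : a ^ 2 * x ^ 4 + a ^ 2 = a ^ 2 * (x ^ 4 + 1) := by ring
    rw [this]
    field_simp
  constructor
  · have h := (integrableOn_Ioi_comp_mul_left_iff (fun t : ℝ => t ^ 2 / (t ^ 4 + a ^ 2)) 0 hs)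
    rw [mul_zero] at h
    rw [← h]
    simp only [e1]
    exact (int_base2.const_mul _).integrableOn
  · have h := integral_comp_mul_left_Ioi (fun t : ℝ => t ^ 2 / (t ^ 4 + a ^ 2)) 0 hs
    rw [mul_zero] at h
    simp only [e1] at h
    rw [integral_const_mul, smul_eq_mul, KK_eq] at h
    have h2 : ∫ t in Ioi (0:ℝ), t ^ 2 / (t ^ 4 + a ^ 2) = √a * (1 / a * KK) := by
      rw [h]; field_simp
    rw [h2]
    ring

/-- the phase -/
noncomputable def phi (x : ℝ) : ℝ := 1 - Real.cos (2 * Real.pi * x) + Real.sin (2 * Real.pi * x)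

/-- the function -/
noncomputable def Fv (v : ℝ) : ℝ := ∑' k : ℕ, 1 / (k:ℝ) ^ (3/2:ℝ) * phi (k * v)

lemma phi_abs (x : ℝ) : |phi x| ≤ 3 := by
  unfold phi
  have h1 := Real.neg_one_le_cos (2 * Real.pi * x)
  have h2 := Real.cos_le_one (2 * Real.pi * x)
  have h3 := Real.neg_one_le_sin (2 * Real.pi * x)
  have h4 := Real.sin_le_one (2 * Real.pi * x)
  rw [abs_le]; constructor <;> linarith

lemma summable32 : Summable (fun k : ℕ => 1 / (k:ℝ) ^ (3/2:ℝ)) :=
  Real.summable_one_div_nat_rpow.mpr (by norm_num)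

lemma Fv_summable (v : ℝ) : Summable (fun k : ℕ => 1 / (k:ℝ) ^ (3/2:ℝ) * phi (k * v)) := by
  apply Summable.of_norm_bounded (summable32.mul_right 3)
  intro k
  rw [norm_mul, Real.norm_eq_abs, Real.norm_eq_abs, abs_of_nonneg (by positivity)]
  exact mul_le_mul_of_nonneg_left (phi_abs _) (by positivity)

/-- the terms to be integrated -/
noncomputable def fk (v : ℝ) (k : ℕ) (t : ℝ) : ℝ := (t ^ 2)⁻¹ * tm (t ^ 2) v k

lemma fk_eq (v : ℝ) {k : ℕ} (hk : k ≠ 0) {t : ℝ} (ht : 0 < t) : fk v k t =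
    2 * (1 - Real.cos (2 * Real.pi * k * v)) * (1 / (t ^ 4 + (2 * Real.pi * k) ^ 2)) +
      2 / (2 * Real.pi * k) * Real.sin (2 * Real.pi * k * v) * (t ^ 2 / (t ^ 4 + (2 * Real.pi * k) ^ 2)) := by
  have hk0 : (0:ℝ) < k := by exact_mod_cast Nat.pos_of_ne_zero hk
  have hpi := Real.pi_pos
  unfold fk tm
  rw [← pow_mul, show 2 * 2 = 4 by norm_num]
  field_simp

lemma fk_zero (v t : ℝ) : fk v 0 t = 0 := by simp [fk, tm]

lemma ak_pow {k : ℕ} (hk : k ≠ 0) : √(2 * Real.pi * k) / (2 * Real.pi * k) ^ 2 =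
    √(2 * Real.pi) / (2 * Real.pi) ^ 2 * (1 / (k:ℝ) ^ (3/2:ℝ)) := by
  have hk0 : (0:ℝ) < k := by exact_mod_cast Nat.pos_of_ne_zero hk
  have hpi := Real.pi_pos
  have h1 : (k:ℝ) ^ (3/2:ℝ) = k ^ 2 / √k := by
    rw [Real.sqrt_eq_rpow, ← Real.rpow_natCast, ← Real.rpow_sub hk0]
    norm_num
  rw [h1, Real.sqrt_mul (by positivity)]
  have : √(k:ℝ) ≠ 0 := (Real.sqrt_pos.mpr hk0).ne'
  field_simp

lemma fk_int (v : ℝ) (k : ℕ) : IntegrableOn (fk v k) (Ioi 0) ∧
    ∫ t in Ioi (0:ℝ), fk v k t = 2 * KK * (√(2 * Real.pi) / (2 * Real.pi) ^ 2) * (1 / (k:ℝ) ^ (3/2:ℝ) * phi (k * v)) ∧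
    ∫ t in Ioi (0:ℝ), ‖fk v k t‖ ≤ 6 * KK * (√(2 * Real.pi) / (2 * Real.pi) ^ 2) * (1 / (k:ℝ) ^ (3/2:ℝ)) := by
  rcases eq_or_ne k 0 with rfl | hk
  · have e : fk v 0 = fun _ => 0 := by funext t; exact fk_zero v t
    rw [e]
    simp
  have hk0 : (0:ℝ) < k := by exact_mod_cast Nat.pos_of_ne_zero hk
  have hpi := Real.pi_pos
  have ha : 0 < 2 * Real.pi * k := by positivity
  obtain ⟨i1, v1⟩ := scale1 ha
  obtain ⟨i2, v2⟩ := scale2 ha
  have hI1 := i1.const_mul (2 * (1 - Real.cos (2 * Real.pi * k * v)))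
  have hI2 := i2.const_mul (2 / (2 * Real.pi * k) * Real.sin (2 * Real.pi * k * v))
  have hcongr : EqOn (fun t : ℝ => 2 * (1 - Real.cos (2 * Real.pi * k * v)) * (1 / (t ^ 4 + (2 * Real.pi * k) ^ 2)) +
      2 / (2 * Real.pi * k) * Real.sin (2 * Real.pi * k * v) * (t ^ 2 / (t ^ 4 + (2 * Real.pi * k) ^ 2))) (fk v k) (Ioi 0) :=
    fun t ht => (fk_eq v hk ht).symm
  have hint : IntegrableOn (fk v k) (Ioi 0) := IntegrableOn.congr_fun (hI1.add hI2) hcongr measurableSet_Ioi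
  refine ⟨hint, ?_, ?_⟩
  · rw [← setIntegral_congr_fun measurableSet_Ioi hcongr, integral_add hI1 hI2, integral_const_mul, integral_const_mul, v1, v2,
      show 2 * KK * (√(2 * Real.pi) / (2 * Real.pi) ^ 2) * (1 / (k:ℝ) ^ (3/2:ℝ) * phi (k * v)) =
        2 * KK * (√(2 * Real.pi) / (2 * Real.pi) ^ 2 * (1 / (k:ℝ) ^ (3/2:ℝ))) * phi (k * v) by ring, ← ak_pow hk]
    unfold phi
    rw [show 2 * Real.pi * (k * v) = 2 * Real.pi * k * v by ring]
    field_simp
  · have hb : ∀ t ∈ Ioi (0:ℝ), ‖fk v k t‖ ≤ 4 * (1 / (t ^ 4 + (2 * Real.pi * k) ^ 2)) +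
        2 / (2 * Real.pi * k) * (t ^ 2 / (t ^ 4 + (2 * Real.pi * k) ^ 2)) := by
      intro t ht
      have ht0 : (0:ℝ) < t := ht
      rw [fk_eq v hk ht0]
      refine (norm_add_le _ _).trans (add_le_add ?_ ?_)
      · rw [Real.norm_eq_abs, abs_mul, abs_of_nonneg (by positivity : 0 ≤ 1 / (t ^ 4 + (2 * Real.pi * k) ^ 2))]
        apply mul_le_mul_of_nonneg_right _ (by positivity)
        have h1 := Real.neg_one_le_cos (2 * Real.pi * k * v)
        have h2 := Real.cos_le_one (2 * Real.pi * k * v)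
        rw [abs_le]; constructor <;> linarith
      · rw [Real.norm_eq_abs, abs_mul, abs_of_nonneg (by positivity : 0 ≤ t ^ 2 / (t ^ 4 + (2 * Real.pi * k) ^ 2))]
        apply mul_le_mul_of_nonneg_right _ (by positivity)
        rw [abs_mul, abs_of_nonneg (by positivity : 0 ≤ 2 / (2 * Real.pi * k))]
        exact mul_le_of_le_one_right (by positivity) (Real.abs_sin_le_one _)
    have hJ1 := i1.const_mul 4
    have hJ2 := i2.const_mul (2 / (2 * Real.pi * k))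
    refine (setIntegral_mono_on hint.norm (hJ1.add hJ2) measurableSet_Ioi hb).trans (le_of_eq ?_)
    simp only [Pi.add_apply]
    rw [integral_add hJ1 hJ2, integral_const_mul, integral_const_mul, v1, v2,
      show 6 * KK * (√(2 * Real.pi) / (2 * Real.pi) ^ 2) * (1 / (k:ℝ) ^ (3/2:ℝ)) =
        6 * KK * (√(2 * Real.pi) / (2 * Real.pi) ^ 2 * (1 / (k:ℝ) ^ (3/2:ℝ))) by ring, ← ak_pow hk]
    field_simp
    ring

/-- **the integral representation** -/
theorem Fv_rep {v : ℝ} (h0 : 0 ≤ v) (h1 : v < 1) :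
    IntegrableOn (fun t : ℝ => (t ^ 2)⁻¹ * Bs (t ^ 2) v) (Ioi 0) ∧
    ∫ t in Ioi (0:ℝ), (t ^ 2)⁻¹ * Bs (t ^ 2) v = 2 * KK * (√(2 * Real.pi) / (2 * Real.pi) ^ 2) * Fv v := by
  have hsum : Summable fun k => ∫ t in Ioi (0:ℝ), ‖fk v k t‖ := by
    apply Summable.of_nonneg_of_le (fun k => integral_nonneg (fun t => norm_nonneg _)) (fun k => (fk_int v k).2.2)
    exact summable32.mul_left _
  have hcongr : EqOn (fun t : ℝ => ∑' k, fk v k t) (fun t : ℝ => (t ^ 2)⁻¹ * Bs (t ^ 2) v) (Ioi 0) := by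
    intro t ht
    have ht0 : (0:ℝ) < t := ht
    simp only
    unfold fk
    rw [tsum_mul_left, (hasSum_tm (by positivity : 0 < t ^ 2) h0 h1).tsum_eq]
  have h := hasSum_integral_of_summable_integral_norm (μ := volume.restrict (Ioi (0:ℝ))) (F := fk v)
    (fun k => (fk_int v k).1) hsum
  constructor
  · refine ⟨?_, ?_⟩
    · apply Measurable.aestronglyMeasurable
      unfold Bs
      fun_prop
    · unfold HasFiniteIntegral
      have e1 : ∫⁻ t in Ioi (0:ℝ), ‖(t ^ 2)⁻¹ * Bs (t ^ 2) v‖ₑ = ∫⁻ t in Ioi (0:ℝ), ‖∑' k, fk v k t‖ₑ :=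
        setLIntegral_congr_fun measurableSet_Ioi (fun t ht => by
          have := hcongr ht
          simp only at this
          rw [this])
      rw [e1]
      refine lt_of_le_of_lt (lintegral_mono (fun t => enorm_tsum_le_tsum_enorm)) ?_
      rw [lintegral_tsum (fun k => (fk_int v k).1.1.enorm)]
      have e2 : ∀ k, ∫⁻ t in Ioi (0:ℝ), ‖fk v k t‖ₑ = ENNReal.ofReal (∫ t in Ioi (0:ℝ), ‖fk v k t‖) :=
        fun k => (ofReal_integral_norm_eq_lintegral_enorm (fk_int v k).1).symm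
      simp only [e2]
      rw [← ENNReal.ofReal_tsum_of_nonneg (fun k => integral_nonneg (fun t => norm_nonneg _)) hsum]
      exact ENNReal.ofReal_lt_top
  · rw [← setIntegral_congr_fun measurableSet_Ioi hcongr, ← h.tsum_eq]
    simp only [(fk_int v _).2.1]
    rw [tsum_mul_left]
    rfl

/-- the constant in the representation -/
noncomputable def C0 : ℝ := 2 * KK * (√(2 * Real.pi) / (2 * Real.pi) ^ 2)

lemma C0_pos : 0 < C0 := by
  have := KK_pos
  have := Real.pi_pos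
  unfold C0
  positivity

lemma Fv_nonneg {v : ℝ} (h0 : 0 ≤ v) (h1 : v < 1) : 0 ≤ Fv v := by
  have h := (Fv_rep h0 h1).2
  have h2 : 0 ≤ ∫ t in Ioi (0:ℝ), (t ^ 2)⁻¹ * Bs (t ^ 2) v := by
    apply setIntegral_nonneg measurableSet_Ioi
    intro t ht
    have ht0 : (0:ℝ) < t := ht
    have := Bs_nonneg (by positivity : 0 < t ^ 2) h0 h1.le
    positivity
  rw [h] at h2
  exact nonneg_of_mul_nonneg_right h2 C0_pos

lemma Fv_lower {v : ℝ} (h0 : 0 ≤ v) (h1 : v < 1) {T : ℝ} (hT : 0 < T) (hv : Real.exp (-(T ^ 2 * v)) ≤ (1 - v) / 2) :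
    (1 - v) / (2 * T) ≤ C0 * Fv v := by
  obtain ⟨hi, h⟩ := Fv_rep h0 h1
  have h2 : ∫ t in Ioi T, (1 - v) / 2 * t ^ (-2:ℝ) = (1 - v) / (2 * T) := by
    rw [integral_const_mul, integral_Ioi_rpow_of_lt (by norm_num) hT]
    norm_num
    rw [Real.rpow_neg_one]
    field_simp
  have h3 : ∫ t in Ioi T, (1 - v) / 2 * t ^ (-2:ℝ) ≤ ∫ t in Ioi T, (t ^ 2)⁻¹ * Bs (t ^ 2) v := by
    apply setIntegral_mono_on ((integrableOn_Ioi_rpow_of_lt (by norm_num) hT).const_mul _)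
      (hi.mono_set (Ioi_subset_Ioi hT.le)) measurableSet_Ioi
    intro t ht
    have ht1 : T < t := ht
    have ht0 : 0 < t := hT.trans ht1
    have e1 : t ^ (-2:ℝ) = (t ^ 2)⁻¹ := by
      rw [Real.rpow_neg ht0.le]
      congr 1
      exact_mod_cast Real.rpow_natCast t 2
    rw [e1, mul_comm]
    apply mul_le_mul_of_nonneg_left _ (by positivity)
    have h4 := Bs_lower (by positivity : 0 < t ^ 2) h0 h1.le
    have h5 : Real.exp (-(t ^ 2 * v)) ≤ Real.exp (-(T ^ 2 * v)) := by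
      apply Real.exp_le_exp.mpr
      have : T ^ 2 ≤ t ^ 2 := pow_le_pow_left₀ hT.le ht1.le 2
      nlinarith
    linarith
  have h4 : ∫ t in Ioi T, (t ^ 2)⁻¹ * Bs (t ^ 2) v ≤ ∫ t in Ioi (0:ℝ), (t ^ 2)⁻¹ * Bs (t ^ 2) v := by
    apply setIntegral_mono_set hi
    · filter_upwards [ae_restrict_mem measurableSet_Ioi] with t ht
      have ht0 : (0:ℝ) < t := ht
      have := Bs_nonneg (by positivity : 0 < t ^ 2) h0 h1.le
      simp only [Pi.zero_apply]
      positivity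
    · exact (Ioi_subset_Ioi hT.le).eventuallyLE
  rw [h2] at h3
  rw [h] at h4
  exact h3.trans h4

lemma Fv_pos {v : ℝ} (h0 : 0 < v) (h1 : v < 1) : 0 < Fv v := by
  set L := Real.log (2 / (1 - v)) with hL
  have h2 : 0 < 1 - v := by linarith
  have hL0 : 0 < L := Real.log_pos (by rw [lt_div_iff₀ h2]; linarith)
  have h3 : Real.exp (-((√(L / v)) ^ 2 * v)) ≤ (1 - v) / 2 := by
    rw [Real.sq_sqrt (by positivity), div_mul_cancel₀ _ h0.ne', Real.exp_neg, hL, Real.exp_log (by positivity)]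
    rw [inv_div]
  have h4 := Fv_lower h0.le h1 (Real.sqrt_pos.mpr (by positivity : 0 < L / v)) h3
  have h5 : 0 < (1 - v) / (2 * √(L / v)) := by positivity
  exact (mul_pos_iff_of_pos_left C0_pos).mp (lt_of_lt_of_le h5 h4)

lemma Fv_sqrt : ∃ c : ℝ, 0 < c ∧ ∀ v : ℝ, 0 < v → v ≤ 1/2 → c * √v ≤ Fv v := by
  have hC := C0_pos
  refine ⟨1 / (8 * C0), by positivity, fun v h0 h1 => ?_⟩
  have h3 : Real.exp (-((√(4 / v)) ^ 2 * v)) ≤ (1 - v) / 2 := by
    rw [Real.sq_sqrt (by positivity), div_mul_cancel₀ _ h0.ne']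
    have : Real.exp (-4) ≤ 1 / 4 := by
      rw [Real.exp_neg]
      have := Real.add_one_le_exp (4:ℝ)
      rw [inv_eq_one_div]
      apply one_div_le_one_div_of_le (by norm_num)
      linarith
    linarith
  have h4 := Fv_lower h0.le (by linarith) (Real.sqrt_pos.mpr (by positivity : 0 < 4 / v)) h3
  have h5 : √v / 8 ≤ (1 - v) / (2 * √(4 / v)) := by
    have hs : 0 < √v := Real.sqrt_pos.mpr h0
    have : √(4 / v) = 2 / √v := by
      rw [Real.sqrt_div (by norm_num), show (4:ℝ) = 2 ^ 2 by norm_num, Real.sqrt_sq (by norm_num)]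
    rw [this, div_le_div_iff₀ (by norm_num) (by positivity)]
    field_simp
    nlinarith
  have h6 : √v / 8 ≤ C0 * Fv v := h5.trans h4
  rw [div_mul_eq_mul_div, one_mul, div_le_iff₀ (by positivity)]
  linarith

end Pool.Agent.Q273.TB
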