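import Mathlib
import Pool.Agent.Q273.TB2
import Pool.Agent.H383.CircD
import Pool.Agent.H383.EnB2
import Pool.Agent.H383.SBound

set_option autoImplicit false

/-!
The sum over the perfect squares, arranged by primitive points.
-/

namespace Pool.Agent.Q273.TB

open MeasureTheory Filter Topology
open Pool.Agent.H383.Gauss (rA rA_nonneg rA_le_pow)

/-- the points of norm `k` -/
noncomputable def Sk (k : ℕ) : Finset (ℤ × ℤ) := ((Finset.Icc (-(k:ℤ)) k) ×ˢ (Finset.Icc (-(k:ℤ)) k)).filter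
  (fun p => p.1 ^ 2 + p.2 ^ 2 = (k:ℤ) ^ 2)

/-- the primitive points of norm `k` -/
noncomputable def Pk (k : ℕ) : Finset (ℤ × ℤ) := (Sk k).filter (fun p => Int.gcd p.1 p.2 = 1)

lemma mem_Sk {k : ℕ} {p : ℤ × ℤ} : p ∈ Sk k ↔ p.1 ^ 2 + p.2 ^ 2 = (k:ℤ) ^ 2 := by
  unfold Sk
  rw [Finset.mem_filter, Finset.mem_product, Finset.mem_Icc, Finset.mem_Icc]
  constructor
  · exact fun h => h.2
  · intro h
    have h1 : |p.1| ≤ (k:ℤ) := abs_le_of_sq_le_sq (by nlinarith [sq_nonneg p.2]) (by positivity)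
    have h2 : |p.2| ≤ (k:ℤ) := abs_le_of_sq_le_sq (by nlinarith [sq_nonneg p.1]) (by positivity)
    rw [abs_le] at h1 h2
    exact ⟨⟨h1, h2⟩, h⟩

lemma mem_Pk {k : ℕ} {p : ℤ × ℤ} : p ∈ Pk k ↔ p.1 ^ 2 + p.2 ^ 2 = (k:ℤ) ^ 2 ∧ Int.gcd p.1 p.2 = 1 := by
  unfold Pk
  rw [Finset.mem_filter, mem_Sk]

lemma rA_Sk (k : ℕ) : rA (k ^ 2) = ((Sk k).card : ℝ) := by
  rw [Pool.Agent.H383.Circ.rA_card]
  congr 1
  apply Nat.subtype_card
  intro p
  rw [mem_Sk]
  push_cast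
  rfl

lemma card_fib {k g : ℕ} (hk : 1 ≤ k) (hg : g ∣ k) :
    ((Sk k).filter (fun p => Int.gcd p.1 p.2 = g)).card = (Pk (k / g)).card := by
  obtain ⟨e, rfl⟩ := hg
  have hg0 : 0 < g := Nat.pos_of_ne_zero (by rintro rfl; omega)
  rw [Nat.mul_div_cancel_left _ hg0]
  symm
  have hg1 : (g:ℤ) ≠ 0 := by exact_mod_cast hg0.ne'
  apply Finset.card_bij (fun p _ => ((g:ℤ) * p.1, (g:ℤ) * p.2))
  · intro p hp
    rw [mem_Pk] at hp
    rw [Finset.mem_filter, mem_Sk]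
    constructor
    · show ((g:ℤ) * p.1) ^ 2 + ((g:ℤ) * p.2) ^ 2 = ((g * e : ℕ) : ℤ) ^ 2
      push_cast
      rw [mul_pow, mul_pow, ← mul_add, hp.1]
      ring
    · show Int.gcd ((g:ℤ) * p.1) ((g:ℤ) * p.2) = g
      rw [Int.gcd_mul_left, hp.2]
      simp
  · intro p _ q _ h
    simp only [Prod.mk.injEq, mul_eq_mul_left_iff, hg1, or_false] at h
    exact Prod.ext h.1 h.2
  · intro p hp
    rw [Finset.mem_filter, mem_Sk] at hp
    obtain ⟨h1, h2⟩ := hp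
    obtain ⟨a, ha⟩ : (g:ℤ) ∣ p.1 := by rw [← h2]; exact Int.gcd_dvd_left _ _
    obtain ⟨b, hb⟩ : (g:ℤ) ∣ p.2 := by rw [← h2]; exact Int.gcd_dvd_right _ _
    refine ⟨(a, b), ?_, ?_⟩
    · rw [mem_Pk]
      constructor
      · simp only
        rw [ha, hb] at h1
        push_cast at h1
        have : (g:ℤ) ^ 2 * (a ^ 2 + b ^ 2) = (g:ℤ) ^ 2 * (e:ℤ) ^ 2 := by linear_combination h1
        exact mul_left_cancel₀ (pow_ne_zero 2 hg1) this
      · simp only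
        rw [ha, hb, Int.gcd_mul_left, Int.natAbs_natCast] at h2
        exact Nat.eq_of_mul_eq_mul_left hg0 (by rw [h2, mul_one])
    · simp only
      exact Prod.ext ha.symm hb.symm

lemma rA_conv {k : ℕ} (hk : 1 ≤ k) : rA (k ^ 2) = ∑ d ∈ k.divisors, ((Pk d).card : ℝ) := by
  rw [rA_Sk]
  have h1 : (Sk k).card = ∑ g ∈ k.divisors, ((Sk k).filter (fun p => Int.gcd p.1 p.2 = g)).card := by
    apply Finset.card_eq_sum_card_fiberwise
    intro p hp
    have hp' : p ∈ Sk k := hp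
    rw [mem_Sk] at hp'
    show Int.gcd p.1 p.2 ∈ (k.divisors : Set ℕ)
    rw [Finset.mem_coe, Nat.mem_divisors]
    refine ⟨?_, by omega⟩
    have h2 : ((Int.gcd p.1 p.2 : ℤ)) ^ 2 ∣ (k:ℤ) ^ 2 := by
      rw [← hp']
      exact dvd_add (pow_dvd_pow_of_dvd (Int.gcd_dvd_left _ _) 2) (pow_dvd_pow_of_dvd (Int.gcd_dvd_right _ _) 2)
    have h3 : (Int.gcd p.1 p.2) ^ 2 ∣ k ^ 2 := by exact_mod_cast h2
    exact (Nat.pow_dvd_pow_iff (by norm_num)).mp h3
  rw [h1, Finset.sum_congr rfl (fun g hg => card_fib hk (Nat.dvd_of_mem_divisors hg)),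
    Nat.sum_div_divisors k (fun d => (Pk d).card)]
  push_cast
  rfl

/-- the terms of the double series -/
noncomputable def ad (ρ : ℝ) (x : ℕ × ℕ) : ℝ := ((Pk x.1).card : ℝ) / (x.1:ℝ) ^ (3/2:ℝ) *
  (1 / (x.2:ℝ) ^ (3/2:ℝ) * phi (x.2 * (ρ * x.1)))

lemma Pk_le (d : ℕ) : ((Pk d).card : ℝ) ≤ rA (d ^ 2) := by
  rw [rA_Sk]
  exact_mod_cast Finset.card_le_card (Finset.filter_subset _ _)

lemma Pk_summable : Summable (fun d : ℕ => ((Pk d).card : ℝ) / (d:ℝ) ^ (3/2:ℝ)) := by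
  apply Summable.of_nonneg_of_le (fun d => by positivity) (fun d => ?_) Pool.Agent.H383.Gauss.S_summable
  rw [Real.rpow_neg (Nat.cast_nonneg _), ← div_eq_mul_inv]
  exact div_le_div_of_nonneg_right (Pk_le d) (by positivity)

lemma ad_summable (ρ : ℝ) : Summable (ad ρ) := by
  have h1 : Summable (fun x : ℕ × ℕ => ((Pk x.1).card : ℝ) / (x.1:ℝ) ^ (3/2:ℝ) * (1 / (x.2:ℝ) ^ (3/2:ℝ))) :=
    Pk_summable.mul_of_nonneg summable32 (fun d => by positivity) (fun d => by positivity)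
  apply Summable.of_norm_bounded (h1.mul_right 3)
  intro x
  unfold ad
  rw [norm_mul, norm_mul, Real.norm_eq_abs, Real.norm_eq_abs, Real.norm_eq_abs, abs_of_nonneg (by positivity),
    abs_of_nonneg (by positivity), ← mul_assoc]
  exact mul_le_mul_of_nonneg_left (phi_abs _) (by positivity)

lemma ad_fib (ρ : ℝ) (c : ℕ) : ∑' x : (fun x : ℕ × ℕ => x.1 * x.2) ⁻¹' {c}, ad ρ x =
    rA (c ^ 2) / (c:ℝ) ^ (3/2:ℝ) * phi (ρ * c) := by
  rcases Nat.eq_zero_or_pos c with rfl | hc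
  · have h0 : ∀ x : (fun x : ℕ × ℕ => x.1 * x.2) ⁻¹' {0}, ad ρ x = 0 := by
      rintro ⟨⟨d, j⟩, hx⟩
      simp only [Set.mem_preimage, Set.mem_singleton_iff, mul_eq_zero] at hx
      unfold ad
      rcases hx with hx | hx
      · simp only [hx, Nat.cast_zero]
        rw [Real.zero_rpow (by norm_num)]
        simp
      · simp only [hx, Nat.cast_zero]
        rw [Real.zero_rpow (by norm_num)]
        simp
    simp only [h0, tsum_zero]
    rw [Nat.cast_zero, Real.zero_rpow (by norm_num)]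
    simp
  · have hs : (fun x : ℕ × ℕ => x.1 * x.2) ⁻¹' {c} = (c.divisorsAntidiagonal : Set (ℕ × ℕ)) := by
      ext x
      simp only [Set.mem_preimage, Set.mem_singleton_iff, Finset.mem_coe, Nat.mem_divisorsAntidiagonal]
      constructor
      · intro h; exact ⟨h, by omega⟩
      · intro h; exact h.1
    rw [hs, Finset.tsum_subtype' c.divisorsAntidiagonal (ad ρ)]
    have h1 : ∀ x ∈ c.divisorsAntidiagonal, ad ρ x = ((Pk x.1).card : ℝ) * (1 / (c:ℝ) ^ (3/2:ℝ) * phi (ρ * c)) := by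
      intro x hx
      rw [Nat.mem_divisorsAntidiagonal] at hx
      have e : (c:ℝ) = x.1 * x.2 := by rw [← hx.1]; push_cast; rfl
      unfold ad
      rw [e, Real.mul_rpow (Nat.cast_nonneg _) (Nat.cast_nonneg _)]
      rw [show ρ * ((x.1:ℝ) * x.2) = x.2 * (ρ * x.1) by ring]
      rw [div_eq_mul_one_div ((Pk x.1).card : ℝ), one_div_mul_eq_div, one_div_mul_eq_div, one_div]
      field_simp
    rw [Finset.sum_congr rfl h1, ← Finset.sum_mul, Nat.sum_divisorsAntidiagonal (fun d _ => ((Pk d).card : ℝ)),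
      ← rA_conv hc]
    ring

/-- periodicity -/
lemma Fv_fract (v : ℝ) : Fv v = Fv (Int.fract v) := by
  unfold Fv
  congr 1
  funext k
  have h : phi (k * Int.fract v) = phi (k * v) := by
    unfold phi Int.fract
    have e : 2 * Real.pi * ((k:ℝ) * (v - ⌊v⌋)) = 2 * Real.pi * (k * v) - ((k * ⌊v⌋ : ℤ) : ℝ) * (2 * Real.pi) := by
      push_cast; ring
    rw [e, Real.cos_sub_int_mul_two_pi, Real.sin_sub_int_mul_two_pi]
  rw [h]

lemma Fv_nn (v : ℝ) : 0 ≤ Fv v := by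
  rw [Fv_fract]
  exact Fv_nonneg (Int.fract_nonneg v) (Int.fract_lt_one v)

/-- **the sum over the perfect squares** -/
theorem sum_squares (ρ : ℝ) :
    HasSum (fun d : ℕ => ((Pk d).card : ℝ) / (d:ℝ) ^ (3/2:ℝ) * Fv (ρ * d))
      (∑' k : ℕ, rA (k ^ 2) / (k:ℝ) ^ (3/2:ℝ) * phi (ρ * k)) := by
  have hs := ad_summable ρ
  have h1 := (hs.hasSum.tsum_fiberwise (fun x : ℕ × ℕ => x.1 * x.2)).tsum_eq
  simp only [ad_fib] at h1
  rw [h1]
  have h2 := hs.hasSum.prod_fiberwise (fun d => (hs.prod_factor d).hasSum)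
  convert! h2 using 1
  funext d
  unfold ad Fv
  rw [← tsum_mul_left]

end Pool.Agent.Q273.TB
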