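import Mathlib
import Pool.Agent.Q273.TB3
import Pool.Agent.Q273.TA3

set_option autoImplicit false

/-!
The lower bound for the mean.
-/

namespace Pool.Agent.Q273.TB

open MeasureTheory Filter Topology
open Pool.Agent.H383.Gauss (rA rA_nonneg rA_le_pow)
open Pool.Agent.Q273.TA (Dm)

lemma sum_inv_sq_le (Y : ℕ) : ∑ e ∈ Finset.Icc 1 Y, 1 / (e:ℝ) ^ 2 ≤ 2 := by
  have h := hasSum_zeta_two
  have h1 : ∑ e ∈ Finset.Icc 1 Y, 1 / (e:ℝ) ^ 2 ≤ Real.pi ^ 2 / 6 := by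
    rw [← h.tsum_eq]
    exact h.summable.sum_le_tsum _ (fun e _ => by positivity)
  have h2 := Real.pi_lt_d2
  have h3 := Real.pi_pos
  nlinarith

/-- sums of the Euler function -/
lemma sum_tot (Y : ℕ) : Real.log (Y + 1) ≤ 2 * ∑ c ∈ Finset.Icc 1 Y, (c.totient : ℝ) / (c:ℝ) ^ 2 := by
  have h0 : Real.log (Y + 1) ≤ ∑ n ∈ Finset.Icc 1 Y, 1 / (n:ℝ) := by
    have h := log_add_one_le_harmonic Y
    rw [harmonic_eq_sum_Icc] at h
    push_cast at h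
    simpa [one_div] using h
  set f : ℕ × ℕ → ℝ := fun x => (x.1.totient : ℝ) / (x.1:ℝ) ^ 2 * (1 / (x.2:ℝ) ^ 2) with hf
  have h1 : ∑ n ∈ Finset.Icc 1 Y, 1 / (n:ℝ) =
      ∑ x ∈ (Finset.Icc 1 Y ×ˢ Finset.Icc 1 Y).filter (fun x => x.1 * x.2 ≤ Y), f x := by
    have h2 := Finset.sum_fiberwise_of_maps_to (s := (Finset.Icc 1 Y ×ˢ Finset.Icc 1 Y).filter (fun x => x.1 * x.2 ≤ Y))
      (t := Finset.Icc 1 Y) (g := fun x => x.1 * x.2) (fun x hx => by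
        rw [Finset.mem_filter, Finset.mem_product, Finset.mem_Icc, Finset.mem_Icc] at hx
        rw [Finset.mem_Icc]
        exact ⟨Nat.mul_pos hx.1.1.1 hx.1.2.1, hx.2⟩) f
    rw [← h2]
    apply Finset.sum_congr rfl
    intro n hn
    rw [Finset.mem_Icc] at hn
    have e1 : ((Finset.Icc 1 Y ×ˢ Finset.Icc 1 Y).filter (fun x => x.1 * x.2 ≤ Y)).filter (fun x => x.1 * x.2 = n) =
        n.divisorsAntidiagonal := by
      ext x
      rw [Finset.mem_filter, Finset.mem_filter, Finset.mem_product, Finset.mem_Icc, Finset.mem_Icc,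
        Nat.mem_divisorsAntidiagonal]
      constructor
      · rintro ⟨_, h⟩; exact ⟨h, by omega⟩
      · rintro ⟨h, h'⟩
        have hx1 : x.1 ≠ 0 := by rintro h0; rw [h0, zero_mul] at h; omega
        have hx2 : x.2 ≠ 0 := by rintro h0; rw [h0, mul_zero] at h; omega
        have hx3 : x.1 ≤ n := by rw [← h]; exact Nat.le_mul_of_pos_right _ (Nat.pos_of_ne_zero hx2)
        have hx4 : x.2 ≤ n := by rw [← h]; exact Nat.le_mul_of_pos_left _ (Nat.pos_of_ne_zero hx1)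
        exact ⟨⟨⟨⟨by omega, by omega⟩, ⟨by omega, by omega⟩⟩, by omega⟩, h⟩
    rw [e1]
    have hn0 : (0:ℝ) < n := by exact_mod_cast hn.1
    have e2 : ∀ x ∈ n.divisorsAntidiagonal, f x = (x.1.totient : ℝ) * (1 / (n:ℝ) ^ 2) := by
      intro x hx
      rw [Nat.mem_divisorsAntidiagonal] at hx
      have e : (n:ℝ) = x.1 * x.2 := by rw [← hx.1]; push_cast; rfl
      simp only [hf]
      rw [e, mul_pow, div_mul_div_comm, mul_one, div_eq_mul_one_div]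
    rw [Finset.sum_congr rfl e2, ← Finset.sum_mul, Nat.sum_divisorsAntidiagonal (fun d _ => (d.totient : ℝ))]
    have e3 : ∑ d ∈ n.divisors, (d.totient : ℝ) = n := by exact_mod_cast Nat.sum_totient n
    rw [e3]
    field_simp
  have h2 : ∑ x ∈ (Finset.Icc 1 Y ×ˢ Finset.Icc 1 Y).filter (fun x => x.1 * x.2 ≤ Y), f x ≤
      ∑ x ∈ Finset.Icc 1 Y ×ˢ Finset.Icc 1 Y, f x :=
    Finset.sum_le_sum_of_subset_of_nonneg (Finset.filter_subset _ _) (fun x _ _ => by positivity)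
  have h3 : ∑ x ∈ Finset.Icc 1 Y ×ˢ Finset.Icc 1 Y, f x =
      (∑ c ∈ Finset.Icc 1 Y, (c.totient : ℝ) / (c:ℝ) ^ 2) * ∑ e ∈ Finset.Icc 1 Y, 1 / (e:ℝ) ^ 2 := by
    rw [Finset.sum_product, Finset.sum_mul_sum]
  have h4 : (∑ c ∈ Finset.Icc 1 Y, (c.totient : ℝ) / (c:ℝ) ^ 2) * ∑ e ∈ Finset.Icc 1 Y, 1 / (e:ℝ) ^ 2 ≤
      (∑ c ∈ Finset.Icc 1 Y, (c.totient : ℝ) / (c:ℝ) ^ 2) * 2 :=
    mul_le_mul_of_nonneg_left (sum_inv_sq_le Y) (Finset.sum_nonneg (fun c _ => by positivity))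
  linarith

/-- the pairs which give primitive points -/
def QQ (Y : ℕ) : Finset (ℕ × ℕ) := (Finset.Icc 1 Y).biUnion (fun c =>
  ((Finset.range (2 * c)).filter (fun b => (2 * c).Coprime b)).image (fun b => (2 * c, b)))

lemma mem_QQ {Y : ℕ} {x : ℕ × ℕ} : x ∈ QQ Y ↔ ∃ c, 1 ≤ c ∧ c ≤ Y ∧ x.1 = 2 * c ∧ x.2 < 2 * c ∧ (2 * c).Coprime x.2 := by
  unfold QQ
  simp only [Finset.mem_biUnion, Finset.mem_Icc, Finset.mem_image, Finset.mem_filter, Finset.mem_range]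
  constructor
  · rintro ⟨c, ⟨h1, h2⟩, b, ⟨h3, h4⟩, rfl⟩
    exact ⟨c, h1, h2, rfl, h3, h4⟩
  · rintro ⟨c, h1, h2, h3, h4, h5⟩
    exact ⟨c, ⟨h1, h2⟩, x.2, ⟨h4, h5⟩, by rw [← h3]⟩

lemma QQ_sum (Y : ℕ) : ∑ c ∈ Finset.Icc 1 Y, ((2 * c).totient : ℝ) / (8 * (c:ℝ) ^ 2) ≤
    ∑ x ∈ QQ Y, 1 / ((x.1 ^ 2 + x.2 ^ 2 : ℕ) : ℝ) := by
  unfold QQ
  rw [Finset.sum_biUnion]
  · apply Finset.sum_le_sum
    intro c hc
    rw [Finset.mem_Icc] at hc
    have hc0 : (0:ℝ) < c := by exact_mod_cast hc.1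
    rw [Finset.sum_image (fun a _ b _ h => (Prod.mk.inj h).2)]
    have h1 : ∑ b ∈ (Finset.range (2 * c)).filter (fun b => (2 * c).Coprime b), 1 / (8 * (c:ℝ) ^ 2) =
        ((2 * c).totient : ℝ) / (8 * (c:ℝ) ^ 2) := by
      rw [Finset.sum_const, nsmul_eq_mul, Nat.totient_eq_card_coprime, mul_one_div]
    rw [← h1]
    apply Finset.sum_le_sum
    intro b hb
    rw [Finset.mem_filter, Finset.mem_range] at hb
    apply one_div_le_one_div_of_le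
    · push_cast; positivity
    · push_cast
      have : (b:ℝ) ≤ 2 * c := by exact_mod_cast hb.1.le
      have hb0 : (0:ℝ) ≤ b := Nat.cast_nonneg b
      nlinarith
  · intro c _ d _ hcd
    rw [Function.onFun, Finset.disjoint_left]
    intro x hx hy
    simp only [Finset.mem_image, Finset.mem_filter, Finset.mem_range] at hx hy
    obtain ⟨b, _, rfl⟩ := hx
    obtain ⟨b', _, h⟩ := hy
    have := (Prod.mk.inj h).1
    exact hcd (by omega)

/-- the primitive point of a pair -/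
lemma pt_mem {a b : ℕ} (h : a.Coprime b) (ha : Even a) :
    ((a:ℤ) ^ 2 - (b:ℤ) ^ 2, 2 * (a:ℤ) * b) ∈ Pk (a ^ 2 + b ^ 2) := by
  rw [mem_Pk]
  have hb : b % 2 = 1 := by
    rcases Nat.even_or_odd b with hb | hb
    · exfalso
      have h2 : 2 ∣ Nat.gcd a b := Nat.dvd_gcd ha.two_dvd hb.two_dvd
      rw [h] at h2
      omega
    · exact Nat.odd_iff.mp hb
  have ha2 : a % 2 = 0 := Nat.even_iff.mp ha
  have hc := (PythagoreanTriple.coprime_classification (x := (a:ℤ) ^ 2 - (b:ℤ) ^ 2) (y := 2 * (a:ℤ) * b)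
    (z := (a:ℤ) ^ 2 + (b:ℤ) ^ 2)).mpr ⟨a, b, Or.inl ⟨rfl, rfl⟩, Or.inl rfl, by
      rw [Int.gcd_natCast_natCast]; exact h, Or.inl ⟨by omega, by omega⟩⟩
  constructor
  · push_cast; ring
  · exact hc.2

lemma Pk_ge (Y d : ℕ) : ((QQ Y).filter (fun x => x.1 ^ 2 + x.2 ^ 2 = d)).card ≤ (Pk d).card := by
  apply Finset.card_le_card_of_injOn (fun x => ((x.1:ℤ) ^ 2 - (x.2:ℤ) ^ 2, 2 * (x.1:ℤ) * x.2))
  · intro x hx
    have hx' : x ∈ (QQ Y).filter (fun x => x.1 ^ 2 + x.2 ^ 2 = d) := hx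
    rw [Finset.mem_filter, mem_QQ] at hx'
    obtain ⟨⟨c, h1, h2, h3, h4, h5⟩, h6⟩ := hx'
    show _ ∈ (Pk d : Set (ℤ × ℤ))
    rw [Finset.mem_coe, ← h6]
    exact pt_mem (by rw [h3]; exact h5) (by rw [h3]; exact even_two_mul c)
  · intro x hx y hy hxy
    have hx' : x ∈ (QQ Y).filter (fun x => x.1 ^ 2 + x.2 ^ 2 = d) := hx
    have hy' : y ∈ (QQ Y).filter (fun x => x.1 ^ 2 + x.2 ^ 2 = d) := hy
    rw [Finset.mem_filter] at hx' hy'
    have h1 := (Prod.mk.inj hxy).1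
    have h2 : ((x.1:ℤ) ^ 2 + (x.2:ℤ) ^ 2) = ((y.1:ℤ) ^ 2 + (y.2:ℤ) ^ 2) := by
      have := hx'.2.trans hy'.2.symm
      exact_mod_cast this
    have h3 : (x.1:ℤ) ^ 2 = (y.1:ℤ) ^ 2 := by linarith
    have h4 : (x.2:ℤ) ^ 2 = (y.2:ℤ) ^ 2 := by linarith
    have h5 : x.1 = y.1 := by
      have : x.1 ^ 2 = y.1 ^ 2 := by exact_mod_cast h3
      exact Nat.pow_left_injective (n := 2) (by norm_num) this
    have h6 : x.2 = y.2 := by
      have : x.2 ^ 2 = y.2 ^ 2 := by exact_mod_cast h4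
      exact Nat.pow_left_injective (n := 2) (by norm_num) this
    exact Prod.ext h5 h6

/-- the sum over the primitive points -/
theorem sum_prim {Y D : ℕ} (h : 8 * Y ^ 2 ≤ D) :
    Real.log (Y + 1) / 16 ≤ ∑ d ∈ Finset.Icc 1 D, ((Pk d).card : ℝ) / d := by
  have h1 : ∑ x ∈ QQ Y, 1 / ((x.1 ^ 2 + x.2 ^ 2 : ℕ) : ℝ) ≤ ∑ d ∈ Finset.Icc 1 D, ((Pk d).card : ℝ) / d := by
    have h2 := Finset.sum_fiberwise_of_maps_to (s := QQ Y) (t := Finset.Icc 1 D) (g := fun x => x.1 ^ 2 + x.2 ^ 2)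
      (fun x hx => by
        rw [mem_QQ] at hx
        obtain ⟨c, h1, h2, h3, h4, h5⟩ := hx
        rw [Finset.mem_Icc]
        constructor
        · have : 0 < x.1 ^ 2 := by rw [h3]; positivity
          omega
        · rw [h3]
          have : x.2 ^ 2 ≤ (2 * c) ^ 2 := Nat.pow_le_pow_left h4.le 2
          have h6 : c ^ 2 ≤ Y ^ 2 := Nat.pow_le_pow_left h2 2
          nlinarith) (fun x => 1 / ((x.1 ^ 2 + x.2 ^ 2 : ℕ) : ℝ))
    rw [← h2]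
    apply Finset.sum_le_sum
    intro d hd
    have h3 : ∑ x ∈ (QQ Y).filter (fun x => x.1 ^ 2 + x.2 ^ 2 = d), 1 / ((x.1 ^ 2 + x.2 ^ 2 : ℕ) : ℝ) =
        (((QQ Y).filter (fun x => x.1 ^ 2 + x.2 ^ 2 = d)).card : ℝ) / d := by
      rw [Finset.sum_congr rfl (g := fun _ => 1 / (d:ℝ)) (fun x hx => by rw [(Finset.mem_filter.mp hx).2]),
        Finset.sum_const, nsmul_eq_mul, mul_one_div]
    rw [h3]
    apply div_le_div_of_nonneg_right _ (Nat.cast_nonneg _)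
    exact_mod_cast Pk_ge Y d
  have h2 := QQ_sum Y
  have h3 : (∑ c ∈ Finset.Icc 1 Y, (c.totient : ℝ) / (c:ℝ) ^ 2) / 8 ≤
      ∑ c ∈ Finset.Icc 1 Y, ((2 * c).totient : ℝ) / (8 * (c:ℝ) ^ 2) := by
    rw [Finset.sum_div]
    apply Finset.sum_le_sum
    intro c hc
    rw [Finset.mem_Icc] at hc
    have hc0 : (0:ℝ) < c := by exact_mod_cast hc.1
    rw [div_div, mul_comm ((c:ℝ) ^ 2) 8]
    apply div_le_div_of_nonneg_right _ (by positivity)
    exact_mod_cast Nat.le_of_dvd (Nat.totient_pos.mpr (by omega)) (Nat.totient_dvd_of_dvd (Dvd.intro_left 2 rfl))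
  have h4 := sum_tot Y
  linarith

lemma phase_eq (ρ : ℝ) : Dm ρ = √2 / (2 * Real.pi) * ∑' k : ℕ, rA (k ^ 2) / (k:ℝ) ^ (3/2:ℝ) * phi (ρ * k) := rfl

lemma Dm_hasSum (ρ : ℝ) : HasSum (fun d : ℕ => √2 / (2 * Real.pi) * (((Pk d).card : ℝ) / (d:ℝ) ^ (3/2:ℝ) * Fv (ρ * d))) (Dm ρ) := by
  rw [phase_eq]
  exact (sum_squares ρ).mul_left _

/-- the mean is nonnegative -/
theorem Dm_nonneg (ρ : ℝ) : 0 ≤ Dm ρ := by
  rw [← (Dm_hasSum ρ).tsum_eq]
  apply tsum_nonneg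
  intro d
  have := Fv_nn (ρ * d)
  have := Real.pi_pos
  positivity

lemma one_le_P1 : 1 ≤ (Pk 1).card := by
  apply Finset.card_pos.mpr
  exact ⟨(1, 0), by rw [mem_Pk]; simp⟩

/-- the mean is positive, unless `ρ` is an integer -/
theorem Dm_pos {ρ : ℝ} (h : ∀ k : ℤ, ρ ≠ k) : 0 < Dm ρ := by
  have hs := Dm_hasSum ρ
  have h1 : √2 / (2 * Real.pi) * (((Pk 1).card : ℝ) / ((1:ℕ):ℝ) ^ (3/2:ℝ) * Fv (ρ * (1:ℕ))) ≤ Dm ρ := by
    apply le_hasSum hs 1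
    intro d _
    have := Fv_nn (ρ * d)
    have := Real.pi_pos
    positivity
  refine lt_of_lt_of_le ?_ h1
  have h2 : 0 < Fv (ρ * (1:ℕ)) := by
    rw [Nat.cast_one, mul_one, Fv_fract]
    apply Fv_pos _ (Int.fract_lt_one ρ)
    rcases (Int.fract_nonneg ρ).lt_or_eq with h3 | h3
    · exact h3
    · exfalso
      apply h ⌊ρ⌋
      have := Int.fract_add_floor ρ
      rw [← h3, zero_add] at this
      exact this.symm
  have h3 : (0:ℝ) < ((Pk 1).card : ℝ) := by exact_mod_cast one_le_P1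
  have := Real.pi_pos
  rw [Nat.cast_one, Real.one_rpow, div_one]
  rw [Nat.cast_one] at h2
  positivity

/-- at the integers the mean is zero -/
theorem Dm_int (k : ℤ) : Dm k = 0 := by
  rw [phase_eq]
  have : ∀ j : ℕ, phi ((k:ℝ) * j) = 0 := by
    intro j
    unfold phi
    have e : 2 * Real.pi * ((k:ℝ) * j) = ((k * j : ℤ) : ℝ) * (2 * Real.pi) := by push_cast; ring
    have e2 : ((k * j : ℤ) : ℝ) * (2 * Real.pi) = ((2 * (k * j) : ℤ) : ℝ) * Real.pi := by push_cast; ring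
    rw [e, Real.cos_int_mul_two_pi, e2, Real.sin_int_mul_pi]
    ring
  simp [this]

/-- **the lower bound for the mean** -/
theorem Dm_lower : ∃ c : ℝ, 0 < c ∧ ∀ ρ : ℝ, 0 < ρ → ρ ≤ 1 / 256 → c * (√ρ * Real.log (1 / ρ)) ≤ Dm ρ := by
  obtain ⟨c0, hc0, hF⟩ := Fv_sqrt
  have hpi := Real.pi_pos
  refine ⟨√2 / (2 * Real.pi) * (c0 / 64), by positivity, fun ρ hρ hρ1 => ?_⟩
  set D := ⌊1 / (2 * ρ)⌋₊ with hD
  set Y := Nat.sqrt (D / 8) with hY
  have h8 : 8 * Y ^ 2 ≤ D := by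
    have h1 : Y ^ 2 ≤ D / 8 := Nat.sqrt_le' (D / 8)
    omega
  have hD1 : (D:ℝ) ≤ 1 / (2 * ρ) := Nat.floor_le (by positivity)
  have hD2 : 1 / (2 * ρ) < D + 1 := Nat.lt_floor_add_one _
  have hY1 : 1 / (16 * ρ) ≤ ((Y:ℝ) + 1) ^ 2 := by
    have h1 : D / 8 < (Y + 1) ^ 2 := Nat.lt_succ_sqrt' (D / 8)
    have h2 : D + 1 ≤ 8 * (Y + 1) ^ 2 := by omega
    have h3 : (D:ℝ) + 1 ≤ 8 * ((Y:ℝ) + 1) ^ 2 := by exact_mod_cast h2
    have h4 : 1 / (16 * ρ) = 1 / (2 * ρ) / 8 := by rw [div_div]; congr 1; ring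
    rw [h4]
    linarith
  have hlog : Real.log (1 / ρ) / 4 ≤ Real.log ((Y:ℝ) + 1) := by
    have h1 := Real.log_le_log (by positivity) hY1
    rw [Real.log_pow] at h1
    have h2 : Real.log (1 / (16 * ρ)) = Real.log (1 / ρ) - Real.log 16 := by
      rw [← Real.log_div (by positivity) (by norm_num)]
      congr 1; field_simp
    have h3 : 2 * Real.log 16 ≤ Real.log (1 / ρ) := by
      have : Real.log ((16:ℝ) ^ 2) ≤ Real.log (1 / ρ) := by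
        apply Real.log_le_log (by norm_num)
        rw [le_div_iff₀ hρ]
        linarith
      rw [Real.log_pow] at this
      exact_mod_cast this
    push_cast at h1
    linarith
  have hsum := sum_prim h8
  have hs := Dm_hasSum ρ
  have h1 : ∑ d ∈ Finset.Icc 1 D, √2 / (2 * Real.pi) * (((Pk d).card : ℝ) / (d:ℝ) ^ (3/2:ℝ) * Fv (ρ * d)) ≤ Dm ρ := by
    apply sum_le_hasSum _ _ hs
    intro d _
    have := Fv_nn (ρ * d)
    positivity
  refine le_trans ?_ h1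
  have h2 : ∑ d ∈ Finset.Icc 1 D, √2 / (2 * Real.pi) * (c0 * √ρ) * (((Pk d).card : ℝ) / d) ≤
      ∑ d ∈ Finset.Icc 1 D, √2 / (2 * Real.pi) * (((Pk d).card : ℝ) / (d:ℝ) ^ (3/2:ℝ) * Fv (ρ * d)) := by
    apply Finset.sum_le_sum
    intro d hd
    rw [Finset.mem_Icc] at hd
    have hd0 : (0:ℝ) < d := by exact_mod_cast hd.1
    have hdD : (d:ℝ) ≤ D := by exact_mod_cast hd.2
    have h3 : ρ * d ≤ 1 / 2 := by
      have : (d:ℝ) ≤ 1 / (2 * ρ) := hdD.trans hD1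
      rw [le_div_iff₀ (by positivity)] at this
      linarith
    have h4 := hF (ρ * d) (by positivity) h3
    rw [Real.sqrt_mul hρ.le] at h4
    have h5 : (d:ℝ) ^ (3/2:ℝ) = d * √d := by
      rw [Real.sqrt_eq_rpow]
      nth_rewrite 2 [← Real.rpow_one (d:ℝ)]
      rw [← Real.rpow_add hd0]; norm_num
    have hsd : 0 < √(d:ℝ) := Real.sqrt_pos.mpr hd0
    rw [mul_assoc]
    apply mul_le_mul_of_nonneg_left _ (by positivity)
    calc c0 * √ρ * (((Pk d).card : ℝ) / d) = ((Pk d).card : ℝ) / (d:ℝ) ^ (3/2:ℝ) * (c0 * (√ρ * √d)) := by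
          rw [h5]; field_simp
      _ ≤ _ := mul_le_mul_of_nonneg_left h4 (by positivity)
  refine le_trans ?_ h2
  rw [← Finset.mul_sum]
  have h6 : √2 / (2 * Real.pi) * (c0 * √ρ) * (Real.log ((Y:ℝ) + 1) / 16) ≤
      √2 / (2 * Real.pi) * (c0 * √ρ) * ∑ d ∈ Finset.Icc 1 D, ((Pk d).card : ℝ) / d :=
    mul_le_mul_of_nonneg_left hsum (by positivity)
  refine le_trans ?_ h6
  have h7 : √2 / (2 * Real.pi) * (c0 * √ρ) * (Real.log (1 / ρ) / 4 / 16) ≤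
      √2 / (2 * Real.pi) * (c0 * √ρ) * (Real.log ((Y:ℝ) + 1) / 16) :=
    mul_le_mul_of_nonneg_left (by linarith) (by positivity)
  refine le_trans (le_of_eq ?_) h7
  ring

end Pool.Agent.Q273.TB
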