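import Mathlib
import Pool.Agent.Q273.TB4
import Pool.Agent.H383.RR

set_option autoImplicit false

/-!
The upper bound for the variance.
-/

namespace Pool.Agent.Q273.TB

open MeasureTheory Filter Topology
open Pool.Agent.H383.Gauss (rA rA_nonneg rA_le_pow rA_sq_le)
open Pool.Agent.Q273.TA (Vm vt vt_nonneg)

lemma R_le (n : ℕ) : ∑ m ∈ Finset.Icc 1 n, rA m ≤ 9 * n := by
  classical
  rcases Nat.eq_zero_or_pos n with rfl | hn
  · simp
  set s := Nat.sqrt n with hs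
  set box : Finset (ℤ × ℤ) := (Finset.Icc (-(s:ℤ)) s) ×ˢ (Finset.Icc (-(s:ℤ)) s) with hbox
  have h1 : ∀ m ∈ Finset.Icc 1 n, rA m = ((box.filter (fun p => (p.1 ^ 2 + p.2 ^ 2).toNat = m)).card : ℝ) := by
    intro m hm
    rw [Finset.mem_Icc] at hm
    rw [Pool.Agent.H383.Circ.rA_card]
    congr 1
    apply Nat.subtype_card
    intro p
    rw [Finset.mem_filter, hbox, Finset.mem_product, Finset.mem_Icc, Finset.mem_Icc]
    have hp1 : 0 ≤ p.1 ^ 2 := sq_nonneg _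
    have hp2 : 0 ≤ p.2 ^ 2 := sq_nonneg _
    constructor
    · rintro ⟨_, h⟩
      omega
    · intro h
      refine ⟨?_, by omega⟩
      have hb : ∀ a : ℤ, a ^ 2 ≤ n → -(s:ℤ) ≤ a ∧ a ≤ s := by
        intro a ha
        have h2 : a.natAbs ^ 2 ≤ n := by
          have : ((a.natAbs ^ 2 : ℕ) : ℤ) = a ^ 2 := by push_cast; exact sq_abs a
          omega
        have h3 : a.natAbs ≤ s := Nat.le_sqrt'.mpr h2
        omega
      exact ⟨hb p.1 (by omega), hb p.2 (by omega)⟩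
  rw [Finset.sum_congr rfl h1]
  have h2 : ∑ m ∈ Finset.Icc 1 n, (box.filter (fun p => (p.1 ^ 2 + p.2 ^ 2).toNat = m)).card ≤ box.card := by
    rw [Finset.sum_card_fiberwise_eq_card_filter]
    exact Finset.card_filter_le _ _
  have h3 : box.card = (2 * s + 1) ^ 2 := by
    rw [hbox, Finset.card_product, Int.card_Icc]
    have : ((s:ℤ) + 1 - -(s:ℤ)).toNat = 2 * s + 1 := by omega
    rw [this]; ring
  have h4 : s ^ 2 ≤ n := Nat.sqrt_le' n
  have h5 : 1 ≤ s := Nat.sqrt_pos.mpr hn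
  have h6 : (2 * s + 1) ^ 2 ≤ 9 * n := by nlinarith
  have h7 := h2.trans (h3.le.trans h6)
  exact_mod_cast h7

/-- partial summation -/
lemma abel_le {r g : ℕ → ℝ} {C : ℝ} (hR : ∀ n : ℕ, ∑ m ∈ Finset.Icc 1 n, r m ≤ C * n)
    (hg : ∀ m, 1 ≤ m → g (m+1) ≤ g m) (hg0 : ∀ m, 1 ≤ m → 0 ≤ g m) (M : ℕ) :
    ∑ m ∈ Finset.Icc 1 M, r m * g m ≤ C * ∑ m ∈ Finset.Icc 1 M, g m := by
  have hQ : ∀ n : ℕ, ∑ m ∈ Finset.Icc 1 n, (r m - C) ≤ 0 := by
    intro n
    rw [Finset.sum_sub_distrib, Finset.sum_const, Nat.card_Icc, nsmul_eq_mul]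
    have := hR n
    simp only [add_tsub_cancel_right]
    linarith
  have key : ∀ n : ℕ, ∑ m ∈ Finset.Icc 1 (n+1), (r m - C) * g m ≤ g (n+1) * ∑ m ∈ Finset.Icc 1 (n+1), (r m - C) := by
    intro n
    induction n with
    | zero => simp; exact le_of_eq (by ring)
    | succ n ih =>
      rw [Finset.sum_Icc_succ_top (show 1 ≤ n + 1 + 1 by omega) (fun m => (r m - C) * g m),
        Finset.sum_Icc_succ_top (show 1 ≤ n + 1 + 1 by omega) (fun m => r m - C)]
      have h1 := hg (n+1) (by omega)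
      have h2 := hQ (n+1)
      nlinarith
  have h3 : ∑ m ∈ Finset.Icc 1 M, (r m - C) * g m ≤ 0 := by
    rcases M with _ | n
    · simp
    · refine (key n).trans ?_
      exact mul_nonpos_of_nonneg_of_nonpos (hg0 _ (by omega)) (hQ _)
  have h4 : ∑ m ∈ Finset.Icc 1 M, (r m - C) * g m = ∑ m ∈ Finset.Icc 1 M, r m * g m - C * ∑ m ∈ Finset.Icc 1 M, g m := by
    rw [Finset.mul_sum, ← Finset.sum_sub_distrib]
    apply Finset.sum_congr rfl
    intro m _; ring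
  linarith

/-- the weight -/
noncomputable def ww (l : ℝ) (x : ℝ) : ℝ := min (1 / (x * √x)) (l / √x)

lemma ww_nonneg {l x : ℝ} (hl : 0 ≤ l) (hx : 0 ≤ x) : 0 ≤ ww l x := by
  unfold ww
  exact le_min (by positivity) (by positivity)

lemma ww_anti {l x y : ℝ} (hl : 0 ≤ l) (hx : 0 < x) (hxy : x ≤ y) : ww l y ≤ ww l x := by
  unfold ww
  have hs : 0 < √x := Real.sqrt_pos.mpr hx
  have h1 : √x ≤ √y := Real.sqrt_le_sqrt hxy
  apply min_le_min
  · apply one_div_le_one_div_of_le (by positivity)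
    exact mul_le_mul hxy h1 hs.le (hx.le.trans hxy)
  · exact div_le_div_of_nonneg_left hl hs h1

lemma ww_mul {l a b : ℝ} (ha : 0 < a) (hb : 0 < b) : ww l (a * b) = 1 / (a * √a) * ww (l * a) b := by
  unfold ww
  have hs : 0 < √a := Real.sqrt_pos.mpr ha
  have hs2 : 0 < √b := Real.sqrt_pos.mpr hb
  rw [mul_min_of_nonneg _ _ (by positivity), Real.sqrt_mul ha.le]
  congr 1
  · field_simp
  · field_simp

lemma tel1 (B : ℕ) : ∑ b ∈ Finset.Icc 1 B, 1 / √(b:ℝ) ≤ 2 * √(B:ℝ) := by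
  induction B with
  | zero => simp
  | succ B ih =>
    rw [Finset.sum_Icc_succ_top (by omega)]
    have h0 : (0:ℝ) ≤ B := Nat.cast_nonneg B
    have h1 : 0 < √((B:ℝ) + 1) := Real.sqrt_pos.mpr (by positivity)
    have h2 : √(B:ℝ) ≤ √((B:ℝ) + 1) := Real.sqrt_le_sqrt (by linarith)
    have h3 := Real.sq_sqrt h0
    have h4 := Real.sq_sqrt (by positivity : 0 ≤ (B:ℝ) + 1)
    have h5 : 1 / √((B:ℝ) + 1) ≤ 2 * (√((B:ℝ) + 1) - √(B:ℝ)) := by
      rw [div_le_iff₀ h1]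
      nlinarith [sq_nonneg (√((B:ℝ) + 1) - √(B:ℝ))]
    push_cast
    linarith

lemma tel2 {B : ℕ} (hB : 1 ≤ B) (M : ℕ) : ∑ b ∈ Finset.Icc B M, 1 / ((b:ℝ) * √(b:ℝ)) ≤ 6 / √(B:ℝ) := by
  have key : ∀ n : ℕ, ∑ b ∈ Finset.Ico B (B + n), 1 / ((b:ℝ) * √(b:ℝ)) ≤ 6 * (1 / √(B:ℝ) - 1 / √((B:ℝ) + n)) := by
    intro n
    induction n with
    | zero => simp
    | succ n ih =>
      rw [← add_assoc, Finset.sum_Ico_succ_top (by omega)]
      have h0 : (1:ℝ) ≤ (B:ℝ) + n := by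
        have : (1:ℝ) ≤ B := by exact_mod_cast hB
        have : (0:ℝ) ≤ n := Nat.cast_nonneg n
        linarith
      set x : ℝ := (B:ℝ) + n with hx
      have e1 : (((B + n : ℕ)) : ℝ) = x := by rw [hx]; push_cast; ring
      have e2 : (B:ℝ) + ((n + 1 : ℕ) : ℝ) = x + 1 := by rw [hx]; push_cast; ring
      rw [e1, e2]
      have hs : 0 < √x := Real.sqrt_pos.mpr (by linarith)
      have hs1 : 0 < √(x+1) := Real.sqrt_pos.mpr (by linarith)
      have h3 := Real.sq_sqrt (by linarith : 0 ≤ x)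
      have h4 := Real.sq_sqrt (by linarith : 0 ≤ x + 1)
      have h5 : √(x + 1) ≤ 2 * √x := by
        apply Real.sqrt_le_iff.mpr
        refine ⟨by positivity, ?_⟩
        rw [mul_pow, h3]; linarith
      have h6 : √(x+1) ≤ 3/2 * √x := by
        apply Real.sqrt_le_iff.mpr
        refine ⟨by positivity, ?_⟩
        rw [mul_pow, h3]; linarith
      have h7 : 1 / (x * √x) ≤ 6 * (1 / √x - 1 / √(x+1)) := by
        rw [div_sub_div _ _ hs.ne' hs1.ne', one_mul, mul_one, ← mul_div_assoc, div_le_div_iff₀ (by positivity) (by positivity)]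
        have h8 : 1 = (√(x+1) - √x) * (√(x+1) + √x) := by nlinarith
        have h9 : 0 ≤ √(x+1) - √x := by
          have := Real.sqrt_le_sqrt (by linarith : x ≤ x + 1)
          linarith
        have h10 : (√(x+1) + √x) * √(x+1) ≤ 6 * x := by
          nlinarith
        have h11 : 1 * (√x * √(x+1)) = (√(x+1) - √x) * √x * ((√(x+1) + √x) * √(x+1)) := by
          nth_rewrite 1 [h8]; ring
        rw [h11]
        have h12 : (√(x+1) - √x) * √x * ((√(x+1) + √x) * √(x+1)) ≤ (√(x+1) - √x) * √x * (6 * x) :=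
          mul_le_mul_of_nonneg_left h10 (by positivity)
        refine h12.trans (le_of_eq (by ring))
      linarith
  rcases Nat.lt_or_ge M B with h | h
  · rw [Finset.Icc_eq_empty (by omega), Finset.sum_empty]
    positivity
  · obtain ⟨n, rfl⟩ := Nat.exists_eq_add_of_le h
    have h1 := key (n+1)
    have h2 : Finset.Ico B (B + (n+1)) = Finset.Icc B (B + n) := by
      ext x; rw [Finset.mem_Ico, Finset.mem_Icc]; omega
    rw [h2] at h1
    refine h1.trans ?_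
    have h3 : 0 ≤ 1 / √((B:ℝ) + ((n+1 : ℕ) : ℝ)) := by positivity
    rw [div_eq_mul_one_div 6]
    linarith

lemma sum_ww {l : ℝ} (hl : 0 < l) (M : ℕ) : ∑ b ∈ Finset.Icc 1 M, ww l (b:ℝ) ≤ 8 * √l := by
  set T := ⌊1 / l⌋₊ with hT
  have hsl : 0 < √l := Real.sqrt_pos.mpr hl
  have hsq : √l * √l = l := Real.mul_self_sqrt hl.le
  have hT1 : (T:ℝ) ≤ 1 / l := Nat.floor_le (by positivity)
  have hT2 : 1 / l < T + 1 := Nat.lt_floor_add_one _
  have h1 : ∑ b ∈ Finset.Icc 1 M, ww l (b:ℝ) ≤ ∑ b ∈ Finset.Icc 1 T, l * (1 / √(b:ℝ)) +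
      ∑ b ∈ Finset.Icc (T+1) M, 1 / ((b:ℝ) * √(b:ℝ)) := by
    have h2 : ∑ b ∈ Finset.Icc 1 M, ww l (b:ℝ) ≤ ∑ b ∈ (Finset.Icc 1 T) ∪ (Finset.Icc (T+1) M), ww l (b:ℝ) := by
      apply Finset.sum_le_sum_of_subset_of_nonneg
      · intro x hx
        rw [Finset.mem_Icc] at hx
        rw [Finset.mem_union, Finset.mem_Icc, Finset.mem_Icc]
        omega
      · intro b _ _
        exact ww_nonneg hl.le (Nat.cast_nonneg b)
    refine h2.trans ?_
    rw [Finset.sum_union (by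
      rw [Finset.disjoint_left]
      intro x hx hy
      rw [Finset.mem_Icc] at hx hy
      omega)]
    apply add_le_add
    · apply Finset.sum_le_sum
      intro b _
      rw [mul_one_div]
      exact min_le_right _ _
    · apply Finset.sum_le_sum
      intro b _
      exact min_le_left _ _
  have h3 : ∑ b ∈ Finset.Icc 1 T, l * (1 / √(b:ℝ)) ≤ 2 * √l := by
    rw [← Finset.mul_sum]
    have h4 := mul_le_mul_of_nonneg_left (tel1 T) hl.le
    have h5 : √(T:ℝ) ≤ 1 / √l := by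
      rw [← Real.sqrt_one, ← Real.sqrt_div (by norm_num)]
      exact Real.sqrt_le_sqrt hT1
    have h6 : l * (2 * √(T:ℝ)) ≤ l * (2 * (1 / √l)) := by gcongr
    have h7 : l * (2 * (1 / √l)) = 2 * √l := by
      nth_rewrite 1 [← hsq]
      field_simp
    linarith
  have h8 : ∑ b ∈ Finset.Icc (T+1) M, 1 / ((b:ℝ) * √(b:ℝ)) ≤ 6 * √l := by
    refine (tel2 (by omega) M).trans ?_
    have h9 : 1 / √l ≤ √((T+1 : ℕ):ℝ) := by
      rw [← Real.sqrt_one, ← Real.sqrt_div (by norm_num)]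
      apply Real.sqrt_le_sqrt
      push_cast
      exact hT2.le
    have h10 : 0 < 1 / √l := by positivity
    calc 6 / √((T+1 : ℕ):ℝ) ≤ 6 / (1 / √l) := div_le_div_of_nonneg_left (by norm_num) h10 h9
      _ = 6 * √l := by field_simp
  linarith

lemma sum_ww2 {l : ℝ} (hl : 0 < l) (hl1 : l ≤ 1) (M : ℕ) :
    ∑ a ∈ Finset.Icc 1 M, ∑ b ∈ Finset.Icc 1 M, ww l ((a:ℝ) * b) ≤ 8 * √l * (1 + Real.log (1 / l)) + 36 * √l := by
  set T := ⌊1 / l⌋₊ with hT
  have hsl : 0 < √l := Real.sqrt_pos.mpr hl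
  have hT1 : (T:ℝ) ≤ 1 / l := Nat.floor_le (by positivity)
  have hT2 : 1 / l < T + 1 := Nat.lt_floor_add_one _
  have hin1 : ∀ a : ℕ, 1 ≤ a → ∑ b ∈ Finset.Icc 1 M, ww l ((a:ℝ) * b) ≤ 8 * √l * (1 / a) := by
    intro a ha
    have ha0 : (0:ℝ) < a := by exact_mod_cast ha
    have hsa : 0 < √(a:ℝ) := Real.sqrt_pos.mpr ha0
    have h1 : ∑ b ∈ Finset.Icc 1 M, ww l ((a:ℝ) * b) = 1 / ((a:ℝ) * √(a:ℝ)) * ∑ b ∈ Finset.Icc 1 M, ww (l * a) (b:ℝ) := by
      rw [Finset.mul_sum]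
      apply Finset.sum_congr rfl
      intro b hb
      rw [Finset.mem_Icc] at hb
      exact ww_mul ha0 (by exact_mod_cast hb.1)
    rw [h1]
    have h2 := mul_le_mul_of_nonneg_left (sum_ww (by positivity : 0 < l * a) M) (by positivity : 0 ≤ 1 / ((a:ℝ) * √(a:ℝ)))
    refine h2.trans (le_of_eq ?_)
    rw [Real.sqrt_mul hl.le]
    field_simp
  have hin2 : ∀ a : ℕ, 1 ≤ a → ∑ b ∈ Finset.Icc 1 M, ww l ((a:ℝ) * b) ≤ 6 * (1 / ((a:ℝ) * √(a:ℝ))) := by
    intro a ha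
    have ha0 : (0:ℝ) < a := by exact_mod_cast ha
    have hsa : 0 < √(a:ℝ) := Real.sqrt_pos.mpr ha0
    have h1 : ∑ b ∈ Finset.Icc 1 M, ww l ((a:ℝ) * b) ≤ 1 / ((a:ℝ) * √(a:ℝ)) * ∑ b ∈ Finset.Icc 1 M, 1 / ((b:ℝ) * √(b:ℝ)) := by
      rw [Finset.mul_sum]
      apply Finset.sum_le_sum
      intro b hb
      rw [Finset.mem_Icc] at hb
      rw [ww_mul ha0 (by exact_mod_cast hb.1)]
      exact mul_le_mul_of_nonneg_left (min_le_left _ _) (by positivity)
    refine h1.trans ?_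
    have h2 := tel2 le_rfl M
    rw [Nat.cast_one, Real.sqrt_one, div_one] at h2
    have h3 := mul_le_mul_of_nonneg_left h2 (by positivity : 0 ≤ 1 / ((a:ℝ) * √(a:ℝ)))
    linarith
  have h1 : ∑ a ∈ Finset.Icc 1 M, ∑ b ∈ Finset.Icc 1 M, ww l ((a:ℝ) * b) ≤ ∑ a ∈ Finset.Icc 1 T, 8 * √l * (1 / (a:ℝ)) +
      ∑ a ∈ Finset.Icc (T+1) M, 6 * (1 / ((a:ℝ) * √(a:ℝ))) := by
    have h2 : ∑ a ∈ Finset.Icc 1 M, ∑ b ∈ Finset.Icc 1 M, ww l ((a:ℝ) * b) ≤
        ∑ a ∈ (Finset.Icc 1 T) ∪ (Finset.Icc (T+1) M), ∑ b ∈ Finset.Icc 1 M, ww l ((a:ℝ) * b) := by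
      apply Finset.sum_le_sum_of_subset_of_nonneg
      · intro x hx
        rw [Finset.mem_Icc] at hx
        rw [Finset.mem_union, Finset.mem_Icc, Finset.mem_Icc]
        omega
      · intro a _ _
        apply Finset.sum_nonneg
        intro b _
        exact ww_nonneg hl.le (by positivity)
    refine h2.trans ?_
    rw [Finset.sum_union (by
      rw [Finset.disjoint_left]
      intro x hx hy
      rw [Finset.mem_Icc] at hx hy
      omega)]
    apply add_le_add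
    · apply Finset.sum_le_sum
      intro a ha
      exact hin1 a (Finset.mem_Icc.mp ha).1
    · apply Finset.sum_le_sum
      intro a ha
      exact hin2 a (by have := (Finset.mem_Icc.mp ha).1; omega)
  have h3 : ∑ a ∈ Finset.Icc 1 T, 8 * √l * (1 / (a:ℝ)) ≤ 8 * √l * (1 + Real.log (1 / l)) := by
    rw [← Finset.mul_sum]
    apply mul_le_mul_of_nonneg_left _ (by positivity)
    have h4 := harmonic_floor_le_one_add_log (1 / l) (by rw [le_div_iff₀ hl]; linarith)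
    rw [← hT, harmonic_eq_sum_Icc] at h4
    push_cast at h4
    simpa [one_div] using h4
  have h8 : ∑ b ∈ Finset.Icc (T+1) M, 6 * (1 / ((b:ℝ) * √(b:ℝ))) ≤ 36 * √l := by
    rw [← Finset.mul_sum]
    have h9 : 1 / √l ≤ √((T+1 : ℕ):ℝ) := by
      rw [← Real.sqrt_one, ← Real.sqrt_div (by norm_num)]
      apply Real.sqrt_le_sqrt
      push_cast
      exact hT2.le
    have h10 : 0 < 1 / √l := by positivity
    have h11 : ∑ b ∈ Finset.Icc (T+1) M, 1 / ((b:ℝ) * √(b:ℝ)) ≤ 6 * √l := by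
      refine (tel2 (by omega) M).trans ?_
      calc 6 / √((T+1 : ℕ):ℝ) ≤ 6 / (1 / √l) := div_le_div_of_nonneg_left (by norm_num) h10 h9
        _ = 6 * √l := by field_simp
    linarith
  linarith

/-- the sum of the squares -/
lemma sum_sq {w : ℝ → ℝ} (hw0 : ∀ x, 0 ≤ x → 0 ≤ w x) (hwa : ∀ x y, 0 < x → x ≤ y → w y ≤ w x) (M : ℕ) :
    ∑ m ∈ Finset.Icc 1 M, rA m ^ 2 * w m ≤ 81 * ∑ a ∈ Finset.Icc 1 M, ∑ b ∈ Finset.Icc 1 M, w ((a:ℝ) * b) := by
  set f : ℕ × ℕ → ℝ := fun x => rA x.1 * rA x.2 * w ((x.1:ℝ) * x.2) with hf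
  have hf0 : ∀ x, 0 ≤ f x := fun x => mul_nonneg (mul_nonneg (rA_nonneg _) (rA_nonneg _)) (hw0 _ (by positivity))
  have h1 : ∑ m ∈ Finset.Icc 1 M, rA m ^ 2 * w m ≤ ∑ m ∈ Finset.Icc 1 M, ∑ x ∈ m.divisorsAntidiagonal, f x := by
    apply Finset.sum_le_sum
    intro m hm
    rw [Finset.mem_Icc] at hm
    have h2 := mul_le_mul_of_nonneg_right (rA_sq_le hm.1) (hw0 m (Nat.cast_nonneg m))
    refine h2.trans (le_of_eq ?_)
    rw [Finset.sum_mul]
    apply Finset.sum_congr rfl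
    intro x hx
    rw [Nat.mem_divisorsAntidiagonal] at hx
    have e : (m:ℝ) = x.1 * x.2 := by rw [← hx.1]; push_cast; rfl
    simp only [hf]
    rw [e]
  have h2 : ∑ m ∈ Finset.Icc 1 M, ∑ x ∈ m.divisorsAntidiagonal, f x =
      ∑ x ∈ (Finset.Icc 1 M ×ˢ Finset.Icc 1 M).filter (fun x => x.1 * x.2 ≤ M), f x := by
    rw [← Finset.sum_fiberwise_of_maps_to (s := (Finset.Icc 1 M ×ˢ Finset.Icc 1 M).filter (fun x => x.1 * x.2 ≤ M))
      (t := Finset.Icc 1 M) (g := fun x => x.1 * x.2) (fun x hx => by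
        rw [Finset.mem_filter, Finset.mem_product, Finset.mem_Icc, Finset.mem_Icc] at hx
        rw [Finset.mem_Icc]
        exact ⟨Nat.mul_pos hx.1.1.1 hx.1.2.1, hx.2⟩) f]
    apply Finset.sum_congr rfl
    intro n hn
    rw [Finset.mem_Icc] at hn
    congr 1
    ext x
    rw [Finset.mem_filter, Finset.mem_filter, Finset.mem_product, Finset.mem_Icc, Finset.mem_Icc,
      Nat.mem_divisorsAntidiagonal]
    constructor
    · rintro ⟨h, h'⟩
      have hx1 : x.1 ≠ 0 := by rintro h0; rw [h0, zero_mul] at h; omega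
      have hx2 : x.2 ≠ 0 := by rintro h0; rw [h0, mul_zero] at h; omega
      have hx3 : x.1 ≤ n := by rw [← h]; exact Nat.le_mul_of_pos_right _ (Nat.pos_of_ne_zero hx2)
      have hx4 : x.2 ≤ n := by rw [← h]; exact Nat.le_mul_of_pos_left _ (Nat.pos_of_ne_zero hx1)
      exact ⟨⟨⟨⟨by omega, by omega⟩, ⟨by omega, by omega⟩⟩, by omega⟩, h⟩
    · rintro ⟨_, h⟩; exact ⟨h, by omega⟩
  have h3 : ∑ x ∈ (Finset.Icc 1 M ×ˢ Finset.Icc 1 M).filter (fun x => x.1 * x.2 ≤ M), f x ≤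
      ∑ x ∈ Finset.Icc 1 M ×ˢ Finset.Icc 1 M, f x :=
    Finset.sum_le_sum_of_subset_of_nonneg (Finset.filter_subset _ _) (fun x _ _ => hf0 x)
  have h4 : ∑ x ∈ Finset.Icc 1 M ×ˢ Finset.Icc 1 M, f x =
      ∑ a ∈ Finset.Icc 1 M, rA a * ∑ b ∈ Finset.Icc 1 M, rA b * w ((a:ℝ) * b) := by
    rw [Finset.sum_product]
    apply Finset.sum_congr rfl
    intro a _
    rw [Finset.mul_sum]
    apply Finset.sum_congr rfl
    intro b _
    simp only [hf]
    ring
  have h5 : ∑ a ∈ Finset.Icc 1 M, rA a * ∑ b ∈ Finset.Icc 1 M, rA b * w ((a:ℝ) * b) ≤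
      ∑ a ∈ Finset.Icc 1 M, rA a * (9 * ∑ b ∈ Finset.Icc 1 M, w ((a:ℝ) * b)) := by
    apply Finset.sum_le_sum
    intro a ha
    rw [Finset.mem_Icc] at ha
    have ha0 : (0:ℝ) < a := by exact_mod_cast ha.1
    apply mul_le_mul_of_nonneg_left _ (rA_nonneg a)
    apply abel_le (g := fun b : ℕ => w ((a:ℝ) * b)) R_le
    · intro m hm
      have hm0 : (0:ℝ) < m := by exact_mod_cast hm
      apply hwa _ _ (by positivity)
      push_cast
      nlinarith
    · intro m _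
      exact hw0 _ (by positivity)
  have h6 : ∑ a ∈ Finset.Icc 1 M, rA a * (9 * ∑ b ∈ Finset.Icc 1 M, w ((a:ℝ) * b)) =
      9 * ∑ b ∈ Finset.Icc 1 M, ∑ a ∈ Finset.Icc 1 M, rA a * w ((a:ℝ) * b) := by
    rw [Finset.sum_comm, Finset.mul_sum]
    apply Finset.sum_congr rfl
    intro a _
    rw [Finset.mul_sum, Finset.mul_sum, Finset.mul_sum]
    apply Finset.sum_congr rfl
    intro b _
    ring
  have h7 : ∑ b ∈ Finset.Icc 1 M, ∑ a ∈ Finset.Icc 1 M, rA a * w ((a:ℝ) * b) ≤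
      ∑ b ∈ Finset.Icc 1 M, 9 * ∑ a ∈ Finset.Icc 1 M, w ((a:ℝ) * b) := by
    apply Finset.sum_le_sum
    intro b hb
    rw [Finset.mem_Icc] at hb
    have hb0 : (0:ℝ) < b := by exact_mod_cast hb.1
    apply abel_le (g := fun a : ℕ => w ((a:ℝ) * b)) R_le
    · intro m hm
      have hm0 : (0:ℝ) < m := by exact_mod_cast hm
      apply hwa _ _ (by positivity)
      push_cast
      nlinarith
    · intro m _
      exact hw0 _ (by positivity)
  have h8 : ∑ b ∈ Finset.Icc 1 M, 9 * ∑ a ∈ Finset.Icc 1 M, w ((a:ℝ) * b) =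
      9 * ∑ a ∈ Finset.Icc 1 M, ∑ b ∈ Finset.Icc 1 M, w ((a:ℝ) * b) := by
    rw [← Finset.mul_sum, Finset.sum_comm]
  linarith

/-- **the upper bound for the variance** -/
theorem Vm_upper : ∃ C : ℝ, 0 < C ∧ ∀ ρ : ℝ, 0 < ρ → ρ ≤ 1 / 256 → Vm ρ ≤ C * (ρ * Real.log (1 / ρ)) := by
  have hpi := Real.pi_pos
  refine ⟨2 / Real.pi ^ 2 * 81 * (60 * Real.pi), by positivity, fun ρ hρ hρ1 => ?_⟩
  set l := (Real.pi * ρ) ^ 2 with hl
  have hl0 : 0 < l := by positivity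
  have hsl : √l = Real.pi * ρ := Real.sqrt_sq (by positivity)
  have hpr : Real.pi * ρ ≤ 1 := by
    have := Real.pi_lt_four
    nlinarith
  have hl1 : l ≤ 1 := by rw [hl]; exact pow_le_one₀ (by positivity) hpr
  have hlog1 : 1 ≤ Real.log (1 / ρ) := by
    rw [Real.le_log_iff_exp_le (by positivity)]
    have h1 := Real.exp_one_lt_d9
    have h2 : 256 ≤ 1 / ρ := by rw [le_div_iff₀ hρ]; linarith
    linarith
  have hlogl : Real.log (1 / l) ≤ 2 * Real.log (1 / ρ) := by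
    have h1 : 1 / l ≤ (1 / ρ) ^ 2 := by
      rw [hl, div_pow, one_pow]
      apply one_div_le_one_div_of_le (by positivity)
      rw [mul_pow]
      have : 1 ≤ Real.pi ^ 2 := by nlinarith [Real.pi_gt_three]
      nlinarith [sq_nonneg ρ]
    have h2 := Real.log_le_log (by positivity) h1
    rw [Real.log_pow] at h2
    exact_mod_cast h2
  have hpart : ∀ M : ℕ, ∑ m ∈ Finset.Icc 1 M, rA m ^ 2 * ww l m ≤ 81 * (60 * Real.pi * (ρ * Real.log (1 / ρ))) := by
    intro M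
    refine (sum_sq (fun x hx => ww_nonneg hl0.le hx) (fun x y hx hxy => ww_anti hl0.le hx hxy) M).trans ?_
    apply mul_le_mul_of_nonneg_left _ (by norm_num)
    refine (sum_ww2 hl0 hl1 M).trans ?_
    rw [hsl]
    have hp : 0 < Real.pi * ρ := by positivity
    have h1 : 8 * (Real.pi * ρ) * (1 + Real.log (1 / l)) ≤ 8 * (Real.pi * ρ) * (3 * Real.log (1 / ρ)) :=
      mul_le_mul_of_nonneg_left (by linarith) (by positivity)
    have h2 : 36 * (Real.pi * ρ) ≤ 36 * (Real.pi * ρ) * Real.log (1 / ρ) := le_mul_of_one_le_right (by positivity) hlog1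
    linarith
  have hvt : ∀ m : ℕ, 1 ≤ m → vt ρ m ≤ rA m ^ 2 * ww l m := by
    intro m hm
    have hm0 : (0:ℝ) < m := by exact_mod_cast hm
    have hsm : 0 < √(m:ℝ) := Real.sqrt_pos.mpr hm0
    have hw := ww_nonneg hl0.le hm0.le
    unfold vt
    split_ifs with h
    · positivity
    · have h5 : (m:ℝ) ^ (3/2:ℝ) = m * √m := by
        rw [Real.sqrt_eq_rpow]
        nth_rewrite 2 [← Real.rpow_one (m:ℝ)]
        rw [← Real.rpow_add hm0]; norm_num
      rw [h5, div_mul_eq_mul_div, mul_div_assoc]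
      apply mul_le_mul_of_nonneg_left _ (sq_nonneg _)
      unfold ww
      apply le_min
      · apply div_le_div_of_nonneg_right _ (by positivity)
        exact Real.sin_sq_le_one _
      · rw [div_le_div_iff₀ (by positivity) hsm]
        have h6 : Real.sin (Real.pi * (ρ * √(m:ℝ))) ^ 2 ≤ l * m := by
          have h7 : |Real.sin (Real.pi * (ρ * √(m:ℝ)))| ≤ |Real.pi * (ρ * √(m:ℝ))| := Real.abs_sin_le_abs
          have h8 : l * m = (Real.pi * (ρ * √(m:ℝ))) ^ 2 := by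
            rw [hl, mul_pow, mul_pow, mul_pow, Real.sq_sqrt hm0.le]; ring
          rw [h8]
          exact sq_le_sq.mpr h7
        calc Real.sin (Real.pi * (ρ * √(m:ℝ))) ^ 2 * √(m:ℝ) ≤ l * m * √(m:ℝ) := mul_le_mul_of_nonneg_right h6 hsm.le
          _ = l * (m * √(m:ℝ)) := by ring
  have htsum : ∑' m : ℕ, vt ρ m ≤ 81 * (60 * Real.pi * (ρ * Real.log (1 / ρ))) := by
    apply Real.tsum_le_of_sum_range_le (fun m => vt_nonneg ρ m)
    intro n
    have h1 : ∑ m ∈ Finset.range n, vt ρ m ≤ ∑ m ∈ Finset.Icc 1 n, vt ρ m := by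
      have h2 : ∑ m ∈ Finset.range (n+1), vt ρ m = vt ρ 0 + ∑ m ∈ Finset.Icc 1 n, vt ρ m := by
        rw [Finset.range_eq_Ico, Finset.sum_eq_sum_Ico_succ_bot (by omega)]
        rfl
      have h3 := Finset.sum_range_succ (fun m => vt ρ m) n
      have h4 := vt_nonneg ρ n
      have h5 := Pool.Agent.Q273.TA.vt_zero ρ
      rw [h5] at h2
      linarith
    refine h1.trans (le_trans ?_ (hpart n))
    apply Finset.sum_le_sum
    intro m hm
    exact hvt m (Finset.mem_Icc.mp hm).1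
  unfold Vm
  have h9 := mul_le_mul_of_nonneg_left htsum (by positivity : 0 ≤ 2 / Real.pi ^ 2)
  refine h9.trans (le_of_eq ?_)
  ring

end Pool.Agent.Q273.TB
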