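import Mathlib
import Pool.Agent.Q273.TB5

set_option autoImplicit false

/-!
The upper bound for the mean.
-/

namespace Pool.Agent.Q273.TB

open MeasureTheory Filter Topology
open Pool.Agent.H383.Gauss (rA rA_nonneg rA_le_pow rA_sq_le)
open Pool.Agent.Q273.TA (Dm)

/-- the number of primitive points -/
lemma Pk_le_rA (d : ℕ) (hd : 1 ≤ d) : ((Pk d).card : ℝ) ≤ 2 * rA d := by
  classical
  set s := Nat.sqrt d with hs
  set B : Finset (ℤ × ℤ) := ((Finset.Icc (-(s:ℤ)) s) ×ˢ (Finset.Icc (-(s:ℤ)) s)).filter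
    (fun p => p.1 ^ 2 + p.2 ^ 2 = (d:ℤ)) with hB
  have hmem : ∀ p : ℤ × ℤ, p ∈ B ↔ p.1 ^ 2 + p.2 ^ 2 = (d:ℤ) := by
    intro p
    rw [hB, Finset.mem_filter, Finset.mem_product, Finset.mem_Icc, Finset.mem_Icc]
    constructor
    · exact fun h => h.2
    · intro h
      have hp1 : 0 ≤ p.1 ^ 2 := sq_nonneg _
      have hp2 : 0 ≤ p.2 ^ 2 := sq_nonneg _
      have hb : ∀ a : ℤ, a ^ 2 ≤ d → -(s:ℤ) ≤ a ∧ a ≤ s := by
        intro a ha
        have h2 : a.natAbs ^ 2 ≤ d := by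
          have : ((a.natAbs ^ 2 : ℕ) : ℤ) = a ^ 2 := by push_cast; exact sq_abs a
          omega
        have h3 : a.natAbs ≤ s := Nat.le_sqrt'.mpr h2
        omega
      exact ⟨⟨hb p.1 (by omega), hb p.2 (by omega)⟩, h⟩
  have hcard : rA d = (B.card : ℝ) := by
    rw [Pool.Agent.H383.Circ.rA_card]
    congr 1
    apply Nat.subtype_card
    exact hmem
  have hsub : Pk d ⊆ B.image (fun p => (p.1 ^ 2 - p.2 ^ 2, 2 * p.1 * p.2)) ∪
      B.image (fun p => (2 * p.1 * p.2, p.1 ^ 2 - p.2 ^ 2)) := by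
    intro p hp
    rw [mem_Pk] at hp
    have hP : PythagoreanTriple p.1 p.2 (d:ℤ) := by
      unfold PythagoreanTriple
      have := hp.1
      linarith [this, sq p.1, sq p.2, sq (d:ℤ)]
    obtain ⟨m, n, h1, h2, -, -⟩ := PythagoreanTriple.coprime_classification.mp ⟨hP, hp.2⟩
    have h3 : m ^ 2 + n ^ 2 = (d:ℤ) := by
      rcases h2 with h2 | h2
      · exact h2.symm
      · exfalso
        have : (0:ℤ) < d := by exact_mod_cast hd
        nlinarith [sq_nonneg m, sq_nonneg n]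
    rw [Finset.mem_union, Finset.mem_image, Finset.mem_image]
    rcases h1 with ⟨h4, h5⟩ | ⟨h4, h5⟩
    · left
      exact ⟨(m, n), (hmem _).mpr h3, Prod.ext h4.symm h5.symm⟩
    · right
      exact ⟨(m, n), (hmem _).mpr h3, Prod.ext h4.symm h5.symm⟩
  have h1 := Finset.card_le_card hsub
  have h2 := (Finset.card_union_le (B.image (fun p => (p.1 ^ 2 - p.2 ^ 2, 2 * p.1 * p.2)))
      (B.image (fun p => (2 * p.1 * p.2, p.1 ^ 2 - p.2 ^ 2))))
  have h3 := Finset.card_image_le (s := B) (f := fun p => (p.1 ^ 2 - p.2 ^ 2, 2 * p.1 * p.2))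
  have h4 := Finset.card_image_le (s := B) (f := fun p => (2 * p.1 * p.2, p.1 ^ 2 - p.2 ^ 2))
  rw [hcard]
  have h5 : (Pk d).card ≤ 2 * B.card := by omega
  exact_mod_cast h5

lemma rpow32' {m : ℕ} (hm : 1 ≤ m) : (m:ℝ) ^ (3/2:ℝ) = m * √m := by
  have hm0 : (0:ℝ) < m := by exact_mod_cast hm
  rw [Real.sqrt_eq_rpow]
  nth_rewrite 2 [← Real.rpow_one (m:ℝ)]
  rw [← Real.rpow_add hm0]; norm_num

lemma phi_le_lin {x : ℝ} (hx : 0 ≤ x) : |phi x| ≤ 13 * x := by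
  unfold phi
  have hpi := Real.pi_pos
  have hpi2 := Real.pi_lt_d2
  have h1 : |1 - Real.cos (2 * Real.pi * x)| ≤ 2 * Real.pi * x := by
    rw [abs_of_nonneg (by linarith [Real.cos_le_one (2 * Real.pi * x)])]
    rcases le_or_gt (2 * Real.pi * x) 2 with h | h
    · have := Real.one_sub_sq_div_two_le_cos (x := 2 * Real.pi * x)
      have : 0 ≤ 2 * Real.pi * x := by positivity
      nlinarith
    · linarith [Real.neg_one_le_cos (2 * Real.pi * x)]
  have h2 : |Real.sin (2 * Real.pi * x)| ≤ 2 * Real.pi * x := by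
    refine Real.abs_sin_le_abs.trans (le_of_eq (abs_of_nonneg (by positivity)))
  calc |1 - Real.cos (2 * Real.pi * x) + Real.sin (2 * Real.pi * x)| ≤
      |1 - Real.cos (2 * Real.pi * x)| + |Real.sin (2 * Real.pi * x)| := abs_add_le _ _
    _ ≤ 2 * Real.pi * x + 2 * Real.pi * x := add_le_add h1 h2
    _ ≤ 13 * x := by nlinarith

/-- the function is at most of the order of the square root -/
lemma Fv_le {v : ℝ} (hv : 0 < v) : Fv v ≤ 8 * (13 * √v) ∧ Fv v ≤ 18 := by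
  have hterm : ∀ k : ℕ, 1 ≤ k → 1 / (k:ℝ) ^ (3/2:ℝ) * phi (k * v) ≤ 13 * ww v k ∧
      1 / (k:ℝ) ^ (3/2:ℝ) * phi (k * v) ≤ 3 * (1 / ((k:ℝ) * √(k:ℝ))) := by
    intro k hk
    have hk0 : (0:ℝ) < k := by exact_mod_cast hk
    have hs : 0 < √(k:ℝ) := Real.sqrt_pos.mpr hk0
    have h1 := phi_abs (k * v)
    have h2 := phi_le_lin (x := k * v) (by positivity)
    have h3 := le_abs_self (phi (k * v))
    rw [rpow32' hk]
    constructor
    · unfold ww
      rw [mul_min_of_nonneg _ _ (by norm_num)]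
      apply le_min
      · rw [mul_comm]
        apply mul_le_mul_of_nonneg_right _ (by positivity)
        linarith
      · have h4 : 1 / ((k:ℝ) * √(k:ℝ)) * phi (k * v) ≤ 1 / ((k:ℝ) * √(k:ℝ)) * (13 * (k * v)) :=
          mul_le_mul_of_nonneg_left (h3.trans h2) (by positivity)
        refine h4.trans (le_of_eq ?_)
        field_simp
    · rw [mul_comm]
      apply mul_le_mul_of_nonneg_right _ (by positivity)
      linarith
  have hzero : 1 / ((0:ℕ):ℝ) ^ (3/2:ℝ) * phi ((0:ℕ) * v) = 0 := by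
    rw [Nat.cast_zero, Real.zero_rpow (by norm_num)]; simp
  have hrange : ∀ n : ℕ, ∑ k ∈ Finset.range (n+1), 1 / (k:ℝ) ^ (3/2:ℝ) * phi (k * v) =
      ∑ k ∈ Finset.Icc 1 n, 1 / (k:ℝ) ^ (3/2:ℝ) * phi (k * v) := by
    intro n
    rw [Finset.range_eq_Ico, Finset.sum_eq_sum_Ico_succ_bot (by omega), hzero, zero_add]
    rfl
  have hlim := (Fv_summable v).hasSum.tendsto_sum_nat.comp (tendsto_add_atTop_nat 1)
  constructor
  · apply le_of_tendsto hlim
    refine Eventually.of_forall (fun n => ?_)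
    simp only [Function.comp_apply]
    rw [hrange]
    calc ∑ k ∈ Finset.Icc 1 n, 1 / (k:ℝ) ^ (3/2:ℝ) * phi (k * v) ≤ ∑ k ∈ Finset.Icc 1 n, 13 * ww v k :=
          Finset.sum_le_sum (fun k hk => (hterm k (Finset.mem_Icc.mp hk).1).1)
      _ = 13 * ∑ k ∈ Finset.Icc 1 n, ww v k := by rw [Finset.mul_sum]
      _ ≤ 13 * (8 * √v) := mul_le_mul_of_nonneg_left (sum_ww hv n) (by norm_num)
      _ = _ := by ring
  · apply le_of_tendsto hlim
    refine Eventually.of_forall (fun n => ?_)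
    simp only [Function.comp_apply]
    rw [hrange]
    have h2 := tel2 le_rfl n
    rw [Nat.cast_one, Real.sqrt_one, div_one] at h2
    calc ∑ k ∈ Finset.Icc 1 n, 1 / (k:ℝ) ^ (3/2:ℝ) * phi (k * v) ≤ ∑ k ∈ Finset.Icc 1 n, 3 * (1 / ((k:ℝ) * √(k:ℝ))) :=
          Finset.sum_le_sum (fun k hk => (hterm k (Finset.mem_Icc.mp hk).1).2)
      _ = 3 * ∑ k ∈ Finset.Icc 1 n, 1 / ((k:ℝ) * √(k:ℝ)) := by rw [Finset.mul_sum]
      _ ≤ 3 * 6 := mul_le_mul_of_nonneg_left h2 (by norm_num)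
      _ = _ := by norm_num

/-- the second weight -/
noncomputable def w2 (ρ x : ℝ) : ℝ := min (1 / (x * √x)) (√ρ / x)

lemma w2_nonneg {ρ x : ℝ} (hx : 0 ≤ x) : 0 ≤ w2 ρ x := by
  unfold w2
  exact le_min (by positivity) (by positivity)

lemma w2_anti {ρ x y : ℝ} (hx : 0 < x) (hxy : x ≤ y) : w2 ρ y ≤ w2 ρ x := by
  unfold w2
  have hs : 0 < √x := Real.sqrt_pos.mpr hx
  have h1 : √x ≤ √y := Real.sqrt_le_sqrt hxy
  apply min_le_min
  · apply one_div_le_one_div_of_le (by positivity)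
    exact mul_le_mul hxy h1 hs.le (hx.le.trans hxy)
  · exact div_le_div_of_nonneg_left (Real.sqrt_nonneg _) hx hxy

lemma sum_w2 {ρ : ℝ} (hρ : 0 < ρ) (hρ1 : ρ ≤ 1) (M : ℕ) :
    ∑ a ∈ Finset.Icc 1 M, w2 ρ (a:ℝ) ≤ √ρ * (1 + Real.log (1 / ρ)) + 6 * √ρ := by
  set T := ⌊1 / ρ⌋₊ with hT
  have hsl : 0 < √ρ := Real.sqrt_pos.mpr hρ
  have hT2 : 1 / ρ < T + 1 := Nat.lt_floor_add_one _
  have h1 : ∑ a ∈ Finset.Icc 1 M, w2 ρ (a:ℝ) ≤ ∑ a ∈ Finset.Icc 1 T, √ρ * (1 / (a:ℝ)) +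
      ∑ a ∈ Finset.Icc (T+1) M, 1 / ((a:ℝ) * √(a:ℝ)) := by
    have h2 : ∑ a ∈ Finset.Icc 1 M, w2 ρ (a:ℝ) ≤ ∑ a ∈ (Finset.Icc 1 T) ∪ (Finset.Icc (T+1) M), w2 ρ (a:ℝ) := by
      apply Finset.sum_le_sum_of_subset_of_nonneg
      · intro x hx
        rw [Finset.mem_Icc] at hx
        rw [Finset.mem_union, Finset.mem_Icc, Finset.mem_Icc]
        omega
      · intro a _ _
        exact w2_nonneg (Nat.cast_nonneg a)
    refine h2.trans ?_
    rw [Finset.sum_union (by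
      rw [Finset.disjoint_left]
      intro x hx hy
      rw [Finset.mem_Icc] at hx hy
      omega)]
    apply add_le_add
    · apply Finset.sum_le_sum
      intro a _
      rw [mul_one_div]
      exact min_le_right _ _
    · apply Finset.sum_le_sum
      intro a _
      exact min_le_left _ _
  have h3 : ∑ a ∈ Finset.Icc 1 T, √ρ * (1 / (a:ℝ)) ≤ √ρ * (1 + Real.log (1 / ρ)) := by
    rw [← Finset.mul_sum]
    apply mul_le_mul_of_nonneg_left _ (by positivity)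
    have h4 := harmonic_floor_le_one_add_log (1 / ρ) (by rw [le_div_iff₀ hρ]; linarith)
    rw [← hT, harmonic_eq_sum_Icc] at h4
    push_cast at h4
    simpa [one_div] using h4
  have h8 : ∑ b ∈ Finset.Icc (T+1) M, 1 / ((b:ℝ) * √(b:ℝ)) ≤ 6 * √ρ := by
    have h9 : 1 / √ρ ≤ √((T+1 : ℕ):ℝ) := by
      rw [← Real.sqrt_one, ← Real.sqrt_div (by norm_num)]
      apply Real.sqrt_le_sqrt
      push_cast
      exact hT2.le
    have h10 : 0 < 1 / √ρ := by positivity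
    refine (tel2 (by omega) M).trans ?_
    calc 6 / √((T+1 : ℕ):ℝ) ≤ 6 / (1 / √ρ) := div_le_div_of_nonneg_left (by norm_num) h10 h9
      _ = 6 * √ρ := by field_simp
  linarith

/-- **the upper bound for the mean** -/
theorem Dm_upper : ∃ C : ℝ, 0 < C ∧ ∀ ρ : ℝ, 0 < ρ → ρ ≤ 1 / 256 → Dm ρ ≤ C * (√ρ * Real.log (1 / ρ)) := by
  have hpi := Real.pi_pos
  refine ⟨√2 / (2 * Real.pi) * (208 * 9 * 8), by positivity, fun ρ hρ hρ1 => ?_⟩
  have hsρ : 0 < √ρ := Real.sqrt_pos.mpr hρ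
  have hlog1 : 1 ≤ Real.log (1 / ρ) := by
    rw [Real.le_log_iff_exp_le (by positivity)]
    have h1 := Real.exp_one_lt_d9
    have h2 : 256 ≤ 1 / ρ := by rw [le_div_iff₀ hρ]; linarith
    linarith
  have hterm : ∀ d : ℕ, 1 ≤ d → ((Pk d).card : ℝ) / (d:ℝ) ^ (3/2:ℝ) * Fv (ρ * d) ≤ rA d * (208 * w2 ρ d) := by
    intro d hd
    have hd0 : (0:ℝ) < d := by exact_mod_cast hd
    have hs : 0 < √(d:ℝ) := Real.sqrt_pos.mpr hd0
    obtain ⟨f1, f2⟩ := Fv_le (v := ρ * d) (by positivity)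
    have hF0 := Fv_nn (ρ * d)
    rw [rpow32' hd]
    have h1 : ((Pk d).card : ℝ) / (d * √(d:ℝ)) * Fv (ρ * d) ≤ 2 * rA d / (d * √(d:ℝ)) * Fv (ρ * d) := by
      apply mul_le_mul_of_nonneg_right _ hF0
      apply div_le_div_of_nonneg_right (Pk_le_rA d hd) (by positivity)
    refine h1.trans ?_
    have h2 : 2 * rA d / (d * √(d:ℝ)) * Fv (ρ * d) = rA d * (2 * Fv (ρ * d) / (d * √(d:ℝ))) := by ring
    rw [h2]
    apply mul_le_mul_of_nonneg_left _ (rA_nonneg d)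
    unfold w2
    rw [mul_min_of_nonneg _ _ (by norm_num)]
    apply le_min
    · rw [mul_one_div]
      apply div_le_div_of_nonneg_right _ (by positivity)
      linarith
    · rw [Real.sqrt_mul hρ.le] at f1
      have h3 : 208 * (√ρ / d) = 208 * (√ρ * √d) / (d * √(d:ℝ)) := by field_simp
      rw [h3]
      apply div_le_div_of_nonneg_right _ (by positivity)
      linarith
  have hzero : ((Pk 0).card : ℝ) / ((0:ℕ):ℝ) ^ (3/2:ℝ) * Fv (ρ * (0:ℕ)) = 0 := by
    rw [Nat.cast_zero, Real.zero_rpow (by norm_num)]; simp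
  have hrange : ∀ n : ℕ, ∑ d ∈ Finset.range (n+1), ((Pk d).card : ℝ) / (d:ℝ) ^ (3/2:ℝ) * Fv (ρ * d) =
      ∑ d ∈ Finset.Icc 1 n, ((Pk d).card : ℝ) / (d:ℝ) ^ (3/2:ℝ) * Fv (ρ * d) := by
    intro n
    rw [Finset.range_eq_Ico, Finset.sum_eq_sum_Ico_succ_bot (by omega), hzero, zero_add]
    rfl
  have hlim := (sum_squares ρ).tendsto_sum_nat.comp (tendsto_add_atTop_nat 1)
  have hle : ∑' k : ℕ, rA (k ^ 2) / (k:ℝ) ^ (3/2:ℝ) * phi (ρ * k) ≤ 208 * 9 * 8 * (√ρ * Real.log (1 / ρ)) := by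
    apply le_of_tendsto hlim
    refine Eventually.of_forall (fun n => ?_)
    simp only [Function.comp_apply]
    rw [hrange]
    calc ∑ d ∈ Finset.Icc 1 n, ((Pk d).card : ℝ) / (d:ℝ) ^ (3/2:ℝ) * Fv (ρ * d) ≤
        ∑ d ∈ Finset.Icc 1 n, rA d * (208 * w2 ρ d) :=
          Finset.sum_le_sum (fun k hk => hterm k (Finset.mem_Icc.mp hk).1)
      _ ≤ 9 * ∑ d ∈ Finset.Icc 1 n, 208 * w2 ρ d := by
          apply abel_le (g := fun d : ℕ => 208 * w2 ρ d) R_le
          · intro m hm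
            have hm0 : (0:ℝ) < m := by exact_mod_cast hm
            have := w2_anti (ρ := ρ) hm0 (by push_cast; linarith : (m:ℝ) ≤ ((m+1 : ℕ):ℝ))
            linarith
          · intro m _
            have := w2_nonneg (ρ := ρ) (Nat.cast_nonneg m)
            linarith
      _ = 208 * 9 * ∑ d ∈ Finset.Icc 1 n, w2 ρ d := by rw [← Finset.mul_sum]; ring
      _ ≤ 208 * 9 * (√ρ * (1 + Real.log (1 / ρ)) + 6 * √ρ) :=
          mul_le_mul_of_nonneg_left (sum_w2 hρ (by linarith) n) (by norm_num)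
      _ ≤ 208 * 9 * (8 * (√ρ * Real.log (1 / ρ))) := by
          apply mul_le_mul_of_nonneg_left _ (by norm_num)
          have h2 : √ρ ≤ √ρ * Real.log (1 / ρ) := le_mul_of_one_le_right hsρ.le hlog1
          linarith
      _ = _ := by ring
  rw [phase_eq]
  have h9 := mul_le_mul_of_nonneg_left hle (by positivity : 0 ≤ √2 / (2 * Real.pi))
  refine h9.trans (le_of_eq ?_)
  ring

end Pool.Agent.Q273.TB
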