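import Mathlib
import Pool.Agent.Q273.TB6
import Pool.Agent.Q273.TA7

set_option autoImplicit false

/-!
The mean excess, and the law of large numbers.
-/

namespace Pool.Agent.Q273.TB

open MeasureTheory ProbabilityTheory Filter Topology
open Pool.Agent.H383.AP Pool.Agent.H383.Gauss Pool.Agent.H383.Gen Pool.Agent.H383.Circ
open Pool.Agent.H425R3.JL (Ec fav Ec_eq circ_data final_gen sum_Icc_range)
open Pool.Agent.Q273.WL (Phi Phi_mono Phi_lip Phi_le_one Phi_nonneg Phi_tails stdN)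
open Pool.Agent.Q273.TA

lemma bb_zero (ρ : ℝ) : bb ρ 0 = 0 := by unfold bb; simp

lemma bb_Bd {ρ : ℝ} (hρ : 0 < ρ) : Bd (bb ρ) := by
  obtain ⟨C, hC, h⟩ := bb_le
  refine ⟨C, hC, fun m hm => ?_⟩
  have hm0 : (0:ℝ) < m := by exact_mod_cast hm
  have h1 := h ρ hρ 0 le_rfl zero_le_one m hm
  rw [Real.rpow_zero, mul_one] at h1
  refine h1.trans (le_of_eq ?_)
  congr 1
  rw [Real.sqrt_eq_rpow, ← Real.rpow_mul hm0.le]
  norm_num

lemma sq_iff (m : ℕ) : (∃ k : ℤ, (1:ℝ) * √(m:ℝ) = k) ↔ IsSquare m := by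
  constructor
  · rintro ⟨k, hk⟩
    rw [one_mul] at hk
    have h0 : (0:ℝ) ≤ k := by rw [← hk]; exact Real.sqrt_nonneg _
    have h1 : (m:ℝ) = (k:ℝ) ^ 2 := by rw [← hk, Real.sq_sqrt (Nat.cast_nonneg m)]
    have h2 : (m:ℤ) = k ^ 2 := by exact_mod_cast h1
    have h3 : 0 ≤ k := by exact_mod_cast h0
    refine ⟨k.toNat, ?_⟩
    have h4 : ((k.toNat : ℕ) : ℤ) = k := Int.toNat_of_nonneg h3
    have : (m:ℤ) = ((k.toNat * k.toNat : ℕ) : ℤ) := by push_cast; rw [h4, h2]; ring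
    exact_mod_cast this
  · rintro ⟨r, rfl⟩
    refine ⟨r, ?_⟩
    rw [one_mul]
    push_cast
    exact Real.sqrt_mul_self (Nat.cast_nonneg r)

lemma rt_sum (ρ : ℝ) (M : ℕ) : ∑ m ∈ Finset.Icc 1 (M^2), rt (bb ρ) ph 1 (1 + ρ / 2) m =
    ST (bb ρ) ph 1 (1 + ρ / 2) (sqs (Finset.Icc 1 (M^2))) 0 := by
  unfold Pool.Agent.H383.Gen.ST sqs
  rw [Finset.sum_filter]
  apply Finset.sum_congr rfl
  intro m _
  unfold Pool.Agent.H383.Gen.rt
  by_cases h : IsSquare m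
  · rw [if_pos h, if_pos ((sq_iff m).mpr h)]
    congr 2
    push_cast
    ring
  · rw [if_neg h, if_neg (fun h' => h ((sq_iff m).mp h'))]

lemma rt_tsum {ρ : ℝ} (hρ : 0 < ρ) : ∑' m, rt (bb ρ) ph 1 (1 + ρ / 2) m = Dm ρ := by
  have hlim : Tendsto (fun M : ℕ => ∑ m ∈ Finset.Icc 1 (M^2), rt (bb ρ) ph 1 (1 + ρ / 2) m) atTop
      (𝓝 (∑' m, rt (bb ρ) ph 1 (1 + ρ / 2) m)) := by
    have h2 := (rt_summable (φ := ph) (bb_Bd hρ) (bb_zero ρ) one_pos (1 + ρ / 2)).hasSum.tendsto_sum_nat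
    have h3 : Tendsto (fun M : ℕ => M^2 + 1) atTop atTop := by
      apply tendsto_atTop_mono (f := fun M => M) _ tendsto_id
      intro M; nlinarith
    refine (h2.comp h3).congr ?_
    intro M
    simp only [Function.comp_apply]
    have h4 : Finset.range (M^2+1) = insert 0 (Finset.Icc 1 (M^2)) := by
      ext m; simp only [Finset.mem_range, Finset.mem_insert, Finset.mem_Icc]; omega
    rw [h4, Finset.sum_insert (by simp)]
    have h5 : rt (bb ρ) ph 1 (1 + ρ / 2) 0 = 0 := by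
      unfold Pool.Agent.H383.Gen.rt
      rw [bb_zero]
      simp
    rw [h5, zero_add]
  simp only [rt_sum] at hlim
  exact tendsto_nhds_unique hlim (D_lim ρ)

lemma ea_mean {ρ : ℝ} (hρ : 0 < ρ) : Tendsto (rm (ea 1 ρ)) atTop (𝓝 (Dm ρ)) := by
  have h := (ap_diff one_pos hρ).mean (bb_Bd hρ) (bb_zero ρ) one_pos
  rwa [rt_tsum hρ] at h

/-- the means of the differences -/
lemma diff_mean {ρ : ℝ} (hρ : 0 < ρ) :
    Tendsto (fun N => fav (SI N) (fun n => Ec (((n:ℝ) + ρ) ^ 2) - Ec ((n:ℝ) ^ 2))) atTop (𝓝 (Dm ρ)) ∧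
    Tendsto (fun N => fav (SP N) (fun n => Ec (((n:ℝ) + ρ) ^ 2) - Ec ((n:ℝ) ^ 2))) atTop (𝓝 (Dm ρ)) := by
  obtain ⟨μ, -, -, hμ, -⟩ := final_gen circ_data (k := 2) ![1, 1] ![0, 2 * ρ] ![0, ρ ^ 2]
    (fun i => by fin_cases i <;> simp)
    (fun i n hn => by
      have hn0 : (0:ℝ) < n := by exact_mod_cast hn
      fin_cases i
      · simp; positivity
      · simp; positivity)
  have e0 : ∀ n : ℕ, Ec (((![1, 1] : Fin 2 → ℕ) 0 : ℝ) * (n:ℝ) ^ 2 + (![0, 2 * ρ] : Fin 2 → ℝ) 0 * n +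
      (![0, ρ ^ 2] : Fin 2 → ℝ) 0) = Ec ((n:ℝ) ^ 2) := by
    intro n; congr 1; simp
  have e1 : ∀ n : ℕ, Ec (((![1, 1] : Fin 2 → ℕ) 1 : ℝ) * (n:ℝ) ^ 2 + (![0, 2 * ρ] : Fin 2 → ℝ) 1 * n +
      (![0, ρ ^ 2] : Fin 2 → ℝ) 1) = Ec (((n:ℝ) + ρ) ^ 2) := by
    intro n; congr 1; simp; ring
  have hI : ∀ g : ℕ → ℝ, (fun N : ℕ => (∑ n ∈ Finset.Icc 1 N, g n) / (N:ℝ)) = fun N => fav (SI N) g := by
    intro g; funext N; unfold fav; rw [SI_card]; rfl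
  have h1 := hμ (fun x => x 1 - x 0) (by fun_prop) ⟨2, fun x => by
    rw [Fin.sum_univ_two]
    rw [abs_le]
    constructor <;> nlinarith [sq_nonneg (x 0 - 1), sq_nonneg (x 0 + 1), sq_nonneg (x 1 - 1), sq_nonneg (x 1 + 1)]⟩
  simp only [e0, e1] at h1
  have h2 := h1.1
  have hlimit : ∫ x, (x 1 - x 0) ∂(μ : Measure (Fin 2 → ℝ)) = Dm ρ := by
    refine tendsto_nhds_unique ?_ (ea_mean hρ)
    refine h2.congr (fun N => ?_)
    rw [sum_Icc_range]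
    unfold rm
    congr 1
    apply Finset.sum_congr rfl
    intro n _
    unfold ea
    have a1 : ((n + 1 : ℕ) : ℝ) + ρ = (n:ℝ) + (1 + ρ) := by push_cast; ring
    have a2 : ((n + 1 : ℕ) : ℝ) = (n:ℝ) + 1 := by push_cast; ring
    rw [a1, a2]
  rw [hI] at h2
  rw [hlimit] at h1 h2
  exact ⟨h2, h1.2⟩

/-- **the mean excess** -/
theorem sn_mean {ρ : ℝ} (hρ : 0 < ρ) :
    Tendsto (fun N => fav (SI N) (sn ρ)) atTop (𝓝 (Dm ρ)) ∧ Tendsto (fun N => fav (SP N) (sn ρ)) atTop (𝓝 (Dm ρ)) := by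
  have key : ∀ S : ℕ → Finset ℕ, Sys S →
      Tendsto (fun N => fav (S N) (fun n => Ec (((n:ℝ) + ρ) ^ 2) - Ec ((n:ℝ) ^ 2))) atTop (𝓝 (Dm ρ)) →
      Tendsto (fun N => fav (S N) (sn ρ)) atTop (𝓝 (Dm ρ)) := by
    intro S hS hm
    obtain ⟨hS1, hS2, hS3⟩ := hS
    obtain ⟨ν, -, -, B, hB⟩ := hS3 ρ hρ
    have hw : Tendsto (fun n : ℕ => ρ / (n:ℝ)) atTop (𝓝 0) := tendsto_const_div_atTop_nhds_zero_nat ρ
    have h3 := avg_small hS1 (w := fun n : ℕ => ρ / (n:ℝ)) (g := fun n : ℕ => 1 + Ec (((n:ℝ) + ρ) ^ 2) ^ 2)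
      (fun n => by positivity) (fun n => by positivity) hw hB
    have h6 : Tendsto (fun N => fav (S N) (sn ρ) -
        fav (S N) (fun n => Ec (((n:ℝ) + ρ) ^ 2) - Ec ((n:ℝ) ^ 2))) atTop (𝓝 0) := by
      apply squeeze_zero_norm (fun N => ?_) h3
      rw [← Pool.Agent.H425R3.JL.fav_sub, Real.norm_eq_abs]
      refine (Pool.Agent.H425R3.JL.abs_fav_le _ _).trans ?_
      apply fav_le
      intro n hn
      exact sn_close hρ (hS2 N n hn)
    have h7 := h6.add hm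
    rw [zero_add] at h7
    exact h7.congr (fun N => by ring)
  obtain ⟨h1, h2⟩ := diff_mean hρ
  exact ⟨key SI sys_I h1, key SP sys_P h2⟩

/-- the ratio of the mean and the standard deviation -/
lemma ratio_large (R : ℝ) : ∃ ρ0 : ℝ, 0 < ρ0 ∧ ρ0 ≤ 1 ∧ ∀ ρ : ℝ, 0 < ρ → ρ ≤ ρ0 → 0 < Vm ρ ∧ 0 < Dm ρ ∧ R * √(Vm ρ) ≤ Dm ρ := by
  obtain ⟨c1, r1, hc1, hr1, -, hV⟩ := Vm_lower
  obtain ⟨C, hC, hVu⟩ := Vm_upper
  obtain ⟨c, hc, hD⟩ := Dm_lower
  set L := (|R| / c) ^ 2 * C + 1 with hL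
  have hL1 : 1 ≤ L := by rw [hL]; have : 0 ≤ (|R| / c) ^ 2 * C := by positivity
                         linarith
  refine ⟨min (min r1 (1/256)) (Real.exp (-L)), by positivity, ?_, ?_⟩
  · exact (min_le_left _ _).trans ((min_le_right _ _).trans (by norm_num))
  intro ρ hρ hρ0
  have h1 : ρ ≤ r1 := hρ0.trans ((min_le_left _ _).trans (min_le_left _ _))
  have h2 : ρ ≤ 1/256 := hρ0.trans ((min_le_left _ _).trans (min_le_right _ _))
  have h3 : ρ ≤ Real.exp (-L) := hρ0.trans (min_le_right _ _)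
  have hlog : L ≤ Real.log (1 / ρ) := by
    rw [one_div, Real.log_inv]
    have := Real.log_le_log hρ h3
    rw [Real.log_exp] at this
    linarith
  have hl0 : 0 < Real.log (1 / ρ) := by linarith
  have hsρ : 0 < √ρ := Real.sqrt_pos.mpr hρ
  have hVp : 0 < Vm ρ := lt_of_lt_of_le (by positivity) (hV ρ hρ h1)
  have hDl := hD ρ hρ h2
  have hDp : 0 < Dm ρ := lt_of_lt_of_le (by positivity) hDl
  refine ⟨hVp, hDp, ?_⟩
  have h4 : R * √(Vm ρ) ≤ |R| * √(Vm ρ) := mul_le_mul_of_nonneg_right (le_abs_self R) (Real.sqrt_nonneg _)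
  refine h4.trans (le_trans ?_ hDl)
  apply le_of_sq_le_sq _ (by positivity)
  rw [mul_pow, Real.sq_sqrt hVp.le, mul_pow, mul_pow, Real.sq_sqrt hρ.le]
  have h5 := hVu ρ hρ h2
  have h6 : |R| ^ 2 * Vm ρ ≤ |R| ^ 2 * (C * (ρ * Real.log (1 / ρ))) := mul_le_mul_of_nonneg_left h5 (by positivity)
  refine h6.trans ?_
  have h7 : |R| ^ 2 * C ≤ c ^ 2 * Real.log (1 / ρ) := by
    have : |R| ^ 2 * C = c ^ 2 * ((|R| / c) ^ 2 * C) := by field_simp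
    rw [this]
    apply mul_le_mul_of_nonneg_left _ (by positivity)
    linarith
  have h8 : |R| ^ 2 * (C * (ρ * Real.log (1 / ρ))) = |R| ^ 2 * C * (ρ * Real.log (1 / ρ)) := by ring
  rw [h8]
  have h9 := mul_le_mul_of_nonneg_right h7 (by positivity : 0 ≤ ρ * Real.log (1 / ρ))
  refine h9.trans (le_of_eq ?_)
  ring

open Classical in
/-- the exceptional integers -/
noncomputable def bad (S : Finset ℕ) (ρ ε : ℝ) : Finset ℕ := S.filter (fun n : ℕ =>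
  ε * (√(n:ℝ) * Dm ρ) < |An ρ n - Real.pi * (2 * ρ * n + ρ ^ 2) - √(n:ℝ) * Dm ρ|)

lemma bad_card {S : Finset ℕ} (hS : ∀ n ∈ S, 1 ≤ n) {ρ ε R : ℝ} (hε : 0 < ε) (hV : 0 < Vm ρ)
    (h : R / ε * √(Vm ρ) ≤ Dm ρ) :
    ((bad S ρ ε).card : ℝ) ≤ ((ev S ρ (-R)).card : ℝ) + (S.card - ((ev S ρ R).card : ℝ)) := by
  classical
  have hsub : bad S ρ ε ⊆ ev S ρ (-R) ∪ (S \ ev S ρ R) := by
    intro n hn
    unfold bad at hn
    rw [Finset.mem_filter] at hn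
    obtain ⟨hnS, hn2⟩ := hn
    have hn0 : (0:ℝ) < n := by exact_mod_cast hS n hnS
    have hs : 0 < √(n:ℝ) := Real.sqrt_pos.mpr hn0
    have h1 : R * √(Vm ρ) ≤ ε * Dm ρ := by
      have := mul_le_mul_of_nonneg_left h hε.le
      have e : ε * (R / ε * √(Vm ρ)) = R * √(Vm ρ) := by field_simp
      rwa [e] at this
    have h2 : √(n:ℝ) * (R * √(Vm ρ)) ≤ ε * (√(n:ℝ) * Dm ρ) := by
      have := mul_le_mul_of_nonneg_left h1 hs.le
      linarith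
    rw [Finset.mem_union, Finset.mem_sdiff]
    unfold ev
    rw [Finset.mem_filter, Finset.mem_filter]
    rcases lt_abs.mp hn2 with h3 | h3
    · right
      refine ⟨hnS, fun h4 => ?_⟩
      have h5 := h4.2
      have e : √(n:ℝ) * (Dm ρ + R * √(Vm ρ)) = √(n:ℝ) * Dm ρ + √(n:ℝ) * (R * √(Vm ρ)) := by ring
      rw [e] at h5
      linarith
    · left
      refine ⟨hnS, ?_⟩
      have e : √(n:ℝ) * (Dm ρ + -R * √(Vm ρ)) = √(n:ℝ) * Dm ρ - √(n:ℝ) * (R * √(Vm ρ)) := by ring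
      rw [e]
      linarith
  have h1 := (Finset.card_le_card hsub).trans (Finset.card_union_le _ _)
  have h2 : (S \ ev S ρ R).card = S.card - (ev S ρ R).card := by
    apply Finset.card_sdiff_of_subset
    exact Finset.filter_subset _ _
  have h3 : (ev S ρ R).card ≤ S.card := Finset.card_le_card (Finset.filter_subset _ _)
  rw [h2] at h1
  have h4 : ((bad S ρ ε).card : ℝ) ≤ (((ev S ρ (-R)).card + (S.card - (ev S ρ R).card) : ℕ) : ℝ) := by exact_mod_cast h1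
  rw [Nat.cast_add, Nat.cast_sub h3] at h4
  exact h4

/-- **the law of large numbers** -/
theorem lln {S : ℕ → Finset ℕ} (hS : Sys S) {ε : ℝ} (hε : 0 < ε) :
    ∃ ρ0 : ℝ, 0 < ρ0 ∧ ∀ ρ : ℝ, 0 < ρ → ρ ≤ ρ0 → ∃ N0 : ℕ, ∀ N : ℕ, N0 ≤ N →
      ((bad (S N) ρ ε).card : ℝ) ≤ ε * (S N).card := by
  obtain ⟨R, hR0, hR1, hR2⟩ := Phi_tails (show (0:ℝ) < ε / 4 by positivity)
  obtain ⟨r1, hr1, h1⟩ := cdf_lim hS (show (0:ℝ) < ε / 4 by positivity)
  obtain ⟨r2, hr2, -, h2⟩ := ratio_large (R / ε)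
  obtain ⟨hS1, hS2, hS3⟩ := id hS
  refine ⟨min r1 r2, lt_min hr1 hr2, fun ρ hρ hρ0 => ?_⟩
  obtain ⟨hV, hD, hr⟩ := h2 ρ hρ (hρ0.trans (min_le_right _ _))
  obtain ⟨N1, hN1⟩ := h1 ρ hρ (hρ0.trans (min_le_left _ _))
  obtain ⟨N2, hN2⟩ := eventually_atTop.mp (hS1.eventually_gt_atTop 0)
  refine ⟨max N1 N2, fun N hN => ?_⟩
  have hc : 0 < ((S N).card : ℝ) := hN2 N ((le_max_right _ _).trans hN)
  have h3 := bad_card (hS2 N) hε hV hr
  have h4 := hN1 N ((le_max_left _ _).trans hN) (-R)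
  have h5 := hN1 N ((le_max_left _ _).trans hN) R
  rw [abs_le] at h4 h5
  have h6 : ((ev (S N) ρ (-R)).card : ℝ) ≤ ε / 2 * (S N).card := by
    rw [← div_le_iff₀ hc]; linarith [h4.2]
  have h7 : (1 - ε / 2) * (S N).card ≤ ((ev (S N) ρ R).card : ℝ) := by
    rw [← le_div_iff₀ hc]; linarith [h5.1]
  linarith

/-- the law of large numbers for annuli whose width tends to zero -/
theorem lln_shrink {S : ℕ → Finset ℕ} (hS : Sys S) : ∃ h : ℕ → ℕ, Tendsto h atTop atTop ∧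
    ∀ k : ℕ → ℕ, Tendsto k atTop atTop → (∀ N, k N ≤ h N) → ∀ ε : ℝ, 0 < ε →
      Tendsto (fun N => ((bad (S N) (1 / (k N : ℝ)) ε).card : ℝ) / (S N).card) atTop (𝓝 0) := by
  obtain ⟨h, hh, H⟩ := shrink hS
  obtain ⟨hS1, hS2, hS3⟩ := id hS
  refine ⟨h, hh, fun k hk hkh ε hε => ?_⟩
  rw [Metric.tendsto_atTop]
  intro δ hδ
  obtain ⟨R, hR0, hR1, hR2⟩ := Phi_tails (show (0:ℝ) < δ / 5 by positivity)
  obtain ⟨r2, hr2, -, h2⟩ := ratio_large (R / ε)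
  have a1 := (H k hk hkh R).eventually (lt_mem_nhds (show Phi R - δ / 5 < Phi R by linarith))
  have a2 := (H k hk hkh (-R)).eventually (gt_mem_nhds (show Phi (-R) < Phi (-R) + δ / 5 by linarith))
  obtain ⟨K, hK⟩ := exists_nat_gt (1 / r2)
  have a3 := hk.eventually_ge_atTop (max K 1)
  have a4 := hS1.eventually_gt_atTop 0
  obtain ⟨N0, hN0⟩ := eventually_atTop.mp (a1.and (a2.and (a3.and a4)))
  refine ⟨N0, fun N hN => ?_⟩
  obtain ⟨b1, b2, b3, hc⟩ := hN0 N hN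
  have hk1 : (1:ℝ) ≤ k N := by exact_mod_cast (le_max_right _ _).trans b3
  have hkK : (K:ℝ) ≤ k N := by exact_mod_cast (le_max_left _ _).trans b3
  have hρ : 0 < 1 / ((k N : ℕ):ℝ) := by positivity
  have hρ2 : 1 / ((k N : ℕ):ℝ) ≤ r2 := by
    rw [div_le_iff₀ (by linarith)]
    rw [div_lt_iff₀ hr2] at hK
    nlinarith
  obtain ⟨hV, hD, hr⟩ := h2 _ hρ hρ2
  have h3 := bad_card (hS2 N) hε hV hr
  rw [Real.dist_eq, sub_zero, abs_of_nonneg (by positivity), div_lt_iff₀ hc]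
  rw [lt_div_iff₀ hc] at b1
  rw [div_lt_iff₀ hc] at b2
  nlinarith

end Pool.Agent.Q273.TB
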