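import Mathlib

set_option autoImplicit false

/-!
A one-sided form of the theorem of Curtiss: if the moment generating functions of probability measures on the
line converge to the one of the standard normal law on a right neighbourhood of zero, then the measures converge
weakly to the standard normal law.
-/

namespace Pool.Agent.Q273.WL

open MeasureTheory ProbabilityTheory Filter Topology

noncomputable section

/-- the standard normal law -/
def stdN : ProbabilityMeasure ℝ := ⟨gaussianReal 0 1, inferInstance⟩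

lemma tight_of_mgf {μ : ℕ → ProbabilityMeasure ℝ}
    (hi : ∀ n, ∀ s : ℝ, 0 < s → s ≤ 1 → Integrable (fun x => Real.exp (s * x)) (μ n : Measure ℝ))
    (h : ∀ s : ℝ, 0 < s → s ≤ 1 →
      Tendsto (fun n => ∫ x, Real.exp (s * x) ∂(μ n : Measure ℝ)) atTop (𝓝 (Real.exp (s ^ 2 / 2)))) :
    IsTightMeasureSet (Set.range fun n => (μ n : Measure ℝ)) := by
  refine isTightMeasureSet_range_of_tendsto_limsup_measure_norm_gt ?_
  rw [ENNReal.tendsto_atTop_zero]
  intro ε hε
  obtain ⟨ε', hε', hεε⟩ : ∃ ε' : ℝ, 0 < ε' ∧ ENNReal.ofReal ε' ≤ ε := by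
    rcases eq_or_ne ε ⊤ with rfl | hne
    · exact ⟨1, one_pos, le_top⟩
    · exact ⟨ε.toReal, ENNReal.toReal_pos hε.ne' hne, (ENNReal.ofReal_toReal hne).le⟩
  -- choose s
  obtain ⟨s, hs0, hs1, hs⟩ : ∃ s : ℝ, 0 < s ∧ s ≤ 1 / 2 ∧
      1 - 2 * Real.exp (s ^ 2 / 2) + Real.exp ((2 * s) ^ 2 / 2) < ε' / 4 := by
    have hc : Continuous fun s : ℝ => 1 - 2 * Real.exp (s ^ 2 / 2) + Real.exp ((2 * s) ^ 2 / 2) := by fun_prop
    have ht : Tendsto (fun s : ℝ => 1 - 2 * Real.exp (s ^ 2 / 2) + Real.exp ((2 * s) ^ 2 / 2)) (𝓝[>] 0) (𝓝 0) := by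
      have := (hc.tendsto 0).mono_left (nhdsWithin_le_nhds (s := Set.Ioi 0))
      simpa using (by norm_num at this; exact this)
    have h1 := ht.eventually (gt_mem_nhds (show (0:ℝ) < ε' / 4 by positivity))
    have h2 : ∀ᶠ s : ℝ in 𝓝[>] 0, s ≤ 1 / 2 :=
      (eventually_le_nhds (show (0:ℝ) < 1 / 2 by norm_num)).filter_mono nhdsWithin_le_nhds
    have h3 : ∀ᶠ s : ℝ in 𝓝[>] (0:ℝ), 0 < s := self_mem_nhdsWithin
    obtain ⟨s, a, b, c⟩ := (h1.and (h2.and h3)).exists
    exact ⟨s, c, b, a⟩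
  -- choose R
  have hR : ∀ᶠ r : ℝ in atTop, 2 * Real.exp (-(s * r)) + Real.exp (-r) * Real.exp (1 / 2) < ε' / 2 := by
    have a1 : Tendsto (fun r : ℝ => Real.exp (-(s * r))) atTop (𝓝 0) :=
      Real.tendsto_exp_neg_atTop_nhds_zero.comp (tendsto_id.const_mul_atTop hs0)
    have a2 : Tendsto (fun r : ℝ => Real.exp (-r)) atTop (𝓝 0) := Real.tendsto_exp_neg_atTop_nhds_zero
    have a3 := (a1.const_mul 2).add (a2.mul_const (Real.exp (1 / 2)))
    simp only [mul_zero, zero_mul, add_zero] at a3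
    exact a3.eventually (gt_mem_nhds (by positivity))
  obtain ⟨R, hR⟩ := eventually_atTop.mp hR
  refine ⟨R, fun r hr => ?_⟩
  refine limsup_le_of_le (by isBoundedDefault) ?_
  have l1 := h s hs0 (by linarith)
  have l2 := h (2 * s) (by linarith) (by linarith)
  have l3 := h 1 one_pos le_rfl
  have l4 : Tendsto (fun n => 1 + 2 * Real.exp (-(s * r)) - 2 * (∫ x, Real.exp (s * x) ∂(μ n : Measure ℝ)) +
      (∫ x, Real.exp (2 * s * x) ∂(μ n : Measure ℝ)) + Real.exp (-r) * ∫ x, Real.exp (1 * x) ∂(μ n : Measure ℝ))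
      atTop (𝓝 (1 + 2 * Real.exp (-(s * r)) - 2 * Real.exp (s ^ 2 / 2) + Real.exp ((2 * s) ^ 2 / 2) +
        Real.exp (-r) * Real.exp (1 ^ 2 / 2))) :=
    ((tendsto_const_nhds.sub (l1.const_mul 2)).add l2).add (l3.const_mul _)
  have hlt : 1 + 2 * Real.exp (-(s * r)) - 2 * Real.exp (s ^ 2 / 2) + Real.exp ((2 * s) ^ 2 / 2) +
        Real.exp (-r) * Real.exp (1 ^ 2 / 2) < ε' := by
    have := hR r hr
    norm_num at this ⊢
    linarith
  filter_upwards [l4.eventually (gt_mem_nhds hlt)] with n hn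
  have hmeas : MeasurableSet {x : ℝ | r < ‖x‖} := measurableSet_lt measurable_const measurable_norm
  have i1 := hi n s hs0 (by linarith)
  have i2 := hi n (2 * s) (by linarith) (by linarith)
  have i3 := hi n 1 one_pos le_rfl
  have key : (μ n : Measure ℝ).real {x : ℝ | r < ‖x‖} ≤ 1 + 2 * Real.exp (-(s * r)) -
      2 * (∫ x, Real.exp (s * x) ∂(μ n : Measure ℝ)) +
      (∫ x, Real.exp (2 * s * x) ∂(μ n : Measure ℝ)) + Real.exp (-r) * ∫ x, Real.exp (1 * x) ∂(μ n : Measure ℝ) := by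
    have e1 : (μ n : Measure ℝ).real {x : ℝ | r < ‖x‖} =
        ∫ x, Set.indicator {x : ℝ | r < ‖x‖} (fun _ => (1:ℝ)) x ∂(μ n : Measure ℝ) := by
      rw [integral_indicator_const _ hmeas]; simp
    have e2 : 1 + 2 * Real.exp (-(s * r)) -
      2 * (∫ x, Real.exp (s * x) ∂(μ n : Measure ℝ)) +
      (∫ x, Real.exp (2 * s * x) ∂(μ n : Measure ℝ)) + Real.exp (-r) * ∫ x, Real.exp (1 * x) ∂(μ n : Measure ℝ) =
      ∫ x, (1 + 2 * Real.exp (-(s * r)) - 2 * Real.exp (s * x) + Real.exp (2 * s * x) +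
        Real.exp (-r) * Real.exp (1 * x)) ∂(μ n : Measure ℝ) := by
      have i0 : Integrable (fun _ : ℝ => 1 + 2 * Real.exp (-(s * r))) (μ n : Measure ℝ) := integrable_const _
      have j1 : Integrable (fun x : ℝ => 2 * Real.exp (s * x)) (μ n : Measure ℝ) := i1.const_mul 2
      have j3 : Integrable (fun x : ℝ => Real.exp (-r) * Real.exp (1 * x)) (μ n : Measure ℝ) := i3.const_mul _
      have k1 : Integrable (fun x : ℝ => 1 + 2 * Real.exp (-(s * r)) - 2 * Real.exp (s * x)) (μ n : Measure ℝ) :=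
        i0.sub j1
      have k2 : Integrable (fun x : ℝ => 1 + 2 * Real.exp (-(s * r)) - 2 * Real.exp (s * x) +
        Real.exp (2 * s * x)) (μ n : Measure ℝ) := k1.add i2
      rw [integral_add k2 j3, integral_add k1 i2, integral_sub i0 j1, integral_const_mul, integral_const_mul]
      simp
    rw [e1, e2]
    refine integral_mono ((integrable_const _).indicator hmeas) ?_ fun x => ?_
    · exact ((((integrable_const _).sub (i1.const_mul 2)).add i2).add (i3.const_mul _))
    · have hE1 : Real.exp (2 * s * x) = Real.exp (s * x) ^ 2 := by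
        rw [← Real.exp_nat_mul]; congr 1; push_cast; ring
      have p1 := Real.exp_pos (s * x)
      have p2 := Real.exp_pos (-(s * r))
      have p3 : 0 < Real.exp (-r) * Real.exp (1 * x) := by positivity
      by_cases hx : r < ‖x‖
      · rw [Set.indicator_of_mem (by exact hx), hE1]
        rw [Real.norm_eq_abs, lt_abs] at hx
        rcases hx with hx | hx
        · have : 1 ≤ Real.exp (-r) * Real.exp (1 * x) := by
            rw [← Real.exp_add]; exact Real.one_le_exp (by linarith)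
          nlinarith [sq_nonneg (1 - Real.exp (s * x))]
        · have : Real.exp (s * x) ≤ Real.exp (-(s * r)) := Real.exp_le_exp.mpr (by nlinarith)
          nlinarith [sq_nonneg (Real.exp (s * x))]
      · rw [Set.indicator_of_notMem (by exact hx), hE1]
        nlinarith [sq_nonneg (1 - Real.exp (s * x))]
  refine le_trans ?_ hεε
  rw [← ENNReal.ofReal_toReal (measure_ne_top (μ n : Measure ℝ) _)]
  exact ENNReal.ofReal_le_ofReal (key.trans hn.le)

/-- the limit along an ultrafilter has the right moment generating function -/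
lemma lim_mgf {μ : ℕ → ProbabilityMeasure ℝ}
    (hi : ∀ n, ∀ s : ℝ, 0 < s → s ≤ 1 → Integrable (fun x => Real.exp (s * x)) (μ n : Measure ℝ))
    (h : ∀ s : ℝ, 0 < s → s ≤ 1 →
      Tendsto (fun n => ∫ x, Real.exp (s * x) ∂(μ n : Measure ℝ)) atTop (𝓝 (Real.exp (s ^ 2 / 2))))
    {U : Ultrafilter ℕ} (hU : (U : Filter ℕ) ≤ atTop) {ν : ProbabilityMeasure ℝ} (hν : Tendsto μ U (𝓝 ν))
    {s : ℝ} (hs0 : 0 < s) (hs1 : s < 1) :
    Integrable (fun x => Real.exp (s * x)) (ν : Measure ℝ) ∧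
      ∫ x, Real.exp (s * x) ∂(ν : Measure ℝ) = Real.exp (s ^ 2 / 2) := by
  have l1 := (h 1 one_pos le_rfl).mono_left hU
  have ls := (h s hs0 hs1.le).mono_left hU
  -- truncation
  have hb : ∀ R x : ℝ, Real.exp (s * min x R) ≤ Real.exp (s * R) := fun R x =>
    Real.exp_le_exp.mpr (mul_le_mul_of_nonneg_left (min_le_right _ _) hs0.le)
  have hcont : ∀ R : ℝ, Continuous fun x : ℝ => Real.exp (s * min x R) := fun R => by fun_prop
  have htr : ∀ R : ℝ, Tendsto (fun n => ∫ x, Real.exp (s * min x R) ∂(μ n : Measure ℝ)) U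
      (𝓝 (∫ x, Real.exp (s * min x R) ∂(ν : Measure ℝ))) := by
    intro R
    have h0 := (ProbabilityMeasure.tendsto_iff_forall_integral_tendsto.mp hν)
      (BoundedContinuousFunction.ofNormedAddCommGroup (fun x : ℝ => Real.exp (s * min x R)) (hcont R)
        (Real.exp (s * R)) fun x => by rw [Real.norm_of_nonneg (Real.exp_pos _).le]; exact hb R x)
    exact h0
  have hint : ∀ (R : ℝ) (ρ : ProbabilityMeasure ℝ), Integrable (fun x : ℝ => Real.exp (s * min x R))
      (ρ : Measure ℝ) := fun R ρ => by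
    refine (integrable_const (Real.exp (s * R))).mono' (hcont R).aestronglyMeasurable (ae_of_all _ fun x => ?_)
    rw [Real.norm_of_nonneg (Real.exp_pos _).le]; exact hb R x
  -- the error of the truncation
  have herr : ∀ (R : ℝ) (n : ℕ), ∫ x, Real.exp (s * x) ∂(μ n : Measure ℝ) -
      Real.exp (-((1 - s) * R)) * ∫ x, Real.exp (1 * x) ∂(μ n : Measure ℝ) ≤
      ∫ x, Real.exp (s * min x R) ∂(μ n : Measure ℝ) := by
    intro R n
    have i1 := hi n s hs0 hs1.le
    have i2 := (hi n 1 one_pos le_rfl).const_mul (Real.exp (-((1 - s) * R)))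
    rw [← integral_const_mul, ← integral_sub i1 i2]
    refine integral_mono (i1.sub i2) (hint R _) fun x => ?_
    simp only
    rcases le_total x R with hx | hx
    · rw [min_eq_left hx]
      have : 0 < Real.exp (-((1 - s) * R)) * Real.exp (1 * x) := by positivity
      linarith
    · rw [min_eq_right hx, ← Real.exp_add]
      have h1 : Real.exp (s * x) ≤ Real.exp (-((1 - s) * R) + 1 * x) :=
        Real.exp_le_exp.mpr (by nlinarith)
      have := Real.exp_pos (s * R)
      linarith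
  have hup : ∀ (R : ℝ) (n : ℕ), ∫ x, Real.exp (s * min x R) ∂(μ n : Measure ℝ) ≤
      ∫ x, Real.exp (s * x) ∂(μ n : Measure ℝ) := by
    intro R n
    exact integral_mono (hint R _) (hi n s hs0 hs1.le) fun x =>
      Real.exp_le_exp.mpr (mul_le_mul_of_nonneg_left (min_le_left _ _) hs0.le)
  have hν1 : ∀ R : ℝ, ∫ x, Real.exp (s * min x R) ∂(ν : Measure ℝ) ≤ Real.exp (s ^ 2 / 2) := fun R =>
    le_of_tendsto_of_tendsto' (htr R) ls (hup R)
  have hν2 : ∀ R : ℝ, Real.exp (s ^ 2 / 2) - Real.exp (-((1 - s) * R)) * Real.exp (1 ^ 2 / 2) ≤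
      ∫ x, Real.exp (s * min x R) ∂(ν : Measure ℝ) := fun R =>
    le_of_tendsto_of_tendsto' (ls.sub (l1.const_mul _)) (htr R) (herr R)
  -- monotone convergence
  have hmono : Monotone fun (m : ℕ) (x : ℝ) => Real.exp (s * min x m) := by
    intro m m' hmm x
    exact Real.exp_le_exp.mpr (mul_le_mul_of_nonneg_left (min_le_min_left _ (by exact_mod_cast hmm)) hs0.le)
  have hpt : ∀ x : ℝ, Tendsto (fun m : ℕ => Real.exp (s * min x m)) atTop (𝓝 (Real.exp (s * x))) := by
    intro x
    refine tendsto_const_nhds.congr' ?_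
    filter_upwards [eventually_ge_atTop ⌈x⌉₊] with m hm
    rw [min_eq_left ((Nat.le_ceil x).trans (by exact_mod_cast hm))]
  have hI : Integrable (fun x => Real.exp (s * x)) (ν : Measure ℝ) := by
    have hl : ∫⁻ x, ENNReal.ofReal (Real.exp (s * x)) ∂(ν : Measure ℝ) ≤ ENNReal.ofReal (Real.exp (s ^ 2 / 2)) := by
      have ht := lintegral_tendsto_of_tendsto_of_monotone (μ := (ν : Measure ℝ))
        (f := fun (m : ℕ) (x : ℝ) => ENNReal.ofReal (Real.exp (s * min x m)))
        (F := fun x => ENNReal.ofReal (Real.exp (s * x)))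
        (fun m => (hcont m).measurable.ennreal_ofReal.aemeasurable)
        (ae_of_all _ fun x m m' hmm => ENNReal.ofReal_le_ofReal (hmono hmm x))
        (ae_of_all _ fun x => (ENNReal.continuous_ofReal.tendsto _).comp (hpt x))
      refine le_of_tendsto' ht fun m => ?_
      rw [← ofReal_integral_eq_lintegral_ofReal (hint m ν) (ae_of_all _ fun x => (Real.exp_pos _).le)]
      exact ENNReal.ofReal_le_ofReal (hν1 m)
    refine ⟨by fun_prop, ?_⟩
    rw [hasFiniteIntegral_iff_ofReal (ae_of_all _ fun x => (Real.exp_pos _).le)]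
    exact hl.trans_lt ENNReal.ofReal_lt_top
  refine ⟨hI, ?_⟩
  have ht := integral_tendsto_of_tendsto_of_monotone (μ := (ν : Measure ℝ))
    (f := fun (m : ℕ) (x : ℝ) => Real.exp (s * min x m)) (fun m => hint m ν) hI
    (ae_of_all _ fun x m m' hmm => hmono hmm x) (ae_of_all _ hpt)
  refine le_antisymm (le_of_tendsto' ht fun m => hν1 m) ?_
  have h3 : Tendsto (fun m : ℕ => Real.exp (s ^ 2 / 2) - Real.exp (-((1 - s) * (m:ℝ))) * Real.exp (1 ^ 2 / 2))
      atTop (𝓝 (Real.exp (s ^ 2 / 2) - 0 * Real.exp (1 ^ 2 / 2))) := by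
    refine tendsto_const_nhds.sub (Tendsto.mul_const _ ?_)
    exact Real.tendsto_exp_neg_atTop_nhds_zero.comp
      (tendsto_natCast_atTop_atTop.const_mul_atTop (by linarith))
  rw [zero_mul, sub_zero] at h3
  exact le_of_tendsto_of_tendsto' h3 ht fun m => hν2 m

lemma charFun_lim {ν : Measure ℝ} [IsProbabilityMeasure ν]
    (hI : Integrable (fun x => Real.exp (1 / 2 * x)) ν) (t : ℝ) :
    Tendsto (fun s : ℝ => complexMGF id ν (s + t * Complex.I)) (𝓝[>] 0) (𝓝 (charFun ν t)) := by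
  have e : charFun ν t = ∫ x : ℝ, Complex.exp (((0:ℝ) + t * Complex.I) * x) ∂ν := by
    rw [charFun_apply_real]
    refine integral_congr_ae (ae_of_all _ fun x => ?_)
    simp only
    congr 1
    push_cast
    ring
  rw [e]
  unfold complexMGF
  refine tendsto_integral_filter_of_dominated_convergence (fun x => 1 + Real.exp (1 / 2 * x)) ?_ ?_
    ((integrable_const _).add hI) ?_
  · exact Eventually.of_forall fun s => (Continuous.aestronglyMeasurable (by simp only [id]; fun_prop))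
  · have h2 : ∀ᶠ s : ℝ in 𝓝[>] 0, s ≤ 1 / 2 :=
      (eventually_le_nhds (show (0:ℝ) < 1 / 2 by norm_num)).filter_mono nhdsWithin_le_nhds
    have h3 : ∀ᶠ s : ℝ in 𝓝[>] (0:ℝ), 0 < s := self_mem_nhdsWithin
    filter_upwards [h2, h3] with s hs hs0
    refine ae_of_all _ fun x => ?_
    rw [Complex.norm_exp]
    have : (((s:ℂ) + t * Complex.I) * ((id x : ℝ) : ℂ)).re = s * x := by
      simp only [id, Complex.mul_re, Complex.add_re, Complex.ofReal_re, Complex.ofReal_im, Complex.add_im,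
        Complex.mul_im, Complex.I_re, Complex.I_im]
      ring
    rw [this]
    rcases le_total 0 x with hx | hx
    · have : Real.exp (s * x) ≤ Real.exp (1 / 2 * x) :=
        Real.exp_le_exp.mpr (mul_le_mul_of_nonneg_right hs hx)
      linarith
    · have : Real.exp (s * x) ≤ 1 := Real.exp_le_one_iff.mpr (mul_nonpos_of_nonneg_of_nonpos hs0.le hx)
      have := Real.exp_pos (1 / 2 * x)
      linarith
  · refine ae_of_all _ fun x => ?_
    have hc : Continuous fun s : ℝ => Complex.exp (((s:ℂ) + t * Complex.I) * ((id x : ℝ) : ℂ)) := by fun_prop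
    have := (hc.tendsto 0).mono_left (nhdsWithin_le_nhds (s := Set.Ioi 0))
    simpa using this

/-- uniqueness from one side -/
lemma eq_of_mgf_right {ν : ProbabilityMeasure ℝ}
    (h : ∀ s : ℝ, 0 < s → s < 1 → Integrable (fun x => Real.exp (s * x)) (ν : Measure ℝ) ∧
      ∫ x, Real.exp (s * x) ∂(ν : Measure ℝ) = Real.exp (s ^ 2 / 2)) : ν = stdN := by
  have hg : ∀ s : ℝ, Integrable (fun x => Real.exp (s * x)) (gaussianReal 0 1) := fun s =>
    integrable_exp_mul_gaussianReal s
  have hset : {z : ℂ | z.re ∈ Set.Ioo (0:ℝ) 1} ⊆ {z | z.re ∈ interior (integrableExpSet id (ν : Measure ℝ))} := by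
    intro z hz
    have : Set.Ioo (0:ℝ) 1 ⊆ interior (integrableExpSet id (ν : Measure ℝ)) :=
      interior_maximal (fun s hs => (h s hs.1 hs.2).1) isOpen_Ioo
    exact this hz
  have hset' : {z : ℂ | z.re ∈ Set.Ioo (0:ℝ) 1} ⊆ {z | z.re ∈ interior (integrableExpSet id (gaussianReal 0 1))} := by
    intro z hz
    have : Set.Ioo (0:ℝ) 1 ⊆ interior (integrableExpSet id (gaussianReal 0 1)) :=
      interior_maximal (fun s _ => hg s) isOpen_Ioo
    exact this hz
  have hX : AnalyticOnNhd ℂ (complexMGF id (ν : Measure ℝ)) {z : ℂ | z.re ∈ Set.Ioo (0:ℝ) 1} :=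
    analyticOnNhd_complexMGF.mono hset
  have hY : AnalyticOnNhd ℂ (complexMGF id (gaussianReal 0 1)) {z : ℂ | z.re ∈ Set.Ioo (0:ℝ) 1} :=
    analyticOnNhd_complexMGF.mono hset'
  have hmg : ∀ s ∈ Set.Ioo (0:ℝ) 1, complexMGF id (ν : Measure ℝ) s = complexMGF id (gaussianReal 0 1) s := by
    intro s hs
    rw [complexMGF_ofReal, complexMGF_ofReal, mgf_id_gaussianReal]
    unfold mgf
    simp only [id]
    rw [(h s hs.1 hs.2).2]
    norm_num
  have hEq : Set.EqOn (complexMGF id (ν : Measure ℝ)) (complexMGF id (gaussianReal 0 1))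
      {z : ℂ | z.re ∈ Set.Ioo (0:ℝ) 1} := by
    refine AnalyticOnNhd.eqOn_of_preconnected_of_frequently_eq hX hY ?_ (z₀ := ((1 / 2 : ℝ) : ℂ)) ?_ ?_
    · exact ((convex_Ioo (0:ℝ) 1).linear_preimage Complex.reLm).isPreconnected
    · simp only [Set.mem_ofPred_eq, Complex.ofReal_re]; norm_num
    · have h_real : ∃ᶠ (x : ℝ) in 𝓝[≠] (1 / 2 : ℝ),
          complexMGF id (ν : Measure ℝ) x = complexMGF id (gaussianReal 0 1) x := by
        refine Eventually.frequently ?_
        have : ∀ᶠ x : ℝ in 𝓝 (1 / 2 : ℝ), x ∈ Set.Ioo (0:ℝ) 1 := Ioo_mem_nhds (by norm_num) (by norm_num)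
        filter_upwards [this.filter_mono nhdsWithin_le_nhds] with x hx using hmg x hx
      rw [frequently_iff_seq_forall] at h_real ⊢
      obtain ⟨xs, hx_tendsto, hx_eq⟩ := h_real
      refine ⟨fun n => xs n, ?_, fun n => ?_⟩
      · rw [tendsto_nhdsWithin_iff] at hx_tendsto ⊢
        constructor
        · exact (Complex.continuous_ofReal.tendsto _).comp hx_tendsto.1
        · filter_upwards [hx_tendsto.2] with n hn h
          exact hn (by
            have : ((xs n : ℝ) : ℂ) = ((1 / 2 : ℝ) : ℂ) := h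
            exact_mod_cast this)
      · simp [hx_eq]
  refine Subtype.ext ?_
  show (ν : Measure ℝ) = gaussianReal 0 1
  refine Measure.ext_of_charFun (funext fun t => ?_)
  have h1 := charFun_lim (h (1 / 2) (by norm_num) (by norm_num)).1 t
  have h2 := charFun_lim (ν := gaussianReal 0 1) (hg (1 / 2)) t
  refine tendsto_nhds_unique h1 (h2.congr' ?_)
  have a1 : ∀ᶠ s : ℝ in 𝓝[>] 0, s < 1 :=
    (eventually_lt_nhds (show (0:ℝ) < 1 by norm_num)).filter_mono nhdsWithin_le_nhds
  have a2 : ∀ᶠ s : ℝ in 𝓝[>] (0:ℝ), 0 < s := self_mem_nhdsWithin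
  filter_upwards [a1, a2] with s hs1 hs0
  refine (hEq ?_).symm
  simp only [Set.mem_ofPred_eq, Complex.add_re, Complex.ofReal_re, Complex.mul_re, Complex.I_re, mul_zero,
    Complex.ofReal_im, Complex.I_im, mul_one, sub_self, add_zero]
  exact ⟨hs0, hs1⟩

/-- **Curtiss, one-sided.** -/
theorem curtiss {μ : ℕ → ProbabilityMeasure ℝ}
    (hi : ∀ n, ∀ s : ℝ, 0 < s → s ≤ 1 → Integrable (fun x => Real.exp (s * x)) (μ n : Measure ℝ))
    (h : ∀ s : ℝ, 0 < s → s ≤ 1 →
      Tendsto (fun n => ∫ x, Real.exp (s * x) ∂(μ n : Measure ℝ)) atTop (𝓝 (Real.exp (s ^ 2 / 2)))) :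
    Tendsto μ atTop (𝓝 stdN) := by
  have ht := tight_of_mgf hi h
  refine (Filter.tendsto_iff_ultrafilter _ _ _).2 fun U hU => ?_
  have h_compact : IsCompact (closure {x | ∃ n, μ n = x}) := by
    refine isCompact_closure_of_isTightMeasureSet ?_
    refine ht.subset ?_
    rintro _ ⟨x, ⟨n, rfl⟩, rfl⟩
    exact ⟨n, rfl⟩
  obtain ⟨ν, -, hν⟩ := h_compact.ultrafilter_le_nhds (U.map μ)
    (.trans (by simp) (monotone_principal subset_closure))
  have : ν = stdN := eq_of_mgf_right fun s hs0 hs1 => lim_mgf hi h hU hν hs0 hs1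
  rw [← this]
  exact hν

/-- the distribution functions converge -/
theorem curtiss_cdf {μ : ℕ → ProbabilityMeasure ℝ}
    (hi : ∀ n, ∀ s : ℝ, 0 < s → s ≤ 1 → Integrable (fun x => Real.exp (s * x)) (μ n : Measure ℝ))
    (h : ∀ s : ℝ, 0 < s → s ≤ 1 →
      Tendsto (fun n => ∫ x, Real.exp (s * x) ∂(μ n : Measure ℝ)) atTop (𝓝 (Real.exp (s ^ 2 / 2)))) (y : ℝ) :
    Tendsto (fun n => (μ n : Measure ℝ).real (Set.Iic y)) atTop (𝓝 ((gaussianReal 0 1).real (Set.Iic y))) := by
  have h1 := ProbabilityMeasure.tendsto_measure_of_null_frontier_of_tendsto' (curtiss hi h) (E := Set.Iic y)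
    (by
      rw [frontier_Iic]
      show (gaussianReal 0 1) {y} = 0
      have := nullSingletonClass_gaussianReal (μ := 0) (v := 1) one_ne_zero
      exact measure_singleton _)
  exact (ENNReal.tendsto_toReal (measure_ne_top _ _)).comp h1

end

end Pool.Agent.Q273.WL
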