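import Pool.Agent.Q273.WL1

set_option autoImplicit false

/-!
The law of `log f` under the measure with density `f ^ b`, when the moments of order close to `b` are
asymptotic to `exp (β ^ 2 / 4 * Λ)`.
-/

namespace Pool.Agent.Q273.WL

open MeasureTheory ProbabilityTheory Filter Topology Set

noncomputable section

/-- the weighted measure on the unit interval -/
def wm (f : ℝ → ℝ) (b : ℝ) : Measure ℝ :=
  (volume.restrict (Ioc (0:ℝ) 1)).withDensity fun u => ENNReal.ofReal (f u ^ b / ∫ u in (0:ℝ)..1, f u ^ b)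

/-- the normalised logarithm -/
def nz (f : ℝ → ℝ) (b Λ u : ℝ) : ℝ := (Real.log (f u) - b / 2 * Λ) / √(Λ / 2)

variable {f : ℝ → ℝ} {b Λ : ℝ}

lemma intOn (hf : Continuous f) (hb : 0 ≤ b) : IntegrableOn (fun u => f u ^ b) (Ioc (0:ℝ) 1) :=
  ((hf.rpow_const fun _ => Or.inr hb).integrableOn_Icc).mono_set Ioc_subset_Icc_self

lemma nz_meas (hf : Continuous f) : Measurable (nz f b Λ) := by
  unfold nz
  have := hf.measurable
  fun_prop

lemma wm_prob (hf : Continuous f) (hf0 : ∀ u, 0 ≤ f u) (hb : 0 ≤ b) (hA : 0 < ∫ u in (0:ℝ)..1, f u ^ b) :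
    IsProbabilityMeasure (wm f b) := by
  constructor
  unfold wm
  rw [withDensity_apply _ MeasurableSet.univ, Measure.restrict_univ, ← ofReal_integral_eq_lintegral_ofReal]
  · rw [integral_div, ← intervalIntegral.integral_of_le zero_le_one, div_self hA.ne', ENNReal.ofReal_one]
  · exact (intOn hf hb).div_const _
  · exact ae_of_all _ fun u => div_nonneg (Real.rpow_nonneg (hf0 u) _) hA.le

lemma wm_int (hf : Continuous f) (hf0 : ∀ u, 0 ≤ f u) (hA : 0 < ∫ u in (0:ℝ)..1, f u ^ b)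
    (g : ℝ → ℝ) :
    ∫ u, g u ∂(wm f b) = (∫ u in Ioc (0:ℝ) 1, f u ^ b * g u) / ∫ u in (0:ℝ)..1, f u ^ b := by
  unfold wm
  have hm : Measurable fun u => Real.toNNReal (f u ^ b / ∫ u in (0:ℝ)..1, f u ^ b) := by
    have := hf.measurable
    fun_prop
  have e : (fun u => ENNReal.ofReal (f u ^ b / ∫ u in (0:ℝ)..1, f u ^ b)) =
      fun u => ((Real.toNNReal (f u ^ b / ∫ u in (0:ℝ)..1, f u ^ b) : NNReal) : ENNReal) := rfl
  rw [e, integral_withDensity_eq_integral_smul hm, ← integral_div]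
  refine integral_congr_ae (ae_of_all _ fun u => ?_)
  simp only [NNReal.smul_def, smul_eq_mul]
  rw [Real.coe_toNNReal _ (div_nonneg (Real.rpow_nonneg (hf0 u) _) hA.le)]
  ring

lemma wm_intble (hf : Continuous f) (hf0 : ∀ u, 0 ≤ f u) (hA : 0 < ∫ u in (0:ℝ)..1, f u ^ b)
    {g : ℝ → ℝ} (hg : IntegrableOn (fun u => f u ^ b * g u) (Ioc (0:ℝ) 1)) :
    Integrable g (wm f b) := by
  unfold wm
  have hm : Measurable fun u => Real.toNNReal (f u ^ b / ∫ u in (0:ℝ)..1, f u ^ b) := by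
    have := hf.measurable
    fun_prop
  have e : (fun u => ENNReal.ofReal (f u ^ b / ∫ u in (0:ℝ)..1, f u ^ b)) =
      fun u => ((Real.toNNReal (f u ^ b / ∫ u in (0:ℝ)..1, f u ^ b) : NNReal) : ENNReal) := rfl
  rw [e, integrable_withDensity_iff_integrable_smul hm]
  refine (hg.div_const (∫ u in (0:ℝ)..1, f u ^ b)).congr (ae_of_all _ fun u => ?_)
  simp only [NNReal.smul_def, smul_eq_mul]
  rw [Real.coe_toNNReal _ (div_nonneg (Real.rpow_nonneg (hf0 u) _) hA.le)]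
  ring

/-- the weight times the exponential of the normalised logarithm -/
lemma exp_nz (hf0 : ∀ u, 0 ≤ f u) (hb : 0 < b) {s : ℝ} (hs : 0 < b + s / √(Λ / 2)) (u : ℝ) :
    f u ^ b * Real.exp (s * nz f b Λ u) =
      f u ^ (b + s / √(Λ / 2)) * Real.exp (-(s / √(Λ / 2) * (b / 2 * Λ))) := by
  rcases (hf0 u).eq_or_lt with h | h
  · rw [← h, Real.zero_rpow hb.ne', Real.zero_rpow hs.ne', zero_mul, zero_mul]
  · rw [Real.rpow_def_of_pos h, Real.rpow_def_of_pos h, ← Real.exp_add, ← Real.exp_add]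
    congr 1
    unfold nz
    ring

/-- the moment generating function of the normalised logarithm -/
lemma mgf_nz (hf : Continuous f) (hf0 : ∀ u, 0 ≤ f u) (hb : 0 < b) (hΛ : 0 < Λ)
    (hA : 0 < ∫ u in (0:ℝ)..1, f u ^ b) {s : ℝ} (hs : 0 < b + s / √(Λ / 2)) :
    ∫ u, Real.exp (s * nz f b Λ u) ∂(wm f b) =
      (∫ u in (0:ℝ)..1, f u ^ (b + s / √(Λ / 2))) / Real.exp ((b + s / √(Λ / 2)) ^ 2 / 4 * Λ) *
      (Real.exp (b ^ 2 / 4 * Λ) / ∫ u in (0:ℝ)..1, f u ^ b) * Real.exp (s ^ 2 / 2) := by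
  rw [wm_int hf hf0 hA]
  simp_rw [exp_nz hf0 hb hs]
  rw [integral_mul_const, intervalIntegral.integral_of_le zero_le_one,
    intervalIntegral.integral_of_le zero_le_one] at *
  have hq : √(Λ / 2) ^ 2 = Λ / 2 := Real.sq_sqrt (by positivity)
  have hq0 : 0 < √(Λ / 2) := Real.sqrt_pos.mpr (by positivity)
  have e : Real.exp (-(s / √(Λ / 2) * (b / 2 * Λ))) =
      Real.exp (b ^ 2 / 4 * Λ) * Real.exp (s ^ 2 / 2) / Real.exp ((b + s / √(Λ / 2)) ^ 2 / 4 * Λ) := by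
    rw [← Real.exp_add, ← Real.exp_sub]
    congr 1
    have h1 : (s / √(Λ / 2)) ^ 2 * Λ = 2 * s ^ 2 := by
      rw [div_pow, hq]; field_simp
    have : (b + s / √(Λ / 2)) ^ 2 / 4 * Λ = b ^ 2 / 4 * Λ + s / √(Λ / 2) * (b / 2 * Λ) +
        (s / √(Λ / 2)) ^ 2 * Λ / 4 := by ring
    rw [this, h1]
    ring
  rw [e]
  field_simp

lemma expint_nz (hf : Continuous f) (hf0 : ∀ u, 0 ≤ f u) (hb : 0 < b) (hΛ : 0 < Λ)
    (hA : 0 < ∫ u in (0:ℝ)..1, f u ^ b) {s : ℝ} (hs : 0 < b + s / √(Λ / 2)) :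
    Integrable (fun u => Real.exp (s * nz f b Λ u)) (wm f b) := by
  refine wm_intble hf hf0 hA ?_
  simp_rw [exp_nz hf0 hb hs]
  exact (intOn hf hs.le).mul_const _

/-- the law of the normalised logarithm -/
def lawP (f : ℝ → ℝ) (b Λ : ℝ) (h : IsProbabilityMeasure (wm f b)) (hm : Measurable (nz f b Λ)) :
    ProbabilityMeasure ℝ :=
  ⟨(wm f b).map (nz f b Λ), Measure.isProbabilityMeasure_map hm.aemeasurable⟩

/-- the truncated moment -/
def tr (f : ℝ → ℝ) (b c : ℝ) : ℝ := ∫ u in {u : ℝ | u ∈ Ioc (0:ℝ) 1 ∧ f u ≤ c}, f u ^ b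

lemma lawP_Iic (hf : Continuous f) (hf0 : ∀ u, 0 ≤ f u) (hb : 0 < b) (hΛ : 0 < Λ)
    (hA : 0 < ∫ u in (0:ℝ)..1, f u ^ b) (h : IsProbabilityMeasure (wm f b)) (y : ℝ) :
    (lawP f b Λ h (nz_meas hf) : Measure ℝ).real (Iic y) =
      tr f b (Real.exp (b / 2 * Λ + y * √(Λ / 2))) / ∫ u in (0:ℝ)..1, f u ^ b := by
  have hq0 : 0 < √(Λ / 2) := Real.sqrt_pos.mpr (by positivity)
  have hmS : MeasurableSet (nz f b Λ ⁻¹' Iic y) := nz_meas hf measurableSet_Iic
  have e1 : (lawP f b Λ h (nz_meas hf) : Measure ℝ).real (Iic y) =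
      ∫ u, (nz f b Λ ⁻¹' Iic y).indicator (fun _ => (1:ℝ)) u ∂(wm f b) := by
    rw [integral_indicator_const _ hmS, smul_eq_mul, mul_one]
    show ((wm f b).map (nz f b Λ)).real (Iic y) = _
    rw [map_measureReal_apply (nz_meas hf) measurableSet_Iic]
  rw [e1, wm_int hf hf0 hA]
  congr 1
  unfold tr
  have hS : MeasurableSet {u : ℝ | u ∈ Ioc (0:ℝ) 1 ∧ f u ≤ Real.exp (b / 2 * Λ + y * √(Λ / 2))} :=
    measurableSet_Ioc.inter (measurableSet_le hf.measurable measurable_const)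
  have e2 : ∀ u, f u ^ b * (nz f b Λ ⁻¹' Iic y).indicator (fun _ => (1:ℝ)) u =
      {u : ℝ | f u ≤ Real.exp (b / 2 * Λ + y * √(Λ / 2))}.indicator (fun u => f u ^ b) u := by
    intro u
    rcases (hf0 u).eq_or_lt with h | h
    · have : f u ^ b = 0 := by rw [← h, Real.zero_rpow hb.ne']
      rw [this, zero_mul]
      by_cases hu : u ∈ {u : ℝ | f u ≤ Real.exp (b / 2 * Λ + y * √(Λ / 2))}
      · rw [indicator_of_mem hu, this]
      · rw [indicator_of_notMem hu]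
    · have hiff : u ∈ nz f b Λ ⁻¹' Iic y ↔ u ∈ {u : ℝ | f u ≤ Real.exp (b / 2 * Λ + y * √(Λ / 2))} := by
        simp only [mem_preimage, mem_Iic, mem_ofPred_eq]
        unfold nz
        rw [div_le_iff₀ hq0, ← Real.log_le_iff_le_exp h]
        constructor <;> intro h <;> linarith
      by_cases hu : u ∈ {u : ℝ | f u ≤ Real.exp (b / 2 * Λ + y * √(Λ / 2))}
      · rw [indicator_of_mem hu, indicator_of_mem (hiff.mpr hu), mul_one]
      · rw [indicator_of_notMem hu, indicator_of_notMem (fun h => hu (hiff.mp h)), mul_zero]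
  simp_rw [e2]
  have hS2 : MeasurableSet {u : ℝ | f u ≤ Real.exp (b / 2 * Λ + y * √(Λ / 2))} :=
    measurableSet_le hf.measurable measurable_const
  rw [integral_indicator hS2, Measure.restrict_restrict hS2]
  congr 2
  ext u
  simp only [mem_inter_iff, mem_ofPred_eq]
  tauto

/-- the law of `log f` under the weight `f ^ b` -/
theorem law {f : ℕ → ℝ → ℝ} (hf : ∀ n, Continuous (f n)) (hf0 : ∀ n u, 0 ≤ f n u) {b Λ : ℕ → ℝ}
    (hb : ∀ n, 0 < b n) (hΛ : ∀ n, 0 < Λ n) (hA : ∀ n, 0 < ∫ u in (0:ℝ)..1, f n u ^ b n)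
    (h : ∀ s : ℝ, 0 ≤ s → s ≤ 1 → Tendsto (fun n => (∫ u in (0:ℝ)..1, f n u ^ (b n + s / √(Λ n / 2))) /
      Real.exp ((b n + s / √(Λ n / 2)) ^ 2 / 4 * Λ n)) atTop (𝓝 1)) (y : ℝ) :
    Tendsto (fun n => tr (f n) (b n) (Real.exp (b n / 2 * Λ n + y * √(Λ n / 2))) /
      Real.exp (b n ^ 2 / 4 * Λ n)) atTop (𝓝 ((gaussianReal 0 1).real (Iic y))) := by
  have hpr : ∀ n, IsProbabilityMeasure (wm (f n) (b n)) := fun n => wm_prob (hf n) (hf0 n) (hb n).le (hA n)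
  set μ : ℕ → ProbabilityMeasure ℝ := fun n => lawP (f n) (b n) (Λ n) (hpr n) (nz_meas (hf n)) with hμ
  have hμn : ∀ n, (μ n : Measure ℝ) = (wm (f n) (b n)).map (nz (f n) (b n) (Λ n)) := fun n => rfl
  have hpos : ∀ n (s : ℝ), 0 ≤ s → 0 < b n + s / √(Λ n / 2) := fun n s hs =>
    add_pos_of_pos_of_nonneg (hb n) (div_nonneg hs (Real.sqrt_nonneg _))
  have h0 := h 0 le_rfl zero_le_one
  simp only [zero_div, add_zero] at h0
  have h0' : Tendsto (fun n => Real.exp (b n ^ 2 / 4 * Λ n) / ∫ u in (0:ℝ)..1, f n u ^ b n) atTop (𝓝 1) := by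
    have := h0.inv₀ one_ne_zero
    rw [inv_one] at this
    refine this.congr fun n => ?_
    rw [inv_div]
  have hi : ∀ n, ∀ s : ℝ, 0 < s → s ≤ 1 → Integrable (fun x => Real.exp (s * x)) (μ n : Measure ℝ) := by
    intro n s hs _
    rw [hμn, integrable_map_measure (by fun_prop) (nz_meas (hf n)).aemeasurable]
    exact expint_nz (hf n) (hf0 n) (hb n) (hΛ n) (hA n) (hpos n s hs.le)
  have hm : ∀ s : ℝ, 0 < s → s ≤ 1 →
      Tendsto (fun n => ∫ x, Real.exp (s * x) ∂(μ n : Measure ℝ)) atTop (𝓝 (Real.exp (s ^ 2 / 2))) := by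
    intro s hs hs1
    have h1 := ((h s hs.le hs1).mul h0').mul_const (Real.exp (s ^ 2 / 2))
    rw [one_mul, one_mul] at h1
    refine h1.congr fun n => ?_
    rw [hμn, integral_map (nz_meas (hf n)).aemeasurable (by fun_prop),
      mgf_nz (hf n) (hf0 n) (hb n) (hΛ n) (hA n) (hpos n s hs.le)]
  have h2 := curtiss_cdf hi hm y
  have h3 := h2.mul h0
  rw [mul_one] at h3
  refine h3.congr fun n => ?_
  have e := lawP_Iic (hf n) (hf0 n) (hb n) (hΛ n) (hA n) (hpr n) y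
  show (lawP (f n) (b n) (Λ n) (hpr n) (nz_meas (hf n)) : Measure ℝ).real (Iic y) * _ = _
  rw [e]
  have := (hA n).ne'
  field_simp

end

end Pool.Agent.Q273.WL
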