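import Pool.Agent.Q273.WL2

set_option autoImplicit false

/-!
Convergence of the moments of the normalised logarithm, and uniformity.
-/

namespace Pool.Agent.Q273.WL

open MeasureTheory ProbabilityTheory Filter Topology Set

noncomputable section

/-- the truncated power -/
def clp (m : ℕ) (R x : ℝ) : ℝ := (max (-R) (min R x)) ^ m

lemma clp_cont (m : ℕ) (R : ℝ) : Continuous (clp m R) := by unfold clp; fun_prop

lemma clp_bd (m : ℕ) {R : ℝ} (hR : 0 ≤ R) (x : ℝ) : |clp m R x| ≤ R ^ m := by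
  unfold clp
  rw [abs_pow]
  refine pow_le_pow_left₀ (abs_nonneg _) ?_ m
  rw [abs_le]
  exact ⟨le_max_left _ _, max_le (by linarith) (min_le_left _ _)⟩

lemma pow_le_exp (m : ℕ) (x : ℝ) : |x| ^ m ≤ m.factorial * 2 ^ m * Real.exp (|x| / 2) := by
  have h := Real.pow_div_factorial_le_exp (|x| / 2) (by positivity) m
  rw [div_pow, div_div, div_le_iff₀ (by positivity)] at h
  nlinarith [h]

lemma clp_err (m : ℕ) {R : ℝ} (hR : 0 ≤ R) (x : ℝ) :
    |x ^ m - clp m R x| ≤ 2 * (m.factorial * 2 ^ m) * Real.exp (-R / 2) * (Real.exp (1 * x) + Real.exp (-1 * x)) := by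
  by_cases hx : |x| ≤ R
  · have : clp m R x = x ^ m := by
      unfold clp
      rw [min_eq_right (abs_le.mp hx).2, max_eq_right (abs_le.mp hx).1]
    rw [this, sub_self, abs_zero]
    positivity
  · push Not at hx
    have h1 : |x ^ m - clp m R x| ≤ 2 * |x| ^ m := by
      calc |x ^ m - clp m R x| ≤ |x ^ m| + |clp m R x| := abs_sub _ _
        _ ≤ |x| ^ m + R ^ m := add_le_add (abs_pow x m).le (clp_bd m hR x)
        _ ≤ |x| ^ m + |x| ^ m := by gcongr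
        _ = 2 * |x| ^ m := by ring
    have h2 := pow_le_exp m x
    have h3 : Real.exp (|x| / 2) ≤ Real.exp (-R / 2) * Real.exp |x| := by
      rw [← Real.exp_add]
      exact Real.exp_le_exp.mpr (by linarith)
    have h4 : Real.exp |x| ≤ Real.exp (1 * x) + Real.exp (-1 * x) := by
      have p1 := Real.exp_pos (1 * x)
      have p2 := Real.exp_pos (-1 * x)
      rcases abs_cases x with ⟨h, _⟩ | ⟨h, _⟩
      · rw [h]; rw [one_mul] at *; linarith
      · rw [h]; have : -1 * x = -x := by ring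
        rw [this] at *; linarith
    calc |x ^ m - clp m R x| ≤ 2 * |x| ^ m := h1
      _ ≤ 2 * (m.factorial * 2 ^ m * Real.exp (|x| / 2)) := by linarith
      _ ≤ 2 * (m.factorial * 2 ^ m * (Real.exp (-R / 2) * (Real.exp (1 * x) + Real.exp (-1 * x)))) := by
          gcongr
          exact h3.trans (mul_le_mul_of_nonneg_left h4 (Real.exp_pos _).le)
      _ = _ := by ring

lemma clp_int (m : ℕ) {R : ℝ} (hR : 0 ≤ R) (ρ : Measure ℝ) [IsProbabilityMeasure ρ] : Integrable (clp m R) ρ :=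
  (integrable_const (R ^ m)).mono' (clp_cont m R).aestronglyMeasurable
    (ae_of_all _ fun x => by rw [Real.norm_eq_abs]; exact clp_bd m hR x)

lemma pow_int (m : ℕ) {ρ : Measure ℝ} [IsProbabilityMeasure ρ] (h1 : Integrable (fun x => Real.exp (1 * x)) ρ)
    (h2 : Integrable (fun x => Real.exp (-1 * x)) ρ) : Integrable (fun x => x ^ m) ρ := by
  refine ((h1.add h2).const_mul ((m.factorial * 2 ^ m : ℕ) : ℝ)).mono' (by fun_prop) (ae_of_all _ fun x => ?_)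
  rw [Real.norm_eq_abs, abs_pow]
  refine (pow_le_exp m x).trans ?_
  push_cast
  refine mul_le_mul_of_nonneg_left ?_ (by positivity)
  simp only [Pi.add_apply]
  have p1 := Real.exp_pos (1 * x)
  have p2 := Real.exp_pos (-1 * x)
  rcases abs_cases x with ⟨h, h'⟩ | ⟨h, h'⟩
  · rw [h]
    have : Real.exp (x / 2) ≤ Real.exp (1 * x) := Real.exp_le_exp.mpr (by linarith)
    linarith
  · rw [h]
    have : Real.exp (-x / 2) ≤ Real.exp (-1 * x) := Real.exp_le_exp.mpr (by linarith)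
    linarith

lemma pow_err (m : ℕ) {R : ℝ} (hR : 0 ≤ R) {ρ : Measure ℝ} [IsProbabilityMeasure ρ]
    (h1 : Integrable (fun x => Real.exp (1 * x)) ρ)
    (h2 : Integrable (fun x => Real.exp (-1 * x)) ρ) :
    |(∫ x, x ^ m ∂ρ) - ∫ x, clp m R x ∂ρ| ≤ 2 * (m.factorial * 2 ^ m) * Real.exp (-R / 2) *
      ((∫ x, Real.exp (1 * x) ∂ρ) + ∫ x, Real.exp (-1 * x) ∂ρ) := by
  rw [← integral_sub (pow_int m h1 h2) (clp_int m hR ρ), ← integral_add h1 h2, ← integral_const_mul]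
  refine (abs_integral_le_integral_abs).trans ?_
  exact integral_mono ((pow_int m h1 h2).sub (clp_int m hR ρ)).abs ((h1.add h2).const_mul _) fun x => clp_err m hR x

/-- convergence of the moments from the convergence of the moment generating functions on both sides -/
theorem moments {μ : ℕ → ProbabilityMeasure ℝ}
    (hi : ∀ n, ∀ s : ℝ, |s| ≤ 1 → Integrable (fun x => Real.exp (s * x)) (μ n : Measure ℝ))
    (h : ∀ s : ℝ, |s| ≤ 1 →
      Tendsto (fun n => ∫ x, Real.exp (s * x) ∂(μ n : Measure ℝ)) atTop (𝓝 (Real.exp (s ^ 2 / 2)))) (m : ℕ) :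
    Tendsto (fun n => ∫ x, x ^ m ∂(μ n : Measure ℝ)) atTop (𝓝 (∫ x, x ^ m ∂(gaussianReal 0 1))) := by
  have hab : ∀ s : ℝ, 0 < s → s ≤ 1 → |s| ≤ 1 := fun s h0 h1 => by rw [abs_of_pos h0]; exact h1
  have hw := curtiss (fun n s h0 h1 => hi n s (hab s h0 h1)) (fun s h0 h1 => h s (hab s h0 h1))
  have hm1 : |(-1:ℝ)| ≤ 1 := by norm_num
  have hp1 : |(1:ℝ)| ≤ 1 := by norm_num
  have hg : ∀ s : ℝ, Integrable (fun x => Real.exp (s * x)) (gaussianReal 0 1) := fun s =>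
    integrable_exp_mul_gaussianReal s
  have hgi : ∀ s : ℝ, ∫ x, Real.exp (s * x) ∂(gaussianReal 0 1) = Real.exp (s ^ 2 / 2) := fun s => by
    have := congrFun (mgf_id_gaussianReal (μ := 0) (v := 1)) s
    unfold mgf at this
    simp only [id] at this
    rw [this]; norm_num
  rw [Metric.tendsto_nhds]
  intro ε hε
  set C : ℝ := 2 * (m.factorial * 2 ^ m) with hC
  have hC0 : 0 < C := by positivity
  set M : ℝ := Real.exp ((1:ℝ) ^ 2 / 2) + Real.exp ((-1:ℝ) ^ 2 / 2) with hM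
  have hM0 : 0 < M := by positivity
  obtain ⟨R, hR0, hR⟩ : ∃ R : ℝ, 0 ≤ R ∧ C * Real.exp (-R / 2) * (M + 1) < ε / 3 := by
    have a1 : Tendsto (fun r : ℝ => Real.exp (-r / 2)) atTop (𝓝 0) := by
      have := Real.tendsto_exp_neg_atTop_nhds_zero.comp (tendsto_id.const_mul_atTop (show (0:ℝ) < 1 / 2 by norm_num))
      refine this.congr fun r => ?_
      simp only [Function.comp, id]
      congr 1; ring
    have a2 := (a1.const_mul C).mul_const (M + 1)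
    rw [mul_zero, zero_mul] at a2
    obtain ⟨R, h1, h2⟩ := ((a2.eventually (gt_mem_nhds (show (0:ℝ) < ε / 3 by positivity))).and
      (eventually_ge_atTop (0:ℝ))).exists
    exact ⟨R, h2, h1⟩
  have t1 : Tendsto (fun n => ∫ x, clp m R x ∂(μ n : Measure ℝ)) atTop (𝓝 (∫ x, clp m R x ∂(gaussianReal 0 1))) :=
    (ProbabilityMeasure.tendsto_iff_forall_integral_tendsto.mp hw)
      (BoundedContinuousFunction.ofNormedAddCommGroup (clp m R) (clp_cont m R) (R ^ m) fun x => by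
        rw [Real.norm_eq_abs]; exact clp_bd m hR0 x)
  have t2 : Tendsto (fun n => (∫ x, Real.exp (1 * x) ∂(μ n : Measure ℝ)) +
      ∫ x, Real.exp (-1 * x) ∂(μ n : Measure ℝ)) atTop (𝓝 M) := (h 1 hp1).add (h (-1) hm1)
  filter_upwards [Metric.tendsto_nhds.mp t1 (ε / 3) (by positivity),
    t2.eventually (gt_mem_nhds (show M < M + 1 by linarith))] with n hn1 hn2
  have e1 := pow_err m hR0 (hi n 1 hp1) (hi n (-1) hm1)
  have e2 := pow_err m hR0 (hg 1) (hg (-1))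
  rw [hgi, hgi] at e2
  have e3 : C * Real.exp (-R / 2) * ((∫ x, Real.exp (1 * x) ∂(μ n : Measure ℝ)) +
      ∫ x, Real.exp (-1 * x) ∂(μ n : Measure ℝ)) ≤ C * Real.exp (-R / 2) * (M + 1) :=
    mul_le_mul_of_nonneg_left hn2.le (by positivity)
  have e4 : C * Real.exp (-R / 2) * M ≤ C * Real.exp (-R / 2) * (M + 1) :=
    mul_le_mul_of_nonneg_left (by linarith) (by positivity)
  rw [Real.dist_eq] at hn1 ⊢
  have f1 := abs_le.mp (e1.trans e3)
  have f2 := abs_le.mp (e2.trans e4)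
  have f3 := abs_lt.mp hn1
  rw [abs_lt]
  constructor <;> linarith [f1.1, f1.2, f2.1, f2.2, f3.1, f3.2]

/-- the moments of the normalised logarithm under the weight -/
theorem law_mom {f : ℕ → ℝ → ℝ} (hf : ∀ n, Continuous (f n)) (hf0 : ∀ n u, 0 ≤ f n u) {b Λ : ℕ → ℝ}
    (hb : ∀ n, 0 < b n) (hb' : ∀ n (s : ℝ), |s| ≤ 1 → 0 < b n + s / √(Λ n / 2))
    (hΛ : ∀ n, 0 < Λ n) (hA : ∀ n, 0 < ∫ u in (0:ℝ)..1, f n u ^ b n)
    (h : ∀ s : ℝ, |s| ≤ 1 → Tendsto (fun n => (∫ u in (0:ℝ)..1, f n u ^ (b n + s / √(Λ n / 2))) /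
      Real.exp ((b n + s / √(Λ n / 2)) ^ 2 / 4 * Λ n)) atTop (𝓝 1)) (m : ℕ) :
    Tendsto (fun n => (∫ u in (0:ℝ)..1, f n u ^ b n * nz (f n) (b n) (Λ n) u ^ m) /
      Real.exp (b n ^ 2 / 4 * Λ n)) atTop (𝓝 (∫ x, x ^ m ∂(gaussianReal 0 1))) := by
  have hpr : ∀ n, IsProbabilityMeasure (wm (f n) (b n)) := fun n => wm_prob (hf n) (hf0 n) (hb n).le (hA n)
  set μ : ℕ → ProbabilityMeasure ℝ := fun n => lawP (f n) (b n) (Λ n) (hpr n) (nz_meas (hf n)) with hμ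
  have hμn : ∀ n, (μ n : Measure ℝ) = (wm (f n) (b n)).map (nz (f n) (b n) (Λ n)) := fun n => rfl
  have h0 := h 0 (by simp)
  simp only [zero_div, add_zero] at h0
  have h0' : Tendsto (fun n => Real.exp (b n ^ 2 / 4 * Λ n) / ∫ u in (0:ℝ)..1, f n u ^ b n) atTop (𝓝 1) := by
    have := h0.inv₀ one_ne_zero
    rw [inv_one] at this
    refine this.congr fun n => ?_
    rw [inv_div]
  have hi : ∀ n, ∀ s : ℝ, |s| ≤ 1 → Integrable (fun x => Real.exp (s * x)) (μ n : Measure ℝ) := by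
    intro n s hs
    rw [hμn, integrable_map_measure (by fun_prop) (nz_meas (hf n)).aemeasurable]
    exact expint_nz (hf n) (hf0 n) (hb n) (hΛ n) (hA n) (hb' n s hs)
  have hm : ∀ s : ℝ, |s| ≤ 1 →
      Tendsto (fun n => ∫ x, Real.exp (s * x) ∂(μ n : Measure ℝ)) atTop (𝓝 (Real.exp (s ^ 2 / 2))) := by
    intro s hs
    have h1 := ((h s hs).mul h0').mul_const (Real.exp (s ^ 2 / 2))
    rw [one_mul, one_mul] at h1
    refine h1.congr fun n => ?_
    rw [hμn, integral_map (nz_meas (hf n)).aemeasurable (by fun_prop),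
      mgf_nz (hf n) (hf0 n) (hb n) (hΛ n) (hA n) (hb' n s hs)]
  have h2 := moments hi hm m
  have h3 := h2.mul h0
  rw [mul_one] at h3
  refine h3.congr fun n => ?_
  rw [hμn, integral_map (nz_meas (hf n)).aemeasurable (by fun_prop), wm_int (hf n) (hf0 n) (hA n),
    ← intervalIntegral.integral_of_le zero_le_one]
  have := (hA n).ne'
  field_simp

/-- a bad sequence -/
lemma extract {F : ℝ → ℝ → ℝ → ℝ} {b₀ : ℝ}
    (hs : ∀ ε : ℝ, 0 < ε → ∃ δ : ℝ, 0 < δ ∧ ∀ x : ℝ, ∀ᶠ T : ℝ in atTop, ∀ β : ℝ, 0 < β → |β - b₀| ≤ δ →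
      |(∫ u in (0:ℝ)..1, F x T u ^ β) / Real.exp (β ^ 2 / 4 * Real.log (Real.log T)) - 1| ≤ ε)
    {Q : ℝ → ℝ → ℝ → Prop}
    (hneg : ¬ ∃ δ : ℝ, 0 < δ ∧ ∀ x : ℝ, ∀ᶠ T : ℝ in atTop, ∀ β : ℝ, 0 < β → |β - b₀| ≤ δ → Q x T β) :
    ∃ x T b : ℕ → ℝ, (∀ n, 0 < b n) ∧ (∀ n, 0 < Real.log (Real.log (T n))) ∧
      (∀ n, 0 < ∫ u in (0:ℝ)..1, F (x n) (T n) u ^ b n) ∧
      (∀ n, |b n - b₀| ≤ 1 / 2) ∧ (∀ n, 1 / √(Real.log (Real.log (T n)) / 2) ≤ 1 / 2) ∧
      (∀ s : ℝ, |s| ≤ 1 → (∀ n, 0 < b n + s / √(Real.log (Real.log (T n)) / 2)) →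
        Tendsto (fun n => (∫ u in (0:ℝ)..1, F (x n) (T n) u ^ (b n + s / √(Real.log (Real.log (T n)) / 2))) /
          Real.exp ((b n + s / √(Real.log (Real.log (T n)) / 2)) ^ 2 / 4 * Real.log (Real.log (T n))))
          atTop (𝓝 1)) ∧
      ∀ n, ¬ Q (x n) (T n) (b n) := by
  have hk : ∀ k : ℕ, ∃ δ : ℝ, 0 < δ ∧ ∀ x : ℝ, ∀ᶠ T : ℝ in atTop, ∀ β : ℝ, 0 < β → |β - b₀| ≤ δ →
      |(∫ u in (0:ℝ)..1, F x T u ^ β) / Real.exp (β ^ 2 / 4 * Real.log (Real.log T)) - 1| ≤ 1 / ((k:ℝ) + 2) :=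
    fun k => hs _ (by positivity)
  choose D hD0 hD using hk
  have hd : ∀ n : ℕ, ∃ d : ℝ, 0 < d ∧ d ≤ 1 ∧ ∀ k ≤ n, d ≤ D k := by
    intro n
    induction n with
    | zero => exact ⟨min 1 (D 0), lt_min one_pos (hD0 0), min_le_left _ _, fun k hk => by
        rw [Nat.le_zero.mp hk]; exact min_le_right _ _⟩
    | succ n ih =>
      obtain ⟨d, h1, h2, h3⟩ := ih
      refine ⟨min d (D (n + 1)), lt_min h1 (hD0 _), (min_le_left _ _).trans h2, fun k hk => ?_⟩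
      rcases Nat.le_succ_iff.mp hk with h | h
      · exact (min_le_left _ _).trans (h3 k h)
      · rw [h]; exact min_le_right _ _
  choose d hd0 hd1 hdD using hd
  have hlog : Tendsto (fun T : ℝ => Real.log (Real.log T)) atTop atTop :=
    Real.tendsto_log_atTop.comp Real.tendsto_log_atTop
  have hq : Tendsto (fun T : ℝ => 1 / √(Real.log (Real.log T) / 2)) atTop (𝓝 0) := by
    have : Tendsto (fun T : ℝ => √(Real.log (Real.log T) / 2)) atTop atTop :=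
      Real.tendsto_sqrt_atTop.comp (hlog.atTop_div_const (by norm_num))
    exact this.inv_tendsto_atTop.congr fun T => (one_div _).symm
  have hn : ∀ n : ℕ, ∃ x T b : ℝ, 0 < b ∧ 0 < Real.log (Real.log T) ∧
      1 / √(Real.log (Real.log T) / 2) ≤ d n / 2 ∧ |b - b₀| ≤ d n / 2 ∧
      (∀ k ≤ n, ∀ β : ℝ, 0 < β → |β - b₀| ≤ D k →
      |(∫ u in (0:ℝ)..1, F x T u ^ β) / Real.exp (β ^ 2 / 4 * Real.log (Real.log T)) - 1| ≤ 1 / ((k:ℝ) + 2)) ∧
      ¬ Q x T b := by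
    intro n
    by_contra hcon
    refine hneg ⟨d n / 2, half_pos (hd0 n), fun x => ?_⟩
    have hall : ∀ᶠ T : ℝ in atTop, ∀ k ∈ Finset.range (n + 1), ∀ β : ℝ, 0 < β → |β - b₀| ≤ D k →
      |(∫ u in (0:ℝ)..1, F x T u ^ β) / Real.exp (β ^ 2 / 4 * Real.log (Real.log T)) - 1| ≤ 1 / ((k:ℝ) + 2) :=
      (Finset.eventually_all _).mpr fun k _ => hD k x
    filter_upwards [hall, hlog.eventually_gt_atTop 0, hq.eventually (ge_mem_nhds (half_pos (hd0 n)))] with T g1 g2 g3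
    intro β hβ hββ
    by_contra hQ
    exact hcon ⟨x, T, β, hβ, g2, g3, hββ, fun k hk => g1 k (Finset.mem_range.mpr (by omega)), hQ⟩
  choose x T b hb hL hq1 hb1 hall hQ using hn
  refine ⟨x, T, b, hb, hL, fun n => ?_, fun n => (hb1 n).trans (by linarith [hd1 n]),
    fun n => (hq1 n).trans (by linarith [hd1 n]), fun s hs hpos => ?_, hQ⟩
  · have h1 := hall n 0 (Nat.zero_le _) (b n) (hb n) ((hb1 n).trans (by linarith [hdD n 0 (Nat.zero_le _), hd0 n]))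
    have h2 := (abs_le.mp h1).1
    norm_num at h2
    have h3 : 0 < (∫ u in (0:ℝ)..1, F (x n) (T n) u ^ b n) / Real.exp (b n ^ 2 / 4 * Real.log (Real.log (T n))) := by
      linarith
    exact (div_pos_iff_of_pos_right (Real.exp_pos _)).mp h3
  · rw [Metric.tendsto_atTop]
    intro ε hε
    obtain ⟨k, hk⟩ := exists_nat_one_div_lt hε
    refine ⟨k, fun n hn => ?_⟩
    have hq0 : 0 ≤ 1 / √(Real.log (Real.log (T n)) / 2) := by positivity
    have h1 : |b n + s / √(Real.log (Real.log (T n)) / 2) - b₀| ≤ D k := by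
      have e1 : |s / √(Real.log (Real.log (T n)) / 2)| ≤ 1 / √(Real.log (Real.log (T n)) / 2) := by
        rw [abs_div, abs_of_nonneg (Real.sqrt_nonneg _)]
        exact div_le_div_of_nonneg_right hs (Real.sqrt_nonneg _)
      calc |b n + s / √(Real.log (Real.log (T n)) / 2) - b₀|
          = |(b n - b₀) + s / √(Real.log (Real.log (T n)) / 2)| := by ring_nf
        _ ≤ |b n - b₀| + |s / √(Real.log (Real.log (T n)) / 2)| := abs_add_le _ _
        _ ≤ d n / 2 + d n / 2 := add_le_add (hb1 n) (e1.trans (hq1 n))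
        _ ≤ D k := by linarith [hdD n k hn]
    have h2 := hall n k hn _ (hpos n) h1
    rw [Real.dist_eq]
    refine h2.trans_lt (lt_trans ?_ hk)
    exact one_div_lt_one_div_of_lt (by positivity) (by linarith)

/-- the truncated moments, uniformly -/
theorem unif_law {F : ℝ → ℝ → ℝ → ℝ} (hF : ∀ x T, Continuous (F x T)) (hF0 : ∀ x T u, 0 ≤ F x T u) {b₀ : ℝ}
    (hs : ∀ ε : ℝ, 0 < ε → ∃ δ : ℝ, 0 < δ ∧ ∀ x : ℝ, ∀ᶠ T : ℝ in atTop, ∀ β : ℝ, 0 < β → |β - b₀| ≤ δ →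
      |(∫ u in (0:ℝ)..1, F x T u ^ β) / Real.exp (β ^ 2 / 4 * Real.log (Real.log T)) - 1| ≤ ε)
    (y : ℝ) {ε : ℝ} (hε : 0 < ε) :
    ∃ δ : ℝ, 0 < δ ∧ ∀ x : ℝ, ∀ᶠ T : ℝ in atTop, ∀ β : ℝ, 0 < β → |β - b₀| ≤ δ →
      |tr (F x T) β (Real.exp (β / 2 * Real.log (Real.log T) + y * √(Real.log (Real.log T) / 2))) /
        Real.exp (β ^ 2 / 4 * Real.log (Real.log T)) - (gaussianReal 0 1).real (Iic y)| ≤ ε := by
  by_contra hneg
  obtain ⟨x, T, b, hb, hL, hA, -, -, hT, hbad⟩ := extract hs (Q := fun x T β =>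
    |tr (F x T) β (Real.exp (β / 2 * Real.log (Real.log T) + y * √(Real.log (Real.log T) / 2))) /
        Real.exp (β ^ 2 / 4 * Real.log (Real.log T)) - (gaussianReal 0 1).real (Iic y)| ≤ ε) hneg
  have hl := law (f := fun n => F (x n) (T n)) (fun n => hF _ _) (fun n u => hF0 _ _ u) hb hL hA
    (fun s h0 h1 => hT s (by rw [abs_of_nonneg h0]; exact h1) fun n =>
      add_pos_of_pos_of_nonneg (hb n) (div_nonneg h0 (Real.sqrt_nonneg _))) y
  obtain ⟨n, hn⟩ := (Metric.tendsto_nhds.mp hl ε hε).exists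
  rw [Real.dist_eq] at hn
  exact hbad n hn.le

/-- the logarithmic moments, uniformly -/
theorem unif_mom {F : ℝ → ℝ → ℝ → ℝ} (hF : ∀ x T, Continuous (F x T)) (hF0 : ∀ x T u, 0 ≤ F x T u)
    {b₀ : ℝ} (hb₀ : 3 / 2 ≤ b₀)
    (hs : ∀ ε : ℝ, 0 < ε → ∃ δ : ℝ, 0 < δ ∧ ∀ x : ℝ, ∀ᶠ T : ℝ in atTop, ∀ β : ℝ, 0 < β → |β - b₀| ≤ δ →
      |(∫ u in (0:ℝ)..1, F x T u ^ β) / Real.exp (β ^ 2 / 4 * Real.log (Real.log T)) - 1| ≤ ε)
    (m : ℕ) {ε : ℝ} (hε : 0 < ε) :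
    ∃ δ : ℝ, 0 < δ ∧ ∀ x : ℝ, ∀ᶠ T : ℝ in atTop, ∀ β : ℝ, 0 < β → |β - b₀| ≤ δ →
      |(∫ u in (0:ℝ)..1, F x T u ^ β * nz (F x T) β (Real.log (Real.log T)) u ^ m) /
        Real.exp (β ^ 2 / 4 * Real.log (Real.log T)) - ∫ x, x ^ m ∂(gaussianReal 0 1)| ≤ ε := by
  by_contra hneg
  obtain ⟨x, T, b, hb, hL, hA, hb1, hq1, hT, hbad⟩ := extract hs (Q := fun x T β =>
    |(∫ u in (0:ℝ)..1, F x T u ^ β * nz (F x T) β (Real.log (Real.log T)) u ^ m) /
        Real.exp (β ^ 2 / 4 * Real.log (Real.log T)) - ∫ x, x ^ m ∂(gaussianReal 0 1)| ≤ ε) hneg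
  have hpos : ∀ n (s : ℝ), |s| ≤ 1 → 0 < b n + s / √(Real.log (Real.log (T n)) / 2) := by
    intro n s hs
    have e1 : |s / √(Real.log (Real.log (T n)) / 2)| ≤ 1 / √(Real.log (Real.log (T n)) / 2) := by
      rw [abs_div, abs_of_nonneg (Real.sqrt_nonneg _)]
      exact div_le_div_of_nonneg_right hs (Real.sqrt_nonneg _)
    have h1 := (abs_le.mp (e1.trans (hq1 n))).1
    have h2 := (abs_le.mp (hb1 n)).1
    linarith
  have hl := law_mom (f := fun n => F (x n) (T n)) (fun n => hF _ _) (fun n u => hF0 _ _ u) hb hpos hL hA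
    (fun s h1 => hT s h1 fun n => hpos n s h1) m
  obtain ⟨n, hn⟩ := (Metric.tendsto_nhds.mp hl ε hε).exists
  rw [Real.dist_eq] at hn
  exact hbad n hn.le

end

end Pool.Agent.Q273.WL
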